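import Pool.Agent.U140.SG.Fin1

/-! The three ranges together. -/

set_option linter.unusedSectionVars false
set_option linter.unusedVariables false

namespace Pool.Agent.U140.SG

open Finset Pool.Agent.Q299.PW Filter Topology

theorem main_bound {ε η : ℝ} (hε : 0 < ε) (hη : 0 < η) : ∀ᶠ n : ℕ in atTop, ∀ p : ℝ,
    (n : ℝ) ^ (-(3/4 : ℝ) + ε) ≤ p → p ≤ (n : ℝ) ^ (-ε) →
    Pr (wp p) (fun ω : Om n => ¬ RecM (gr ω)) ≤ η := by
  set δ : ℝ := min (ε / 8) (1 / 240000) with hδ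
  have hδ0 : 0 < δ := by rw [hδ]; exact lt_min (by positivity) (by norm_num)
  have hδ1 : δ ≤ ε / 8 := min_le_left _ _
  have hδ2 : δ ≤ 1 / 240000 := min_le_right _ _
  set M : ℕ := ⌈1 / δ⌉₊ with hM
  have hMδ : 1 ≤ δ * M := by
    have h1 : 1 / δ ≤ M := Nat.le_ceil _
    rw [div_le_iff₀ hδ0] at h1
    linarith
  obtain ⟨Λ₁, hΛ₁⟩ := r3_main M hη
  obtain ⟨Λ₂, hΛ₂⟩ := r12_main hη
  obtain ⟨Λ₃, hΛ₃⟩ := r0_main hη
  have t1 : Tendsto (fun n : ℕ => (n : ℝ) ^ δ) atTop atTop :=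
    (tendsto_rpow_atTop hδ0).comp tendsto_natCast_atTop_atTop
  have t2 : Tendsto (fun n : ℕ => (n : ℝ) ^ (1 / 10000 : ℝ)) atTop atTop :=
    (tendsto_rpow_atTop (by norm_num)).comp tendsto_natCast_atTop_atTop
  filter_upwards [t1.eventually_ge_atTop Λ₁, t2.eventually_ge_atTop Λ₂,
    t2.eventually_ge_atTop Λ₃, eventually_ge_atTop 1] with n h1 h2 h3 hn p hp1 hp2
  have hX1 : (1 : ℝ) ≤ n := by exact_mod_cast hn
  have hX0 : (0 : ℝ) < n := by linarith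
  have hp0 : 0 < p := lt_of_lt_of_le (Real.rpow_pos_of_pos hX0 _) hp1
  have hple : p ≤ 1 := by
    refine hp2.trans ?_
    exact Real.rpow_le_one_of_one_le_of_nonpos hX1 (by linarith)
  have hw := wp_nonneg hp0.le hple
  set L : ℝ := (n : ℝ) ^ (1 / 10000 : ℝ) with hL
  have hXL : (n : ℝ) = L ^ 10000 := by
    rw [hL, ← Real.rpow_natCast, ← Real.rpow_mul hX0.le]
    norm_num
  have hL1 : 1 ≤ L := by
    rw [hL]; exact Real.one_le_rpow hX1 (by norm_num)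
  by_cases hc : 1 ≤ (n : ℝ) ^ 2 * p ^ 3 * L
  · by_cases hc2 : (n : ℝ) * p ^ 2 ≤ L
    · refine (Pr_mono hw fun ω hω => fun hG => hω (recM_of_good hG)).trans
        (hΛ₂ n p L h2 ⟨hp0, hL1, hXL, hc, hc2⟩)
    · push Not at hc2
      refine (Pr_mono hw fun ω hω => fun hG => hω (recM_of_diam2 hG)).trans
        (hΛ₃ n p L h3 hp0.le hple hXL hc2.le)
  · push Not at hc
    set L' : ℝ := (n : ℝ) ^ δ with hL'
    have hL'1 : 1 ≤ L' := Real.one_le_rpow hX1 hδ0.le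
    refine (Pr_mono hw fun ω hω => fun hG => hω (recM_of_good hG)).trans
      (hΛ₁ n p L' h1 ⟨hp0, hple, hL'1, hX1, ?_, ?_, ?_⟩)
    · rw [hL', ← Real.rpow_natCast, ← Real.rpow_mul hX0.le]
      calc (n : ℝ) = (n : ℝ) ^ (1 : ℝ) := (Real.rpow_one _).symm
        _ ≤ (n : ℝ) ^ (δ * M) := Real.rpow_le_rpow_of_exponent_le hX1 hMδ
    · have h4 : L' ^ 24 ≤ L := by
        rw [hL', hL, ← Real.rpow_natCast, ← Real.rpow_mul hX0.le]
        refine Real.rpow_le_rpow_of_exponent_le hX1 ?_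
        push_cast
        linarith
      have h5 : 0 ≤ (n : ℝ) ^ 2 * p ^ 3 := by positivity
      calc (n : ℝ) ^ 2 * p ^ 3 * L' ^ 24 ≤ (n : ℝ) ^ 2 * p ^ 3 * L :=
            mul_le_mul_of_nonneg_left h4 h5
        _ ≤ 1 := hc.le
    · have h4 : ((n : ℝ) ^ (-(3/4 : ℝ) + ε)) ^ 4 ≤ p ^ 4 :=
        pow_le_pow_left₀ (Real.rpow_pos_of_pos hX0 _).le hp1 4
      have h5 : (n : ℝ) ^ 3 * ((n : ℝ) ^ (-(3/4 : ℝ) + ε)) ^ 4 = (n : ℝ) ^ (4 * ε) := by
        rw [← Real.rpow_natCast ((n : ℝ) ^ (-(3/4 : ℝ) + ε)) 4, ← Real.rpow_mul hX0.le,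
          ← Real.rpow_natCast (n : ℝ) 3, ← Real.rpow_add hX0]
        congr 1
        push_cast
        ring
      have h6 : L' ^ 32 ≤ (n : ℝ) ^ (4 * ε) := by
        rw [hL', ← Real.rpow_natCast, ← Real.rpow_mul hX0.le]
        refine Real.rpow_le_rpow_of_exponent_le hX1 ?_
        push_cast
        linarith
      calc L' ^ 32 ≤ (n : ℝ) ^ (4 * ε) := h6
        _ = (n : ℝ) ^ 3 * ((n : ℝ) ^ (-(3/4 : ℝ) + ε)) ^ 4 := h5.symm
        _ ≤ (n : ℝ) ^ 3 * p ^ 4 := mul_le_mul_of_nonneg_left h4 (by positivity)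

open Classical in
theorem final {ε : ℝ} (hε : 0 < ε) (p : ℕ → ℝ)
    (hp : ∀ᶠ n : ℕ in atTop, (n : ℝ) ^ (-(3/4 : ℝ) + ε) ≤ p n ∧ p n ≤ (n : ℝ) ^ (-ε)) :
    Tendsto (fun n : ℕ => ∑ G : SimpleGraph (Fin n),
      if Rec G then p n ^ G.edgeFinset.card * (1 - p n) ^ (n.choose 2 - G.edgeFinset.card) else 0)
      atTop (𝓝 1) := by
  rw [Metric.tendsto_nhds]
  intro η hη
  filter_upwards [hp, main_bound hε (half_pos hη), eventually_ge_atTop 1] with n h1 h2 hn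
  obtain ⟨ha, hb⟩ := h1
  have hX1 : (1 : ℝ) ≤ n := by exact_mod_cast hn
  have hX0 : (0 : ℝ) < n := by linarith
  have hp0 : 0 < p n := lt_of_lt_of_le (Real.rpow_pos_of_pos hX0 _) ha
  have hple : p n ≤ 1 := hb.trans (Real.rpow_le_one_of_one_le_of_nonpos hX1 (by linarith))
  have hw := wp_nonneg hp0.le hple
  have h3 := h2 (p n) ha hb
  rw [gnp_eq]
  have h4 : Pr (wp (p n)) (fun ω : Om n => ¬ Rec (gr ω)) ≤ η / 2 :=
    (Pr_mono hw fun ω hω => fun hG => hω (rec_of_recM hG)).trans h3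
  have h5 := Pr_not (wp_sum (p n)) (fun ω : Om n => Rec (gr ω))
  rw [h5] at h4
  have h6 := Pr_le_one hw (wp_sum (p n)) (fun ω : Om n => Rec (gr ω))
  rw [Real.dist_eq, abs_sub_comm, abs_of_nonneg (by linarith)]
  linarith

end Pool.Agent.U140.SG
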