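import Pool.Agent.U140.SG.Seq

/-! Greedy extraction of chains. -/

set_option linter.unusedSectionVars false
set_option linter.unusedVariables false

namespace Pool.Agent.U140.SG

open Finset Pool.Agent.Q299.PW

section

variable {E ι κ : Type*} [DecidableEq E]

/-- a list of items, each with a candidate that is new with respect to what was chosen before -/
def GChain (P : ι → κ → Prop) (New : Finset E → κ → Prop) (es : κ → Finset E) :
    Finset E → List ι → Prop
  | _, [] => True
  | S, i :: l => ∃ c, P i c ∧ New S c ∧ GChain P New es (S ∪ es c) l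

variable {P : ι → κ → Prop} {New : Finset E → κ → Prop} {es : κ → Finset E}

lemma GChain.take {l : List ι} (r : ℕ) : ∀ {S : Finset E}, GChain P New es S l →
    GChain P New es S (l.take r) := by
  induction l generalizing r with
  | nil => intro S h; simpa using h
  | cons i l ih =>
    intro S h
    cases r with
    | zero => simp [GChain]
    | succ r =>
      obtain ⟨c, h1, h2, h3⟩ := h
      rw [List.take_succ_cons]
      exact ⟨c, h1, h2, ih r h3⟩

lemma greedy (hanti : ∀ S T c, S ⊆ T → New T c → New S c) {M : ℕ} (hM : ∀ c, (es c).card ≤ M)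
    (l : List ι) : ∀ S : Finset E, ∃ (l' : List ι) (T : Finset E), l'.Sublist l ∧ S ⊆ T ∧
      (T \ S).card ≤ M * l'.length ∧ GChain P New es S l' ∧
      ∀ i ∈ l, (i ∈ l' ∧ ∃ c, P i c ∧ es c ⊆ T) ∨ ∀ c, P i c → ¬ New T c := by
  induction l with
  | nil => intro S; exact ⟨[], S, List.Sublist.refl _, Subset.rfl, by simp, trivial, by simp⟩
  | cons i l ih =>
    intro S
    by_cases h : ∃ c, P i c ∧ New S c
    · obtain ⟨c, hc1, hc2⟩ := h
      obtain ⟨l', T, h1, h2, h3, h4, h5⟩ := ih (S ∪ es c)
      refine ⟨i :: l', T, h1.cons_cons i, subset_union_left.trans h2, ?_, ⟨c, hc1, hc2, h4⟩, ?_⟩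
      · have : T \ S ⊆ (T \ (S ∪ es c)) ∪ es c := by
          intro e he
          rw [mem_sdiff] at he
          rw [mem_union, mem_sdiff, mem_union]
          by_cases h : e ∈ es c
          · exact Or.inr h
          · exact Or.inl ⟨he.1, by tauto⟩
        have h6 := (card_le_card this).trans (card_union_le _ _)
        rw [List.length_cons]
        have := hM c
        nlinarith
      · intro j hj
        rcases List.mem_cons.1 hj with rfl | hj
        · exact Or.inl ⟨List.mem_cons_self, c, hc1, subset_union_right.trans h2⟩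
        · rcases h5 j hj with ⟨h, h'⟩ | h
          · exact Or.inl ⟨List.mem_cons_of_mem _ h, h'⟩
          · exact Or.inr h
    · push Not at h
      obtain ⟨l', T, h1, h2, h3, h4, h5⟩ := ih S
      refine ⟨l', T, h1.trans (List.sublist_cons_self _ _), h2, h3, h4, ?_⟩
      intro j hj
      rcases List.mem_cons.1 hj with rfl | hj
      · exact Or.inr fun c hc hN => h c hc (hanti _ _ _ h2 hN)
      · exact h5 j hj

end

/-- union over sublists -/
lemma card_sublistsLen {α : Type*} (l : List α) (r : ℕ) :
    (List.sublistsLen r l).length = l.length.choose r := List.length_sublistsLen r l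

/-- `C(N,k) ≤ (e N / k)^k` -/
lemma choose_le_exp (N k : ℕ) (hk : 0 < k) :
    (N.choose k : ℝ) ≤ (Real.exp 1 * N / k) ^ k := by
  have h1 : (N.choose k : ℝ) ≤ (N : ℝ) ^ k / k.factorial := by
    exact_mod_cast Nat.choose_le_pow_div (α := ℝ) k N
  have h2 : (k : ℝ) ^ k / k.factorial ≤ Real.exp k := Real.pow_div_factorial_le_exp k (by positivity) k
  have hk' : (0 : ℝ) < (k : ℝ) ^ k := by positivity
  have hf : (0 : ℝ) < (k.factorial : ℝ) := by exact_mod_cast k.factorial_pos
  have h3 : 1 / (k.factorial : ℝ) ≤ Real.exp k / (k : ℝ) ^ k := by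
    rw [le_div_iff₀ hk', one_div, inv_mul_eq_div]
    exact h2
  calc (N.choose k : ℝ) ≤ (N : ℝ) ^ k / k.factorial := h1
    _ = (N : ℝ) ^ k * (1 / (k.factorial : ℝ)) := by ring
    _ ≤ (N : ℝ) ^ k * (Real.exp k / (k : ℝ) ^ k) := mul_le_mul_of_nonneg_left h3 (by positivity)
    _ = (Real.exp 1 * N / k) ^ k := by
      rw [div_pow, mul_pow, ← Real.exp_nat_mul, mul_one]; ring

/-- union bound over a list -/
lemma Pr_exists_list_le {ι α : Type*} [Fintype ι] [DecidableEq ι] [Fintype α] [DecidableEq α]
    {w : α → ℝ} (hw : ∀ a, 0 ≤ w a) {β : Type*} (L : List β) (A : β → (ι → α) → Prop) {B : ℝ}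
    (hB : 0 ≤ B) (h : ∀ x ∈ L, Pr w (A x) ≤ B) :
    Pr w (fun ω => ∃ x ∈ L, A x ω) ≤ L.length * B := by
  induction L with
  | nil => rw [Pr_false]; · simp
           intro ω; simp
  | cons x L ih =>
    have h1 : Pr w (fun ω => ∃ y ∈ x :: L, A y ω) ≤ Pr w (fun ω => A x ω ∨ ∃ y ∈ L, A y ω) := by
      refine Pr_mono hw fun ω h => ?_
      obtain ⟨y, hy, hA⟩ := h
      rcases List.mem_cons.1 hy with hyx | hy
      · subst hyx; exact Or.inl hA
      · exact Or.inr ⟨y, hy, hA⟩
    refine h1.trans ((Pr_or_le hw _ _).trans ?_)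
    have h2 := ih fun y hy => h y (List.mem_cons_of_mem _ hy)
    have h3 := h x List.mem_cons_self
    rw [List.length_cons]
    push_cast
    linarith

end Pool.Agent.U140.SG
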