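import Pool.Agent.U140.SG.GL2

/-! A typical graph admits no defective dart. -/

set_option linter.unusedSectionVars false
set_option linter.unusedVariables false

namespace Pool.Agent.U140.SG

open Finset Pool.Agent.Q299.PW

variable {n : ℕ} {G H : SimpleGraph (Fin n)} {f g : Fin n → Fin n → Fin n}

structure Typ (G : SimpleGraph (Fin n)) (K Lo Up Dg μ B C₀ k : ℕ) (ρ β : ℝ) : Prop where
  t3 : T3 G K
  lo : LoB G Lo
  up : UpB G Up
  dg : MaxDeg G Dg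
  ss : SSP G Dg
  kr : KRP G (μ + 1) B
  bad : Pr (wp ρ) (fun ω : Om n => Bad G (Qo ω) (10 * (k * (1 + 5 * K5 K))) C₀) ≤ β

theorem core {K Lo Up Dg μ B C₀ k τ : ℕ} {ρ β : ℝ} (t : Typ G K Lo Up Dg μ B C₀ k ρ β)
    (m : Mt G H f g) (h0 : 0 < ρ) (h1 : ρ ≤ 1 / 2) (hτ0 : 0 < τ) (hτρ : (τ : ℝ) * ρ ^ 4 ≤ 1)
    (hτρ' : 1 ≤ 2 * (τ : ℝ) * ρ ^ 4) (hU : (10 * Up : ℝ) * ρ ^ 5 ≤ 1)
    (hμ : 50 * Up < (μ + 1) * τ)
    (herr : (Fintype.card (Sym2 (Fin n)) : ℝ) *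
      (β + n ^ 2 * ((Up.choose k : ℝ) * ρ ^ (4 * k))) ≤ ρ)
    {c₁ : ℝ} (hc₁ : c₁ = (500 * K5 K + 12) * (6 * C₀ + 1))
    (hnum : 10 * (2 * K5 K + c₁ / ρ ^ 4 + 400 * c₁ * K5 K + 200 * c₁ * μ * K5 K + K * K5 K +
      50 * B * (40 * c₁ + K + 30)) < Lo) : DD G f = ∅ := by
  classical
  by_contra hD
  have hDc : 1 ≤ (DD G f).card := Nat.one_le_iff_ne_zero.2 fun h => hD (card_eq_zero.1 h)
  have hDr : (1 : ℝ) ≤ (DD G f).card := by exact_mod_cast hDc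
  set d : ℝ := ((DD G f).card : ℝ) with hd
  set R : ℝ := (6 * C₀ + 1) * ρ * d with hR
  have hEx : Ex (wp ρ) (fun ω : Om n => ((AA H g ω).card : ℝ)) ≤ R := by
    refine (gl_main m t.t3 t.up h0.le (by linarith) t.bad).trans ?_
    have : ρ ≤ ρ * d := by nlinarith
    rw [hR]
    linarith
  obtain ⟨P, Nt, p1, p2, p3, p4, p5⟩ := pop m t.t3 t.up h0 h1 hτ0 hτρ hU hEx
  have hμ1 : ∀ T : Finset (Sym2 (Fin n)), T.card * τ ≤ 50 * Up → T.card ≤ μ := by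
    intro T hT
    have h2 := lt_of_le_of_lt hT hμ
    have := Nat.lt_of_mul_lt_mul_right h2
    omega
  have hrig := rigid m t.t3 t.lo t.dg t.ss t.kr P (fun k T hT => hμ1 T (p3 k T hT))
    (fun e T hT => hμ1 T (p4 e T hT)) (B3 := Nt) p5
  have hrig' : d * Lo ≤ 10 * (d * (2 * K5 K) + Nt + P.card * (40 * K5 K) +
      P.card * (μ * (20 * K5 K)) + d * (K * K5 K) +
      50 * (B * (4 * P.card + (K + 30) * d))) := by
    rw [hd]; exact_mod_cast hrig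
  have hρ4 : 0 < ρ ^ 4 := by positivity
  have hc0 : 0 ≤ c₁ := by rw [hc₁]; positivity
  have hNt : (Nt : ℝ) ≤ c₁ / ρ ^ 4 * d := by
    have : (Nt : ℝ) * ρ ^ 5 ≤ c₁ * ρ * d := by
      refine p1.trans (le_of_eq ?_)
      rw [hR, hc₁]; ring
    have h2 : (Nt : ℝ) * ρ ^ 4 * ρ ≤ c₁ * d * ρ := by
      calc (Nt : ℝ) * ρ ^ 4 * ρ = Nt * ρ ^ 5 := by ring
        _ ≤ c₁ * ρ * d := this
        _ = c₁ * d * ρ := by ring
    have h3 := le_of_mul_le_mul_right h2 h0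
    rw [div_mul_eq_mul_div, le_div_iff₀ hρ4]
    exact h3
  have hPc : (P.card : ℝ) ≤ 10 * c₁ * d := by
    have h2 : (P.card : ℝ) * τ ≤ 5 * Nt := by exact_mod_cast p2
    have h3 : (P.card : ℝ) * 1 ≤ P.card * (2 * τ * ρ ^ 4) :=
      mul_le_mul_of_nonneg_left hτρ' (by positivity)
    have h4 : (P.card : ℝ) * (2 * τ * ρ ^ 4) = 2 * ρ ^ 4 * (P.card * τ) := by ring
    have h5 : 2 * ρ ^ 4 * (P.card * τ) ≤ 2 * ρ ^ 4 * (5 * Nt) :=
      mul_le_mul_of_nonneg_left h2 (by positivity)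
    have h6 : 2 * ρ ^ 4 * (5 * (Nt : ℝ)) ≤ 2 * ρ ^ 4 * (5 * (c₁ / ρ ^ 4 * d)) :=
      mul_le_mul_of_nonneg_left (by linarith) (by positivity)
    have h7 : 2 * ρ ^ 4 * (5 * (c₁ / ρ ^ 4 * d)) = 10 * c₁ * d := by field_simp; ring
    linarith
  have hK : (0 : ℝ) ≤ K5 K := by positivity
  have hB : (0 : ℝ) ≤ B := by positivity
  have hm : (0 : ℝ) ≤ μ := by positivity
  have hd0 : 0 < d := by linarith
  have hbig : d * Lo ≤ d * (10 * (2 * K5 K + c₁ / ρ ^ 4 + 400 * c₁ * K5 K +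
      200 * c₁ * μ * K5 K + K * K5 K + 50 * B * (40 * c₁ + K + 30))) := by
    refine hrig'.trans ?_
    have a1 : (P.card : ℝ) * (40 * K5 K) ≤ 10 * c₁ * d * (40 * K5 K) :=
      mul_le_mul_of_nonneg_right hPc (by positivity)
    have a2 : (P.card : ℝ) * (μ * (20 * K5 K)) ≤ 10 * c₁ * d * (μ * (20 * K5 K)) :=
      mul_le_mul_of_nonneg_right hPc (by positivity)
    have a3 : 50 * (B * (4 * (P.card : ℝ) + (K + 30) * d)) ≤
        50 * (B * (4 * (10 * c₁ * d) + (K + 30) * d)) := by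
      refine mul_le_mul_of_nonneg_left (mul_le_mul_of_nonneg_left (by linarith) hB) (by norm_num)
    calc _ ≤ 10 * (d * (2 * K5 K) + c₁ / ρ ^ 4 * d + 10 * c₁ * d * (40 * K5 K) +
      10 * c₁ * d * (μ * (20 * K5 K)) + d * (K * K5 K) +
      50 * (B * (4 * (10 * c₁ * d) + (K + 30) * d))) := by linarith
      _ = _ := by ring
  have := le_of_mul_le_mul_left hbig hd0
  linarith

end Pool.Agent.U140.SG
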