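import Pool.Agent.U140.SG.KR

/-! The pair property: chains and probability. -/

set_option linter.unusedSectionVars false
set_option linter.unusedVariables false

namespace Pool.Agent.U140.SG

open Finset Pool.Agent.Q299.PW

variable {n : ℕ} {G : SimpleGraph (Fin n)} {K m : ℕ}

abbrev QQ (n : ℕ) := (Fin n × Fin n) × (Fin n × Fin n)

def blk (qq : QQ n) : List (Fin n × Fin n) := [(qq.1.1, qq.2.1), (qq.1.2, qq.2.2)]

def Bf (K m r₁ : ℕ) : ℕ := K * K * r₁ + 24 * r₁ * ((K + 1) * (K + 1) * (m * (m * K))) +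
  (2 * (K5 K * (m * K)) + 4 * (K * (K + 1) * m)) + (K + 1) * (K + 1) * K

lemma length_flatMap_blk (l : List (QQ n)) : (l.flatMap blk).length = 2 * l.length := by
  induction l with
  | nil => simp
  | cons a l ih =>
    rw [List.flatMap_cons, List.length_append, ih, List.length_cons]
    unfold blk
    simp
    ring

variable {u v : Fin n} {M : Finset (Fin n × Fin n)}
  {S : Finset ((Fin 5 → Fin n) × (Fin 5 → Fin n))}

/-- pairs of cycles with prescribed neighbours of the roots -/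
lemma Fam.one (hT : T3 G K) (h : Fam G m u v M S) (qq : QQ n)
    (hC : ∀ cc ∈ S, (cc.1 1, cc.2 1) = qq.1 ∧ (cc.1 4, cc.2 4) = qq.2) : S.card ≤ K * K := by
  classical
  obtain ⟨⟨s, t⟩, ⟨s', t'⟩⟩ := qq
  refine le_trans ?_ (Nat.mul_le_mul (hT s s') (hT t t'))
  rw [← card_product]
  refine card_le_card_of_injOn (fun cc => ((cc.1 2, cc.1 3), (cc.2 2, cc.2 3))) ?_ ?_
  · intro cc hcc
    obtain ⟨k1, k2, k3, k4, k5, k6, k7⟩ := h.mem _ hcc
    obtain ⟨e1, e2⟩ := hC _ hcc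
    obtain ⟨e3, e4⟩ := Prod.ext_iff.1 e1
    obtain ⟨e5, e6⟩ := Prod.ext_iff.1 e2
    simp only at e3 e4 e5 e6
    rw [mem_coe, mem_product, mem_paths3, mem_paths3, ← e3, ← e4, ← e5, ← e6]
    exact ⟨⟨k1.adj 1, k1.adj 2, k1.adj 3, k1.inj.ne (by decide), k1.inj.ne (by decide),
      k1.inj.ne (by decide)⟩, ⟨k2.adj 1, k2.adj 2, k2.adj 3, k2.inj.ne (by decide),
      k2.inj.ne (by decide), k2.inj.ne (by decide)⟩⟩
  · intro cc hcc cc' hcc' hh
    obtain ⟨k1, k2, k3, k4, k5, k6, k7⟩ := h.mem _ hcc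
    obtain ⟨e1, e2⟩ := hC _ hcc
    obtain ⟨e3, e4⟩ := Prod.ext_iff.1 e1
    obtain ⟨e5, e6⟩ := Prod.ext_iff.1 e2
    obtain ⟨k1', k2', k3', k4', k5', k6', k7'⟩ := h.mem _ hcc'
    obtain ⟨e1', e2'⟩ := hC _ hcc'
    obtain ⟨e3', e4'⟩ := Prod.ext_iff.1 e1'
    obtain ⟨e5', e6'⟩ := Prod.ext_iff.1 e2'
    obtain ⟨f1, f2⟩ := Prod.ext_iff.1 hh
    obtain ⟨f3, f4⟩ := Prod.ext_iff.1 f1
    obtain ⟨f5, f6⟩ := Prod.ext_iff.1 f2
    exact Prod.ext (cyc_ext (k3.trans k3'.symm) (e3.trans e3'.symm) f3 f4 (e5.trans e5'.symm))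
      (cyc_ext (k4.trans k4'.symm) (e4.trans e4'.symm) f5 f6 (e6.trans e6'.symm))

lemma kr_det (hT : T3 G K) {D r₁ : ℕ} (hdeg : MaxDeg G D) (hK : ¬ KRP G m (Bf K m r₁)) :
    ∃ M : Finset (Fin n × Fin n), M ≠ ∅ ∧ M.card ≤ m * D ∧
      ∃ l' ∈ List.sublistsLen (r₁ * M.card) (M ×ˢ M).toList, Chain G ∅ (l'.flatMap blk) := by
  classical
  unfold KRP at hK
  push Not at hK
  obtain ⟨u, v, M, hM, hm1, hm2, S, hS, hlt⟩ := hK
  have hF : Fam G m u v M S := ⟨hm1, hm2, hS⟩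
  have hM0 : M ≠ ∅ := by
    rintro rfl
    have : S = ∅ := by
      rw [eq_empty_iff_forall_notMem]
      intro cc hcc
      exact notMem_empty _ (hS cc hcc).2.2.2.2.1
    rw [this] at hlt
    simp at hlt
  have hM1 : 1 ≤ M.card := Nat.one_le_iff_ne_zero.2 fun h => hM0 (card_eq_zero.1 h)
  have hMc : M.card ≤ m * D := by
    have h1 := card_le_fib M (univ.filter fun w => G.Adj u w) (fun q w => q.1 = w) m ?_ ?_
    · refine h1.trans ?_
      rw [mul_comm]
      exact Nat.mul_le_mul_left _ (hdeg u)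
    · intro q hq
      exact ⟨_, mem_filter.2 ⟨mem_univ _, (hM q hq).1⟩, rfl⟩
    · intro w hw S' hS' hr
      have hinj : Set.InjOn Prod.snd (S' : Set (Fin n × Fin n)) := by
        intro q hq q' hq' hh
        exact Prod.ext ((hr q hq).trans (hr q' hq').symm) hh
      rw [← card_image_of_injOn hinj]
      refine hm1 w _ ?_
      intro t ht
      obtain ⟨q, hq, rfl⟩ := mem_image.1 ht
      rw [← hr q hq]
      exact hS' hq
  refine ⟨M, hM0, hMc, ?_⟩
  obtain ⟨l', T, g1, g2, g3, g4, g5⟩ := greedy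
    (P := fun (qq : QQ n) (cc : (Fin 5 → Fin n) × (Fin 5 → Fin n)) => cc ∈ S ∧
      (cc.1 1, cc.2 1) = qq.1 ∧ (cc.1 4, cc.2 4) = qq.2)
    (New := fun X cc => ¬ In cc.1 ⊆ X ∧ ¬ In cc.2 ⊆ X ∪ In cc.1)
    (es := fun cc => In cc.1 ∪ In cc.2)
    (fun X Y cc hXY h => ⟨fun h' => h.1 (h'.trans hXY),
      fun h' => h.2 (h'.trans (union_subset_union hXY Subset.rfl))⟩) (M := 6)
    (fun cc => (card_union_le _ _).trans (by
      have h1 : (In cc.1).card ≤ 3 := by unfold In pe; exact card_le_three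
      have h2 : (In cc.2).card ≤ 3 := by unfold In pe; exact card_le_three
      omega)) (M ×ˢ M).toList ∅
  by_contra hcon
  push Not at hcon
  have hlen : l'.length < r₁ * M.card := by
    by_contra hh
    push Not at hh
    refine hcon (l'.take (r₁ * M.card)) ?_ ?_
    · rw [List.mem_sublistsLen]
      refine ⟨(List.take_sublist _ _).trans g1, ?_⟩
      rw [List.length_take, min_eq_left hh]
    · have hconv : ∀ (l : List (QQ n)) (X : Finset (Sym2 (Fin n))),
          GChain (P := fun (qq : QQ n) (cc : (Fin 5 → Fin n) × (Fin 5 → Fin n)) => cc ∈ S ∧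
            (cc.1 1, cc.2 1) = qq.1 ∧ (cc.1 4, cc.2 4) = qq.2)
          (fun X cc => ¬ In cc.1 ⊆ X ∧ ¬ In cc.2 ⊆ X ∪ In cc.1)
          (fun cc => In cc.1 ∪ In cc.2) X l → Chain G X (l.flatMap blk) := by
        intro l
        induction l with
        | nil => intro X _; trivial
        | cons qq l ih =>
          intro X h
          obtain ⟨cc, ⟨hc1, hc2, hc3⟩, ⟨hn1, hn2⟩, hc4⟩ := h
          obtain ⟨k1, k2, k3, k4, k5, k6, k7⟩ := hS _ hc1
          obtain ⟨e3, e4⟩ := Prod.ext_iff.1 hc2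
          obtain ⟨e5, e6⟩ := Prod.ext_iff.1 hc3
          simp only at e3 e4 e5 e6
          rw [List.flatMap_cons]
          show Chain G X ((qq.1.1, qq.2.1) :: (qq.1.2, qq.2.2) :: (l.flatMap blk))
          have p1 : IsP3 G qq.1.1 (cc.1 2) (cc.1 3) qq.2.1 := by
            rw [← e3, ← e5]
            exact ⟨k1.adj 1, k1.adj 2, k1.adj 3, k1.inj.ne (by decide), k1.inj.ne (by decide),
              k1.inj.ne (by decide)⟩
          have p2 : IsP3 G qq.1.2 (cc.2 2) (cc.2 3) qq.2.2 := by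
            rw [← e4, ← e6]
            exact ⟨k2.adj 1, k2.adj 2, k2.adj 3, k2.inj.ne (by decide), k2.inj.ne (by decide),
              k2.inj.ne (by decide)⟩
          have i1 : pe qq.1.1 (cc.1 2) (cc.1 3) qq.2.1 = In cc.1 := by
            rw [← e3, ← e5]; rfl
          have i2 : pe qq.1.2 (cc.2 2) (cc.2 3) qq.2.2 = In cc.2 := by
            rw [← e4, ← e6]; rfl
          refine ⟨_, _, p1, ?_, _, _, p2, ?_, ?_⟩
          · simp only; rw [i1]; exact hn1
          · simp only; rw [i1, i2]; exact hn2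
          · simp only; rw [i1, i2, union_assoc]; exact ih _ hc4
      exact hconv _ _ (g4.take _)
  have hTc : T.card ≤ 6 * (r₁ * M.card) := by
    rw [sdiff_empty] at g3
    refine g3.trans (Nat.mul_le_mul_left _ hlen.le)
  -- classification
  set S1 := S.filter fun cc => (((cc.1 1, cc.2 1), (cc.1 4, cc.2 4)) : QQ n) ∈ l' with hS1
  set S2 := S.filter fun cc => s(cc.1 2, cc.1 3) ∈ T with hS2
  set S3 := S.filter fun cc => s(cc.2 2, cc.2 3) ∈ T with hS3
  set S4 := S.filter fun cc => s(cc.2 2, cc.2 3) ∈ In cc.1 with hS4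
  have hmid : ∀ c : Fin 5 → Fin n, s(c 2, c 3) ∈ In c := by
    intro c; rw [mem_In]; tauto
  have hsub : S ⊆ S1 ∪ (S2 ∪ (S3 ∪ S4)) := by
    intro cc hcc
    simp only [mem_union, hS1, hS2, hS3, hS4, mem_filter]
    obtain ⟨k1, k2, k3, k4, k5, k6, k7⟩ := hS _ hcc
    have hmem : (((cc.1 1, cc.2 1), (cc.1 4, cc.2 4)) : QQ n) ∈ (M ×ˢ M).toList := by
      rw [mem_toList, mem_product]; exact ⟨k5, k6⟩
    rcases g5 _ hmem with ⟨h, -⟩ | h
    · exact Or.inl ⟨hcc, h⟩
    · have h2 := h cc ⟨hcc, rfl, rfl⟩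
      rw [not_and_or, not_not, not_not] at h2
      rcases h2 with h2 | h2
      · exact Or.inr (Or.inl ⟨hcc, h2 (hmid _)⟩)
      · rcases mem_union.1 (h2 (hmid cc.2)) with h3 | h3
        · exact Or.inr (Or.inr (Or.inl ⟨hcc, h3⟩))
        · exact Or.inr (Or.inr (Or.inr ⟨hcc, h3⟩))
  have c1 : S1.card ≤ r₁ * M.card * (K * K) := by
    have h1 := card_le_fib S1 l'.toFinset
      (fun cc qq => (((cc.1 1, cc.2 1), (cc.1 4, cc.2 4)) : QQ n) = qq) (K * K) ?_ ?_
    · exact h1.trans (Nat.mul_le_mul_right _ ((List.toFinset_card_le l').trans hlen.le))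
    · intro cc hcc
      exact ⟨_, List.mem_toFinset.2 (mem_filter.1 hcc).2, rfl⟩
    · intro qq hqq S' hS' hr
      refine (hF.sub (hS'.trans (filter_subset _ _))).one hT qq ?_
      intro cc hcc
      exact Prod.ext_iff.1 (hr cc hcc)
  have c2 : S2.card ≤ T.card * (2 * ((K + 1) * (K + 1)) * (m * (m * K))) :=
    (hF.sub (filter_subset _ S : S2 ⊆ S)).mid1 hT T fun cc hcc => (mem_filter.1 hcc).2
  have c3 : S3.card ≤ T.card * (2 * ((K + 1) * (K + 1)) * (m * (m * K))) :=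
    (hF.sub (filter_subset _ S : S3 ⊆ S)).mid2 hT T fun cc hcc => (mem_filter.1 hcc).2
  have c4 : S4.card ≤ M.card * (2 * (K5 K * (m * K)) + 4 * (K * (K + 1) * m)) +
      (K + 1) * (K + 1) * K :=
    (hF.sub (filter_subset _ S : S4 ⊆ S)).share hT fun cc hcc => (mem_filter.1 hcc).2
  have u1 := card_le_card hsub
  have u2 := card_union_le S1 (S2 ∪ (S3 ∪ S4))
  have u3 := card_union_le S2 (S3 ∪ S4)
  have u4 := card_union_le S3 S4
  have c2' : T.card * (2 * ((K + 1) * (K + 1)) * (m * (m * K))) ≤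
      6 * (r₁ * M.card) * (2 * ((K + 1) * (K + 1)) * (m * (m * K))) :=
    Nat.mul_le_mul_right _ hTc
  have c5 : (K + 1) * (K + 1) * K ≤ (K + 1) * (K + 1) * K * M.card := Nat.le_mul_of_pos_right _ hM1
  have e : Bf K m r₁ * M.card = r₁ * M.card * (K * K) +
      2 * (6 * (r₁ * M.card) * (2 * ((K + 1) * (K + 1)) * (m * (m * K)))) +
      M.card * (2 * (K5 K * (m * K)) + 4 * (K * (K + 1) * m)) + (K + 1) * (K + 1) * K * M.card := by
    unfold Bf; ring
  rw [e] at hlt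
  omega

theorem kr_bound {p : ℝ} (h0 : 0 ≤ p) (h1 : p ≤ 1) (D K m r₁ : ℕ) (hr : 0 < r₁) :
    Pr (wp p) (fun ω : Om n => T3 (gr ω) K ∧ MaxDeg (gr ω) D ∧ ¬ KRP (gr ω) m (Bf K m r₁)) ≤
      (1 + (Real.exp 1 * (m * D) / r₁ * Wt n p D ^ 2) ^ r₁) ^ (n * n) - 1 := by
  classical
  have hw := wp_nonneg h0 h1
  have hw1 := wp_sum p
  set ξ : ℝ := (Real.exp 1 * (m * D) / r₁ * Wt n p D ^ 2) ^ r₁ with hξ
  have hWt := Wt_nonneg (n := n) h0 D
  have hξ0 : 0 ≤ ξ := by rw [hξ]; positivity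
  set A : Finset (Fin n × Fin n) → Om n → Prop := fun M ω => M.card ≤ m * D ∧
    ∃ l' ∈ List.sublistsLen (r₁ * M.card) (M ×ˢ M).toList,
      MaxDeg (gr ω) D ∧ Chain (gr ω) ∅ (l'.flatMap blk) with hA
  have hstep : Pr (wp p) (fun ω : Om n => T3 (gr ω) K ∧ MaxDeg (gr ω) D ∧
      ¬ KRP (gr ω) m (Bf K m r₁)) ≤
      ∑ M ∈ (univ : Finset (Finset (Fin n × Fin n))).erase ∅, Pr (wp p) (A M) := by
    refine le_trans (Pr_mono hw fun ω h => ?_) (Pr_exists_le hw _ A)
    obtain ⟨hT, hm, hk⟩ := h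
    obtain ⟨M, hM0, hMc, l', hl', hch⟩ := kr_det hT hm hk
    exact ⟨M, mem_erase.2 ⟨hM0, mem_univ _⟩, hMc, l', hl', hm, hch⟩
  refine hstep.trans ?_
  have hterm : ∀ M ∈ (univ : Finset (Finset (Fin n × Fin n))).erase ∅,
      Pr (wp p) (A M) ≤ ξ ^ M.card := by
    intro M hM
    have hMc : 0 < M.card := card_pos.2 (nonempty_iff_ne_empty.2 (mem_erase.1 hM).1)
    by_cases hc : M.card ≤ m * D
    swap
    · rw [Pr_false _ fun ω h => hc h.1]; positivity
    have h2 : Pr (wp p) (A M) ≤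
        (List.sublistsLen (r₁ * M.card) (M ×ˢ M).toList).length *
          (Wt n p D) ^ (2 * (r₁ * M.card)) := by
      refine le_trans (Pr_mono hw fun ω h => h.2) (Pr_exists_list_le hw _ _ (by positivity) ?_)
      intro l' hl'
      have := seq_bound h0 h1 D (l'.flatMap blk) ∅ (fun _ => true)
      rw [length_flatMap_blk, (List.mem_sublistsLen.1 hl').2] at this
      refine le_trans (le_of_eq ?_) this
      refine congrArg (Pr (wp p)) (funext fun ω => ?_)
      have : mix ∅ (fun _ => true) ω = ω := by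
        funext e; rw [mix_not (notMem_empty e)]
      rw [this]
    refine h2.trans ?_
    rw [List.length_sublistsLen, length_toList, card_product]
    have h3 := choose_le_exp (M.card * M.card) (r₁ * M.card) (Nat.mul_pos hr hMc)
    have h4 : (Real.exp 1 * ((M.card * M.card : ℕ) : ℝ) / ((r₁ * M.card : ℕ) : ℝ)) ≤
        Real.exp 1 * (m * D) / r₁ := by
      push_cast
      have a1 : (M.card : ℝ) ≠ 0 := by exact_mod_cast hMc.ne'
      have a2 : (0 : ℝ) < r₁ := by exact_mod_cast hr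
      have e : Real.exp 1 * ((M.card : ℝ) * M.card) / (r₁ * M.card) = Real.exp 1 * M.card / r₁ := by
        field_simp
      rw [e]
      have a3 : (M.card : ℝ) ≤ m * D := by exact_mod_cast hc
      gcongr
    calc (((M.card * M.card).choose (r₁ * M.card) : ℕ) : ℝ) * (Wt n p D) ^ (2 * (r₁ * M.card))
        ≤ (Real.exp 1 * ((M.card * M.card : ℕ) : ℝ) / ((r₁ * M.card : ℕ) : ℝ)) ^ (r₁ * M.card) *
          (Wt n p D) ^ (2 * (r₁ * M.card)) := mul_le_mul_of_nonneg_right h3 (by positivity)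
      _ ≤ (Real.exp 1 * (m * D) / r₁) ^ (r₁ * M.card) * (Wt n p D) ^ (2 * (r₁ * M.card)) := by
          refine mul_le_mul_of_nonneg_right (pow_le_pow_left₀ (by positivity) h4 _) (by positivity)
      _ = ξ ^ M.card := by rw [hξ, ← pow_mul, mul_pow, ← pow_mul]
  refine (sum_le_sum hterm).trans ?_
  have h6 := sum_pow_card (β := Fin n × Fin n) ξ
  have h7 := add_sum_erase (univ : Finset (Finset (Fin n × Fin n))) (fun I => ξ ^ I.card)
    (mem_univ ∅)
  simp only [card_empty, pow_zero] at h7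
  rw [Fintype.card_prod, Fintype.card_fin] at h6
  linarith

end Pool.Agent.U140.SG
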