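import Pool.Agent.U140.SG.Ty2
import Pool.Agent.U140.SG.Core
import Pool.Agent.U140.SG.KR2

/-! Typical properties, part three. -/

set_option linter.unusedSectionVars false
set_option linter.unusedVariables false

namespace Pool.Agent.U140.SG

open Finset Pool.Agent.Q299.PW

variable {n : ℕ}

lemma ssp_bound {p : ℝ} (h0 : 0 ≤ p) (h1 : p ≤ 1) (D : ℕ) :
    Pr (wp p) (fun ω : Om n => ¬ SSP (gr ω) D) ≤
      (1 + (Real.exp 1 * (2 * D) / 7 * p) ^ 7) ^ n - 1 := by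
  classical
  have hw := wp_nonneg h0 h1
  set ζ : ℝ := (Real.exp 1 * (2 * D) / 7 * p) ^ 7 with hζ
  have hζ0 : 0 ≤ ζ := by rw [hζ]; positivity
  set PZ : Finset (Fin n) → Finset (Sym2 (Fin n)) := fun Z => (Z ×ˢ Z).image fun q => s(q.1, q.2)
    with hPZ
  set A : Finset (Fin n) → Om n → Prop := fun Z ω => Z.card ≤ 2 * D ∧
    ∃ F ∈ powersetCard (7 * Z.card) (PZ Z), ∀ e ∈ F, ω e = true with hA
  have hstep : Pr (wp p) (fun ω : Om n => ¬ SSP (gr ω) D) ≤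
      ∑ Z ∈ (univ : Finset (Finset (Fin n))).erase ∅, Pr (wp p) (A Z) := by
    refine le_trans (Pr_mono hw fun ω h => ?_) (Pr_exists_le hw _ A)
    unfold SSP at h
    push Not at h
    obtain ⟨X, Y, hX, hY, S, hS, hlt⟩ := h
    set Z := X ∪ Y with hZ
    set I := S.image fun q => s(q.1, q.2) with hI
    have hSI : S.card ≤ I.card * 2 := by
      refine card_le_fib S I (fun q e => s(q.1, q.2) = e) 2
        (fun q hq => ⟨_, mem_image_of_mem _ hq, rfl⟩) ?_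
      intro e he S' hS' hr
      induction e using Sym2.ind with
      | _ a b =>
      have : S' ⊆ {(a, b), (b, a)} := by
        intro q hq
        have := hr q hq
        rw [Sym2.eq_iff] at this
        rw [mem_insert, mem_singleton]
        rcases this with ⟨e1, e2⟩ | ⟨e1, e2⟩
        · exact Or.inl (Prod.ext e1 e2)
        · exact Or.inr (Prod.ext e1 e2)
      exact (card_le_card this).trans card_le_two
    have hZc : Z.card ≤ X.card + Y.card := card_union_le _ _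
    have hI7 : 7 * Z.card ≤ I.card := by omega
    have hZ0 : Z ≠ ∅ := by
      intro h0
      have : S = ∅ := by
        rw [eq_empty_iff_forall_notMem]
        intro q hq
        have := (hS q hq).1
        have h2 : q.1 ∈ Z := mem_union_left _ this
        rw [h0] at h2
        exact notMem_empty _ h2
      rw [this] at hlt
      simp at hlt
    refine ⟨Z, mem_erase.2 ⟨hZ0, mem_univ _⟩, by omega, ?_⟩
    obtain ⟨F, hF1, hF2⟩ := exists_subset_card_eq hI7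
    refine ⟨F, mem_powersetCard.2 ⟨fun e he => ?_, hF2⟩, fun e he => ?_⟩
    · obtain ⟨q, hq, rfl⟩ := mem_image.1 (hF1 he)
      obtain ⟨g1, g2, g3⟩ := hS q hq
      exact mem_image.2 ⟨q, mem_product.2 ⟨mem_union_left _ g1, mem_union_right _ g2⟩, rfl⟩
    · obtain ⟨q, hq, rfl⟩ := mem_image.1 (hF1 he)
      exact (hS q hq).2.2.2
  refine hstep.trans ?_
  have hterm : ∀ Z ∈ (univ : Finset (Finset (Fin n))).erase ∅, Pr (wp p) (A Z) ≤ ζ ^ Z.card := by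
    intro Z hZ
    have hZc : 0 < Z.card := card_pos.2 (nonempty_iff_ne_empty.2 (mem_erase.1 hZ).1)
    by_cases hc : Z.card ≤ 2 * D
    swap
    · rw [Pr_false _ fun ω h => hc h.1]; positivity
    refine (Pr_mono hw fun ω h => h.2).trans ((Pr_exists_le hw _ _).trans ?_)
    have h2 : ∀ F ∈ powersetCard (7 * Z.card) (PZ Z),
        Pr (wp p) (fun ω : Om n => ∀ e ∈ F, ω e = true) ≤ p ^ (7 * Z.card) := by
      intro F hF
      rw [pr_all, (mem_powersetCard.1 hF).2]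
    refine (sum_le_sum h2).trans ?_
    rw [sum_const, card_powersetCard, nsmul_eq_mul]
    have h3 : ((PZ Z).card.choose (7 * Z.card) : ℝ) ≤
        ((Z.card * Z.card).choose (7 * Z.card) : ℕ) := by
      refine Nat.cast_le.2 (Nat.choose_le_choose _ ?_)
      exact card_image_le.trans (by rw [card_product])
    have h4 := choose_le_exp (Z.card * Z.card) (7 * Z.card) (Nat.mul_pos (by norm_num) hZc)
    have h5 : (Real.exp 1 * ((Z.card * Z.card : ℕ) : ℝ) / ((7 * Z.card : ℕ) : ℝ)) ≤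
        Real.exp 1 * (2 * D) / 7 := by
      push_cast
      have a1 : (Z.card : ℝ) ≠ 0 := by exact_mod_cast hZc.ne'
      have e : Real.exp 1 * ((Z.card : ℝ) * Z.card) / (7 * Z.card) = Real.exp 1 * Z.card / 7 := by
        field_simp
      rw [e]
      have a3 : (Z.card : ℝ) ≤ 2 * D := by exact_mod_cast hc
      gcongr
    calc ((PZ Z).card.choose (7 * Z.card) : ℝ) * p ^ (7 * Z.card)
        ≤ (Real.exp 1 * ((Z.card * Z.card : ℕ) : ℝ) / ((7 * Z.card : ℕ) : ℝ)) ^ (7 * Z.card) *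
          p ^ (7 * Z.card) := mul_le_mul_of_nonneg_right (h3.trans h4) (by positivity)
      _ ≤ (Real.exp 1 * (2 * D) / 7) ^ (7 * Z.card) * p ^ (7 * Z.card) := by
          refine mul_le_mul_of_nonneg_right (pow_le_pow_left₀ (by positivity) h5 _) (by positivity)
      _ = ζ ^ Z.card := by rw [hζ, ← pow_mul, mul_pow]
  refine (sum_le_sum hterm).trans ?_
  have h6 := sum_pow_card (β := Fin n) ζ
  have h7 := add_sum_erase (univ : Finset (Finset (Fin n))) (fun I => ζ ^ I.card) (mem_univ ∅)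
  simp only [card_empty, pow_zero] at h7
  rw [Fintype.card_fin] at h6
  linarith

/-- the conditional probability of the bad event is rarely large -/
lemma bad_markov {p ρ : ℝ} (h0 : 0 ≤ p) (h1 : p ≤ 1) (hρ0 : 0 ≤ ρ) (hρ1 : ρ ≤ 1)
    (D L₀ C₀ : ℕ) (hC : 0 < C₀) {β : ℝ} (hβ : 0 < β) :
    Pr (wp p) (fun κ : Om n => MaxDeg (gr κ) D ∧
      ¬ (Pr (wp ρ) (fun ω : Om n => Bad (gr κ) (Qo ω) L₀ C₀) ≤ β)) ≤
      ((1 + (Real.exp 1 * L₀ / C₀ * Wt n p D) ^ C₀) ^ (Fintype.card (It n)) - 1) / β := by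
  classical
  have hw := wp_nonneg h0 h1
  have hw' := wp_nonneg hρ0 hρ1
  set X : ℝ := (1 + (Real.exp 1 * L₀ / C₀ * Wt n p D) ^ C₀) ^ (Fintype.card (It n)) - 1 with hX
  set fQ : Om n → Om n → ℝ := fun κ ω =>
    if MaxDeg (gr κ) D ∧ Bad (gr κ) (Qo ω) L₀ C₀ then 1 else 0 with hfQ
  set F : Om n → ℝ := fun κ => Ex (wp ρ) (fun ω => fQ κ ω) with hF
  have hF0 : ∀ κ, 0 ≤ F κ := fun κ => Ex_nonneg hw' fun ω => by
    rw [hfQ]; simp only; split_ifs <;> norm_num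
  have h2 : Pr (wp p) (fun κ : Om n => MaxDeg (gr κ) D ∧
      ¬ (Pr (wp ρ) (fun ω : Om n => Bad (gr κ) (Qo ω) L₀ C₀) ≤ β)) ≤
      Pr (wp p) (fun κ => β < F κ) := by
    refine Pr_mono hw fun κ h => ?_
    obtain ⟨hm, hb⟩ := h
    push Not at hb
    refine lt_of_lt_of_le hb (le_of_eq ?_)
    rw [hF]
    unfold Pr
    simp only
    refine congrArg (Ex (wp ρ)) (funext fun ω => ?_)
    rw [hfQ]
    simp only
    by_cases h : Bad (gr κ) (Qo ω) L₀ C₀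
    · rw [if_pos h, if_pos ⟨hm, h⟩]
    · rw [if_neg h, if_neg fun hh => h hh.2]
  refine h2.trans ((Pr_markov hw hF0 hβ).trans ?_)
  refine div_le_div_of_nonneg_right ?_ hβ.le
  -- exchange the two expectations
  have hex : Ex (wp p) F = ∑ ω : Om n, (∏ e, wp ρ (ω e)) * Pr (wp p) (fun κ =>
      MaxDeg (gr κ) D ∧ Bad (gr κ) (Qo ω) L₀ C₀) := by
    have e1 : ∀ ω : Om n, Pr (wp p) (fun κ => MaxDeg (gr κ) D ∧ Bad (gr κ) (Qo ω) L₀ C₀) =
        ∑ κ : Om n, (∏ e, wp p (κ e)) * fQ κ ω := by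
      intro ω
      unfold Pr Ex
      refine sum_congr rfl fun κ _ => ?_
      rw [hfQ]
      simp only
      by_cases h : MaxDeg (gr κ) D ∧ Bad (gr κ) (Qo ω) L₀ C₀
      · rw [if_pos h, if_pos h]
      · rw [if_neg h, if_neg h]
    simp_rw [e1, mul_sum]
    rw [sum_comm]
    unfold Ex
    refine sum_congr rfl fun κ _ => ?_
    rw [hF]
    simp only
    unfold Ex
    rw [mul_sum]
    refine sum_congr rfl fun ω _ => ?_
    ring
  rw [hex]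
  have hb : ∀ ω : Om n, Pr (wp p) (fun κ => MaxDeg (gr κ) D ∧ Bad (gr κ) (Qo ω) L₀ C₀) ≤ X := by
    intro ω
    exact Pr_le_of_mix hw (wp_sum p) (Qo ω) fun κ => bad_bound h0 h1 D L₀ C₀ hC (Qo ω) κ
  calc ∑ ω : Om n, (∏ e, wp ρ (ω e)) * Pr (wp p) (fun κ =>
      MaxDeg (gr κ) D ∧ Bad (gr κ) (Qo ω) L₀ C₀) ≤ ∑ ω : Om n, (∏ e, wp ρ (ω e)) * X :=
        sum_le_sum fun ω _ => mul_le_mul_of_nonneg_left (hb ω)
          (prod_nonneg fun e _ => hw' _)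
    _ = Ex (wp ρ) (fun _ : Om n => X) := rfl
    _ = X := Ex_const (wp_sum ρ) X

/-- the total failure probability -/
noncomputable def Fail (n : ℕ) (p ρ β : ℝ) (D r r₀ N K m r₁ L₀ C₀ : ℕ) (w₀ b₀ : ℝ) : ℝ :=
  n * (Real.exp 1 * n / (D + 1 : ℕ) * p) ^ (D + 1) +
  n ^ 2 * (Wt n p D) ^ r +
  n ^ 2 * ((D.choose r₀ : ℝ) * (Wt n p D) ^ r₀) +
  n ^ 2 * (2 * Real.exp (-(N * p / 4)) + Real.exp (-(w₀ * N * p / 4)) +
      Real.exp (-(b₀ * w₀ * p / 4))) +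
  ((1 + (Real.exp 1 * (2 * D) / 7 * p) ^ 7) ^ n - 1) +
  ((1 + (Real.exp 1 * (m * D) / r₁ * Wt n p D ^ 2) ^ r₁) ^ (n * n) - 1) +
  ((1 + (Real.exp 1 * L₀ / C₀ * Wt n p D) ^ C₀) ^ (Fintype.card (It n)) - 1) / β

theorem typ_bound {p ρ β : ℝ} (h0 : 0 ≤ p) (h1 : p ≤ 1) (hρ0 : 0 ≤ ρ) (hρ1 : ρ ≤ 1)
    (hβ : 0 < β) {D r r₀ N K μ r₁ L₀ C₀ k Lo : ℕ} {w₀ b₀ : ℝ} (hC : 0 < C₀) (hr₁ : 0 < r₁)
    (hK : K = 3 * r * (3 * r)) (hn : 3 * N + 2 ≤ n) (hw₀ : w₀ = N * p / 4)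
    (hb₀ : b₀ = w₀ * N * p / 4 / (K + 1)) (hLo : (Lo : ℝ) ≤ b₀ * w₀ * p / 4)
    (hL₀ : L₀ = 10 * (k * (1 + 5 * K5 K))) :
    Pr (wp p) (fun ω : Om n => ¬ Typ (gr ω) K Lo (K * r₀ + 6 * r₀ * (K + 1)) D μ
      (Bf K (μ + 1) r₁) C₀ k ρ β) ≤ Fail n p ρ β D r r₀ N K (μ + 1) r₁ L₀ C₀ w₀ b₀ := by
  classical
  have hw := wp_nonneg h0 h1
  set E1 : Om n → Prop := fun ω => ¬ MaxDeg (gr ω) D with hE1
  set E2 : Om n → Prop := fun ω => MaxDeg (gr ω) D ∧ ¬ T3 (gr ω) K with hE2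
  set E3 : Om n → Prop := fun ω => T3 (gr ω) K ∧ MaxDeg (gr ω) D ∧
      ¬ UpB (gr ω) (K * r₀ + 6 * r₀ * (K + 1)) with hE3
  set E4 : Om n → Prop := fun ω => T3 (gr ω) K ∧ ¬ LoB (gr ω) Lo with hE4
  set E5 : Om n → Prop := fun ω => ¬ SSP (gr ω) D with hE5
  set E6 : Om n → Prop := fun ω => T3 (gr ω) K ∧ MaxDeg (gr ω) D ∧
    ¬ KRP (gr ω) (μ + 1) (Bf K (μ + 1) r₁) with hE6
  set E7 : Om n → Prop := fun κ => MaxDeg (gr κ) D ∧
      ¬ (Pr (wp ρ) (fun ω : Om n => Bad (gr κ) (Qo ω) L₀ C₀) ≤ β) with hE7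
  refine le_trans (Pr_mono hw (B := fun ω =>
    (((((E1 ω ∨ E2 ω) ∨ E3 ω) ∨ E4 ω) ∨ E5 ω) ∨ E6 ω) ∨ E7 ω) fun ω h => ?_) ?_
  · by_contra hcon
    push Not at hcon
    obtain ⟨⟨⟨⟨⟨⟨g1, g2⟩, g3⟩, g4⟩, g5⟩, g6⟩, g7⟩ := hcon
    apply h
    have m1 : MaxDeg (gr ω) D := by by_contra hh; exact g1 hh
    have m2 : T3 (gr ω) K := by by_contra hh; exact g2 ⟨m1, hh⟩
    refine ⟨m2, ?_, ?_, m1, ?_, ?_, ?_⟩
    · by_contra hh; exact g4 ⟨m2, hh⟩
    · by_contra hh; exact g3 ⟨m2, m1, hh⟩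
    · by_contra hh; exact g5 hh
    · by_contra hh; exact g6 ⟨m2, m1, hh⟩
    · by_contra hh
      apply g7
      refine ⟨m1, ?_⟩
      rw [hL₀]; exact hh
  · have c7 := Pr_or_le hw (fun ω => (((((E1 ω ∨ E2 ω) ∨ E3 ω) ∨ E4 ω) ∨ E5 ω) ∨ E6 ω)) E7
    have c6 := Pr_or_le hw (fun ω => ((((E1 ω ∨ E2 ω) ∨ E3 ω) ∨ E4 ω) ∨ E5 ω)) E6
    have c5 := Pr_or_le hw (fun ω => (((E1 ω ∨ E2 ω) ∨ E3 ω) ∨ E4 ω)) E5
    have c4 := Pr_or_le hw (fun ω => ((E1 ω ∨ E2 ω) ∨ E3 ω)) E4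
    have c3 := Pr_or_le hw (fun ω => (E1 ω ∨ E2 ω)) E3
    have c2 := Pr_or_le hw E1 E2
    have b1 : Pr (wp p) E1 ≤ _ := maxdeg_bound h0 h1 D
    have b2 : Pr (wp p) E2 ≤ n ^ 2 * (Wt n p D) ^ r := by
      rw [hE2, hK]; exact t3_bound h0 h1 D r
    have b3 : Pr (wp p) E3 ≤ _ := up_bound h0 h1 D K r₀
    have b4 : Pr (wp p) E4 ≤ _ := lo_bound h0 h1 hn hw₀ hb₀ hLo
    have b5 : Pr (wp p) E5 ≤ _ := ssp_bound h0 h1 D
    have b6 : Pr (wp p) E6 ≤ _ := kr_bound h0 h1 D K (μ + 1) r₁ hr₁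
    have b7 : Pr (wp p) E7 ≤ _ := bad_markov h0 h1 hρ0 hρ1 D L₀ C₀ hC hβ
    unfold Fail
    linarith

end Pool.Agent.U140.SG
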