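import Pool.Agent.U140.SG.Cnt

/-! Counting the violations of the pair rule. -/

set_option linter.unusedSectionVars false
set_option linter.unusedVariables false

namespace Pool.Agent.U140.SG

open Finset

variable {n : ℕ} {G H : SimpleGraph (Fin n)} {f g : Fin n → Fin n → Fin n}
  {SP : Sym2 (Fin n) → Sym2 (Fin n) → Prop} {K : ℕ}

/-- The pair property: few pairs of distinct cycles with related neighbours at the roots. -/
def KRP (G : SimpleGraph (Fin n)) (μ B : ℕ) : Prop :=
  ∀ u v : Fin n, ∀ M : Finset (Fin n × Fin n), (∀ q ∈ M, G.Adj u q.1 ∧ G.Adj v q.2) →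
    (∀ s, ∀ T : Finset (Fin n), (∀ t ∈ T, (s, t) ∈ M) → T.card ≤ μ) →
    (∀ t, ∀ T : Finset (Fin n), (∀ s ∈ T, (s, t) ∈ M) → T.card ≤ μ) →
    ∀ S : Finset ((Fin 5 → Fin n) × (Fin 5 → Fin n)),
      (∀ cc ∈ S, IsC5 G cc.1 ∧ IsC5 G cc.2 ∧ cc.1 0 = u ∧ cc.2 0 = v ∧
        (cc.1 1, cc.2 1) ∈ M ∧ (cc.1 4, cc.2 4) ∈ M ∧ Vs cc.1 ≠ Vs cc.2) →
      S.card ≤ B * M.card

/-- few edges between small sets -/
def SSP (G : SimpleGraph (Fin n)) (Dg : ℕ) : Prop :=
  ∀ X Y : Finset (Fin n), X.card ≤ Dg → Y.card ≤ Dg → ∀ S : Finset (Fin n × Fin n),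
    (∀ q ∈ S, q.1 ∈ X ∧ q.2 ∈ Y ∧ G.Adj q.1 q.2) → S.card ≤ 14 * (X.card + Y.card)

lemma fin5_a (i : Fin 5) : i + 4 = i - 1 := by revert i; decide
lemma fin5_b (i : Fin 5) : i + -4 = i - -1 := by revert i; decide

open Classical in
/-- the relation at `(u, v)` -/
noncomputable def Mr (G H : SimpleGraph (Fin n)) (f g : Fin n → Fin n → Fin n)
    (SP : Sym2 (Fin n) → Sym2 (Fin n) → Prop) (u v : Fin n) : Finset (Fin n × Fin n) :=
  univ.filter fun q => G.Adj u q.1 ∧ ∃ s', H.Adj v s' ∧ g v s' = q.2 ∧ RR G f g SP u q.1 v s'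

lemma mem_Mr {u v : Fin n} {q : Fin n × Fin n} : q ∈ Mr G H f g SP u v ↔
    G.Adj u q.1 ∧ ∃ s', H.Adj v s' ∧ g v s' = q.2 ∧ RR G f g SP u q.1 v s' := by
  classical
  simp [Mr]

lemma VK_count_one (m : Mt G H f g) {μ B : ℕ} (hK : KRP G (μ + 1) B)
    (P : Finset (Sym2 (Fin n) × Sym2 (Fin n))) (hP : ∀ e e', SP e e' → (e, e') ∈ P)
    (hμ : ∀ k, ∀ T : Finset (Sym2 (Fin n)), (∀ e ∈ T, (e, k) ∈ P) → T.card ≤ μ)
    (hμ' : ∀ e, ∀ T : Finset (Sym2 (Fin n)), (∀ k ∈ T, (e, k) ∈ P) → T.card ≤ μ)
    (i j σ : Fin 5) (hσ : σ = 1 ∨ σ = -1) (S : Finset (Fin 5 → Fin n))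
    (hS : ∀ C ∈ S, IsC5 H C ∧
      RR G f g SP (vw g C 0 i) (vw g C 0 (i + 1)) (C j) (C (j + σ)) ∧
      RR G f g SP (vw g C 0 i) (vw g C 0 (i - 1)) (C j) (C (j - σ)) ∧
      Vs (vw g C 0) ≠ Vs (vw g C j)) :
    S.card ≤ ∑ uv : Fin n × Fin n, B * (Mr G H f g SP uv.1 uv.2).card := by
  classical
  set b : Bool := decide (σ = -1) with hb
  set φ : (Fin 5 → Fin n) → (Fin 5 → Fin n) × (Fin 5 → Fin n) :=
    fun C => (act i false (vw g C 0), act j b (vw g C j)) with hφ
  have hinj : Set.InjOn φ (S : Set (Fin 5 → Fin n)) := by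
    intro C hC C' hC' hh
    have h2 := (Prod.ext_iff.1 hh).2
    exact m.vw_inj (hS C hC).1 (hS C' hC').1 (act_injective j b h2)
  rw [← card_image_of_injOn hinj]
  have hsub : S.image φ ⊆ (univ : Finset (Fin n × Fin n)).biUnion fun uv =>
      (S.image φ).filter fun cc => cc.1 0 = uv.1 ∧ cc.2 0 = uv.2 := by
    intro cc hcc
    exact mem_biUnion.2 ⟨(cc.1 0, cc.2 0), mem_univ _, mem_filter.2 ⟨hcc, rfl, rfl⟩⟩
  refine (card_le_card hsub).trans (card_biUnion_le.trans (sum_le_sum fun uv _ => ?_))
  obtain ⟨u, v⟩ := uv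
  simp only
  refine hK u v (Mr G H f g SP u v) ?_ ?_ ?_ _ ?_
  · rintro ⟨s, t⟩ hq
    rw [mem_Mr] at hq
    obtain ⟨h1, s', h2, h3, h4⟩ := hq
    refine ⟨h1, ?_⟩
    simp only at h3 ⊢
    rw [← h3]
    exact m.g_adj h2
  · -- multiplicity on the left
    intro s T hT
    have hmap : T ⊆ (univ.filter fun s' : Fin n => (s(u, s), s(v, s')) ∈ P).image (fun s' => g v s') ∪
        {g v s} := by
      intro t ht
      have := hT t ht
      rw [mem_Mr] at this
      obtain ⟨h1, s', h2, h3, h4⟩ := this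
      simp only at h3 h4
      rw [mem_union, mem_image, mem_singleton]
      rcases h4 with h4 | ⟨h4, -⟩ | ⟨-, h4, -⟩
      · exact Or.inl ⟨s', mem_filter.2 ⟨mem_univ _, hP _ _ h4⟩, h3⟩
      · right; rw [h4, h3]
      · right; rw [h4, h3]
    refine (card_le_card hmap).trans ((card_union_le _ _).trans ?_)
    have h1 : ((univ.filter fun s' : Fin n => (s(u, s), s(v, s')) ∈ P).image (fun s' => g v s')).card ≤ μ := by
      refine card_image_le.trans ?_
      have h2 : (univ.filter fun s' : Fin n => (s(u, s), s(v, s')) ∈ P).card =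
          ((univ.filter fun s' : Fin n => (s(u, s), s(v, s')) ∈ P).image fun s' => s(v, s')).card := by
        rw [card_image_of_injective]
        intro a b hab
        exact Sym2.congr_right.1 hab
      rw [h2]
      refine hμ' s(u, s) _ ?_
      intro k hk
      obtain ⟨s', hs', rfl⟩ := mem_image.1 hk
      exact (mem_filter.1 hs').2
    simp only [card_singleton]
    omega
  · -- multiplicity on the right
    intro t T hT
    have hmap : T ⊆ (univ.filter fun s : Fin n => (s(u, s), s(v, f v t)) ∈ P) ∪ {f v t} := by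
      intro s hs
      have := hT s hs
      rw [mem_Mr] at this
      obtain ⟨h1, s', h2, h3, h4⟩ := this
      simp only at h1 h3 h4
      have h5 : f v t = s' := by rw [← h3]; exact m.fg_adj h2
      rw [mem_union, mem_filter, mem_singleton, h5]
      rcases h4 with h4 | ⟨h4, -⟩ | ⟨-, h4, -⟩
      · exact Or.inl ⟨mem_univ _, hP _ _ h4⟩
      · exact Or.inr h4
      · exact Or.inr h4
    refine (card_le_card hmap).trans ((card_union_le _ _).trans ?_)
    have h1 : (univ.filter fun s : Fin n => (s(u, s), s(v, f v t)) ∈ P).card ≤ μ := by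
      have h2 : (univ.filter fun s : Fin n => (s(u, s), s(v, f v t)) ∈ P).card =
          ((univ.filter fun s : Fin n => (s(u, s), s(v, f v t)) ∈ P).image fun s => s(u, s)).card := by
        rw [card_image_of_injective]
        intro a b hab
        exact Sym2.congr_right.1 hab
      rw [h2]
      refine hμ s(v, f v t) _ ?_
      intro k hk
      obtain ⟨s', hs', rfl⟩ := mem_image.1 hk
      exact (mem_filter.1 hs').2
    simp only [card_singleton]
    omega
  · intro cc hcc
    obtain ⟨hcc1, hu, hv⟩ := mem_filter.1 hcc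
    obtain ⟨C, hC, rfl⟩ := mem_image.1 hcc1
    obtain ⟨hC5, r1, r2, hne⟩ := hS C hC
    have c0 := m.vw_cyc hC5 0
    have cj := m.vw_cyc hC5 j
    simp only [hφ] at hu hv ⊢
    have a0 : act i false (vw g C 0) 0 = vw g C 0 i := by unfold act; simp
    have a1 : act i false (vw g C 0) 1 = vw g C 0 (i + 1) := by unfold act; simp
    have a4 : act i false (vw g C 0) 4 = vw g C 0 (i - 1) := by
      unfold act
      simp only [Bool.false_eq_true, if_false]
      rw [fin5_a]
    have b0 : act j b (vw g C j) 0 = C j := by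
      unfold act; simp [m.vw_root C j]
    have b1 : act j b (vw g C j) 1 = g (C j) (C (j + σ)) := by
      unfold act
      rcases hσ with rfl | rfl
      · have : b = false := by rw [hb]; decide
        rw [this]; simp [vw]
      · have : b = true := by rw [hb]; decide
        rw [this]; simp [vw]
    have b4 : act j b (vw g C j) 4 = g (C j) (C (j - σ)) := by
      unfold act
      rcases hσ with rfl | rfl
      · have : b = false := by rw [hb]; decide
        rw [this]
        simp only [Bool.false_eq_true, if_false, vw]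
        rw [fin5_a]
      · have : b = true := by rw [hb]; decide
        rw [this]
        simp only [if_true, vw]
        rw [fin5_b]
    rw [a0] at hu
    rw [b0] at hv
    refine ⟨c0.act i false, cj.act j b, by rw [a0]; exact hu, by rw [b0]; exact hv, ?_, ?_, ?_⟩
    · rw [mem_Mr, a1, b1]
      refine ⟨?_, C (j + σ), ?_, by rw [hv], ?_⟩
      · rw [← hu]; exact c0.adj i
      · rw [← hv]
        rcases hσ with rfl | rfl
        · exact hC5.adj j
        · have := hC5.adj (j + -1)
          rw [neg_add_cancel_right] at this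
          exact this.symm
      · rw [← hu, ← hv]; exact r1
    · rw [mem_Mr, a4, b4]
      refine ⟨?_, C (j - σ), ?_, by rw [hv], ?_⟩
      · rw [← hu]
        have := c0.adj (i - 1)
        rw [sub_add_cancel] at this
        exact this.symm
      · rw [← hv]
        rcases hσ with rfl | rfl
        · have := hC5.adj (j - 1)
          rw [sub_add_cancel] at this
          exact this.symm
        · have := hC5.adj j
          rwa [sub_neg_eq_add]
      · rw [← hu, ← hv]; exact r2
    · rw [Vs_act, Vs_act]; exact hne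

lemma VK_count (m : Mt G H f g) {μ B : ℕ} (hK : KRP G (μ + 1) B)
    (P : Finset (Sym2 (Fin n) × Sym2 (Fin n))) (hP : ∀ e e', SP e e' → (e, e') ∈ P)
    (hμ : ∀ k, ∀ T : Finset (Sym2 (Fin n)), (∀ e ∈ T, (e, k) ∈ P) → T.card ≤ μ)
    (hμ' : ∀ e, ∀ T : Finset (Sym2 (Fin n)), (∀ k ∈ T, (e, k) ∈ P) → T.card ≤ μ)
    (S : Finset (Fin 5 → Fin n)) (hS : ∀ C ∈ S, IsC5 H C ∧ VK G f g SP C) :
    S.card ≤ 50 * (B * ∑ uv : Fin n × Fin n, (Mr G H f g SP uv.1 uv.2).card) := by
  classical
  have h := card_le_fib S (univ : Finset (Fin 5 × Fin 5 × Bool))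
    (fun C ijσ => RR G f g SP (vw g C 0 ijσ.1) (vw g C 0 (ijσ.1 + 1)) (C ijσ.2.1)
      (C (ijσ.2.1 + (if ijσ.2.2 then 1 else -1))) ∧
      RR G f g SP (vw g C 0 ijσ.1) (vw g C 0 (ijσ.1 - 1)) (C ijσ.2.1)
      (C (ijσ.2.1 - (if ijσ.2.2 then 1 else -1))) ∧
      Vs (vw g C 0) ≠ Vs (vw g C ijσ.2.1))
    (∑ uv : Fin n × Fin n, B * (Mr G H f g SP uv.1 uv.2).card) ?_ ?_
  · have h50 : (univ : Finset (Fin 5 × Fin 5 × Bool)).card = 50 := by simp
    rw [h50, ← mul_sum] at h
    exact h
  · intro C hC
    obtain ⟨hC5, i, j, σ, hσ, r1, r2, r3⟩ := hS C hC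
    rcases hσ with rfl | rfl
    · exact ⟨(i, j, true), mem_univ _, by simpa using r1, by simpa using r2, r3⟩
    · exact ⟨(i, j, false), mem_univ _, by simpa using r1, by simpa using r2, r3⟩
  · rintro ⟨i, j, b⟩ _ S' hS' hr
    refine VK_count_one m hK P hP hμ hμ' i j (if b then 1 else -1) (by cases b <;> simp) S' ?_
    intro C hC
    exact ⟨(hS C (hS' hC)).1, hr C hC⟩

/-- total size of the relation -/
lemma Mr_total (m : Mt G H f g) (hT : T3 G K) {Dg : ℕ} (hdeg : MaxDeg G Dg) (hSS : SSP G Dg)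
    (P : Finset (Sym2 (Fin n) × Sym2 (Fin n))) (hP : ∀ e e', SP e e' → (e, e') ∈ P) :
    ∑ uv : Fin n × Fin n, (Mr G H f g SP uv.1 uv.2).card ≤
      4 * P.card + (K + 30) * (DD G f).card := by
  classical
  -- three parts
  set A1 : Finset ((Fin n × Fin n) × (Fin n × Fin n)) := univ.filter fun x =>
    (s(x.1.1, x.2.1), s(x.1.2, x.2.2)) ∈ P with hA1
  -- `Π`
  set Pi : Finset (Fin n × Fin n) := (DD G f).image fun zx => (zx.2, f zx.1 zx.2) with hPi
  have hPic : Pi.card ≤ (DD G f).card := card_image_le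
  set A2 : Finset ((Fin n × Fin n) × Fin n) := univ.filter fun x =>
    x.1 ∈ Pi ∧ x.1.1 ≠ x.1.2 ∧ G.Adj x.1.1 x.2 ∧ H.Adj x.1.2 x.2 with hA2
  have hstep : ∑ uv : Fin n × Fin n, (Mr G H f g SP uv.1 uv.2).card ≤
      A1.card + A2.card + (DD H g).card := by
    -- an injection from the disjoint union
    have h1 : ∑ uv : Fin n × Fin n, (Mr G H f g SP uv.1 uv.2).card =
        ((univ : Finset (Fin n × Fin n)).sigma fun uv => Mr G H f g SP uv.1 uv.2).card := by
      rw [card_sigma]
    rw [h1]
    have h2 : ((univ : Finset (Fin n × Fin n)).sigma fun uv => Mr G H f g SP uv.1 uv.2) ⊆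
        (A1.image fun x => (⟨x.1, (x.2.1, g x.1.2 x.2.2)⟩ :
          (_ : Fin n × Fin n) × (Fin n × Fin n))) ∪
        (A2.image fun x => (⟨x.1, (x.2, g x.1.2 x.2)⟩ :
          (_ : Fin n × Fin n) × (Fin n × Fin n))) ∪
        ((DD H g).image fun x => (⟨(x.1, x.1), (x.2, g x.1 x.2)⟩ :
          (_ : Fin n × Fin n) × (Fin n × Fin n))) := by
      rintro ⟨⟨u, v⟩, ⟨s, t⟩⟩ hx
      rw [mem_sigma] at hx
      have hx2 := hx.2
      rw [mem_Mr] at hx2
      obtain ⟨h1, s', h2, h3, h4⟩ := hx2
      simp only at h1 h2 h3 h4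
      rw [mem_union, mem_union, mem_image, mem_image, mem_image]
      rcases h4 with h4 | ⟨h4, h5, z, h6, h7⟩ | ⟨h4, h5, h6⟩
      · left; left
        refine ⟨((u, v), (s, s')), ?_, ?_⟩
        · rw [hA1, mem_filter]; exact ⟨mem_univ _, hP _ _ h4⟩
        · simp only [h3]
      · left; right
        refine ⟨((u, v), s), ?_, ?_⟩
        · rw [hA2, mem_filter]
          refine ⟨mem_univ _, ?_, h5, h1, ?_⟩
          · rw [hPi, mem_image]
            refine ⟨(z, u), ?_, ?_⟩
            · rw [mem_DD]; exact ⟨h6, by simp only; rw [h7]; exact h5.symm⟩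
            · simp only [h7]
          · rw [h4]; exact h2
        · simp only [← h3, h4]
      · right
        refine ⟨(u, s), ?_, ?_⟩
        · rw [mem_DD]
          refine ⟨?_, h6⟩
          simp only
          rw [h4, h5]; exact h2
        · simp only [← h3, ← h4, ← h5]
    refine (card_le_card h2).trans ((card_union_le _ _).trans ?_)
    refine Nat.add_le_add ((card_union_le _ _).trans (Nat.add_le_add card_image_le card_image_le))
      card_image_le
  have hA1c : A1.card ≤ 4 * P.card := by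
    have h := card_le_fib A1 P (fun x e => (s(x.1.1, x.2.1), s(x.1.2, x.2.2)) = e) 4 ?_ ?_
    · rw [mul_comm]; exact h
    · intro x hx
      exact ⟨_, (mem_filter.1 hx).2, rfl⟩
    · rintro ⟨e, k⟩ he S' hS' hr
      induction e using Sym2.ind with
      | _ a b =>
      induction k using Sym2.ind with
      | _ c d =>
      have : S' ⊆ {((a, c), (b, d)), ((a, d), (b, c)), ((b, c), (a, d)), ((b, d), (a, c))} := by
        rintro ⟨⟨u, v⟩, ⟨s, s'⟩⟩ hx
        have h1 := hr _ hx
        simp only [Prod.mk.injEq, Sym2.eq_iff] at h1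
        simp only [mem_insert, mem_singleton, Prod.mk.injEq]
        rcases h1 with ⟨⟨rfl, rfl⟩ | ⟨rfl, rfl⟩, ⟨rfl, rfl⟩ | ⟨rfl, rfl⟩⟩ <;> simp
      exact (card_le_card this).trans card_le_four
  have hA2c : A2.card ≤ (K + 1) * (DD G f).card + 28 * (DD G f).card := by
    -- split into common neighbours and defective
    have hsub : A2 ⊆ (A2.filter fun x => x.2 ∈ cn G x.1.1 x.1.2) ∪
        (A2.filter fun x => (x.1.2, x.2) ∈ DD H g) := by
      intro x hx
      have hx' := (mem_filter.1 hx).2
      rw [mem_union]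
      by_cases h : g x.1.2 x.2 = x.2
      · left
        refine mem_filter.2 ⟨hx, mem_cn.2 ⟨hx'.2.2.1.symm, ?_⟩⟩
        have := m.g_adj hx'.2.2.2
        rw [h] at this
        exact this.symm
      · right
        exact mem_filter.2 ⟨hx, mem_DD.2 ⟨hx'.2.2.2, h⟩⟩
    refine (card_le_card hsub).trans ((card_union_le _ _).trans (Nat.add_le_add ?_ ?_))
    · have h := card_le_fib (A2.filter fun x => x.2 ∈ cn G x.1.1 x.1.2) Pi
        (fun x uv => x.1 = uv) (K + 1) ?_ ?_
      · refine h.trans ?_
        rw [mul_comm]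
        exact Nat.mul_le_mul_left _ hPic
      · intro x hx
        exact ⟨_, (mem_filter.1 (mem_filter.1 hx).1).2.1, rfl⟩
      · rintro ⟨u, v⟩ huv S' hS' hr
        rcases S'.eq_empty_or_nonempty with he0 | ⟨x₀, hx₀⟩
        · rw [he0]; simp
        have hne : u ≠ v := by
          have := (mem_filter.1 (mem_filter.1 (hS' hx₀)).1).2.2.1
          rw [hr _ hx₀] at this
          exact this
        refine le_trans ?_ (cn_card hT hne)
        refine card_le_card_of_injOn (fun x => x.2) ?_ ?_
        · intro x hx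
          have h1 := (mem_filter.1 (hS' hx)).2
          rw [hr _ hx] at h1
          exact h1
        · intro x hx y hy hxy
          exact Prod.ext ((hr x hx).trans (hr y hy).symm) hxy
    · -- defective ones, grouped by `v`
      set X : Fin n → Finset (Fin n) := fun v => univ.filter fun u => (u, v) ∈ Pi ∧ u ≠ v with hX
      set Y : Fin n → Finset (Fin n) := fun v => univ.filter fun s => (v, s) ∈ DD H g with hY
      have hXs : ∑ v, (X v).card ≤ (DD G f).card := by
        refine le_trans ?_ hPic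
        rw [← card_sigma]
        refine card_le_card_of_injOn (fun x => (x.2, x.1)) ?_ ?_
        · rintro ⟨v, u⟩ hx
          rw [mem_coe, mem_sigma] at hx
          exact (mem_filter.1 hx.2).2.1
        · rintro ⟨v, u⟩ _ ⟨v', u'⟩ _ hh
          obtain ⟨h1, h2⟩ := Prod.ext_iff.1 hh
          simp only at h1 h2
          subst h1; subst h2; rfl
      have hYs : ∑ v, (Y v).card ≤ (DD G f).card := by
        rw [card_DD m, ← card_sigma]
        refine card_le_card_of_injOn (fun x => (x.1, x.2)) ?_ ?_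
        · rintro ⟨v, u⟩ hx
          rw [mem_coe, mem_sigma] at hx
          exact (mem_filter.1 hx.2).2
        · rintro ⟨v, u⟩ _ ⟨v', u'⟩ _ hh
          obtain ⟨h1, h2⟩ := Prod.ext_iff.1 hh
          simp only at h1 h2
          subst h1; subst h2; rfl
      have hNH : ∀ v, (univ.filter fun z => H.Adj v z).card ≤ Dg := by
        intro v
        refine le_trans ?_ (hdeg v)
        refine card_le_card_of_injOn (fun z => g v z) ?_ ?_
        · intro z hz
          rw [mem_coe, mem_filter] at hz ⊢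
          exact ⟨mem_univ _, m.g_adj hz.2⟩
        · intro z hz z' hz' hh
          rw [mem_coe, mem_filter] at hz hz'
          simp only at hh
          rw [← m.fg_adj hz.2, ← m.fg_adj hz'.2, hh]
      have hXc : ∀ v, (X v).card ≤ Dg := by
        intro v
        refine le_trans ?_ (hNH v)
        have : X v ⊆ (univ.filter fun z => H.Adj v z).image fun z => g z v := by
          intro u hu
          obtain ⟨h1, h2⟩ := (mem_filter.1 hu).2
          rw [hPi, mem_image] at h1
          obtain ⟨⟨z, x⟩, hz, he⟩ := h1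
          rw [mem_DD] at hz
          obtain ⟨e1, e2⟩ := Prod.ext_iff.1 he
          simp only at e1 e2 hz
          subst e1
          rw [mem_image]
          refine ⟨z, mem_filter.2 ⟨mem_univ _, ?_⟩, ?_⟩
          · rw [← e2]; exact (m.f_adj hz.1).symm
          · rw [← e2]; exact m.gf_adj hz.1
        exact (card_le_card this).trans card_image_le
      have hYc : ∀ v, (Y v).card ≤ Dg := by
        intro v
        refine le_trans (card_le_card fun s hs => ?_) (hNH v)
        have := (mem_filter.1 hs).2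
        rw [mem_DD] at this
        exact mem_filter.2 ⟨mem_univ _, this.1⟩
      set A3 := A2.filter fun x => (x.1.2, x.2) ∈ DD H g with hA3
      have hsub3 : A3 ⊆ (univ : Finset (Fin n)).biUnion fun v => A3.filter fun x => x.1.2 = v :=
        fun x hx => mem_biUnion.2 ⟨x.1.2, mem_univ _, mem_filter.2 ⟨hx, rfl⟩⟩
      refine (card_le_card hsub3).trans (card_biUnion_le.trans ?_)
      have hb : ∀ v ∈ (univ : Finset (Fin n)), (A3.filter fun x => x.1.2 = v).card ≤
          14 * ((X v).card + (Y v).card) := by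
        intro v _
        have hinj : Set.InjOn (fun x : (Fin n × Fin n) × Fin n => (x.1.1, x.2))
            (A3.filter fun x => x.1.2 = v : Finset _) := by
          intro x hx y hy hh
          rw [mem_coe, mem_filter] at hx hy
          obtain ⟨h1, h2⟩ := Prod.ext_iff.1 hh
          exact Prod.ext (Prod.ext h1 (hx.2.trans hy.2.symm)) h2
        rw [← card_image_of_injOn hinj]
        refine hSS (X v) (Y v) (hXc v) (hYc v) _ ?_
        intro q hq
        obtain ⟨x, hx, rfl⟩ := mem_image.1 hq
        obtain ⟨hx1, hx2⟩ := mem_filter.1 hx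
        obtain ⟨hx3, hx4⟩ := mem_filter.1 hx1
        obtain ⟨-, h1, h2, h3, h4⟩ := mem_filter.1 hx3
        refine ⟨mem_filter.2 ⟨mem_univ _, ?_, ?_⟩, mem_filter.2 ⟨mem_univ _, ?_⟩, h3⟩
        · rw [← hx2]; exact h1
        · rw [← hx2]; exact h2
        · rw [← hx2]; exact hx4
      refine (sum_le_sum hb).trans ?_
      rw [← mul_sum, sum_add_distrib]
      omega
  have := card_DD m
  have : (K + 30) * (DD G f).card = (K + 1) * (DD G f).card + 28 * (DD G f).card +
      (DD G f).card := by ring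
  omega

end Pool.Agent.U140.SG
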