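import Pool.Agent.U140.SG.Ty1
import Pool.Agent.U140.SG.VKc

/-! Typical properties, part two. -/

set_option linter.unusedSectionVars false
set_option linter.unusedVariables false

namespace Pool.Agent.U140.SG

open Finset Pool.Agent.Q299.PW

variable {n : ℕ}

lemma inj_pair {X Y : Finset (Fin n)} (h : Disjoint X Y) :
    Set.InjOn (fun q : Fin n × Fin n => s(q.1, q.2)) (X ×ˢ Y : Finset (Fin n × Fin n)) := by
  intro q hq q' hq' hh
  rw [mem_coe, mem_product] at hq hq'
  simp only at hh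
  rw [Sym2.eq_iff] at hh
  rcases hh with ⟨h1, h2⟩ | ⟨h1, h2⟩
  · exact Prod.ext h1 h2
  · exfalso
    exact disjoint_left.1 h hq.1 (by rw [h1]; exact hq'.2)

open Classical in
/-- conditional lower tail for the number of open pairs -/
lemma cond_tail {p : ℝ} (h0 : 0 ≤ p) (h1 : p ≤ 1) (S : Finset (Sym2 (Fin n)))
    (X Y : Om n → Finset (Fin n)) (hX : ∀ κ ω ω' : Om n, X (mix S κ ω) = X (mix S κ ω'))
    (hY : ∀ κ ω ω' : Om n, Y (mix S κ ω) = Y (mix S κ ω')) (X0 Y0 : Finset (Fin n))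
    (hd : Disjoint X0 Y0) (hX0 : ∀ ω, X ω ⊆ X0) (hY0 : ∀ ω, Y ω ⊆ Y0)
    (hS : ∀ x ∈ X0, ∀ y ∈ Y0, s(x, y) ∉ S) {x₀ y₀ : ℝ} (hx₀ : 0 ≤ x₀) (hy₀ : 0 ≤ y₀) :
    Pr (wp p) (fun ω : Om n => x₀ ≤ (X ω).card ∧ y₀ ≤ (Y ω).card ∧
      ((((X ω) ×ˢ (Y ω)).filter fun q => ω s(q.1, q.2) = true).card : ℝ) ≤ x₀ * y₀ * p / 4) ≤
      Real.exp (-(x₀ * y₀ * p / 4)) := by
  classical
  have hw := wp_nonneg h0 h1
  refine Pr_le_of_mix hw (wp_sum p) S fun κ => ?_
  set X' := X (mix S κ κ) with hX'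
  set Y' := Y (mix S κ κ) with hY'
  have hd' : Disjoint X' Y' := (hd.mono_left (hX0 _)).mono_right (hY0 _)
  by_cases hc : x₀ ≤ X'.card ∧ y₀ ≤ Y'.card
  swap
  · rw [Pr_false]
    · exact (Real.exp_pos _).le
    · rintro ω ⟨g1, g2, -⟩
      rw [hX κ ω κ] at g1
      rw [hY κ ω κ] at g2
      exact hc ⟨g1, g2⟩
  set F : Finset (Sym2 (Fin n)) := (X' ×ˢ Y').image fun q => s(q.1, q.2) with hF
  have hFc : F.card = X'.card * Y'.card := by
    rw [hF, card_image_of_injOn (inj_pair hd'), card_product]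
  have hN : x₀ * y₀ ≤ F.card := by
    rw [hFc]; push_cast
    exact mul_le_mul hc.1 hc.2 hy₀ (Nat.cast_nonneg _)
  refine le_trans (Pr_mono hw fun ω h => ?_) (low_tail h0 h1 F hN)
  obtain ⟨-, -, g3⟩ := h
  rw [hX κ ω κ, hY κ ω κ] at g3
  refine le_trans (le_of_eq ?_) g3
  congr 1
  have : F.filter (fun e => ω e = true) =
      ((X' ×ˢ Y').filter fun q => ω s(q.1, q.2) = true).image fun q => s(q.1, q.2) := by
    ext e
    simp only [hF, mem_filter, mem_image]
    constructor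
    · rintro ⟨⟨q, hq, rfl⟩, h2⟩
      exact ⟨q, ⟨hq, h2⟩, rfl⟩
    · rintro ⟨q, ⟨hq, h2⟩, rfl⟩
      exact ⟨⟨q, hq, rfl⟩, h2⟩
  rw [this, card_image_of_injOn ((inj_pair hd').mono (filter_subset _ _))]
  congr 1
  refine filter_congr fun q hq => ?_
  rw [mem_product] at hq
  rw [mix_not (hS _ (hX0 _ hq.1) _ (hY0 _ hq.2))]

/-- parts -/
lemma exists_parts (u v : Fin n) {N : ℕ} (hn : 3 * N + 2 ≤ n) :
    ∃ A B W : Finset (Fin n), A.card = N ∧ B.card = N ∧ W.card = N ∧ Disjoint A B ∧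
      Disjoint A W ∧ Disjoint B W ∧ u ∉ A ∧ u ∉ B ∧ u ∉ W ∧ v ∉ A ∧ v ∉ B ∧ v ∉ W := by
  classical
  set Z : Finset (Fin n) := univ \ {u, v} with hZ
  have hZc : 3 * N ≤ Z.card := by
    have h1 : ({u, v} : Finset (Fin n)).card ≤ 2 := card_le_two
    have h2 := card_sdiff_add_card_inter (univ : Finset (Fin n)) {u, v}
    rw [univ_inter, card_univ, Fintype.card_fin] at h2
    rw [hZ]; omega
  obtain ⟨A, hA1, hA2⟩ := exists_subset_card_eq (show N ≤ Z.card by omega)
  have h3 : 2 * N ≤ (Z \ A).card := by rw [card_sdiff_of_subset hA1]; omega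
  obtain ⟨B, hB1, hB2⟩ := exists_subset_card_eq (show N ≤ (Z \ A).card by omega)
  have h4 : N ≤ ((Z \ A) \ B).card := by rw [card_sdiff_of_subset hB1]; omega
  obtain ⟨W, hW1, hW2⟩ := exists_subset_card_eq h4
  have hu : u ∉ Z := by rw [hZ]; simp
  have hv : v ∉ Z := by rw [hZ]; simp
  have hBZ : B ⊆ Z := hB1.trans sdiff_subset
  have hWZ : W ⊆ Z := (hW1.trans sdiff_subset).trans sdiff_subset
  refine ⟨A, B, W, hA2, hB2, hW2, ?_, ?_, ?_, fun h => hu (hA1 h), fun h => hu (hBZ h),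
    fun h => hu (hWZ h), fun h => hv (hA1 h), fun h => hv (hBZ h), fun h => hv (hWZ h)⟩
  · rw [disjoint_left]; intro x hx hx'
    exact (mem_sdiff.1 (hB1 hx')).2 hx
  · rw [disjoint_left]; intro x hx hx'
    exact (mem_sdiff.1 (mem_sdiff.1 (hW1 hx')).1).2 hx
  · rw [disjoint_left]; intro x hx hx'
    exact (mem_sdiff.1 (hW1 hx')).2 hx

lemma mkC5 {G : SimpleGraph (Fin n)} {a b c d e : Fin n} (h1 : G.Adj a b) (h2 : G.Adj b c)
    (h3 : G.Adj c d) (h4 : G.Adj d e) (h5 : G.Adj e a) (n1 : a ≠ c) (n2 : a ≠ d) (n3 : b ≠ d)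
    (n4 : b ≠ e) (n5 : c ≠ e) : IsC5 G ![a, b, c, d, e] := by
  have m1 := h1.ne
  have m2 := h2.ne
  have m3 := h3.ne
  have m4 := h4.ne
  have m5 := h5.ne
  refine ⟨?_, ?_⟩
  · intro i j hij
    fin_cases i <;> fin_cases j <;> first
      | rfl
      | exact (m1 hij).elim | exact (m1 hij.symm).elim | exact (m2 hij).elim
      | exact (m2 hij.symm).elim | exact (m3 hij).elim | exact (m3 hij.symm).elim
      | exact (m4 hij).elim | exact (m4 hij.symm).elim | exact (m5 hij).elim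
      | exact (m5 hij.symm).elim | exact (n1 hij).elim | exact (n1 hij.symm).elim
      | exact (n2 hij).elim | exact (n2 hij.symm).elim | exact (n3 hij).elim
      | exact (n3 hij.symm).elim | exact (n4 hij).elim | exact (n4 hij.symm).elim
      | exact (n5 hij).elim | exact (n5 hij.symm).elim
  · intro i
    fin_cases i
    · exact h1
    · exact h2
    · exact h3
    · exact h4
    · exact h5

open Classical in
lemma lo_one {p : ℝ} (h0 : 0 ≤ p) (h1 : p ≤ 1) (u v : Fin n) {N K Lo : ℕ} (hn : 3 * N + 2 ≤ n)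
    {w₀ b₀ : ℝ} (hw₀ : w₀ = N * p / 4) (hb₀ : b₀ = w₀ * N * p / 4 / (K + 1))
    (hLo : (Lo : ℝ) ≤ b₀ * w₀ * p / 4) :
    Pr (wp p) (fun ω : Om n => T3 (gr ω) K ∧ (gr ω).Adj u v ∧
      ∀ S : Finset (Fin 5 → Fin n), (∀ c ∈ S, IsC5 (gr ω) c ∧ c 0 = u ∧ c 1 = v) → S.card < Lo) ≤
      2 * Real.exp (-(N * p / 4)) + Real.exp (-(w₀ * N * p / 4)) +
      Real.exp (-(b₀ * w₀ * p / 4)) := by
  have hw := wp_nonneg h0 h1
  obtain ⟨A, B, W, cA, cB, cW, dAB, dAW, dBW, uA, uB, uW, vA, vB, vW⟩ := exists_parts u v hn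
  have hw0 : 0 ≤ w₀ := by rw [hw₀]; positivity
  have hb0 : 0 ≤ b₀ := by rw [hb₀]; positivity
  set NA : Om n → Finset (Fin n) := fun ω => A.filter fun a => ω s(v, a) = true with hNA
  set NW : Om n → Finset (Fin n) := fun ω => W.filter fun w => ω s(u, w) = true with hNW
  set B' : Om n → Finset (Fin n) := fun ω => B.filter fun b =>
    ∃ a ∈ NA ω, ω s(a, b) = true with hB'
  set E1 : Om n → Prop := fun ω => (1 : ℝ) ≤ (({v} : Finset (Fin n)).card : ℝ) ∧
    (N : ℝ) ≤ A.card ∧ (((({v} : Finset (Fin n)) ×ˢ A).filter fun q => ω s(q.1, q.2) = true).card : ℝ)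
      ≤ 1 * N * p / 4 with hE1
  set E2 : Om n → Prop := fun ω => (1 : ℝ) ≤ (({u} : Finset (Fin n)).card : ℝ) ∧
    (N : ℝ) ≤ W.card ∧ (((({u} : Finset (Fin n)) ×ˢ W).filter fun q => ω s(q.1, q.2) = true).card : ℝ)
      ≤ 1 * N * p / 4 with hE2
  set E3 : Om n → Prop := fun ω => w₀ ≤ (NA ω).card ∧ (N : ℝ) ≤ B.card ∧
    ((((NA ω) ×ˢ B).filter fun q => ω s(q.1, q.2) = true).card : ℝ) ≤ w₀ * N * p / 4 with hE3
  set E4 : Om n → Prop := fun ω => b₀ ≤ (B' ω).card ∧ w₀ ≤ (NW ω).card ∧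
    ((((B' ω) ×ˢ (NW ω)).filter fun q => ω s(q.1, q.2) = true).card : ℝ) ≤ b₀ * w₀ * p / 4 with hE4
  have b1 : Pr (wp p) E1 ≤ Real.exp (-(1 * N * p / 4)) := by
    refine cond_tail h0 h1 ∅ (fun _ => {v}) (fun _ => A) (fun _ _ _ => rfl) (fun _ _ _ => rfl)
      {v} A (by rw [disjoint_singleton_left]; exact vA) (fun _ => Subset.rfl)
      (fun _ => Subset.rfl) (fun _ _ _ _ => notMem_empty _) (by norm_num) (Nat.cast_nonneg _)
  have b2 : Pr (wp p) E2 ≤ Real.exp (-(1 * N * p / 4)) := by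
    refine cond_tail h0 h1 ∅ (fun _ => {u}) (fun _ => W) (fun _ _ _ => rfl) (fun _ _ _ => rfl)
      {u} W (by rw [disjoint_singleton_left]; exact uW) (fun _ => Subset.rfl)
      (fun _ => Subset.rfl) (fun _ _ _ _ => notMem_empty _) (by norm_num) (Nat.cast_nonneg _)
  have hNAm : ∀ (S : Finset (Sym2 (Fin n))), star v ⊆ S → ∀ κ ω ω' : Om n,
      NA (mix S κ ω) = NA (mix S κ ω') := by
    intro S hS κ ω ω'
    rw [hNA]
    simp only
    refine filter_congr fun a ha => ?_
    have : s(v, a) ∈ S := hS (mem_star.2 (Sym2.mem_mk_left _ _))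
    rw [mix_mem this, mix_mem this]
  have hNWm : ∀ (S : Finset (Sym2 (Fin n))), star u ⊆ S → ∀ κ ω ω' : Om n,
      NW (mix S κ ω) = NW (mix S κ ω') := by
    intro S hS κ ω ω'
    rw [hNW]
    simp only
    refine filter_congr fun a ha => ?_
    have : s(u, a) ∈ S := hS (mem_star.2 (Sym2.mem_mk_left _ _))
    rw [mix_mem this, mix_mem this]
  have b3 : Pr (wp p) E3 ≤ Real.exp (-(w₀ * N * p / 4)) := by
    refine cond_tail h0 h1 (star v) NA (fun _ => B) (hNAm _ Subset.rfl) (fun _ _ _ => rfl)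
      A B dAB (fun ω => filter_subset _ _) (fun _ => Subset.rfl) ?_ hw0 (Nat.cast_nonneg _)
    intro x hx y hy
    rw [mem_star, Sym2.mem_iff, not_or]
    exact ⟨fun h => vA (by rw [h]; exact hx), fun h => vB (by rw [h]; exact hy)⟩
  have b4 : Pr (wp p) E4 ≤ Real.exp (-(b₀ * w₀ * p / 4)) := by
    set S' : Finset (Sym2 (Fin n)) := univ.filter fun e => v ∈ e ∨ u ∈ e ∨ ∃ a ∈ A, a ∈ e with hS'
    have hSv : star v ⊆ S' := fun e he => mem_filter.2 ⟨mem_univ _, Or.inl (mem_star.1 he)⟩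
    have hSu : star u ⊆ S' := fun e he => mem_filter.2 ⟨mem_univ _, Or.inr (Or.inl (mem_star.1 he))⟩
    refine cond_tail h0 h1 S' B' NW ?_ (hNWm _ hSu) B W dBW (fun ω => filter_subset _ _)
      (fun ω => filter_subset _ _) ?_ hb0 hw0
    · intro κ ω ω'
      rw [hB']
      simp only
      refine filter_congr fun b hb => ?_
      rw [hNAm S' hSv κ ω ω']
      refine exists_congr fun a => and_congr_right fun ha => ?_
      have haA : a ∈ A := (mem_filter.1 ha).1
      have : s(a, b) ∈ S' := mem_filter.2 ⟨mem_univ _, Or.inr (Or.inr ⟨a, haA, Sym2.mem_mk_left _ _⟩)⟩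
      rw [mix_mem this, mix_mem this]
    · intro x hx y hy h
      obtain ⟨-, h | h | ⟨a, ha, h⟩⟩ := mem_filter.1 h
      · rw [Sym2.mem_iff] at h
        rcases h with h | h
        · exact vB (by rw [h]; exact hx)
        · exact vW (by rw [h]; exact hy)
      · rw [Sym2.mem_iff] at h
        rcases h with h | h
        · exact uB (by rw [h]; exact hx)
        · exact uW (by rw [h]; exact hy)
      · rw [Sym2.mem_iff] at h
        rcases h with h | h
        · exact disjoint_left.1 dAB ha (by rw [h]; exact hx)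
        · exact disjoint_left.1 dAW ha (by rw [h]; exact hy)
  have hone : (1 : ℝ) * N * p / 4 = N * p / 4 := by ring
  rw [hone] at b1 b2
  refine le_trans (Pr_mono hw (B := fun ω => ((E1 ω ∨ E2 ω) ∨ E3 ω) ∨ E4 ω) fun ω h => ?_) ?_
  · obtain ⟨hT, hadj, hlow⟩ := h
    by_contra hcon
    push Not at hcon
    obtain ⟨⟨⟨g1, g2⟩, g3⟩, g4⟩ := hcon
    have cNA : w₀ ≤ (NA ω).card := by
      by_contra hh
      push Not at hh
      apply g1
      refine ⟨by simp, by rw [cA], ?_⟩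
      have : ((({v} : Finset (Fin n)) ×ˢ A).filter fun q => ω s(q.1, q.2) = true).card ≤
          (NA ω).card := by
        refine card_le_card_of_injOn Prod.snd ?_ ?_
        · intro q hq
          obtain ⟨h1, h2⟩ := mem_filter.1 hq
          rw [mem_product, mem_singleton] at h1
          rw [h1.1] at h2
          exact mem_filter.2 ⟨h1.2, h2⟩
        · intro q hq q' hq' hh
          have h1 := (mem_product.1 (mem_filter.1 hq).1).1
          have h1' := (mem_product.1 (mem_filter.1 hq').1).1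
          rw [mem_singleton] at h1 h1'
          exact Prod.ext (h1.trans h1'.symm) hh
      have h2 : (((({v} : Finset (Fin n)) ×ˢ A).filter fun q => ω s(q.1, q.2) = true).card : ℝ) ≤
          (NA ω).card := by exact_mod_cast this
      rw [hw₀] at hh
      linarith
    have cNW : w₀ ≤ (NW ω).card := by
      by_contra hh
      push Not at hh
      apply g2
      refine ⟨by simp, by rw [cW], ?_⟩
      have : ((({u} : Finset (Fin n)) ×ˢ W).filter fun q => ω s(q.1, q.2) = true).card ≤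
          (NW ω).card := by
        refine card_le_card_of_injOn Prod.snd ?_ ?_
        · intro q hq
          obtain ⟨h1, h2⟩ := mem_filter.1 hq
          rw [mem_product, mem_singleton] at h1
          rw [h1.1] at h2
          exact mem_filter.2 ⟨h1.2, h2⟩
        · intro q hq q' hq' hh
          have h1 := (mem_product.1 (mem_filter.1 hq).1).1
          have h1' := (mem_product.1 (mem_filter.1 hq').1).1
          rw [mem_singleton] at h1 h1'
          exact Prod.ext (h1.trans h1'.symm) hh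
      have h2 : (((({u} : Finset (Fin n)) ×ˢ W).filter fun q => ω s(q.1, q.2) = true).card : ℝ) ≤
          (NW ω).card := by exact_mod_cast this
      rw [hw₀] at hh
      linarith
    have cEB : w₀ * N * p / 4 <
        ((((NA ω) ×ˢ B).filter fun q => ω s(q.1, q.2) = true).card : ℝ) := by
      by_contra hh
      push Not at hh
      exact g3 ⟨cNA, by rw [cB], hh⟩
    have hEB : (((NA ω) ×ˢ B).filter fun q => ω s(q.1, q.2) = true).card ≤
        (B' ω).card * (K + 1) := by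
      refine card_le_fib _ (B' ω) (fun q b => q.2 = b) (K + 1) ?_ ?_
      · intro q hq
        obtain ⟨h1, h2⟩ := mem_filter.1 hq
        rw [mem_product] at h1
        exact ⟨q.2, mem_filter.2 ⟨h1.2, q.1, h1.1, h2⟩, rfl⟩
      · intro b hb S' hS' hr
        have hvb : v ≠ b := fun h => vB (by rw [h]; exact (mem_filter.1 hb).1)
        refine le_trans ?_ (cn_card hT hvb)
        refine card_le_card_of_injOn Prod.fst ?_ ?_
        · intro q hq
          obtain ⟨h1, h2⟩ := mem_filter.1 (hS' hq)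
          rw [mem_product] at h1
          have hqA := (mem_filter.1 h1.1)
          rw [mem_coe, mem_cn, gr_adj, gr_adj]
          have hrq := hr q hq
          refine ⟨⟨fun h => vA (by rw [← h]; exact hqA.1), ?_⟩, ?_, ?_⟩
          · rw [Sym2.eq_swap]; exact hqA.2
          · rw [← hrq]
            exact fun h => disjoint_left.1 dAB hqA.1 (by rw [h]; exact h1.2)
          · rw [← hrq]; exact h2
        · intro q hq q' hq' hh
          exact Prod.ext hh ((hr q hq).trans (hr q' hq').symm)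
    have cB' : b₀ ≤ (B' ω).card := by
      rw [hb₀, div_le_iff₀ (by positivity)]
      have : ((((NA ω) ×ˢ B).filter fun q => ω s(q.1, q.2) = true).card : ℝ) ≤
        (B' ω).card * (K + 1) := by exact_mod_cast hEB
      linarith
    have cEW : b₀ * w₀ * p / 4 <
        ((((B' ω) ×ˢ (NW ω)).filter fun q => ω s(q.1, q.2) = true).card : ℝ) := by
      by_contra hh
      push Not at hh
      exact g4 ⟨cB', cNW, hh⟩
    -- build the cycles
    have hch : ∀ b ∈ B' ω, ∃ a ∈ NA ω, ω s(a, b) = true := fun b hb => (mem_filter.1 hb).2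
    choose! ch hch1 hch2 using hch
    have hS := hlow (((((B' ω) ×ˢ (NW ω)).filter fun q => ω s(q.1, q.2) = true)).image
      fun q => ![u, v, ch q.1, q.1, q.2]) ?_
    · rw [card_image_of_injective] at hS
      · have : (((((B' ω) ×ˢ (NW ω)).filter fun q => ω s(q.1, q.2) = true)).card : ℝ) < Lo := by
          exact_mod_cast hS
        linarith
      · intro q q' hh
        have e3 := congrFun hh 3
        have e4 := congrFun hh 4
        exact Prod.ext e3 e4
    · intro c hc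
      obtain ⟨⟨b, w⟩, hbw, rfl⟩ := mem_image.1 hc
      obtain ⟨h1, h2⟩ := mem_filter.1 hbw
      rw [mem_product] at h1
      simp only at h1 h2
      have hb := (mem_filter.1 h1.1).1
      have hww := mem_filter.1 h1.2
      have ha := mem_filter.1 (hch1 b h1.1)
      have hab := hch2 b h1.1
      have nuv : u ≠ v := hadj.1
      have nua : u ≠ ch b := fun h => uA (by rw [h]; exact ha.1)
      have nub : u ≠ b := fun h => uB (by rw [h]; exact hb)
      have nuw : u ≠ w := fun h => uW (by rw [h]; exact hww.1)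
      have nva : v ≠ ch b := fun h => vA (by rw [h]; exact ha.1)
      have nvb : v ≠ b := fun h => vB (by rw [h]; exact hb)
      have nvw : v ≠ w := fun h => vW (by rw [h]; exact hww.1)
      have nab : ch b ≠ b := fun h => disjoint_left.1 dAB ha.1 (by rw [h]; exact hb)
      have naw : ch b ≠ w := fun h => disjoint_left.1 dAW ha.1 (by rw [h]; exact hww.1)
      have nbw : b ≠ w := fun h => disjoint_left.1 dBW hb (by rw [h]; exact hww.1)
      refine ⟨mkC5 hadj ⟨nva, ha.2⟩ ⟨nab, hab⟩ ⟨nbw, h2⟩ ⟨nuw.symm, ?_⟩ nua nub nvb nvw naw,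
        rfl, rfl⟩
      rw [Sym2.eq_swap]; exact hww.2
  · refine (Pr_or_le hw _ _).trans ?_
    have c1 := Pr_or_le hw (fun ω => E1 ω ∨ E2 ω) E3
    have c2 := Pr_or_le hw E1 E2
    linarith

lemma lo_bound {p : ℝ} (h0 : 0 ≤ p) (h1 : p ≤ 1) {N K Lo : ℕ} (hn : 3 * N + 2 ≤ n)
    {w₀ b₀ : ℝ} (hw₀ : w₀ = N * p / 4) (hb₀ : b₀ = w₀ * N * p / 4 / (K + 1))
    (hLo : (Lo : ℝ) ≤ b₀ * w₀ * p / 4) :
    Pr (wp p) (fun ω : Om n => T3 (gr ω) K ∧ ¬ LoB (gr ω) Lo) ≤
      n ^ 2 * (2 * Real.exp (-(N * p / 4)) + Real.exp (-(w₀ * N * p / 4)) +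
      Real.exp (-(b₀ * w₀ * p / 4))) := by
  classical
  have hw := wp_nonneg h0 h1
  refine le_trans (Pr_mono hw (B := fun ω : Om n => ∃ uv ∈ (univ : Finset (Fin n × Fin n)),
    (T3 (gr ω) K ∧ (gr ω).Adj uv.1 uv.2 ∧
      ∀ S : Finset (Fin 5 → Fin n), (∀ c ∈ S, IsC5 (gr ω) c ∧ c 0 = uv.1 ∧ c 1 = uv.2) →
        S.card < Lo)) fun ω h => ?_) ?_
  · obtain ⟨hT, hL⟩ := h
    unfold LoB at hL
    push Not at hL
    obtain ⟨u, v, hadj, hS⟩ := hL
    exact ⟨(u, v), mem_univ _, hT, hadj, hS⟩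
  · refine (Pr_exists_le hw _ _).trans ?_
    refine (sum_le_sum fun uv _ => lo_one h0 h1 uv.1 uv.2 hn hw₀ hb₀ hLo).trans ?_
    rw [sum_const, card_univ, Fintype.card_prod, Fintype.card_fin, nsmul_eq_mul]
    push_cast
    rw [sq]

end Pool.Agent.U140.SG
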