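import Pool.Agent.U140.SG.Par3

/-! The sparse range: main theorem. -/

set_option linter.unusedSectionVars false
set_option linter.unusedVariables false

namespace Pool.Agent.U140.SG

open Finset Pool.Agent.Q299.PW Filter Topology

variable {n M : ℕ} {p L : ℝ}

noncomputable def tot (M : ℕ) (L : ℝ) : ℝ :=
  L ^ M * Real.exp (-L) + 1 / L + L ^ (2 * M) * Real.exp (-L) +
    4 * (L ^ (2 * M) * Real.exp (-L)) + 2 * (6 ^ 7 / L) + 2 * (1 / L) + 4 * (1 / L)

lemma tot_tendsto (M : ℕ) : Tendsto (tot M) atTop (𝓝 0) := by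
  have h1 : ∀ j : ℕ, Tendsto (fun L : ℝ => L ^ j * Real.exp (-L)) atTop (𝓝 0) := fun j =>
    Real.tendsto_pow_mul_exp_neg_atTop_nhds_zero j
  have h2 : Tendsto (fun L : ℝ => 1 / L) atTop (𝓝 0) := by
    simpa using tendsto_inv_atTop_zero (𝕜 := ℝ)
  have h3 : Tendsto (fun L : ℝ => (6 ^ 7 : ℝ) / L) atTop (𝓝 0) :=
    tendsto_const_nhds.div_atTop tendsto_id
  have h4 := ((((((h1 M).add h2).add (h1 (2 * M))).add ((h1 (2 * M)).const_mul 4)).add
    (h3.const_mul 2)).add (h2.const_mul 2)).add (h2.const_mul 4)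
  simp only [mul_zero, add_zero] at h4
  exact h4

theorem r3_main (M : ℕ) {η : ℝ} (hη : 0 < η) : ∃ Λ : ℝ, ∀ (n : ℕ) (p L : ℝ), Λ ≤ L →
    Hyp n M p L → Pr (wp p) (fun ω : Om n => ¬ GoodG (gr ω)) ≤ η := by
  classical
  have e1 : ∀ᶠ L : ℝ in atTop, tot M L ≤ η := (tot_tendsto M).eventually_le_const hη
  have e2 : ∀ᶠ L : ℝ in atTop, L ^ (5 * M) * Real.exp (-L) ≤ 1 :=
    (Real.tendsto_pow_mul_exp_neg_atTop_nhds_zero (5 * M)).eventually_le_const (by norm_num)
  have e3 := eventually_ge_atTop (169 : ℝ)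
  have e4 := eventually_ge_atTop ((6 : ℝ) ^ 7)
  have e5 := eventually_ge_atTop (131072 * ((Kc M : ℝ) + 1))
  have e6 := eventually_ge_atTop ((725214 : ℝ) * C2 M)
  have e7 := eventually_ge_atTop ((4 * M + 2 : ℝ))
  have e8 := eventually_ge_atTop ((210 : ℝ) * (C2 M * (1 + 5 * K5 (Kc M))))
  have e9 := eventually_ge_atTop (2 * C4 M * (C8 M + 1))
  obtain ⟨Λ, hΛ⟩ := eventually_atTop.1 (e1.and (e2.and (e3.and (e4.and (e5.and (e6.and (e7.and
    (e8.and e9))))))))
  refine ⟨Λ, fun n p L hL h => ?_⟩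
  obtain ⟨f1, f2, f3, f4, f5, f6, f7, f8, f9⟩ := hΛ L hL
  have hw := wp_nonneg h.p0.le h.p1
  have hL0 : 0 < L := by linarith
  have hn : 8 ≤ n := by
    have h1 := h.L32.trans h.X_ge
    have h2 : (8 : ℝ) ≤ n := by linarith
    exact_mod_cast h2
  have hrρ := rho_pos h
  have hrho1 := rho_half h (by linarith)
  have hX := h.X1
  have hb : (0 : ℝ) < 1 / (n : ℝ) ^ 4 := by positivity
  have hr1 : 0 < r1c n p L := by
    have h1 := r1_big h
    have h2 : (1 : ℝ) ≤ L ^ 29 := one_le_pow₀ h.L1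
    have h3 : (0 : ℝ) < r1c n p L := by linarith
    exact_mod_cast h3
  have hT := typ_bound (n := n) h.p0.le h.p1 hrρ.le (by linarith : rho n p L ≤ 1) hb
    (D := Dp n p) (r := rM M) (r₀ := rp n p) (N := n / 4) (K := Kc M) (μ := muc M n p L)
    (r₁ := r1c n p L) (L₀ := L0c M L) (C₀ := C0c M) (k := kc M L) (Lo := Loc' n (Kc M) p)
    (w₀ := w0 n p) (b₀ := b0 n (Kc M) p) (by unfold C0c; omega) hr1 rfl (N_facts hn).1 rfl rfl
    (Nat.floor_le (by unfold b0 w0; have := h.p0; positivity)) rfl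
  refine (Pr_mono hw fun ω hω => ?_).trans (hT.trans ?_)
  · intro hTyp
    apply hω
    intro H f g m
    refine core hTyp m hrρ hrho1 (tau_pos h) (tau_rho h) (tau_rho' h) ?_ (mu_lt h) ?_ rfl ?_
    · exact hU_ok h (by nlinarith [C2_ge' M])
    · exact herr_ok h (by linarith) f2
    · exact hnum_ok h hn f9
  · unfold Fail
    have p1 := part1 h
    have p2 := part2 h f3
    have p3 := part3 h
    have p4 := part4 h hn (Kc M) f5
    have p5 := part5 h f4
    have p6 := part6 h f3 f6 f7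
    have p7 := part7 h f3 f8
    unfold tot at f1
    have p2' : (n : ℝ) ^ 2 * Wt n p (Dp n p) ^ rM M ≤ 1 / L := p2
    linarith

end Pool.Agent.U140.SG
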