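import Pool.Agent.U140.SG.R0

/-! Transfer to sums over graphs, and relabelling. -/

set_option linter.unusedSectionVars false
set_option linter.unusedVariables false

namespace Pool.Agent.U140.SG

open Finset Pool.Agent.Q299.PW Filter Topology

variable {n : ℕ}

lemma pr_none (p : ℝ) (D : Finset (Sym2 (Fin n))) :
    Pr (wp p) (fun ω : Om n => ∀ e ∈ D, ω e = false) = (1 - p) ^ D.card := by
  classical
  unfold Pr
  have h1 : (fun ω : Om n => @ite ℝ (∀ e ∈ D, ω e = false) (Classical.propDecidable _) 1 0) =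
      fun ω => ∏ i ∈ D, (if ω i = true then (0 : ℝ) else 1) := by
    funext ω
    by_cases h : ∀ e ∈ D, ω e = false
    · rw [if_pos h]
      symm
      refine prod_eq_one fun e he => ?_
      simp [h e he]
    · rw [if_neg h]
      push Not at h
      obtain ⟨e, he, h2⟩ := h
      symm
      refine prod_eq_zero he ?_
      simp at h2
      simp [h2]
  rw [h1, Ex_prod_on (wp_sum p) D (fun (_ : Sym2 (Fin n)) (b : Bool) => if b = true then (0 : ℝ) else 1)]
  simp [wp]

lemma pr_tf (p : ℝ) {D D' : Finset (Sym2 (Fin n))} (hd : Disjoint D D') :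
    Pr (wp p) (fun ω : Om n => (∀ e ∈ D, ω e = true) ∧ ∀ e ∈ D', ω e = false) =
      p ^ D.card * (1 - p) ^ D'.card := by
  rw [pr_all_and, pr_none]
  intro ω ω' h
  refine forall₂_congr fun e he => ?_
  rw [h e fun he' => disjoint_left.1 hd he' he]

lemma card_nondiag (n : ℕ) : (univ.filter fun e : Sym2 (Fin n) => ¬ e.IsDiag).card = n.choose 2 := by
  have := Sym2.card_subtype_not_diag (α := Fin n)
  rw [Fintype.card_subtype, Fintype.card_fin] at this
  exact this

open Classical in
lemma gr_iff (ω : Om n) (H : SimpleGraph (Fin n)) : gr ω = H ↔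
    (∀ e ∈ H.edgeFinset, ω e = true) ∧
      ∀ e ∈ (Finset.univ.filter fun e : Sym2 (Fin n) => ¬ e.IsDiag) \ H.edgeFinset, ω e = false := by
  constructor
  · rintro rfl
    constructor
    · intro e he
      induction e using Sym2.ind with
      | _ x y =>
      rw [SimpleGraph.mem_edgeFinset, SimpleGraph.mem_edgeSet] at he
      exact he.2
    · intro e he
      obtain ⟨h1, h2⟩ := Finset.mem_sdiff.1 he
      induction e using Sym2.ind with
      | _ x y =>
      rw [SimpleGraph.mem_edgeFinset, SimpleGraph.mem_edgeSet] at h2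
      have h3 := (Finset.mem_filter.1 h1).2
      rw [Sym2.mk_isDiag_iff] at h3
      by_contra hcon
      exact h2 ⟨h3, by simpa using hcon⟩
  · rintro ⟨h1, h2⟩
    ext x y
    constructor
    · intro h
      by_contra hcon
      have h3 : s(x, y) ∈ (Finset.univ.filter fun e : Sym2 (Fin n) => ¬ e.IsDiag) \ H.edgeFinset := by
        refine Finset.mem_sdiff.2 ⟨Finset.mem_filter.2 ⟨Finset.mem_univ _, ?_⟩, ?_⟩
        · rw [Sym2.mk_isDiag_iff]; exact h.1
        · rw [SimpleGraph.mem_edgeFinset, SimpleGraph.mem_edgeSet]; exact hcon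
      have h4 := h2 _ h3
      have h5 : ω s(x, y) = true := h.2
      rw [h4] at h5
      exact Bool.false_ne_true h5
    · intro h
      exact ⟨h.ne, h1 _ (by rw [SimpleGraph.mem_edgeFinset, SimpleGraph.mem_edgeSet]; exact h)⟩

open Classical in
lemma pr_gr (p : ℝ) (H : SimpleGraph (Fin n)) :
    Pr (wp p) (fun ω : Om n => gr ω = H) =
      p ^ H.edgeFinset.card * (1 - p) ^ (n.choose 2 - H.edgeFinset.card) := by
  have h1 : (fun ω : Om n => gr ω = H) = fun ω => (∀ e ∈ H.edgeFinset, ω e = true) ∧
      ∀ e ∈ (Finset.univ.filter fun e : Sym2 (Fin n) => ¬ e.IsDiag) \ H.edgeFinset, ω e = false := by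
    funext ω
    exact propext (gr_iff ω H)
  have hsub : H.edgeFinset ⊆ Finset.univ.filter fun e : Sym2 (Fin n) => ¬ e.IsDiag := by
    intro e he
    rw [SimpleGraph.mem_edgeFinset] at he
    exact Finset.mem_filter.2 ⟨Finset.mem_univ _, H.not_isDiag_of_mem_edgeSet he⟩
  rw [h1, pr_tf p Finset.disjoint_sdiff, Finset.card_sdiff_of_subset hsub, card_nondiag]

open Classical in
lemma gnp_eq (p : ℝ) (A : SimpleGraph (Fin n) → Prop) :
    (∑ G : SimpleGraph (Fin n),
      if A G then p ^ G.edgeFinset.card * (1 - p) ^ (n.choose 2 - G.edgeFinset.card) else 0) =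
      Pr (wp p) (fun ω : Om n => A (gr ω)) := by
  have h1 : ∀ H : SimpleGraph (Fin n),
      (if A H then p ^ H.edgeFinset.card * (1 - p) ^ (n.choose 2 - H.edgeFinset.card) else 0) =
      ∑ ω : Om n, if gr ω = H then (∏ i, wp p (ω i)) * (if A (gr ω) then (1 : ℝ) else 0) else 0 := by
    intro H
    rw [← pr_gr p H]
    unfold Pr Ex
    by_cases hA : A H
    · rw [if_pos hA]
      refine Finset.sum_congr rfl fun ω _ => ?_
      by_cases hω : gr ω = H
      · simp only [if_pos hω]
        rw [hω, if_pos hA]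
      · simp only [if_neg hω, mul_zero]
    · rw [if_neg hA]
      symm
      refine Finset.sum_eq_zero fun ω _ => ?_
      by_cases hω : gr ω = H
      · rw [if_pos hω, hω, if_neg hA, mul_zero]
      · rw [if_neg hω]
  rw [Finset.sum_congr rfl fun H _ => h1 H, Finset.sum_comm]
  unfold Pr Ex
  refine Finset.sum_congr rfl fun ω _ => ?_
  rw [Finset.sum_ite_eq, if_pos (Finset.mem_univ _)]

lemma edist_iff (G : SimpleGraph (Fin n)) (v w : Fin n) : G.edist v w ≤ 2 ↔ InB G v w := by
  constructor
  · intro h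
    have hne : G.edist v w ≠ ⊤ := by
      intro ht
      rw [ht] at h
      exact absurd h (by simp)
    obtain ⟨q, hq⟩ := SimpleGraph.exists_walk_of_edist_ne_top hne
    rw [← hq] at h
    have hl : q.length ≤ 2 := by exact_mod_cast h
    cases q with
    | nil => exact InB.self _ _
    | cons h1 q =>
      cases q with
      | nil => exact InB.of_adj h1
      | cons h2 q =>
        cases q with
        | nil => exact InB.two h1 h2
        | cons h3 q =>
          simp only [SimpleGraph.Walk.length_cons] at hl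
          omega
  · rintro (rfl | h | ⟨s, h1, h2⟩)
    · have := SimpleGraph.edist_le (SimpleGraph.Walk.nil : G.Walk w w)
      simp only [SimpleGraph.Walk.length_nil, Nat.cast_zero] at this
      exact this.trans (by norm_num)
    · have := SimpleGraph.edist_le (SimpleGraph.Walk.cons h SimpleGraph.Walk.nil)
      simp only [SimpleGraph.Walk.length_cons, SimpleGraph.Walk.length_nil] at this
      refine this.trans ?_
      norm_num
    · have := SimpleGraph.edist_le
        (SimpleGraph.Walk.cons h1 (SimpleGraph.Walk.cons h2 SimpleGraph.Walk.nil))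
      simp only [SimpleGraph.Walk.length_cons, SimpleGraph.Walk.length_nil] at this
      refine this.trans ?_
      norm_num

/-- the reconstruction property of the problem -/
def Rec (G : SimpleGraph (Fin n)) : Prop :=
  ∀ H : SimpleGraph (Fin n),
    (∃ σ : Fin n ≃ Fin n, ∀ v : Fin n,
      ∃ f : Fin n → Fin n, f v = σ v ∧
        Set.BijOn f {w | G.edist v w ≤ 2} {w | H.edist (σ v) w ≤ 2} ∧
        ∀ a ∈ {w | G.edist v w ≤ 2}, ∀ b ∈ {w | G.edist v w ≤ 2},
          (G.Adj a b ↔ H.Adj (f a) (f b))) →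
    Nonempty (G ≃g H)

lemma InB_comap (H : SimpleGraph (Fin n)) (σ : Fin n ≃ Fin n) (v w : Fin n) :
    InB (H.comap σ) v w ↔ InB H (σ v) (σ w) := by
  unfold InB
  simp only [SimpleGraph.comap_adj]
  refine or_congr (by rw [σ.apply_eq_iff_eq]) (or_congr Iff.rfl ?_)
  constructor
  · rintro ⟨s, h1, h2⟩; exact ⟨σ s, h1, h2⟩
  · rintro ⟨s, h1, h2⟩
    exact ⟨σ.symm s, by rwa [σ.apply_symm_apply], by rwa [σ.apply_symm_apply]⟩

theorem rec_of_recM {G : SimpleGraph (Fin n)} (h : RecM G) : Rec G := by
  classical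
  rintro H ⟨σ, hσ⟩
  choose F hF1 hF2 hF3 using hσ
  set H' : SimpleGraph (Fin n) := H.comap σ with hH'
  set f : Fin n → Fin n → Fin n := fun v w => σ.symm (F v w) with hf
  have hσf : ∀ v w, σ (f v w) = F v w := fun v w => σ.apply_symm_apply _
  have hf_self : ∀ v, f v v = v := by
    intro v
    rw [hf]
    simp only
    rw [hF1, σ.symm_apply_apply]
  have hf_in : ∀ v w, InB G v w → InB H' v (f v w) := by
    intro v w hw
    rw [hH', InB_comap, hσf, ← edist_iff]
    exact (hF2 v).1 ((edist_iff G v w).2 hw)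
  have hf_inj : ∀ v a b, InB G v a → InB G v b → f v a = f v b → a = b := by
    intro v a b ha hb hab
    have : F v a = F v b := by rw [← hσf, ← hσf, hab]
    exact (hF2 v).2.1 ((edist_iff G v a).2 ha) ((edist_iff G v b).2 hb) this
  have hf_sur : ∀ v w, InB H' v w → ∃ a, InB G v a ∧ f v a = w := by
    intro v w hw
    rw [hH', InB_comap, ← edist_iff] at hw
    obtain ⟨a, ha, haw⟩ := (hF2 v).2.2 hw
    refine ⟨a, (edist_iff G v a).1 ha, ?_⟩
    rw [hf]
    simp only
    rw [haw, σ.symm_apply_apply]
  set g : Fin n → Fin n → Fin n := fun v w =>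
    if hh : ∃ a, InB G v a ∧ f v a = w then Classical.choose hh else w with hg
  have hg_spec : ∀ v w, InB H' v w → InB G v (g v w) ∧ f v (g v w) = w := by
    intro v w hw
    have hex := hf_sur v w hw
    rw [hg]
    simp only
    rw [dif_pos hex]
    exact Classical.choose_spec hex
  have m : Mt G H' f g := by
    refine ⟨hf_self, ?_, hf_in, fun v w hw => (hg_spec v w hw).1, ?_,
      fun v w hw => (hg_spec v w hw).2, ?_⟩
    · intro v
      obtain ⟨h1, h2⟩ := hg_spec v v (InB.self _ _)
      refine hf_inj v _ _ h1 (InB.self _ _) ?_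
      rw [h2, hf_self]
    · intro v w hw
      obtain ⟨h1, h2⟩ := hg_spec v (f v w) (hf_in v w hw)
      exact hf_inj v _ _ h1 hw h2
    · intro v a b ha hb
      rw [hF3 v a ((edist_iff G v a).2 ha) b ((edist_iff G v b).2 hb), hH',
        SimpleGraph.comap_adj, hσf, hσf]
  obtain ⟨e⟩ := h H' f g m
  exact ⟨e.trans (SimpleGraph.Iso.comap σ H)⟩

end Pool.Agent.U140.SG
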