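import Pool.Agent.U140.SG.Blk

/-! Anti-concentration of level counts. -/

set_option linter.unusedSectionVars false
set_option linter.unusedVariables false

namespace Pool.Agent.U140.SG

open Finset Pool.Agent.Q299.PW

section

variable {κ' : Type*} [Fintype κ'] [DecidableEq κ']

/-- fair coins -/
lemma coin_bound (D : Finset κ') (k : ℕ) {M₀ : ℝ} (hM0 : 0 < M₀) (hM : M₀ ≤ D.card) :
    Ex (wp (1 / 2)) (fun ε : κ' → Bool => if (D.filter fun a => ε a = false).card = k then
      (1 : ℝ) else 0) ≤ Real.sqrt (1 / M₀) := by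
  classical
  have hcnt : ∀ ε : κ' → Bool, cnt ({false} : Finset Bool) D ε =
      (D.filter fun a => ε a = false).card := by
    intro ε
    unfold cnt
    congr 1
    ext a
    simp
  have h1 := Pr_cnt_eq (ι := κ') (w := wp (1 / 2)) (wp_sum _) ({false} : Finset Bool) D k
  have h2 : Ex (wp (1 / 2)) (fun ε : κ' → Bool => if (D.filter fun a => ε a = false).card = k then
      (1 : ℝ) else 0) = Pr (wp (1 / 2)) (fun ε : κ' → Bool => cnt ({false} : Finset Bool) D ε = k) := by
    unfold Pr
    refine congrArg (Ex _) (funext fun ε => ?_)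
    by_cases h : (D.filter fun a => ε a = false).card = k
    · have h' : cnt ({false} : Finset Bool) D ε = k := by rw [hcnt]; exact h
      simp only [if_pos h, if_pos h']
    · have h' : ¬ cnt ({false} : Finset Bool) D ε = k := by rw [hcnt]; exact h
      simp only [if_neg h, if_neg h']
  rw [h2, h1]
  have e1 : ∑ a ∈ ({false} : Finset Bool), wp (1 / 2) a = 1 / 2 := by
    simp [wp]; norm_num
  rw [e1]
  have hD0 : (0 : ℝ) < D.card := by linarith
  apply Real.le_sqrt_of_sq_le
  by_cases hk : k ≤ D.card
  · have e2 : ((D.card.choose k : ℕ) : ℝ) * (1 / 2) ^ k * (1 - 1 / 2) ^ (D.card - k) =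
        (D.card.choose k : ℝ) / 2 ^ D.card := by
      have : (1 - 1 / 2 : ℝ) = 1 / 2 := by norm_num
      rw [this, mul_assoc, ← pow_add, Nat.add_sub_cancel' hk, div_pow, one_pow, mul_one_div]
    rw [e2, div_pow]
    have h3 := choose_sq D.card k
    have h4 : ((D.card.choose k : ℝ)) ^ 2 * D.card ≤ 4 ^ D.card := by exact_mod_cast h3
    have h5 : ((2 : ℝ) ^ D.card) ^ 2 = 4 ^ D.card := by
      rw [← pow_mul, mul_comm, pow_mul]; norm_num
    rw [h5, div_le_div_iff₀ (by positivity) hM0, one_mul]
    calc ((D.card.choose k : ℝ)) ^ 2 * M₀ ≤ ((D.card.choose k : ℝ)) ^ 2 * D.card := by gcongr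
      _ ≤ 4 ^ D.card := h4
  · rw [Nat.choose_eq_zero_of_lt (by omega)]
    simp only [Nat.cast_zero, zero_mul]
    rw [zero_pow (by norm_num)]
    exact div_nonneg zero_le_one hM0.le

variable {N m J : ℕ} (wB : Fin (N + 1) → ℝ) (θ : ℝ)

abbrev Lam (N J : ℕ) := Fin (N + 1) ⊕ Fin J

noncomputable def wLam (m J : ℕ) : Lam N J → ℝ
  | Sum.inl b => wB b - (if m ≤ (b : ℕ) ∧ (b : ℕ) < m + 2 * J then θ else 0)
  | Sum.inr _ => 2 * θ

def hLam (hm : m + 2 * J ≤ N + 1) : Lam N J × Bool → Fin (N + 1)
  | (Sum.inl b, _) => b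
  | (Sum.inr i, ε) => ⟨m + 2 * i + (if ε then 1 else 0), by
      have := i.2; split_ifs <;> omega⟩

lemma window_sum (m J x : ℕ) (θ : ℝ) :
    ∑ i : Fin J, ∑ ε : Bool, (if m + 2 * (i : ℕ) + (if ε then 1 else 0) = x then θ else 0) =
      if m ≤ x ∧ x < m + 2 * J then θ else 0 := by
  classical
  rw [← Fintype.sum_prod_type' (f := fun (i : Fin J) (ε : Bool) =>
    if m + 2 * (i : ℕ) + (if ε then 1 else 0) = x then θ else 0)]
  by_cases h : m ≤ x ∧ x < m + 2 * J
  · rw [if_pos h]
    have hi : (x - m) / 2 < J := by omega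
    rw [sum_eq_single ((⟨(x - m) / 2, hi⟩, decide ((x - m) % 2 = 1)) : Fin J × Bool)]
    · rw [if_pos]
      simp only
      by_cases hp : (x - m) % 2 = 1
      · simp only [hp, decide_true, if_true]; omega
      · simp only [hp, decide_false]; simp; omega
    · rintro ⟨i, ε⟩ _ hne
      rw [if_neg]
      intro hh
      apply hne
      cases ε
      · simp only [Bool.false_eq_true, if_false] at hh
        refine Prod.ext (Fin.ext ?_) ?_
        · simp only; omega
        · simp only
          have : ¬ (x - m) % 2 = 1 := by omega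
          simp [this]
      · simp only [if_true] at hh
        refine Prod.ext (Fin.ext ?_) ?_
        · simp only; omega
        · simp only
          have : (x - m) % 2 = 1 := by omega
          simp [this]
    · intro hh; exact absurd (mem_univ _) hh
  · rw [if_neg h]
    refine sum_eq_zero ?_
    rintro ⟨i, ε⟩ _
    rw [if_neg]
    intro hh
    have := i.2
    cases ε
    · simp only [Bool.false_eq_true, if_false] at hh
      omega
    · simp only [if_true] at hh
      omega

lemma push_ok (hm : m + 2 * J ≤ N + 1) (x : Fin (N + 1)) :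
    wB x = ∑ y : Lam N J × Bool, if hLam hm y = x then
      (wLam wB θ m J y.1 * wp (1 / 2) y.2) else 0 := by
  classical
  rw [Fintype.sum_prod_type, Fintype.sum_sum_type]
  have e1 : ∑ b : Fin (N + 1), ∑ ε : Bool, (if hLam hm (Sum.inl b, ε) = x then
      (wLam wB θ m J (Sum.inl b) * wp (1 / 2) ε) else 0) = wLam wB θ m J (Sum.inl x) := by
    rw [sum_eq_single x]
    · simp [hLam, wp]; ring
    · intro b _ hb
      simp [hLam, hb]
    · intro hh; exact absurd (mem_univ _) hh
  have e2 : ∑ i : Fin J, ∑ ε : Bool, (if hLam hm (Sum.inr i, ε) = x then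
      (wLam wB θ m J (Sum.inr i) * wp (1 / 2) ε) else 0) =
      ∑ i : Fin J, ∑ ε : Bool,
        (if m + 2 * (i : ℕ) + (if ε then 1 else 0) = (x : ℕ) then θ else 0) := by
    refine sum_congr rfl fun i _ => sum_congr rfl fun ε _ => ?_
    refine if_congr ?_ ?_ rfl
    · unfold hLam
      rw [Fin.ext_iff]
    · unfold wLam wp
      cases ε <;> simp <;> ring
  simp only at e1 e2 ⊢
  rw [e1, e2, window_sum]
  unfold wLam
  ring

theorem ac_prod (hB0 : ∀ b, 0 ≤ wB b) (hB1 : ∑ b, wB b = 1) (hθ0 : 0 < θ)
    (hθ : ∀ b : Fin (N + 1), m ≤ (b : ℕ) → (b : ℕ) < m + 2 * J → θ ≤ wB b)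
    (hm : m + 2 * J ≤ N + 1) (hs : 0 < Fintype.card κ') (t : ℕ → ℕ) :
    Ex wB (fun ω : κ' → Fin (N + 1) => if (∀ i < J,
      (univ.filter fun a => ((ω a : Fin (N + 1)) : ℕ) = m + 2 * i).card = t i) then (1 : ℝ) else 0) ≤
      J * Real.exp (-(θ * Fintype.card κ' / 2)) +
        (Real.sqrt (2 / (θ * Fintype.card κ'))) ^ J := by
  classical
  set s : ℝ := (Fintype.card κ' : ℝ) with hsdef
  have hs0 : 0 < s := by rw [hsdef]; exact_mod_cast hs
  set F : (κ' → Fin (N + 1)) → ℝ := fun ω => if (∀ i < J,
      (univ.filter fun a => ((ω a : Fin (N + 1)) : ℕ) = m + 2 * i).card = t i) then (1 : ℝ) else 0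
    with hF
  have hwL0 : ∀ l : Lam N J, 0 ≤ wLam wB θ m J l := by
    rintro (b | i)
    · unfold wLam
      simp only
      split_ifs with h
      · have := hθ b h.1 h.2; linarith
      · have := hB0 b; linarith
    · unfold wLam; simp only; linarith
  have hwin : ∑ b : Fin (N + 1), (if m ≤ (b : ℕ) ∧ (b : ℕ) < m + 2 * J then θ else 0) =
      2 * J * θ := by
    have h1 : ∑ b : Fin (N + 1), (if m ≤ (b : ℕ) ∧ (b : ℕ) < m + 2 * J then θ else 0) =
        ∑ b : Fin (N + 1), ∑ i : Fin J, ∑ ε : Bool,
          (if m + 2 * (i : ℕ) + (if ε then 1 else 0) = (b : ℕ) then θ else 0) :=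
      sum_congr rfl fun b _ => (window_sum m J b θ).symm
    rw [h1, sum_comm]
    have h2 : ∀ i : Fin J, ∑ b : Fin (N + 1), ∑ ε : Bool,
        (if m + 2 * (i : ℕ) + (if ε then 1 else 0) = (b : ℕ) then θ else 0) = 2 * θ := by
      intro i
      rw [sum_comm]
      have h3 : ∀ ε : Bool, ∑ b : Fin (N + 1),
          (if m + 2 * (i : ℕ) + (if ε then 1 else 0) = (b : ℕ) then θ else 0) = θ := by
        intro ε
        have hlt : m + 2 * (i : ℕ) + (if ε then 1 else 0) < N + 1 := by
          have := i.2; split_ifs <;> omega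
        rw [sum_eq_single (⟨m + 2 * (i : ℕ) + (if ε then 1 else 0), hlt⟩ : Fin (N + 1))]
        · simp
        · intro b _ hb
          rw [if_neg]
          intro hh
          exact hb (Fin.ext hh.symm)
        · intro hh; exact absurd (mem_univ _) hh
      rw [Fintype.sum_bool, h3, h3]; ring
    rw [sum_congr rfl fun i _ => h2 i, sum_const, card_univ, Fintype.card_fin, nsmul_eq_mul]
    ring
  have hwL1 : ∑ l : Lam N J, wLam wB θ m J l = 1 := by
    rw [Fintype.sum_sum_type]
    have e1 : ∑ b : Fin (N + 1), wLam wB θ m J (Sum.inl b) = 1 - 2 * J * θ := by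
      unfold wLam
      simp only
      rw [sum_sub_distrib, hB1, hwin]
    have e2 : ∑ i : Fin J, wLam (N := N) wB θ m J (Sum.inr i) = 2 * J * θ := by
      unfold wLam
      simp only
      rw [sum_const, card_univ, Fintype.card_fin, nsmul_eq_mul]
      ring
    rw [e1, e2]; ring
  have hpush := Ex_push (ι := κ') (w := wB) (fun y : Lam N J × Bool =>
    wLam wB θ m J y.1 * wp (1 / 2) y.2) (hLam hm) (fun x => push_ok wB θ hm x) F
  have hpair := Ex_pair (ι := κ') (w := wLam wB θ m J) (wp (1 / 2))
    (fun z : κ' → Lam N J × Bool => F (fun a => hLam hm (z a)))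
  rw [← hpush, hpair]
  set M₀ : ℝ := θ * s / 2 with hM₀
  have hM₀p : 0 < M₀ := by rw [hM₀]; positivity
  have hsq : Real.sqrt (1 / M₀) = Real.sqrt (2 / (θ * s)) := by
    congr 1; rw [hM₀]; field_simp
  -- pointwise bound in the labels
  have hpt : ∀ l : κ' → Lam N J, Ex (wp (1 / 2)) (fun ε : κ' → Bool =>
      F (fun a => hLam hm (l a, ε a))) ≤
      (if ∃ i ∈ (univ : Finset (Fin J)), (cnt ({Sum.inr i} : Finset (Lam N J)) univ l : ℝ) ≤ M₀
        then (1 : ℝ) else 0) + (Real.sqrt (1 / M₀)) ^ J := by
    intro l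
    by_cases hb : ∃ i ∈ (univ : Finset (Fin J)),
        (cnt ({Sum.inr i} : Finset (Lam N J)) univ l : ℝ) ≤ M₀
    · rw [if_pos hb]
      have h1 : Ex (wp (1 / 2)) (fun ε : κ' → Bool => F (fun a => hLam hm (l a, ε a))) ≤ 1 := by
        refine (Ex_mono (wp_nonneg (by norm_num) (by norm_num)) (g := fun _ => (1 : ℝ))
          fun ε => ?_).trans (le_of_eq (Ex_const (wp_sum _) 1))
        rw [hF]; simp only; split_ifs <;> norm_num
      have h2 : 0 ≤ (Real.sqrt (1 / M₀)) ^ J := by positivity
      linarith
    · rw [if_neg hb, zero_add]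
      push Not at hb
      set Act : Fin J → Finset κ' := fun i => univ.filter fun a => l a = Sum.inr i with hAct
      have hActc : ∀ i, M₀ ≤ (Act i).card := by
        intro i
        have := hb i (mem_univ _)
        have e : cnt ({Sum.inr i} : Finset (Lam N J)) univ l = (Act i).card := by
          unfold cnt
          rw [hAct]
          congr 1
          ext a; simp
        rw [e] at this
        exact this.le
      set k : Fin J → ℕ := fun i => t i -
        (univ.filter fun a : κ' => ∃ b : Fin (N + 1), l a = Sum.inl b ∧ (b : ℕ) = m + 2 * i).card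
        with hk
      have h1 : Ex (wp (1 / 2)) (fun ε : κ' → Bool => F (fun a => hLam hm (l a, ε a))) ≤
          Ex (wp (1 / 2)) (fun ε : κ' → Bool => ∏ i : Fin J,
            (if ((Act i).filter fun a => ε a = false).card = k i then (1 : ℝ) else 0)) := by
        refine Ex_mono (wp_nonneg (by norm_num) (by norm_num)) fun ε => ?_
        rw [hF]
        simp only
        split_ifs with h
        · rw [prod_eq_one]
          intro i _
          rw [if_pos]
          have h2 := h i i.2
          have h3 : (univ.filter fun a : κ' =>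
              ((hLam hm (l a, ε a) : Fin (N + 1)) : ℕ) = m + 2 * (i : ℕ)) =
              ((Act i).filter fun a => ε a = false) ∪
              (univ.filter fun a : κ' => ∃ b : Fin (N + 1), l a = Sum.inl b ∧ (b : ℕ) = m + 2 * i) := by
            ext a
            simp only [mem_filter, mem_univ, true_and, mem_union, hAct]
            constructor
            · intro hh
              rcases hl : l a with b | i'
              · right
                rw [hl] at hh
                exact ⟨b, rfl, hh⟩
              · left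
                rw [hl] at hh
                unfold hLam at hh
                simp only at hh
                rcases hε : ε a with _ | _
                · rw [hε] at hh
                  simp only [Bool.false_eq_true, if_false] at hh
                  refine ⟨?_, rfl⟩
                  congr 1
                  exact Fin.ext (by omega)
                · rw [hε] at hh
                  simp only [if_true] at hh
                  omega
            · rintro (⟨h4, h5⟩ | ⟨b, h4, h5⟩)
              · rw [h4, h5]; unfold hLam; simp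
              · rw [h4]; unfold hLam; exact h5
          rw [h3, card_union_of_disjoint] at h2
          · rw [hk]; simp only; omega
          · rw [disjoint_left]
            intro a ha ha'
            simp only [mem_filter, mem_univ, true_and, hAct] at ha ha'
            obtain ⟨b, hb1, hb2⟩ := ha'
            rw [ha.1] at hb1
            exact absurd hb1 (by simp)
        · exact prod_nonneg fun i _ => by split_ifs <;> norm_num
      refine h1.trans ?_
      rw [Ex_prod_blocks (wp_sum _) (univ : Finset (Fin J)) Act]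
      · have h2 : ∀ i ∈ (univ : Finset (Fin J)), Ex (wp (1 / 2)) (fun ε : κ' → Bool =>
            if ((Act i).filter fun a => ε a = false).card = k i then (1 : ℝ) else 0) ≤
            Real.sqrt (1 / M₀) := fun i _ => coin_bound (Act i) (k i) hM₀p (hActc i)
        refine (prod_le_prod (fun i _ => Ex_nonneg (wp_nonneg (by norm_num) (by norm_num))
          fun ε => by split_ifs <;> norm_num) h2).trans ?_
        rw [prod_const, card_univ, Fintype.card_fin]
      · intro i _ ε ε' hh
        have : (Act i).filter (fun a => ε a = false) = (Act i).filter (fun a => ε' a = false) :=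
          filter_congr fun a ha => by rw [hh a ha]
        rw [this]
      · intro i _ i' _ hne
        rw [disjoint_left]
        intro a ha ha'
        simp only [mem_filter, mem_univ, true_and, hAct] at ha ha'
        rw [ha] at ha'
        exact hne (Sum.inr_injective ha')
  refine (Ex_mono hwL0 hpt).trans ?_
  rw [Ex_add, Ex_const hwL1, hsq]
  refine add_le_add ?_ le_rfl
  have h3 : Ex (wLam wB θ m J) (fun l : κ' → Lam N J => if ∃ i ∈ (univ : Finset (Fin J)),
      (cnt ({Sum.inr i} : Finset (Lam N J)) univ l : ℝ) ≤ M₀ then (1 : ℝ) else 0) =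
      Pr (wLam wB θ m J) (fun l : κ' → Lam N J => ∃ i ∈ (univ : Finset (Fin J)),
      (cnt ({Sum.inr i} : Finset (Lam N J)) univ l : ℝ) ≤ M₀) := by
    unfold Pr
    refine congrArg (Ex _) (funext fun l => ?_)
    by_cases h : ∃ i ∈ (univ : Finset (Fin J)),
      (cnt ({Sum.inr i} : Finset (Lam N J)) univ l : ℝ) ≤ M₀
    · rw [if_pos h, if_pos h]
    · rw [if_neg h, if_neg h]
  rw [h3]
  refine (Pr_exists_le hwL0 _ _).trans ?_
  have h4 : ∀ i ∈ (univ : Finset (Fin J)), Pr (wLam wB θ m J) (fun l : κ' → Lam N J =>
      (cnt ({Sum.inr i} : Finset (Lam N J)) univ l : ℝ) ≤ M₀) ≤ Real.exp (-(θ * s / 2)) := by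
    intro i _
    refine (Pr_cnt_le hwL0 hwL1 ({Sum.inr i} : Finset (Lam N J)) univ (t := 1) (r := M₀)
      (by norm_num)).trans ?_
    rw [Real.exp_le_exp]
    have e1 : ∑ a ∈ ({Sum.inr i} : Finset (Lam N J)), wLam wB θ m J a = 2 * θ := by
      rw [sum_singleton]; rfl
    rw [e1, card_univ, ← hsdef, hM₀]
    have e2 : Real.exp (-1) ≤ 1 / 2 := by
      rw [Real.exp_neg, one_div]
      exact inv_anti₀ (by norm_num) (by have := Real.add_one_le_exp (1:ℝ); linarith)
    have e3 : 0 < s * θ := by positivity
    nlinarith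
  refine (sum_le_sum h4).trans ?_
  rw [sum_const, card_univ, Fintype.card_fin, nsmul_eq_mul]

end

end Pool.Agent.U140.SG
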