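import Mathlib

/-! Lower bounds for the binomial law near its mean. -/

set_option linter.unusedSectionVars false
set_option linter.unusedVariables false

namespace Pool.Agent.U140.SG

open Finset Polynomial

noncomputable def bp (N : ℕ) (p : ℝ) (k : ℕ) : ℝ := (N.choose k : ℝ) * p ^ k * (1 - p) ^ (N - k)

variable {N : ℕ} {p : ℝ}

lemma bp_nonneg (h0 : 0 ≤ p) (h1 : p ≤ 1) (k : ℕ) : 0 ≤ bp N p k := by
  unfold bp
  have : 0 ≤ 1 - p := by linarith
  positivity

lemma bp_sum (N : ℕ) (p : ℝ) : ∑ k ∈ range (N + 1), bp N p k = 1 := by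
  have h := add_pow p (1 - p) N
  rw [add_sub_cancel, one_pow] at h
  rw [h]
  refine sum_congr rfl fun k _ => ?_
  unfold bp
  ring

lemma bp_step {k : ℕ} (hk : k < N) :
    bp N p (k + 1) * ((k + 1) * (1 - p)) = bp N p k * ((N - k : ℕ) * p) := by
  unfold bp
  have h := Nat.choose_succ_right_eq N k
  have h' : (N.choose (k + 1) : ℝ) * (k + 1) = N.choose k * ((N - k : ℕ) : ℝ) := by exact_mod_cast h
  have e : N - k = (N - (k + 1)) + 1 := by omega
  have e2 : (1 - p) ^ (N - k) = (1 - p) ^ (N - (k + 1)) * (1 - p) := by rw [e, pow_succ]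
  calc (N.choose (k + 1) : ℝ) * p ^ (k + 1) * (1 - p) ^ (N - (k + 1)) * ((k + 1) * (1 - p))
      = ((N.choose (k + 1) : ℝ) * (k + 1)) * p ^ (k + 1) * ((1 - p) ^ (N - (k + 1)) * (1 - p)) := by
        ring
    _ = (N.choose k * ((N - k : ℕ) : ℝ)) * p ^ (k + 1) * (1 - p) ^ (N - k) := by rw [h', e2]
    _ = _ := by ring

lemma bp_var (N : ℕ) (p : ℝ) :
    ∑ k ∈ range (N + 1), ((N : ℝ) * p - k) ^ 2 * bp N p k = N * p * (1 - p) := by
  have h := congrArg (Polynomial.eval p) (bernsteinPolynomial.variance (R := ℝ) N)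
  rw [Polynomial.eval_finsetSum] at h
  simp only [bernsteinPolynomial, nsmul_eq_mul, Polynomial.eval_mul, Polynomial.eval_pow,
    Polynomial.eval_sub, Polynomial.eval_X, Polynomial.eval_one, Polynomial.eval_natCast] at h
  unfold bp
  exact h

/-- increasing below the mean -/
lemma bp_mono_below (h0 : 0 < p) (h1 : p ≤ 1 / 4) {m : ℕ} (hm : (m : ℝ) ≤ N * p) (hmN : m ≤ N)
    {k : ℕ} (hk : k ≤ m) : bp N p k ≤ bp N p m := by
  induction m, hk using Nat.le_induction with
  | base => exact le_rfl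
  | succ m hkm ih =>
    have hm' : (m : ℝ) + 1 ≤ N * p := by push_cast at hm; exact hm
    have ih' := ih (by linarith) (by omega)
    refine ih'.trans ?_
    have hlt : m < N := by omega
    have hs := bp_step (p := p) hlt
    have hp := bp_nonneg (N := N) h0.le (by linarith : p ≤ 1) m
    have hcast : ((N - m : ℕ) : ℝ) = N - m := by rw [Nat.cast_sub hlt.le]
    rw [hcast] at hs
    have hpos : 0 < ((m : ℝ) + 1) * (1 - p) := mul_pos (by positivity) (by linarith)
    have hle : ((m : ℝ) + 1) * (1 - p) ≤ ((N : ℝ) - m) * p := by nlinarith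
    have h3 : bp N p m * (((m : ℝ) + 1) * (1 - p)) ≤ bp N p (m + 1) * (((m : ℝ) + 1) * (1 - p)) := by
      rw [hs]
      exact mul_le_mul_of_nonneg_left hle hp
    exact le_of_mul_le_mul_right h3 hpos

/-- decreasing above the mean -/
lemma bp_anti_above (h0 : 0 < p) (h1 : p ≤ 1 / 4) {m : ℕ} (hm : (N : ℝ) * p < m) {k : ℕ}
    (hk : m ≤ k) (hkN : k ≤ N) : bp N p k ≤ bp N p m := by
  induction k, hk using Nat.le_induction with
  | base => exact le_rfl
  | succ k hmk ih =>
    refine le_trans ?_ (ih (by omega))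
    have hlt : k < N := by omega
    have hs := bp_step (p := p) hlt
    have hp := bp_nonneg (N := N) h0.le (by linarith : p ≤ 1) k
    have hcast : ((N - k : ℕ) : ℝ) = N - k := by rw [Nat.cast_sub hlt.le]
    rw [hcast] at hs
    have hpos : 0 < ((k : ℝ) + 1) * (1 - p) := mul_pos (by positivity) (by linarith)
    have hmk' : (m : ℝ) ≤ k := by exact_mod_cast hmk
    have hle : ((N : ℝ) - k) * p ≤ ((k : ℝ) + 1) * (1 - p) := by nlinarith
    have h3 : bp N p (k + 1) * (((k : ℝ) + 1) * (1 - p)) ≤ bp N p k * (((k : ℝ) + 1) * (1 - p)) := by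
      rw [hs]
      exact mul_le_mul_of_nonneg_left hle hp
    exact le_of_mul_le_mul_right h3 hpos

/-- the value at the mean dominates up to a factor two -/
lemma bp_mode (h0 : 0 < p) (h1 : p ≤ 1 / 4) {m : ℕ} (hm : (m : ℝ) ≤ N * p)
    (hm' : (N : ℝ) * p < m + 1) (hmN : m < N) {k : ℕ} (hk : k ≤ N) : bp N p k ≤ 2 * bp N p m := by
  have hp0 := bp_nonneg (N := N) h0.le (by linarith : p ≤ 1) m
  by_cases hkm : k ≤ m
  · have := bp_mono_below h0 h1 hm hmN.le hkm
    linarith
  · push Not at hkm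
    have h2 := bp_anti_above (N := N) h0 h1 (m := m + 1) (by push_cast; exact hm') (k := k)
      hkm hk
    refine h2.trans ?_
    have hs := bp_step (p := p) hmN
    have hp := bp_nonneg (N := N) h0.le (by linarith : p ≤ 1) (m + 1)
    have hcast : ((N - m : ℕ) : ℝ) = N - m := by rw [Nat.cast_sub hmN.le]
    rw [hcast] at hs
    have hle : ((N : ℝ) - m) * p ≤ (m : ℝ) + 1 := by nlinarith [(Nat.cast_nonneg m : (0:ℝ) ≤ m)]
    have h3 : bp N p (m + 1) * ((m + 1) * (1 - p)) ≤ bp N p m * (m + 1) := by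
      rw [hs]
      exact mul_le_mul_of_nonneg_left hle hp0
    have hm1 : (0 : ℝ) < m + 1 := by positivity
    have h4 : bp N p (m + 1) * (1 - p) ≤ bp N p m := by
      have : bp N p (m + 1) * (1 - p) * (m + 1) ≤ bp N p m * (m + 1) := by linarith
      exact le_of_mul_le_mul_right this hm1
    nlinarith

lemma card_near (S : Finset ℕ) {x y : ℝ} (hy : 0 ≤ y) (hS : ∀ k ∈ S, |x - k| < y) :
    (S.card : ℝ) ≤ 2 * y + 1 := by
  rcases S.eq_empty_or_nonempty with rfl | hne
  · simp; linarith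
  have h1 : S ⊆ Icc (S.min' hne) (S.max' hne) := by
    intro k hk
    rw [mem_Icc]
    exact ⟨S.min'_le k hk, S.le_max' k hk⟩
  have h2 := card_le_card h1
  rw [Nat.card_Icc] at h2
  have a1 := hS _ (S.min'_mem hne)
  have a2 := hS _ (S.max'_mem hne)
  rw [abs_lt] at a1 a2
  have h3 : S.min' hne ≤ S.max' hne := S.min'_le _ (S.max'_mem hne)
  have h4 : (S.card : ℝ) ≤ (S.max' hne : ℝ) + 1 - S.min' hne := by
    have : S.card + S.min' hne ≤ S.max' hne + 1 := by omega
    have : (S.card : ℝ) + S.min' hne ≤ S.max' hne + 1 := by exact_mod_cast this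
    linarith
  linarith

/-- value at the mean, large mean -/
lemma bp_mean_large (h0 : 0 < p) (h1 : p ≤ 1 / 4) (hq : 1 ≤ (N : ℝ) * p) {m : ℕ}
    (hm : (m : ℝ) ≤ N * p) (hm' : (N : ℝ) * p < m + 1) (hmN : m < N) :
    3 / (40 * Real.sqrt (N * p)) ≤ bp N p m := by
  classical
  set q : ℝ := N * p with hqdef
  set σ : ℝ := Real.sqrt q with hσ
  have hσ1 : 1 ≤ σ := by rw [hσ]; exact Real.one_le_sqrt.2 hq
  have hσσ : σ * σ = q := Real.mul_self_sqrt (by linarith)
  set S := (range (N + 1)).filter fun k : ℕ => |q - k| < 2 * σ with hS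
  have hvar := bp_var N p
  have hsplit := sum_filter_add_sum_filter_not (range (N + 1)) (fun k : ℕ => |q - k| < 2 * σ)
    (fun k => bp N p k)
  rw [bp_sum] at hsplit
  have hout : ∑ k ∈ (range (N + 1)).filter (fun k : ℕ => ¬ |q - k| < 2 * σ), bp N p k ≤ 1 / 4 := by
    have h2 : (4 * q) * ∑ k ∈ (range (N + 1)).filter (fun k : ℕ => ¬ |q - k| < 2 * σ), bp N p k ≤
        q * (1 - p) := by
      rw [mul_sum]
      calc ∑ k ∈ (range (N + 1)).filter (fun k : ℕ => ¬ |q - k| < 2 * σ), 4 * q * bp N p k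
          ≤ ∑ k ∈ (range (N + 1)).filter (fun k : ℕ => ¬ |q - k| < 2 * σ),
            ((N : ℝ) * p - k) ^ 2 * bp N p k := by
            refine sum_le_sum fun k hk => ?_
            have hk2 := (mem_filter.1 hk).2
            push Not at hk2
            refine mul_le_mul_of_nonneg_right ?_ (bp_nonneg h0.le (by linarith) k)
            rw [← hqdef, ← sq_abs (q - k)]
            nlinarith
        _ ≤ ∑ k ∈ range (N + 1), ((N : ℝ) * p - k) ^ 2 * bp N p k :=
            sum_le_sum_of_subset_of_nonneg (filter_subset _ _) fun k _ _ =>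
              mul_nonneg (sq_nonneg _) (bp_nonneg h0.le (by linarith) k)
        _ = q * (1 - p) := hvar
    have h3 : q * (1 - p) ≤ q := by nlinarith
    have h4 : 0 < 4 * q := by linarith
    by_contra hh
    have hh' := not_le.1 hh
    have := mul_lt_mul_of_pos_left hh' h4
    linarith
  have hin : 3 / 4 ≤ ∑ k ∈ S, bp N p k := by linarith
  have hcard : (S.card : ℝ) ≤ 5 * σ := by
    have := card_near S (x := q) (y := 2 * σ) (by linarith) fun k hk => (mem_filter.1 hk).2
    linarith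
  have hp0 := bp_nonneg (N := N) h0.le (by linarith : p ≤ 1) m
  have hup : ∑ k ∈ S, bp N p k ≤ 5 * σ * (2 * bp N p m) := by
    calc ∑ k ∈ S, bp N p k ≤ ∑ k ∈ S, 2 * bp N p m := by
          refine sum_le_sum fun k hk => bp_mode h0 h1 hm hm' hmN ?_
          have := mem_range.1 (mem_filter.1 hk).1
          omega
      _ = S.card * (2 * bp N p m) := by rw [sum_const, nsmul_eq_mul]
      _ ≤ 5 * σ * (2 * bp N p m) := mul_le_mul_of_nonneg_right hcard (by linarith)
  rw [div_le_iff₀ (by positivity)]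
  nlinarith

/-- value at zero, small mean -/
lemma bp_mean_small (h0 : 0 < p) (h1 : p ≤ 1 / 4) (hq : (N : ℝ) * p < 1) :
    1 / 8 ≤ bp N p 0 := by
  unfold bp
  simp only [Nat.choose_zero_right, Nat.cast_one, pow_zero, one_mul, Nat.sub_zero]
  have h2 : Real.exp (-(2 * p)) ≤ 1 - p := by
    rw [Real.exp_neg]
    have h3 := Real.add_one_le_exp (2 * p)
    have h4 : (1 - p) * (2 * p + 1) ≥ 1 := by nlinarith
    have h5 : 0 < 1 - p := by linarith
    rw [inv_le_comm₀ (Real.exp_pos _) h5]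
    refine le_trans ?_ h3
    rw [inv_le_iff_one_le_mul₀ h5]
    linarith
  have h3 : Real.exp (-2) ≤ (1 - p) ^ N := by
    calc Real.exp (-2) ≤ Real.exp (-(2 * (N * p))) := by
          rw [Real.exp_le_exp]; linarith
      _ = (Real.exp (-(2 * p))) ^ N := by rw [← Real.exp_nat_mul]; congr 1; ring
      _ ≤ (1 - p) ^ N := pow_le_pow_left₀ (Real.exp_pos _).le h2 N
  refine le_trans ?_ h3
  rw [Real.exp_neg, one_div]
  refine inv_anti₀ (Real.exp_pos _) ?_
  have e1 : Real.exp 2 = Real.exp 1 ^ 2 := by rw [← Real.exp_nat_mul]; norm_num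
  rw [e1]
  have := Real.exp_one_lt_d9
  have h5 := Real.exp_pos 1
  nlinarith

/-- consecutive levels near the mean -/
theorem bp_window (h0 : 0 < p) (h1 : p ≤ 1 / 4) {J : ℕ} (hJ : 1 ≤ J) (hN : 8 * J ≤ N) :
    ∃ m : ℕ, m + 2 * J ≤ N + 1 ∧ ∀ k, m ≤ k → k < m + 2 * J →
      1 / (20 * Real.sqrt (max 1 (N * p))) * (min 1 (N * p) / (4 * J + 4)) ^ (2 * J) ≤
        bp N p k := by
  set q : ℝ := N * p with hqdef
  have hN1 : 1 ≤ N := by omega
  have hNr : (8 * J : ℝ) ≤ N := by exact_mod_cast hN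
  have hJr : (1 : ℝ) ≤ J := by exact_mod_cast hJ
  have hN0 : (0 : ℝ) < N := by linarith
  have hq0 : 0 < q := by rw [hqdef]; positivity
  set m := ⌊q⌋₊ with hm
  have hm1 : (m : ℝ) ≤ q := Nat.floor_le hq0.le
  have hm2 : q < m + 1 := Nat.lt_floor_add_one q
  have hqN : q ≤ N / 4 := by rw [hqdef]; nlinarith
  have hmN : (m : ℝ) + 2 * J < N := by linarith
  have hmN' : m + 2 * J < N := by exact_mod_cast hmN
  refine ⟨m, by omega, ?_⟩
  have hbase : 1 / (20 * Real.sqrt (max 1 q)) ≤ bp N p m := by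
    by_cases hq : 1 ≤ q
    · rw [max_eq_right hq]
      refine le_trans ?_ (bp_mean_large h0 h1 hq hm1 hm2 (by omega))
      rw [← hqdef, div_le_div_iff₀ (by positivity) (by positivity)]
      have := Real.sqrt_nonneg q
      linarith
    · push Not at hq
      have hm0 : m = 0 := by
        rw [hm]; exact Nat.floor_eq_zero.2 hq
      rw [max_eq_left hq.le, hm0, Real.sqrt_one]
      refine le_trans ?_ (bp_mean_small h0 h1 hq)
      norm_num
  set r : ℝ := min 1 q / (4 * J + 4) with hr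
  have hmin0 : 0 < min 1 q := lt_min one_pos hq0
  have hr0 : 0 < r := by rw [hr]; positivity
  have hr1 : r ≤ 1 := by
    rw [hr, div_le_one (by positivity)]
    have : min 1 q ≤ 1 := min_le_left _ _
    linarith
  have hstep : ∀ i, i < 2 * J → bp N p (m + i) * r ≤ bp N p (m + i + 1) := by
    intro i hi
    have hlt : m + i < N := by omega
    have hs := bp_step (p := p) hlt
    have hp := bp_nonneg (N := N) h0.le (by linarith : p ≤ 1) (m + i + 1)
    have hp' := bp_nonneg (N := N) h0.le (by linarith : p ≤ 1) (m + i)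
    have hcast : ((N - (m + i) : ℕ) : ℝ) = N - (m + i) := by
      rw [Nat.cast_sub hlt.le]; push_cast; ring
    rw [hcast] at hs
    push_cast at hs
    have hir : (i : ℝ) < 2 * J := by exact_mod_cast hi
    have hi0 : (0 : ℝ) ≤ i := Nat.cast_nonneg i
    have hm0 : (0 : ℝ) ≤ m := Nat.cast_nonneg m
    -- numerator
    have hnum : q / 2 ≤ ((N : ℝ) - (m + i)) * p := by
      have h3 : ((m : ℝ) + i) ≤ N / 2 := by linarith
      have h4 : (N : ℝ) / 2 * p ≤ ((N : ℝ) - (m + i)) * p :=
        mul_le_mul_of_nonneg_right (by linarith) h0.le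
      rw [hqdef]; linarith
    have hden : ((m : ℝ) + i + 1) ≤ (2 * J + 2) * max 1 q := by
      have h3 : (1 : ℝ) ≤ max 1 q := le_max_left _ _
      have h4 : q ≤ max 1 q := le_max_right _ _
      have h5 : (i : ℝ) + 1 ≤ 2 * J := by
        have : i + 1 ≤ 2 * J := hi
        exact_mod_cast this
      nlinarith
    have hrr : r * ((m : ℝ) + i + 1) ≤ q / 2 := by
      have h3 : min 1 q * max 1 q = q := by rw [min_mul_max, one_mul]
      calc r * ((m : ℝ) + i + 1) ≤ r * ((2 * J + 2) * max 1 q) :=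
            mul_le_mul_of_nonneg_left hden hr0.le
        _ = (min 1 q * max 1 q) * ((2 * J + 2) / (4 * J + 4)) := by rw [hr]; ring
        _ = q * ((2 * J + 2) / (4 * J + 4)) := by rw [h3]
        _ = q / 2 := by field_simp; ring
    have h6 : bp N p (m + i + 1) * ((m : ℝ) + i + 1) ≥ bp N p (m + i) * (q / 2) := by
      calc bp N p (m + i) * (q / 2) ≤ bp N p (m + i) * (((N : ℝ) - (m + i)) * p) :=
            mul_le_mul_of_nonneg_left hnum hp'
        _ = bp N p (m + i + 1) * ((m + i + 1) * (1 - p)) := hs.symm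
        _ ≤ bp N p (m + i + 1) * ((m : ℝ) + i + 1) := by
            refine mul_le_mul_of_nonneg_left ?_ hp
            nlinarith
    have hpos : (0 : ℝ) < (m : ℝ) + i + 1 := by positivity
    have h7 : bp N p (m + i) * r * ((m : ℝ) + i + 1) ≤ bp N p (m + i + 1) * ((m : ℝ) + i + 1) := by
      calc bp N p (m + i) * r * ((m : ℝ) + i + 1) = bp N p (m + i) * (r * ((m : ℝ) + i + 1)) := by
            ring
        _ ≤ bp N p (m + i) * (q / 2) := mul_le_mul_of_nonneg_left hrr hp'
        _ ≤ _ := h6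
    exact le_of_mul_le_mul_right h7 hpos
  have hpow : ∀ i, i ≤ 2 * J → bp N p m * r ^ i ≤ bp N p (m + i) := by
    intro i
    induction i with
    | zero => intro _; simp
    | succ i ih =>
      intro hi
      have h3 := ih (by omega)
      have h4 := hstep i (by omega)
      calc bp N p m * r ^ (i + 1) = bp N p m * r ^ i * r := by rw [pow_succ]; ring
        _ ≤ bp N p (m + i) * r := mul_le_mul_of_nonneg_right h3 hr0.le
        _ ≤ bp N p (m + i + 1) := h4
  intro k hk1 hk2
  obtain ⟨i, rfl⟩ := Nat.exists_eq_add_of_le hk1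
  have hi : i ≤ 2 * J := by omega
  refine le_trans ?_ (hpow i hi)
  refine mul_le_mul hbase (pow_le_pow_of_le_one hr0.le hr1 hi) (by positivity) ?_
  exact bp_nonneg h0.le (by linarith) m

end Pool.Agent.U140.SG
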