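import Pool.Agent.U140.SG.Ac
import Pool.Agent.U140.SG.Bin
import Pool.Agent.U140.SG.Ty2

/-! Anti-concentration of level counts for bipartite random bits. -/

set_option linter.unusedSectionVars false
set_option linter.unusedVariables false

namespace Pool.Agent.U140.SG

open Finset Pool.Agent.Q299.PW

variable {n : ℕ}

lemma card_sub_filter {α : Type*} [DecidableEq α] (A : Finset α) (P : α → Prop) [DecidablePred P] :
    (A.filter P).card = (univ.filter fun a : {a // a ∈ A} => P a.1).card := by
  have h : (univ.filter fun a : {a // a ∈ A} => P a.1).image Subtype.val = A.filter P := by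
    ext a
    rw [mem_image, mem_filter]
    constructor
    · rintro ⟨⟨b, hb⟩, h1, rfl⟩
      exact ⟨hb, (mem_filter.1 h1).2⟩
    · rintro ⟨h1, h2⟩
      exact ⟨⟨a, h1⟩, mem_filter.2 ⟨mem_univ _, h2⟩, rfl⟩
  rw [← h, card_image_of_injective _ Subtype.val_injective]

theorem ac_bits {p : ℝ} (h0 : 0 ≤ p) (h1 : p ≤ 1) (A Y : Finset (Fin n)) (hAY : Disjoint A Y)
    (hA : A.Nonempty) {m J : ℕ} {θ : ℝ} (hθ0 : 0 < θ)
    (hθ : ∀ j, m ≤ j → j < m + 2 * J → θ ≤ bp Y.card p j) (hm : m + 2 * J ≤ Y.card + 1)
    (t : ℕ → ℕ) :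
    Pr (wp p) (fun ω : Om n => ∀ i < J,
      (A.filter fun a => (Y.filter fun y => ω s(a, y) = true).card = m + 2 * i).card = t i) ≤
      J * Real.exp (-(θ * A.card / 2)) + (Real.sqrt (2 / (θ * A.card))) ^ J := by
  classical
  have hw := wp_nonneg h0 h1
  have hw1 := wp_sum p
  set D : Fin n → Finset (Sym2 (Fin n)) := fun a => Y.image fun y => s(a, y) with hD
  have hDc : ∀ a, (D a).card = Y.card := by
    intro a
    rw [hD]
    exact card_image_of_injective _ fun y y' hh => Sym2.congr_right.1 hh
  set h : Fin n → Om n → Fin (Y.card + 1) := fun a ω =>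
    ⟨(Y.filter fun y => ω s(a, y) = true).card,
      Nat.lt_succ_of_le (card_le_card (filter_subset _ _))⟩ with hh
  set wB : Fin (Y.card + 1) → ℝ := fun b => bp Y.card p b with hwB
  have hcnt : ∀ a ω, cnt ({true} : Finset Bool) (D a) ω =
      (Y.filter fun y => ω s(a, y) = true).card := by
    intro a ω
    unfold cnt
    have : (D a).filter (fun e => ω e ∈ ({true} : Finset Bool)) =
        (Y.filter fun y => ω s(a, y) = true).image fun y => s(a, y) := by
      ext e
      simp only [hD, mem_filter, mem_image, mem_singleton]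
      constructor
      · rintro ⟨⟨y, hy, rfl⟩, h2⟩
        exact ⟨y, ⟨hy, h2⟩, rfl⟩
      · rintro ⟨y, ⟨hy, h2⟩, rfl⟩
        exact ⟨⟨y, hy, rfl⟩, h2⟩
    rw [this]
    exact card_image_of_injective _ fun y y' hh => Sym2.congr_right.1 hh
  have hjoint := Ex_joint (w := wp p) hw1 A D h
    (by
      intro a ha ω ω' hag
      rw [hh]
      simp only [Fin.mk.injEq]
      congr 1
      refine filter_congr fun y hy => ?_
      rw [hag _ (mem_image_of_mem _ hy)])
    (by
      intro a ha b hb hab
      rw [disjoint_left]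
      intro e he he'
      obtain ⟨y, hy, rfl⟩ := mem_image.1 he
      obtain ⟨y', hy', he2⟩ := mem_image.1 he'
      simp only [Sym2.eq_iff] at he2
      rcases he2 with ⟨e1, -⟩ | ⟨e1, e2⟩
      · exact hab e1.symm
      · exact disjoint_left.1 hAY hb (by rw [e1]; exact hy))
    wB
    (by
      intro a ha b
      have h2 := Pr_cnt_eq (ι := Sym2 (Fin n)) (w := wp p) hw1 ({true} : Finset Bool) (D a) b
      have e1 : ∑ a ∈ ({true} : Finset Bool), wp p a = p := by simp [wp]
      rw [e1, hDc] at h2
      have h3 : wB b = ((Y.card).choose (b : ℕ) : ℝ) * p ^ (b : ℕ) * (1 - p) ^ (Y.card - (b : ℕ)) :=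
        rfl
      rw [h3, ← h2]
      unfold Pr
      refine congrArg (Ex _) (funext fun ω => ?_)
      by_cases hb : h a ω = b
      · have hb' : cnt ({true} : Finset Bool) (D a) ω = (b : ℕ) := by
          rw [hcnt, ← hb]
        simp only [if_pos hb, if_pos hb']
      · have hb' : ¬ cnt ({true} : Finset Bool) (D a) ω = (b : ℕ) := by
          rw [hcnt]
          intro hc
          exact hb (Fin.ext hc)
        simp only [if_neg hb, if_neg hb'])
    (fun z => if (∀ i < J, (univ.filter fun a : {a // a ∈ A} =>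
      ((z a : Fin (Y.card + 1)) : ℕ) = m + 2 * i).card = t i) then (1 : ℝ) else 0)
  have hPr : Pr (wp p) (fun ω : Om n => ∀ i < J,
      (A.filter fun a => (Y.filter fun y => ω s(a, y) = true).card = m + 2 * i).card = t i) =
      Ex wB (fun z : {a // a ∈ A} → Fin (Y.card + 1) => if (∀ i < J,
        (univ.filter fun a : {a // a ∈ A} =>
          ((z a : Fin (Y.card + 1)) : ℕ) = m + 2 * i).card = t i) then (1 : ℝ) else 0) := by
    rw [← hjoint]
    unfold Pr
    refine congrArg (Ex _) (funext fun ω => ?_)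
    have hiff : (∀ i < J, (A.filter fun a => (Y.filter fun y => ω s(a, y) = true).card =
        m + 2 * i).card = t i) ↔ (∀ i < J, (univ.filter fun a : {a // a ∈ A} =>
          ((h a.1 ω : Fin (Y.card + 1)) : ℕ) = m + 2 * i).card = t i) := by
      refine forall₂_congr fun i hi => ?_
      rw [card_sub_filter A (fun a => (Y.filter fun y => ω s(a, y) = true).card = m + 2 * i)]
    by_cases hc : (∀ i < J, (A.filter fun a => (Y.filter fun y => ω s(a, y) = true).card =
        m + 2 * i).card = t i)
    · rw [if_pos hc, if_pos (hiff.1 hc)]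
    · rw [if_neg hc, if_neg fun h => hc (hiff.2 h)]
  rw [hPr]
  have hcardA : Fintype.card {a // a ∈ A} = A.card := Fintype.card_coe A
  have hB1 : ∑ b, wB b = 1 := by
    rw [hwB, Fin.sum_univ_eq_sum_range (fun b => bp Y.card p b)]
    exact bp_sum _ _
  have := ac_prod (κ' := {a // a ∈ A}) wB θ (m := m) (J := J) (fun b => bp_nonneg h0 h1 _) hB1 hθ0
    (fun b hb1 hb2 => hθ b hb1 hb2) hm (by rw [hcardA]; exact hA.card_pos) t
  rw [hcardA] at this
  exact this

end Pool.Agent.U140.SG
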