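import Pool.Agent.U140.SG.Mix

/-! Adaptive conditioning, block independence, anti-concentration of level counts. -/

set_option linter.unusedSectionVars false
set_option linter.unusedVariables false

namespace Pool.Agent.U140.SG

open Finset Pool.Agent.Q299.PW

section Gen

variable {ι α : Type*} [Fintype ι] [DecidableEq ι] [Fintype α] [DecidableEq α] {w : α → ℝ}

/-- conditioning on an adaptively revealed set of coordinates -/
lemma Pr_le_of_stop (hw : ∀ a, 0 ≤ w a) (hw1 : ∑ a, w a = 1) (S : (ι → α) → Finset ι)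
    (hS : ∀ ω ω' : ι → α, (∀ e ∈ S ω, ω e = ω' e) → S ω' = S ω) {E : (ι → α) → Prop} {B : ℝ}
    (hB : 0 ≤ B) (h : ∀ κ, Pr w (fun ω => E (mix (S κ) κ ω)) ≤ B) : Pr w E ≤ B := by
  classical
  have key : ∀ (Z : Finset ι) (κ ω : ι → α), S (mix Z κ ω) = Z ↔ S κ = Z := by
    intro Z κ ω
    constructor
    · intro h1
      have h2 := hS (mix Z κ ω) κ (fun e he => by rw [h1] at he; rw [mix_mem he])
      rw [h2, h1]
    · intro h1
      have h2 := hS κ (mix Z κ ω) (fun e he => by rw [h1] at he; rw [mix_mem he])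
      rw [h2, h1]
  have h1 : Pr w E = ∑ Z : Finset ι, Ex w (fun ω => if S ω = Z ∧ E ω then (1 : ℝ) else 0) := by
    rw [← Ex_sum]
    unfold Pr
    refine congrArg (Ex w) (funext fun ω => ?_)
    by_cases hE : E ω
    · rw [if_pos hE, sum_eq_single (S ω)]
      · rw [if_pos ⟨rfl, hE⟩]
      · intro Z _ hZ
        rw [if_neg fun hh => hZ hh.1.symm]
      · intro hh; exact absurd (mem_univ _) hh
    · rw [if_neg hE]
      refine (sum_eq_zero fun Z _ => ?_).symm
      rw [if_neg fun hh => hE hh.2]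
  rw [h1]
  have h2 : ∀ Z : Finset ι, Ex w (fun ω => if S ω = Z ∧ E ω then (1 : ℝ) else 0) ≤
      Ex w (fun κ => if S κ = Z then B else 0) := by
    intro Z
    rw [← Ex_mix hw1 Z]
    refine Ex_mono hw fun κ => ?_
    by_cases hZ : S κ = Z
    · rw [if_pos hZ]
      refine le_trans (Ex_mono hw (g := fun ω => if E (mix (S κ) κ ω) then (1 : ℝ) else 0)
        fun ω => ?_) (le_trans (le_of_eq ?_) (h κ))
      · rw [hZ]
        by_cases hE : E (mix Z κ ω)
        · rw [if_pos ⟨(key Z κ ω).2 hZ, hE⟩, if_pos hE]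
        · rw [if_neg fun hh => hE hh.2, if_neg hE]
      · unfold Pr
        refine congrArg (Ex w) (funext fun ω => ?_)
        by_cases hE : E (mix (S κ) κ ω)
        · simp [hE]
        · simp [hE]
    · rw [if_neg hZ]
      refine le_trans (Ex_mono hw (g := fun _ => (0 : ℝ)) fun ω => ?_) ?_
      · rw [if_neg fun hh => hZ ((key Z κ ω).1 hh.1)]
      · rw [Ex_const hw1]
  refine (sum_le_sum fun Z _ => h2 Z).trans ?_
  rw [← Ex_sum]
  refine (le_of_eq ?_).trans (le_of_eq (Ex_const (ι := ι) hw1 B))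
  refine congrArg (Ex w) (funext fun κ => ?_)
  rw [sum_ite_eq]
  simp

/-- functions of disjoint blocks of coordinates -/
lemma Ex_prod_blocks (hw1 : ∑ a, w a = 1) {κ' : Type*} [DecidableEq κ'] (A : Finset κ')
    (D : κ' → Finset ι) (f : κ' → (ι → α) → ℝ)
    (hf : ∀ a ∈ A, ∀ ω ω' : ι → α, (∀ i ∈ D a, ω i = ω' i) → f a ω = f a ω')
    (hD : ∀ a ∈ A, ∀ b ∈ A, a ≠ b → Disjoint (D a) (D b)) :
    Ex w (fun ω => ∏ a ∈ A, f a ω) = ∏ a ∈ A, Ex w (f a) := by
  induction A using Finset.induction_on with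
  | empty => simp only [prod_empty]; exact Ex_const hw1 1
  | insert a A ha ih =>
    simp_rw [prod_insert ha]
    rw [Ex_mul_indep hw1 (D a), ih]
    · intro b hb; exact hf b (mem_insert_of_mem hb)
    · intro b hb c hc; exact hD b (mem_insert_of_mem hb) c (mem_insert_of_mem hc)
    · exact hf a (mem_insert_self _ _)
    · intro ω ω' h
      refine prod_congr rfl fun b hb => hf b (mem_insert_of_mem hb) _ _ fun i hi => h i ?_
      intro hia
      have hab : a ≠ b := fun e => ha (by rw [e]; exact hb)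
      exact disjoint_left.1 (hD a (mem_insert_self _ _) b (mem_insert_of_mem hb) hab) hia hi

/-- joint law of functions of disjoint blocks -/
lemma Ex_joint (hw1 : ∑ a, w a = 1) {κ' β : Type*} [DecidableEq κ'] [Fintype β] [DecidableEq β]
    (A : Finset κ') (D : κ' → Finset ι) (h : κ' → (ι → α) → β)
    (hf : ∀ a ∈ A, ∀ ω ω' : ι → α, (∀ i ∈ D a, ω i = ω' i) → h a ω = h a ω')
    (hD : ∀ a ∈ A, ∀ b ∈ A, a ≠ b → Disjoint (D a) (D b)) (wB : β → ℝ)
    (hwB : ∀ a ∈ A, ∀ b, Ex w (fun ω => if h a ω = b then (1 : ℝ) else 0) = wB b)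
    (F : ({a // a ∈ A} → β) → ℝ) :
    Ex w (fun ω => F (fun a => h a.1 ω)) = Ex wB F := by
  classical
  have h1 : ∀ ω : ι → α, F (fun a => h a.1 ω) =
      ∑ b : {a // a ∈ A} → β, F b * ∏ a : {a // a ∈ A}, (if h a.1 ω = b a then (1 : ℝ) else 0) := by
    intro ω
    rw [sum_eq_single (fun a : {a // a ∈ A} => h a.1 ω)]
    · simp
    · intro b _ hb
      have : ∃ a, h a.1 ω ≠ b a := by
        by_contra hh
        push Not at hh
        exact hb (funext fun a => (hh a).symm)
      obtain ⟨a, ha⟩ := this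
      rw [prod_eq_zero (mem_univ a) (if_neg ha), mul_zero]
    · intro hh; exact absurd (mem_univ _) hh
  have h1' : (fun ω : ι → α => F (fun a => h a.1 ω)) = fun ω =>
      ∑ b ∈ (univ : Finset ({a // a ∈ A} → β)),
        F b * ∏ a : {a // a ∈ A}, (if h a.1 ω = b a then (1 : ℝ) else 0) := funext h1
  rw [h1', Ex_sum]
  unfold Ex
  refine sum_congr rfl fun b _ => ?_
  have h2 : Ex w (fun ω => ∏ a : {a // a ∈ A}, (if h a.1 ω = b a then (1 : ℝ) else 0)) =
      ∏ a : {a // a ∈ A}, wB (b a) := by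
    rw [Ex_prod_blocks hw1 (univ : Finset {a // a ∈ A}) (fun a => D a.1)
      (fun a ω => if h a.1 ω = b a then (1 : ℝ) else 0)]
    · exact prod_congr rfl fun a _ => hwB a.1 a.2 _
    · intro a _ ω ω' hh
      rw [hf a.1 a.2 ω ω' hh]
    · intro a _ b _ hab
      exact hD a.1 a.2 b.1 b.2 fun e => hab (Subtype.ext e)
  have h3 : ∑ x : ι → α, (∏ i, w (x i)) * (F b * ∏ a : {a // a ∈ A},
      (if h a.1 x = b a then (1 : ℝ) else 0)) =
      F b * Ex w (fun ω => ∏ a : {a // a ∈ A}, (if h a.1 ω = b a then (1 : ℝ) else 0)) := by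
    unfold Ex
    rw [mul_sum]
    exact sum_congr rfl fun x _ => by ring
  rw [h3, h2, mul_comm]

/-- push-forward of the weights -/
lemma Ex_push {β : Type*} [Fintype β] [DecidableEq β] (w' : β → ℝ) (h : β → α)
    (hh : ∀ x, w x = ∑ y, if h y = x then w' y else 0) (F : (ι → α) → ℝ) :
    Ex w' (fun ω => F (fun i => h (ω i))) = Ex w F := by
  classical
  unfold Ex
  have h1 : ∀ x : ι → α, ∏ i, w (x i) =
      ∑ y : ι → β, ∏ i, (if h (y i) = x i then w' (y i) else 0) := by
    intro x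
    simp_rw [hh]
    rw [prod_univ_sum]
    refine sum_congr ?_ fun _ _ => rfl
    ext y; simp
  simp_rw [h1, sum_mul]
  rw [sum_comm]
  refine sum_congr rfl fun y _ => ?_
  rw [sum_eq_single (fun i => h (y i))]
  · simp
  · intro x _ hx
    have : ∃ i, h (y i) ≠ x i := by
      by_contra hcon
      push Not at hcon
      exact hx (funext fun i => (hcon i).symm)
    obtain ⟨i, hi⟩ := this
    rw [prod_eq_zero (mem_univ i) (if_neg hi), zero_mul]
  · intro hc; exact absurd (mem_univ _) hc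

/-- product of two weights -/
lemma Ex_pair {β : Type*} [Fintype β] [DecidableEq β] (w' : β → ℝ)
    (F : (ι → α × β) → ℝ) :
    Ex (fun x : α × β => w x.1 * w' x.2) F =
      Ex w (fun x => Ex w' (fun y => F (fun i => (x i, y i)))) := by
  classical
  unfold Ex
  have h1 : ∑ z : ι → α × β, (∏ i, w (z i).1 * w' (z i).2) * F z =
      ∑ xy : (ι → α) × (ι → β), (∏ i, w (xy.1 i) * w' (xy.2 i)) * F (fun i => (xy.1 i, xy.2 i)) := by
    refine Fintype.sum_equiv (Equiv.arrowProdEquivProdArrow ι (fun _ => α) (fun _ => β)) _ _ ?_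
    intro z
    rfl
  rw [h1, Fintype.sum_prod_type]
  refine sum_congr rfl fun x _ => ?_
  rw [mul_sum]
  refine sum_congr rfl fun y _ => ?_
  rw [prod_mul_distrib]
  ring

end Gen

lemma cb_sq (m : ℕ) : (Nat.centralBinom m) ^ 2 * (2 * m + 1) ≤ 16 ^ m := by
  induction m with
  | zero => simp
  | succ m ih =>
    have h := Nat.succ_mul_centralBinom_succ m
    have h2 : (m + 1) ^ 2 * (Nat.centralBinom (m + 1) ^ 2 * (2 * (m + 1) + 1)) ≤
        (m + 1) ^ 2 * 16 ^ (m + 1) := by
      calc (m + 1) ^ 2 * (Nat.centralBinom (m + 1) ^ 2 * (2 * (m + 1) + 1))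
          = ((m + 1) * Nat.centralBinom (m + 1)) ^ 2 * (2 * (m + 1) + 1) := by ring
        _ = (2 * (2 * m + 1) * Nat.centralBinom m) ^ 2 * (2 * (m + 1) + 1) := by rw [h]
        _ = (4 * (2 * m + 1) * (2 * m + 3)) * (Nat.centralBinom m ^ 2 * (2 * m + 1)) := by ring
        _ ≤ (4 * (2 * m + 1) * (2 * m + 3)) * 16 ^ m := Nat.mul_le_mul_left _ ih
        _ ≤ (16 * (m + 1) ^ 2) * 16 ^ m := Nat.mul_le_mul_right _ (by nlinarith)
        _ = (m + 1) ^ 2 * 16 ^ (m + 1) := by ring
    exact Nat.le_of_mul_le_mul_left h2 (by positivity)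

lemma choose_sq (M k : ℕ) : (M.choose k) ^ 2 * M ≤ 4 ^ M := by
  have h1 : M.choose k ≤ M.choose (M / 2) := Nat.choose_le_middle k M
  rcases Nat.even_or_odd' M with ⟨m, hm | hm⟩
  · subst hm
    have e : 2 * m / 2 = m := by omega
    rw [e] at h1
    have h2 : (2 * m).choose m = Nat.centralBinom m := rfl
    rw [h2] at h1
    calc ((2 * m).choose k) ^ 2 * (2 * m) ≤ (Nat.centralBinom m) ^ 2 * (2 * m + 1) :=
          Nat.mul_le_mul (Nat.pow_le_pow_left h1 2) (by omega)
      _ ≤ 16 ^ m := cb_sq m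
      _ = 4 ^ (2 * m) := by rw [pow_mul]; norm_num
  · subst hm
    have e : (2 * m + 1) / 2 = m := by omega
    rw [e] at h1
    have h3 : 2 * (2 * m + 1).choose m = Nat.centralBinom (m + 1) := by
      have e1 : Nat.centralBinom (m + 1) = (2 * m + 1 + 1).choose (m + 1) := by
        rw [Nat.centralBinom_eq_two_mul_choose]; congr 1
      rw [e1, Nat.choose_succ_succ]
      have e2 : (2 * m + 1).choose (m + 1) = (2 * m + 1).choose m := by
        rw [← Nat.choose_symm_half]
      rw [e2]; ring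
    have h4 := cb_sq (m + 1)
    have h5 : 4 * (((2 * m + 1).choose k) ^ 2 * (2 * m + 1)) ≤ 4 * 4 ^ (2 * m + 1) := by
      calc 4 * (((2 * m + 1).choose k) ^ 2 * (2 * m + 1))
          ≤ 4 * (((2 * m + 1).choose m) ^ 2 * (2 * (m + 1) + 1)) :=
            Nat.mul_le_mul_left _ (Nat.mul_le_mul (Nat.pow_le_pow_left h1 2) (by omega))
        _ = (2 * (2 * m + 1).choose m) ^ 2 * (2 * (m + 1) + 1) := by ring
        _ = (Nat.centralBinom (m + 1)) ^ 2 * (2 * (m + 1) + 1) := by rw [h3]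
        _ ≤ 16 ^ (m + 1) := h4
        _ = 4 * 4 ^ (2 * m + 1) := by
            rw [show (16 : ℕ) = 4 ^ 2 by norm_num, ← pow_mul, ← pow_succ']
            congr 1
    exact Nat.le_of_mul_le_mul_left h5 (by norm_num)

end Pool.Agent.U140.SG
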