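import Mathlib

/-! The combinatorial case analysis, explicit version. -/

set_option linter.unusedSectionVars false
set_option linter.unusedVariables false

namespace Pool.Agent.U140.SG

/-- the data seen from the root `z`: `z x' a' b' y'` is the `H`-cycle and `z x a b y` its view -/
structure Loc {V : Type*} (SP : Sym2 V → Sym2 V → Prop) (W : V → V → Prop)
    (z x' a' b' y' x a b y : V) : Prop where
  -- distinctness
  d1 : z ≠ x'
  d2 : z ≠ a'
  d3 : z ≠ b'
  d4 : z ≠ y'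
  d5 : x' ≠ a'
  d6 : x' ≠ b'
  d7 : x' ≠ y'
  d8 : a' ≠ b'
  d9 : a' ≠ y'
  d10 : b' ≠ y'
  e1 : z ≠ x
  e2 : z ≠ a
  e3 : z ≠ b
  e4 : z ≠ y
  e5 : x ≠ a
  e6 : x ≠ b
  e7 : x ≠ y
  e8 : a ≠ b
  e9 : a ≠ y
  e10 : b ≠ y
  -- `W r w`: `w` is a vertex of the view from `r`
  w0 : ∀ w, W z w ↔ (w = z ∨ w = x ∨ w = a ∨ w = b ∨ w = y)
  r1 : x ≠ x' → ¬ W z x' ∧ x ≠ z ∧ x ≠ x' ∧ x ≠ a' ∧ x ≠ b' ∧ x ≠ y'
  r1' : y ≠ y' → ¬ W z y' ∧ y ≠ z ∧ y ≠ x' ∧ y ≠ a' ∧ y ≠ b' ∧ y ≠ y'
  r3 : ∀ e, (e = s(x, a) ∨ e = s(a, b) ∨ e = s(b, y)) →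
    ¬ (e = s(z, x') ∨ e = s(x', a') ∨ e = s(a', b') ∨ e = s(b', y') ∨ e = s(y', z)) →
    ∃ h, (h = s(x', a') ∨ h = s(a', b') ∨ h = s(b', y')) ∧ SP e h ∧
      (∀ w, W z w → w ∈ h → w ∈ e) ∧
      (∀ w, (w = z ∨ w = x' ∨ w = a' ∨ w = b' ∨ w = y') → w ∈ e → w ∈ h)
  r5 : ∀ e₁ e₂ h, (e₁ = s(x, a) ∨ e₁ = s(a, b) ∨ e₁ = s(b, y)) →
    (e₂ = s(x, a) ∨ e₂ = s(a, b) ∨ e₂ = s(b, y)) → e₁ ≠ e₂ →
    ¬ (e₁ = s(z, x') ∨ e₁ = s(x', a') ∨ e₁ = s(a', b') ∨ e₁ = s(b', y') ∨ e₁ = s(y', z)) →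
    ¬ (e₂ = s(z, x') ∨ e₂ = s(x', a') ∨ e₂ = s(a', b') ∨ e₂ = s(b', y') ∨ e₂ = s(y', z)) →
    (h = s(x', a') ∨ h = s(a', b') ∨ h = s(b', y')) → SP e₁ h → SP e₂ h → False
  kx : x ≠ x' → SP s(x, a) s(x', a') → False
  ky : y ≠ y' → SP s(b, y) s(b', y') → False
  k2 : x ≠ x' → a ≠ a'
  k2' : y ≠ y' → b ≠ b'
  -- meeting at `a` resp. `b`
  ka1 : SP s(x, a) s(x', a') → SP s(a, b) s(a', b') → ∀ w, W a' w ↔ W z w
  ka1' : SP s(x, a) s(a', b') → SP s(a, b) s(x', a') → ∀ w, W a' w ↔ W z w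
  ka2 : SP s(x, a) s(a', b') → SP s(a, b) s(b', y') → ∀ w, W b' w ↔ W z w
  ka2' : SP s(x, a) s(b', y') → SP s(a, b) s(a', b') → ∀ w, W b' w ↔ W z w
  kb1 : SP s(b, y) s(x', a') → SP s(a, b) s(a', b') → ∀ w, W a' w ↔ W z w
  kb1' : SP s(b, y) s(a', b') → SP s(a, b) s(x', a') → ∀ w, W a' w ↔ W z w
  kb2 : SP s(b, y) s(a', b') → SP s(a, b) s(b', y') → ∀ w, W b' w ↔ W z w
  kb2' : SP s(b, y) s(b', y') → SP s(a, b) s(a', b') → ∀ w, W b' w ↔ W z w
  wa : W a' a'
  wb : W b' b'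

variable {V : Type*} {SP : Sym2 V → Sym2 V → Prop} {W : V → V → Prop}
  {z x' a' b' y' x a b y : V}

lemma l_mem {a b u v : V} (h : s(a, b) = s(u, v)) : (a = u ∨ a = v) ∧ (b = u ∨ b = v) := by
  rw [Sym2.eq_iff] at h
  rcases h with ⟨h1, h2⟩ | ⟨h1, h2⟩
  · exact ⟨Or.inl h1, Or.inr h2⟩
  · exact ⟨Or.inr h1, Or.inl h2⟩

lemma Loc.Wz (L : Loc SP W z x' a' b' y' x a b y) : W z z := (L.w0 _).2 (Or.inl rfl)
lemma Loc.Wx (L : Loc SP W z x' a' b' y' x a b y) : W z x := (L.w0 _).2 (Or.inr (Or.inl rfl))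
lemma Loc.Wa (L : Loc SP W z x' a' b' y' x a b y) : W z a :=
  (L.w0 _).2 (Or.inr (Or.inr (Or.inl rfl)))
lemma Loc.Wb (L : Loc SP W z x' a' b' y' x a b y) : W z b :=
  (L.w0 _).2 (Or.inr (Or.inr (Or.inr (Or.inl rfl))))
lemma Loc.Wy (L : Loc SP W z x' a' b' y' x a b y) : W z y :=
  (L.w0 _).2 (Or.inr (Or.inr (Or.inr (Or.inr rfl))))

/-- an edge with an end outside the `H`-cycle is not an edge of it -/
lemma not_edge {x a : V} (h1 : x ≠ z) (h2 : x ≠ x') (h3 : x ≠ a') (h4 : x ≠ b') (h5 : x ≠ y') :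
    ¬ (s(x, a) = s(z, x') ∨ s(x, a) = s(x', a') ∨ s(x, a) = s(a', b') ∨
      s(x, a) = s(b', y') ∨ s(x, a) = s(y', z)) := by
  rintro (h | h | h | h | h) <;> rcases (l_mem h).1 with h' | h'
  · exact h1 h'
  · exact h2 h'
  · exact h2 h'
  · exact h3 h'
  · exact h3 h'
  · exact h4 h'
  · exact h4 h'
  · exact h5 h'
  · exact h5 h'
  · exact h1 h'

lemma not_edge' {x a : V} (h1 : x ≠ z) (h2 : x ≠ x') (h3 : x ≠ a') (h4 : x ≠ b') (h5 : x ≠ y') :
    ¬ (s(a, x) = s(z, x') ∨ s(a, x) = s(x', a') ∨ s(a, x) = s(a', b') ∨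
      s(a, x) = s(b', y') ∨ s(a, x) = s(y', z)) := by
  rw [Sym2.eq_swap (a := a)]
  exact not_edge h1 h2 h3 h4 h5

lemma Loc.xy_disj (L : Loc SP W z x' a' b' y' x a b y) (hx : x ≠ x') :
    y ≠ y' ∧ ((a = b' ∧ b = a' ∧ SP s(x, a) s(b', y')) ∨
      (a = b' ∧ (∀ w, W b' w ↔ W z w) ∧ ∀ w, (w = z ∨ w = x' ∨ w = a' ∨ w = b' ∨ w = y') →
        W z w → w = z ∨ w = b') ∨
      (b = a' ∧ (∀ w, W a' w ↔ W z w) ∧ ∀ w, (w = z ∨ w = x' ∨ w = a' ∨ w = b' ∨ w = y') →
        W z w → w = z ∨ w = a')) := by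
  obtain ⟨r1a, -, r1b, r1c, r1d, r1e⟩ := L.r1 hx
  have q2 : x' ≠ x := fun h => r1b h.symm
  have q3 : x' ≠ a := fun h => r1a (h ▸ L.Wa)
  have q4 : x' ≠ b := fun h => r1a (h ▸ L.Wb)
  have q5 : x' ≠ y := fun h => r1a (h ▸ L.Wy)
  have hk2 := L.k2 hx
  have hxa := not_edge (a := a) L.e1.symm r1b r1c r1d r1e
  obtain ⟨h₁, hh₁, hs₁, l₁, m₁⟩ := L.r3 s(x, a) (Or.inl rfl) hxa
  simp only [Sym2.mem_iff] at m₁
  have l₁' : ∀ w, W z w → w ∈ h₁ → w = x ∨ w = a := fun w h1 h2 => Sym2.mem_iff.1 (l₁ w h1 h2)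
  have hya : a ≠ y' := by
    intro h
    by_cases hy : y = y'
    · exact L.e9 (h.trans hy.symm)
    · exact (L.r1' hy).1 (h ▸ L.Wa)
  have hyb : b ≠ y' := by
    intro h
    by_cases hy : y = y'
    · exact L.e10 (h.trans hy.symm)
    · exact (L.r1' hy).1 (h ▸ L.Wb)
  by_cases hab : s(a, b) = s(z, x') ∨ s(a, b) = s(x', a') ∨ s(a, b) = s(a', b') ∨
      s(a, b) = s(b', y') ∨ s(a, b) = s(y', z)
  · -- `a b` is an edge of the `H`-cycle
    have hab2 : a = b' ∧ b = a' := by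
      rcases hab with h | h | h | h | h
      · rcases (l_mem h).1 with h' | h'
        · exact absurd h'.symm L.e2
        · exact absurd h'.symm q3
      · rcases (l_mem h).1 with h' | h'
        · exact absurd h'.symm q3
        · exact absurd h' hk2
      · rcases Sym2.eq_iff.1 h with ⟨h', h''⟩ | ⟨h', h''⟩
        · exact absurd h' hk2
        · exact ⟨h', h''⟩
      · rcases Sym2.eq_iff.1 h with ⟨h', h''⟩ | ⟨h', h''⟩
        · exact absurd h'' hyb
        · exact absurd h' hya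
      · rcases (l_mem h).1 with h' | h'
        · exact absurd h' hya
        · exact absurd h'.symm L.e2
    obtain ⟨ha', hb'⟩ := hab2
    rcases hh₁ with rfl | rfl | rfl
    · exact absurd hs₁ (fun h => L.kx hx h)
    · exfalso
      rcases l₁' a' (hb' ▸ L.Wb) (Sym2.mem_mk_left _ _) with h | h
      · exact r1c h.symm
      · exact hk2 h.symm
    · refine ⟨?_, Or.inl ⟨ha', hb', hs₁⟩⟩
      intro hy
      rcases l₁' y' (hy ▸ L.Wy) (Sym2.mem_mk_right _ _) with h | h
      · exact r1e h.symm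
      · exact hya h.symm
  · obtain ⟨h₂, hh₂, hs₂, l₂, m₂⟩ := L.r3 s(a, b) (Or.inr (Or.inl rfl)) hab
    have l₂' : ∀ w, W z w → w ∈ h₂ → w = a ∨ w = b := fun w h1 h2 => Sym2.mem_iff.1 (l₂ w h1 h2)
    have hne12 : s(x, a) ≠ s(a, b) := by
      intro h
      rcases (l_mem h).1 with h' | h'
      · exact L.e5 h'
      · exact L.e6 h'
    rcases hh₁ with rfl | rfl | rfl
    · exact absurd hs₁ (fun h => L.kx hx h)
    · -- `h₁ = a' b'`
      rcases hh₂ with rfl | rfl | rfl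
      · exfalso
        have h1 := (L.ka1' hs₁ hs₂ a').1 L.wa
        rcases l₁' a' h1 (Sym2.mem_mk_left _ _) with h | h
        · exact r1c h.symm
        · exact hk2 h.symm
      · exact absurd (L.r5 _ _ _ (Or.inl rfl) (Or.inr (Or.inl rfl)) hne12 hxa hab
          (Or.inr (Or.inl rfl)) hs₁ hs₂) id
      · -- type Q
        have hW := L.ka2 hs₁ hs₂
        have h1 := (hW b').1 L.wb
        have hab' : a = b' := by
          rcases l₁' b' h1 (Sym2.mem_mk_right _ _) with h | h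
          · exact absurd h.symm r1d
          · exact h.symm
        have hyW : ¬ W z y' := by
          intro hy
          rcases l₂' y' hy (Sym2.mem_mk_right _ _) with h | h
          · exact hya h.symm
          · exact hyb h.symm
        refine ⟨fun hy => hyW (hy ▸ L.Wy), Or.inr (Or.inl ⟨hab', hW, ?_⟩)⟩
        intro w hw hWw
        rcases hw with rfl | rfl | rfl | rfl | rfl
        · exact Or.inl rfl
        · exact absurd hWw r1a
        · exfalso
          rcases l₁' w hWw (Sym2.mem_mk_left _ _) with h | h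
          · exact r1c h.symm
          · exact hk2 h.symm
        · exact Or.inr rfl
        · exact absurd hWw hyW
    · -- `h₁ = b' y'`
      have hyW : y ≠ y' := by
        intro hy
        rcases l₁' y' (hy ▸ L.Wy) (Sym2.mem_mk_right _ _) with h | h
        · exact r1e h.symm
        · exact hya h.symm
      obtain ⟨s1a, -, s1b, s1c, s1d, s1e⟩ := L.r1' hyW
      have hby := not_edge' (a := b) L.e4.symm s1b s1c s1d s1e
      obtain ⟨h₃, hh₃, hs₃, l₃, m₃⟩ := L.r3 s(b, y) (Or.inr (Or.inr rfl)) hby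
      have l₃' : ∀ w, W z w → w ∈ h₃ → w = b ∨ w = y :=
        fun w h1 h2 => Sym2.mem_iff.1 (l₃ w h1 h2)
      have hne23 : s(a, b) ≠ s(b, y) := by
        intro h
        rcases (l_mem h).1 with h' | h'
        · exact L.e8 h'
        · exact L.e9 h'
      rcases hh₂ with rfl | rfl | rfl
      · -- `h₂ = x' a'`
        rcases hh₃ with rfl | rfl | rfl
        · exact absurd (L.r5 _ _ _ (Or.inr (Or.inl rfl)) (Or.inr (Or.inr rfl)) hne23 hab hby
            (Or.inl rfl) hs₂ hs₃) id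
        · -- type Qbar
          have hW := L.kb1' hs₃ hs₂
          have h1 := (hW a').1 L.wa
          have hba : b = a' := by
            rcases l₃' a' h1 (Sym2.mem_mk_left _ _) with h | h
            · exact h.symm
            · exact absurd h.symm s1c
          refine ⟨hyW, Or.inr (Or.inr ⟨hba, hW, ?_⟩)⟩
          intro w hw hWw
          rcases hw with rfl | rfl | rfl | rfl | rfl
          · exact Or.inl rfl
          · exact absurd hWw r1a
          · exact Or.inr rfl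
          · exfalso
            rcases l₃' w hWw (Sym2.mem_mk_right _ _) with h | h
            · exact L.k2' hyW h.symm
            · exact s1d h.symm
          · exact absurd hWw s1a
        · exact absurd hs₃ (fun h => L.ky hyW h)
      · -- `h₂ = a' b'`
        exfalso
        have hW := L.ka2' hs₁ hs₂
        have h1 := (hW b').1 L.wb
        have hab' : a = b' := by
          rcases l₁' b' h1 (Sym2.mem_mk_left _ _) with h | h
          · exact absurd h.symm r1d
          · exact h.symm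
        rcases hh₃ with rfl | rfl | rfl
        · have hW' := L.kb1 hs₃ hs₂
          have h3 := (hW' a').1 L.wa
          have hba : b = a' := by
            rcases l₂' a' h3 (Sym2.mem_mk_left _ _) with h | h
            · exact absurd h.symm hk2
            · exact h.symm
          apply hab
          rw [hab', hba]
          right; right; left
          exact Sym2.eq_swap
        · exact L.r5 _ _ _ (Or.inr (Or.inl rfl)) (Or.inr (Or.inr rfl)) hne23 hab hby
            (Or.inr (Or.inl rfl)) hs₂ hs₃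
        · exact L.ky hyW hs₃
      · exact absurd (L.r5 _ _ _ (Or.inl rfl) (Or.inr (Or.inl rfl)) hne12 hxa hab
          (Or.inr (Or.inr rfl)) hs₁ hs₂) id

/-- a good root sees the cycle itself -/
lemma Loc.good (L : Loc SP W z x' a' b' y' x a b y) (hx : x = x') (hy : y = y') :
    a = a' ∧ b = b' := by
  subst hx hy
  have wx := L.Wx
  have wy := L.Wy
  have wa := L.Wa
  have wb := L.Wb
  -- partner of `x a`
  have hxa : a ≠ a' → SP s(x, a) s(x, a') ∧ ¬ (W z a') := by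
    intro ha
    have h0 : ¬ (s(x, a) = s(z, x) ∨ s(x, a) = s(x, a') ∨ s(x, a) = s(a', b') ∨
      s(x, a) = s(b', y) ∨ s(x, a) = s(y, z)) := by
      rintro (h | h | h | h | h)
      · rcases (l_mem h).2 with h' | h'
        · exact L.e2 h'.symm
        · exact L.e5 h'.symm
      · rcases (l_mem h).2 with h' | h'
        · exact L.e5 h'.symm
        · exact ha h'
      · rcases (l_mem h).1 with h' | h'
        · exact L.d5 h'
        · exact L.d6 h'
      · rcases (l_mem h).1 with h' | h'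
        · exact L.d6 h'
        · exact L.e7 h'
      · rcases (l_mem h).1 with h' | h'
        · exact L.e7 h'
        · exact L.e1 h'.symm
    obtain ⟨h₁, hh₁, hs₁, l₁, m₁⟩ := L.r3 s(x, a) (Or.inl rfl) h0
    have h1 := m₁ x (Or.inr (Or.inl rfl)) (Sym2.mem_mk_left _ _)
    rcases hh₁ with rfl | rfl | rfl
    · refine ⟨hs₁, fun h => ?_⟩
      rcases Sym2.mem_iff.1 (l₁ a' h (Sym2.mem_mk_right _ _)) with h | h
      · exact L.d5 h.symm
      · exact ha h.symm
    · exfalso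
      rcases Sym2.mem_iff.1 h1 with h | h
      · exact L.d5 h
      · exact L.d6 h
    · exfalso
      rcases Sym2.mem_iff.1 h1 with h | h
      · exact L.d6 h
      · exact L.d7 h
  have hby : b ≠ b' → SP s(b, y) s(b', y) ∧ ¬ (W z b') := by
    intro hb
    have h0 : ¬ (s(b, y) = s(z, x) ∨ s(b, y) = s(x, a') ∨ s(b, y) = s(a', b') ∨
      s(b, y) = s(b', y) ∨ s(b, y) = s(y, z)) := by
      rintro (h | h | h | h | h)
      · rcases (l_mem h).1 with h' | h'
        · exact L.e3 h'.symm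
        · exact L.e6 h'.symm
      · rcases (l_mem h).2 with h' | h'
        · exact L.e7 h'.symm
        · exact L.d9 h'.symm
      · rcases (l_mem h).2 with h' | h'
        · exact L.d9 h'.symm
        · exact L.d10 h'.symm
      · rcases (l_mem h).1 with h' | h'
        · exact hb h'
        · exact L.e10 h'
      · rcases (l_mem h).1 with h' | h'
        · exact L.e10 h'
        · exact L.e3 h'.symm
    obtain ⟨h₁, hh₁, hs₁, l₁, m₁⟩ := L.r3 s(b, y) (Or.inr (Or.inr rfl)) h0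
    have h1 := m₁ y (Or.inr (Or.inr (Or.inr (Or.inr rfl)))) (Sym2.mem_mk_right _ _)
    rcases hh₁ with rfl | rfl | rfl
    · exfalso
      rcases Sym2.mem_iff.1 h1 with h | h
      · exact L.d7 h.symm
      · exact L.d9 h.symm
    · exfalso
      rcases Sym2.mem_iff.1 h1 with h | h
      · exact L.d9 h.symm
      · exact L.d10 h.symm
    · refine ⟨hs₁, fun h => ?_⟩
      rcases Sym2.mem_iff.1 (l₁ b' h (Sym2.mem_mk_left _ _)) with h | h
      · exact hb h.symm
      · exact L.d10 h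
  -- if `a b` is not an edge of the cycle, its partner is `a' b'`
  have hab : ¬ (a = a' ∧ b = b') → SP s(a, b) s(a', b') := by
    intro hne
    have h0 : ¬ (s(a, b) = s(z, x) ∨ s(a, b) = s(x, a') ∨ s(a, b) = s(a', b') ∨
        s(a, b) = s(b', y) ∨ s(a, b) = s(y, z)) := by
      rintro (h | h | h | h | h)
      · rcases (l_mem h).1 with h' | h'
        · exact L.e2 h'.symm
        · exact L.e5 h'.symm
      · rcases Sym2.eq_iff.1 h with ⟨h', h''⟩ | ⟨h', h''⟩
        · exact L.e5 h'.symm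
        · exact L.e6 h''.symm
      · rcases Sym2.eq_iff.1 h with ⟨h', h''⟩ | ⟨h', h''⟩
        · exact hne ⟨h', h''⟩
        · have : a ≠ a' := fun hh => L.e8 (hh.trans h''.symm)
          exact (hxa this).2 (h'' ▸ wb)
      · rcases Sym2.eq_iff.1 h with ⟨h', h''⟩ | ⟨h', h''⟩
        · exact L.e10 h''
        · exact L.e9 h'
      · rcases (l_mem h).1 with h' | h'
        · exact L.e9 h'
        · exact L.e2 h'.symm
    obtain ⟨h₂, hh₂, hs₂, l₂, m₂⟩ := L.r3 s(a, b) (Or.inr (Or.inl rfl)) h0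
    rcases hh₂ with rfl | rfl | rfl
    · exfalso
      rcases Sym2.mem_iff.1 (l₂ x wx (Sym2.mem_mk_left _ _)) with h | h
      · exact L.e5 h
      · exact L.e6 h
    · exact hs₂
    · exfalso
      rcases Sym2.mem_iff.1 (l₂ y wy (Sym2.mem_mk_right _ _)) with h | h
      · exact L.e9 h.symm
      · exact L.e10 h.symm
  by_cases ha : a = a'
  · by_cases hb : b = b'
    · exact ⟨ha, hb⟩
    · exfalso
      obtain ⟨hs₃, hWb⟩ := hby hb
      exact hWb ((L.kb2' hs₃ (hab fun h => hb h.2) b').1 L.wb)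
  · exfalso
    obtain ⟨hs₁, hWa⟩ := hxa ha
    exact hWa ((L.ka1 hs₁ (hab fun h => ha h.1) a').1 L.wa)

end Pool.Agent.U140.SG
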