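import Pool.Agent.U140.SG.Glob

/-! Counting the easy violations. -/

set_option linter.unusedSectionVars false
set_option linter.unusedVariables false

namespace Pool.Agent.U140.SG

open Finset

lemma card_le_fib {α β : Type*} [DecidableEq α] (S : Finset α) (T : Finset β) (R : α → β → Prop)
    (M : ℕ) (h1 : ∀ a ∈ S, ∃ t ∈ T, R a t)
    (h2 : ∀ t ∈ T, ∀ S' ⊆ S, (∀ a ∈ S', R a t) → S'.card ≤ M) : S.card ≤ T.card * M := by
  classical
  have : S ⊆ T.biUnion fun t => S.filter fun a => R a t := by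
    intro a ha
    obtain ⟨t, ht, hr⟩ := h1 a ha
    exact mem_biUnion.2 ⟨t, ht, mem_filter.2 ⟨ha, hr⟩⟩
  refine (card_le_card this).trans (card_biUnion_le.trans ?_)
  refine (sum_le_card_nsmul T _ M fun t ht => ?_).trans (by simp)
  exact h2 t ht _ (filter_subset _ _) fun a ha => (mem_filter.1 ha).2

variable {n : ℕ} {G H : SimpleGraph (Fin n)} {f g : Fin n → Fin n → Fin n}
  {SP : Sym2 (Fin n) → Sym2 (Fin n) → Prop} {K : ℕ}

/-- at most `Up` cycles through a dart at the root -/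
def UpB (G : SimpleGraph (Fin n)) (Up : ℕ) : Prop :=
  ∀ u v, ∀ S : Finset (Fin 5 → Fin n), (∀ c ∈ S, IsC5 G c ∧ c 0 = u ∧ c 1 = v) → S.card ≤ Up

/-- at least `Lo` cycles through a dart at the root -/
def LoB (G : SimpleGraph (Fin n)) (Lo : ℕ) : Prop :=
  ∀ u v, G.Adj u v → ∃ S : Finset (Fin 5 → Fin n), (∀ c ∈ S, IsC5 G c ∧ c 0 = u ∧ c 1 = v) ∧
    Lo ≤ S.card

open Classical in
/-- defective darts -/
noncomputable def DD (G : SimpleGraph (Fin n)) (f : Fin n → Fin n → Fin n) :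
    Finset (Fin n × Fin n) :=
  univ.filter fun zx => G.Adj zx.1 zx.2 ∧ f zx.1 zx.2 ≠ zx.2

lemma mem_DD {zx : Fin n × Fin n} : zx ∈ DD G f ↔ G.Adj zx.1 zx.2 ∧ f zx.1 zx.2 ≠ zx.2 := by
  classical
  simp [DD]

lemma card_DD_le (m : Mt G H f g) : (DD G f).card ≤ (DD H g).card := by
  classical
  refine card_le_card_of_injOn (fun zx => (zx.1, f zx.1 zx.2)) ?_ ?_
  · intro zx hzx
    rw [mem_coe, mem_DD] at hzx
    rw [mem_coe, mem_DD]
    refine ⟨m.f_adj hzx.1, ?_⟩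
    simp only
    rw [m.gf_adj hzx.1]
    exact fun h => hzx.2 h.symm
  · rintro ⟨z, x⟩ h1 ⟨z', x'⟩ h2 hh
    rw [mem_coe, mem_DD] at h1 h2
    obtain ⟨e1, e2⟩ := Prod.ext_iff.1 hh
    simp only at e1 e2 h1 h2
    subst e1
    have : x = x' := by rw [← m.gf_adj h1.1, ← m.gf_adj h2.1, e2]
    rw [this]

lemma card_DD (m : Mt G H f g) : (DD G f).card = (DD H g).card :=
  le_antisymm (card_DD_le m) (card_DD_le m.symm)

/-- `H`-cycles through a dart and a vertex -/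
lemma card_rootH (m : Mt G H f g) (h : T3 G K) {u v w : Fin n} (hu : w ≠ u) (hv : w ≠ v)
    (S : Finset (Fin 5 → Fin n)) (hS : ∀ C ∈ S, IsC5 H C ∧ C 0 = u ∧ C 1 = v ∧ w ∈ Vs C) :
    S.card ≤ K5 K := by
  classical
  rcases S.eq_empty_or_nonempty with rfl | ⟨C₀, hC₀⟩
  · simp
  obtain ⟨h1, h2, h3, h4⟩ := hS C₀ hC₀
  rw [mem_Vs] at h4
  obtain ⟨i₀, hi₀⟩ := h4
  have hwB : InB H u w := by rw [← h2, ← hi₀]; exact h1.inB 0 i₀
  have hvB : InB H u v := by rw [← h2, ← h3]; exact h1.inB 0 1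
  have hinj : Set.InjOn (fun C => vw g C 0) (S : Set (Fin 5 → Fin n)) := by
    intro C hC C' hC' hh
    exact m.vw_inj (hS C hC).1 (hS C' hC').1 hh
  rw [← card_image_of_injOn hinj]
  refine card_root' h (u := u) (v := g u v) (w := g u w) ?_ ?_ _ ?_
  · intro hh
    apply hu
    rw [← m.fg u w hwB, hh, m.f_self]
  · intro hh
    apply hv
    rw [← m.fg u w hwB, hh, m.fg u v hvB]
  · intro c hc
    obtain ⟨C, hC, rfl⟩ := mem_image.1 hc
    obtain ⟨k1, k2, k3, k4⟩ := hS C hC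
    rw [mem_Vs] at k4
    obtain ⟨i, hi⟩ := k4
    refine ⟨m.vw_cyc k1 0, ?_, ?_, ?_⟩
    · exact (m.vw_root C 0).trans k2
    · show g (C 0) (C 1) = _; rw [k2, k3]
    · rw [mem_Vs]; exact ⟨i, by show g (C 0) (C i) = _; rw [k2, hi]⟩

lemma card_edge_vertexH (m : Mt G H f g) (h : T3 G K) {e : Sym2 (Fin n)} {w : Fin n}
    (hw : w ∉ e) (S : Finset (Fin 5 → Fin n)) (hS : ∀ C ∈ S, IsC5 H C ∧ e ∈ Es C ∧ w ∈ Vs C) :
    S.card ≤ 10 * K5 K := by
  induction e using Sym2.ind with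
  | _ u v =>
  rw [Sym2.mem_iff, not_or] at hw
  exact card_edge_le H (fun c => w ∈ Vs c) (fun k b c h => by rwa [Vs_act]) u v
    (fun S hS => card_rootH m h hw.1 hw.2 S hS) (fun S hS => card_rootH m h hw.2 hw.1 S hS) S hS

lemma UpH (m : Mt G H f g) {Up : ℕ} (h : UpB G Up) : UpB H Up := by
  classical
  intro u v S hS
  have hinj : Set.InjOn (fun C => vw g C 0) (S : Set (Fin 5 → Fin n)) := by
    intro C hC C' hC' hh
    exact m.vw_inj (hS C hC).1 (hS C' hC').1 hh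
  rw [← card_image_of_injOn hinj]
  refine h u (g u v) _ ?_
  intro c hc
  obtain ⟨C, hC, rfl⟩ := mem_image.1 hc
  obtain ⟨k1, k2, k3⟩ := hS C hC
  refine ⟨m.vw_cyc k1 0, (m.vw_root C 0).trans k2, ?_⟩
  show g (C 0) (C 1) = _; rw [k2, k3]

lemma card_edgeUp {Up : ℕ} (h : UpB G Up) (e : Sym2 (Fin n)) (S : Finset (Fin 5 → Fin n))
    (hS : ∀ c ∈ S, IsC5 G c ∧ e ∈ Es c) : S.card ≤ 10 * Up := by
  induction e using Sym2.ind with
  | _ u v =>
  exact card_edge_le G (fun _ => True) (fun k b c h => trivial) u v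
    (fun S hS => h u v S fun c hc => ⟨(hS c hc).1, (hS c hc).2.1, (hS c hc).2.2.1⟩)
    (fun S hS => h v u S fun c hc => ⟨(hS c hc).1, (hS c hc).2.1, (hS c hc).2.2.1⟩) S
    (fun c hc => ⟨(hS c hc).1, (hS c hc).2, trivial⟩)

/-- the view at the root of an `H`-cycle -/
lemma root_facts (m : Mt G H f g) {C : Fin 5 → Fin n} (h : IsC5 H C) :
    IsC5 G (vw g C 0) ∧ vw g C 0 0 = C 0 ∧ f (C 0) (vw g C 0 1) = C 1 :=
  ⟨m.vw_cyc h 0, m.vw_root C 0, m.f_vw h 0 1⟩

lemma image_view (m : Mt G H f g) (S : Finset (Fin 5 → Fin n)) (hS : ∀ C ∈ S, IsC5 H C) :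
    (S.image fun C => vw g C 0).card = S.card := by
  classical
  refine card_image_of_injOn fun C hC C' hC' hh => ?_
  exact m.vw_inj (hS C hC) (hS C' hC') hh

lemma moved_mem (m : Mt G H f g) {C : Fin 5 → Fin n} (h : IsC5 H C) (hx : vw g C 0 1 ≠ C 1) :
    (C 0, vw g C 0 1) ∈ DD G f := by
  rw [mem_DD]
  obtain ⟨h1, h2, h3⟩ := root_facts m h
  refine ⟨?_, ?_⟩
  · have := h1.adj 0
    rw [h2] at this
    exact this
  · simp only
    rw [h3]
    exact fun hh => hx hh.symm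

lemma cnt_V1 (m : Mt G H f g) (h : T3 G K) (S : Finset (Fin 5 → Fin n))
    (hS : ∀ C ∈ S, IsC5 H C ∧ V1 g C) : S.card ≤ (DD G f).card * (2 * K5 K) := by
  classical
  refine card_le_fib S (DD G f) (fun C zx => C 0 = zx.1 ∧ vw g C 0 1 = zx.2) _ ?_ ?_
  · intro C hC
    exact ⟨_, moved_mem m (hS C hC).1 (hS C hC).2.1, rfl, rfl⟩
  · rintro ⟨z, x⟩ hzx S' hS' hr
    rw [mem_DD] at hzx
    simp only at hzx hr
    rw [← image_view m S' fun C hC => (hS C (hS' hC)).1]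
    -- split according to the third vertex
    set T := S'.image fun C => vw g C 0 with hT
    have hsub : T ⊆ (T.filter fun c => f z x ∈ Vs c) ∪ (T.filter fun c => g z x ∈ Vs c ∧ g z x ≠ z ∧ g z x ≠ x) := by
      intro c hc
      obtain ⟨C, hC, rfl⟩ := mem_image.1 hc
      obtain ⟨hC5, hne, hor⟩ := hS C (hS' hC)
      obtain ⟨hr1, hr2⟩ := hr C hC
      obtain ⟨q1, q2, q3⟩ := root_facts m hC5
      rw [mem_union, mem_filter, mem_filter]
      have hf : f z x = C 1 := by rw [← hr1, ← hr2]; exact q3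
      rcases hor with ho | ho
      · left
        rw [hf]
        exact ⟨hc, ho⟩
      · right
        rw [hr2, mem_Vs] at ho
        obtain ⟨i, hi⟩ := ho
        have hgi : g z x = vw g C 0 i := by rw [← hr1, ← hi]; rfl
        refine ⟨hc, ?_, ?_, ?_⟩
        · rw [hgi, mem_Vs]; exact ⟨i, rfl⟩
        · intro hh
          have : f (C 0) (vw g C 0 i) = C i := m.f_vw hC5 0 i
          rw [← hgi, hh, ← hr1, m.f_self, hr1, hi] at this
          exact hzx.1.ne this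
        · intro hh
          have : f (C 0) (vw g C 0 i) = C i := m.f_vw hC5 0 i
          rw [← hgi, hh, hi, hr1] at this
          exact hzx.2 this
    refine (card_le_card hsub).trans ((card_union_le _ _).trans ?_)
    have b1 : (T.filter fun c => f z x ∈ Vs c).card ≤ K5 K := by
      refine card_root' h (u := z) (v := x) (w := f z x) ?_ hzx.2 _ ?_
      · exact (m.f_adj hzx.1).ne'
      · intro c hc
        obtain ⟨hc1, hc2⟩ := mem_filter.1 hc
        obtain ⟨C, hC, rfl⟩ := mem_image.1 hc1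
        obtain ⟨q1, q2, q3⟩ := root_facts m (hS C (hS' hC)).1
        exact ⟨q1, q2.trans (hr C hC).1, (hr C hC).2, hc2⟩
    have b2 : (T.filter fun c => g z x ∈ Vs c ∧ g z x ≠ z ∧ g z x ≠ x).card ≤ K5 K := by
      by_cases hg : g z x ≠ z ∧ g z x ≠ x
      · refine card_root' h (u := z) (v := x) (w := g z x) hg.1 hg.2 _ ?_
        intro c hc
        obtain ⟨hc1, hc2⟩ := mem_filter.1 hc
        obtain ⟨C, hC, rfl⟩ := mem_image.1 hc1
        obtain ⟨q1, q2, q3⟩ := root_facts m (hS C (hS' hC)).1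
        exact ⟨q1, q2.trans (hr C hC).1, (hr C hC).2, hc2.1⟩
      · rw [filter_eq_empty_iff.2 fun c _ hh => hg hh.2]; simp
    omega

lemma cnt_V8 (m : Mt G H f g) (h : T3 G K) (S : Finset (Fin 5 → Fin n))
    (hS : ∀ C ∈ S, IsC5 H C ∧ V8 G g C) : S.card ≤ (DD G f).card * (K * K5 K) := by
  classical
  refine card_le_fib S (DD G f) (fun C zx => C 0 = zx.1 ∧ vw g C 0 1 = zx.2) _ ?_ ?_
  · intro C hC
    exact ⟨_, moved_mem m (hS C hC).1 (hS C hC).2.1, rfl, rfl⟩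
  · rintro ⟨z, x⟩ hzx S' hS' hr
    rw [mem_DD] at hzx
    simp only at hzx hr
    have h1 : S'.card ≤ (paths3 G x z).card * K5 K := by
      refine card_le_fib S' (paths3 G x z) (fun C ab => vw g C 0 2 = ab.1) _ ?_ ?_
      · intro C hC
        obtain ⟨hC5, hne, t, ht1, ht2, ht3⟩ := hS C (hS' hC)
        obtain ⟨q1, q2, q3⟩ := root_facts m hC5
        obtain ⟨hr1, hr2⟩ := hr C hC
        refine ⟨(vw g C 0 2, t), ?_, rfl⟩
        rw [mem_paths3]
        simp only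
        rw [← hr2, ← hr1, ← q2]
        exact ⟨q1.adj 1, ht3.symm, ht2, ht1.symm, q1.inj.ne (by decide), q1.inj.ne (by decide)⟩
      · rintro ⟨a, t⟩ hat S'' hS'' hr''
        rw [mem_paths3] at hat
        simp only at hat hr''
        rw [← image_view m S'' fun C hC => (hS C (hS' (hS'' hC))).1]
        refine card_root' h (u := z) (v := x) (w := a) hat.2.2.2.2.1 hat.1.ne' _ ?_
        intro c hc
        obtain ⟨C, hC, rfl⟩ := mem_image.1 hc
        obtain ⟨q1, q2, q3⟩ := root_facts m (hS C (hS' (hS'' hC))).1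
        refine ⟨q1, q2.trans (hr C (hS'' hC)).1, (hr C (hS'' hC)).2, ?_⟩
        rw [mem_Vs]
        exact ⟨2, hr'' C hC⟩
    exact h1.trans (Nat.mul_le_mul_right _ (h x z))

lemma In_sub_Es (c : Fin 5 → Fin n) : In c ⊆ Es c := by
  intro e he
  rw [mem_In] at he
  rw [mem_Es5]
  tauto

lemma root_notin_In {c : Fin 5 → Fin n} (hc : IsC5 G c) {e : Sym2 (Fin n)} (he : e ∈ In c) :
    c 0 ∉ e := by
  rw [mem_In] at he
  have := hc.inj
  rcases he with rfl | rfl | rfl <;> rw [Sym2.mem_iff, not_or] <;>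
    exact ⟨hc.inj.ne (by decide), hc.inj.ne (by decide)⟩

open Classical in
lemma card_ends (e : Sym2 (Fin n)) : (univ.filter fun w : Fin n => w ∈ e).card ≤ 2 := by
  induction e using Sym2.ind with
  | _ u v =>
  have : (univ.filter fun w : Fin n => w ∈ s(u, v)) ⊆ {u, v} := by
    intro w hw
    rw [mem_filter, Sym2.mem_iff] at hw
    simp [hw.2]
  exact (card_le_card this).trans card_le_two

lemma cnt_V4 (m : Mt G H f g) (h : T3 G K) (P : Finset (Sym2 (Fin n) × Sym2 (Fin n)))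
    (hP : ∀ e e', SP e e' → (e, e') ∈ P) (S : Finset (Fin 5 → Fin n))
    (hS : ∀ C ∈ S, IsC5 H C ∧ V4 SP g C) : S.card ≤ P.card * (40 * K5 K) := by
  classical
  refine card_le_fib S P (fun C eh => eh.1 ∈ In (vw g C 0) ∧ eh.2 ∈ Es C ∧
    ((∃ w ∈ Vs (vw g C 0), w ∈ eh.2 ∧ w ∉ eh.1) ∨ (∃ w ∈ Vs C, w ∈ eh.1 ∧ w ∉ eh.2))) _ ?_ ?_
  · intro C hC
    obtain ⟨hC5, e, he, hne, k, hk, hs, hor⟩ := hS C hC
    obtain ⟨q1, q2, q3⟩ := root_facts m hC5
    refine ⟨(e, k), hP _ _ hs, he, hk, ?_⟩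
    rcases hor with ho | ho | ho
    · left
      refine ⟨C 0, ?_, ho, ?_⟩
      · rw [mem_Vs]; exact ⟨0, q2⟩
      · rw [← q2]; exact root_notin_In q1 he
    · exact Or.inl ho
    · exact Or.inr ho
  · rintro ⟨e, k⟩ hek S' hS' hr
    simp only at hr
    have hsub : S' ⊆ (S'.filter fun C => ∃ w ∈ Vs (vw g C 0), w ∈ k ∧ w ∉ e) ∪
        (S'.filter fun C => ∃ w ∈ Vs C, w ∈ e ∧ w ∉ k) := by
      intro C hC
      rw [mem_union, mem_filter, mem_filter]
      rcases (hr C hC).2.2 with ho | ho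
      · exact Or.inl ⟨hC, ho⟩
      · exact Or.inr ⟨hC, ho⟩
    refine (card_le_card hsub).trans ((card_union_le _ _).trans ?_)
    have b1 : (S'.filter fun C => ∃ w ∈ Vs (vw g C 0), w ∈ k ∧ w ∉ e).card ≤ 2 * (10 * K5 K) := by
      have hb := card_le_fib (S'.filter fun C => ∃ w ∈ Vs (vw g C 0), w ∈ k ∧ w ∉ e)
        (univ.filter fun w : Fin n => w ∈ k) (fun C w => w ∈ Vs (vw g C 0) ∧ w ∉ e) (10 * K5 K)
        ?_ ?_
      · exact hb.trans (Nat.mul_le_mul_right _ (card_ends k))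
      · intro C hC
        obtain ⟨hC1, w, hw1, hw2, hw3⟩ := mem_filter.1 hC
        exact ⟨w, mem_filter.2 ⟨mem_univ _, hw2⟩, hw1, hw3⟩
      · intro w hw S'' hS'' hr''
        have hmem : ∀ C ∈ S'', C ∈ S' := fun C hC => (mem_filter.1 (hS'' hC)).1
        rcases S''.eq_empty_or_nonempty with he0 | ⟨C₀, hC₀⟩
        · rw [he0]; simp
        rw [← image_view m S'' fun C hC => (hS C (hS' (hmem C hC))).1]
        refine card_edge_vertex h (g := e) (w := w) (hr'' C₀ hC₀).2 _ ?_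
        intro c hc
        obtain ⟨C, hC, rfl⟩ := mem_image.1 hc
        obtain ⟨q1, q2, q3⟩ := root_facts m (hS C (hS' (hmem C hC))).1
        exact ⟨q1, In_sub_Es _ (hr C (hmem C hC)).1, (hr'' C hC).1⟩
    have b2 : (S'.filter fun C => ∃ w ∈ Vs C, w ∈ e ∧ w ∉ k).card ≤ 2 * (10 * K5 K) := by
      have hb := card_le_fib (S'.filter fun C => ∃ w ∈ Vs C, w ∈ e ∧ w ∉ k)
        (univ.filter fun w : Fin n => w ∈ e) (fun C w => w ∈ Vs C ∧ w ∉ k) (10 * K5 K)
        ?_ ?_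
      · exact hb.trans (Nat.mul_le_mul_right _ (card_ends e))
      · intro C hC
        obtain ⟨hC1, w, hw1, hw2, hw3⟩ := mem_filter.1 hC
        exact ⟨w, mem_filter.2 ⟨mem_univ _, hw2⟩, hw1, hw3⟩
      · intro w hw S'' hS'' hr''
        have hmem : ∀ C ∈ S'', C ∈ S' := fun C hC => (mem_filter.1 (hS'' hC)).1
        rcases S''.eq_empty_or_nonempty with he0 | ⟨C₀, hC₀⟩
        · rw [he0]; simp
        refine card_edge_vertexH m h (e := k) (w := w) (hr'' C₀ hC₀).2 _ ?_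
        intro C hC
        exact ⟨(hS C (hS' (hmem C hC))).1, (hr C (hmem C hC)).2.1, (hr'' C hC).1⟩
    omega

lemma cnt_V5 (m : Mt G H f g) (h : T3 G K) (P : Finset (Sym2 (Fin n) × Sym2 (Fin n)))
    (hP : ∀ e e', SP e e' → (e, e') ∈ P) {μ : ℕ}
    (hμ : ∀ k, ∀ T : Finset (Sym2 (Fin n)), (∀ e ∈ T, (e, k) ∈ P) → T.card ≤ μ)
    (S : Finset (Fin 5 → Fin n))
    (hS : ∀ C ∈ S, IsC5 H C ∧ V5 SP g C) : S.card ≤ P.card * (μ * (20 * K5 K)) := by
  classical
  refine card_le_fib S P (fun C eh => eh.1 ∈ In (vw g C 0) ∧ ∃ e₂ ∈ In (vw g C 0), eh.1 ≠ e₂ ∧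
    (e₂, eh.2) ∈ P) _ ?_ ?_
  · intro C hC
    obtain ⟨hC5, e, he, e₂, he₂, hne, k, hk, hs, hs2⟩ := hS C hC
    exact ⟨(e, k), hP _ _ hs, he, e₂, he₂, hne, hP _ _ hs2⟩
  · rintro ⟨e, k⟩ hek S' hS' hr
    simp only at hr
    have hb := card_le_fib S' (univ.filter fun e₂ : Sym2 (Fin n) => (e₂, k) ∈ P)
      (fun C e₂ => e₂ ∈ In (vw g C 0) ∧ e ≠ e₂) (20 * K5 K) ?_ ?_
    · refine hb.trans (Nat.mul_le_mul_right _ (hμ k _ fun e he => (mem_filter.1 he).2))
    · intro C hC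
      obtain ⟨h1, e₂, h2, h3, h4⟩ := hr C hC
      exact ⟨e₂, mem_filter.2 ⟨mem_univ _, h4⟩, h2, h3⟩
    · intro e₂ he₂ S'' hS'' hr''
      have hb2 := card_le_fib S'' (univ.filter fun w : Fin n => w ∈ e₂)
        (fun C w => w ∉ e ∧ w ∈ Vs (vw g C 0)) (10 * K5 K) ?_ ?_
      · refine hb2.trans ?_
        have := card_ends e₂
        calc _ ≤ 2 * (10 * K5 K) := Nat.mul_le_mul_right _ this
          _ = _ := by ring
      · intro C hC
        obtain ⟨h1, h2⟩ := hr'' C hC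
        obtain ⟨q1, q2, q3⟩ := root_facts m (hS C (hS' (hS'' hC))).1
        have h3 := (hr C (hS'' hC)).1
        rw [mem_In] at h1
        have : ∃ w, w ∈ e₂ ∧ w ∉ e := by
          by_contra hcon
          push Not at hcon
          apply h2
          rw [mem_In] at h3
          have hnd : ¬ e₂.IsDiag := by
            rcases h1 with rfl | rfl | rfl <;> rw [Sym2.mk_isDiag_iff] <;>
              exact q1.inj.ne (by decide)
          induction e₂ using Sym2.ind with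
          | _ p q =>
          rw [Sym2.mk_isDiag_iff] at hnd
          exact ((Sym2.mem_and_mem_iff hnd).1 ⟨hcon p (Sym2.mem_mk_left _ _),
            hcon q (Sym2.mem_mk_right _ _)⟩)
        obtain ⟨w, hw1, hw2⟩ := this
        refine ⟨w, mem_filter.2 ⟨mem_univ _, hw1⟩, hw2, ?_⟩
        rw [mem_Vs5]
        rcases h1 with rfl | rfl | rfl <;> rw [Sym2.mem_iff] at hw1 <;> tauto
      · intro w hw S₃ hS₃ hr₃
        rcases S₃.eq_empty_or_nonempty with he0 | ⟨C₀, hC₀⟩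
        · rw [he0]; simp
        rw [← image_view m S₃ fun C hC => (hS C (hS' (hS'' (hS₃ hC)))).1]
        refine card_edge_vertex h (g := e) (w := w) (hr₃ C₀ hC₀).1 _ ?_
        intro c hc
        obtain ⟨C, hC, rfl⟩ := mem_image.1 hc
        obtain ⟨q1, q2, q3⟩ := root_facts m (hS C (hS' (hS'' (hS₃ hC)))).1
        exact ⟨q1, In_sub_Es _ (hr C (hS'' (hS₃ hC))).1, (hr₃ C hC).2⟩

end Pool.Agent.U140.SG
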