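import Pool.Agent.U140.SG.Par3

/-! Fingerprints of darts. -/

set_option linter.unusedSectionVars false
set_option linter.unusedVariables false

namespace Pool.Agent.U140.SG

open Finset Pool.Agent.Q299.PW

variable {n : ℕ} {G H : SimpleGraph (Fin n)} {f g : Fin n → Fin n → Fin n}

open Classical in
noncomputable def B2 (G : SimpleGraph (Fin n)) (v : Fin n) : Finset (Fin n) :=
  univ.filter fun w => InB G v w

lemma mem_B2 {v w : Fin n} : w ∈ B2 G v ↔ InB G v w := by
  classical
  simp [B2]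

lemma mem_nb {v w : Fin n} : w ∈ nb G v ↔ G.Adj v w := by
  classical
  simp [nb]

/-- number of neighbours of `u` with exactly `j` neighbours in the ball of `v` -/
noncomputable def lev (G : SimpleGraph (Fin n)) (u v : Fin n) (j : ℕ) : ℕ :=
  ((nb G u).filter fun x => ((nb G x) ∩ (B2 G v)).card = j).card

def UF (G : SimpleGraph (Fin n)) : Prop := ∀ a b a' b' : Fin n, G.Adj a b → G.Adj a' b' →
  b' ≠ a → (∀ j, lev G a b j = lev G a' b' j) → a = a'

lemma InB.two {z s w : Fin n} (h1 : G.Adj z s) (h2 : G.Adj s w) : InB G z w :=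
  Or.inr (Or.inr ⟨s, h1, h2⟩)

lemma Mt.g_pres (m : Mt G H f g) {z a b : Fin n} (ha : InB H z a) (hb : InB H z b)
    (h : H.Adj a b) : G.Adj (g z a) (g z b) := (m.symm.adj z a b ha hb).1 h

lemma Mt.g_inj (m : Mt G H f g) {z a b : Fin n} (ha : InB H z a) (hb : InB H z b)
    (h : g z a = g z b) : a = b := by
  rw [← m.fg z a ha, ← m.fg z b hb, h]

/-- first view -/
lemma inv1_le (m : Mt G H f g) {u v x : Fin n} (hv : H.Adj u v) (hx : H.Adj u x) :
    ((nb H x) ∩ (B2 H v)).card ≤ ((nb G (g u x)) ∩ (B2 G (g u v))).card := by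
  refine card_le_card_of_injOn (g u) ?_ ?_
  · intro w hw
    rw [mem_coe, mem_inter, mem_nb, mem_B2] at hw
    obtain ⟨h1, h2⟩ := hw
    have hxB : InB H u x := InB.of_adj hx
    have hwB : InB H u w := InB.two hx h1
    have hvB : InB H u v := InB.of_adj hv
    rw [mem_coe, mem_inter, mem_nb, mem_B2]
    refine ⟨m.g_pres hxB hwB h1, ?_⟩
    rcases h2 with h2 | h2 | ⟨s, h2, h3⟩
    · left; rw [h2]
    · right; left; exact m.g_pres hvB hwB h2
    · right; right
      have hsB : InB H u s := InB.two hv h2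
      exact ⟨g u s, m.g_pres hvB hsB h2, m.g_pres hsB hwB h3⟩
  · intro w hw w' hw' hh
    rw [mem_coe, mem_inter, mem_nb, mem_B2] at hw hw'
    exact m.g_inj (InB.two hx hw.1) (InB.two hx hw'.1) hh

lemma inv1_eq (m : Mt G H f g) {u v x : Fin n} (hv : H.Adj u v) (hx : H.Adj u x) :
    ((nb H x) ∩ (B2 H v)).card = ((nb G (g u x)) ∩ (B2 G (g u v))).card := by
  refine le_antisymm (inv1_le m hv hx) ?_
  have := inv1_le m.symm (m.g_adj hv) (m.g_adj hx)
  rwa [m.fg_adj hv, m.fg_adj hx] at this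

lemma inv1_lev_le (m : Mt G H f g) {u v : Fin n} (hv : H.Adj u v) (j : ℕ) :
    lev H u v j ≤ lev G u (g u v) j := by
  unfold lev
  refine card_le_card_of_injOn (g u) ?_ ?_
  · intro x hx
    rw [mem_coe, mem_filter, mem_nb] at hx
    rw [mem_coe, mem_filter, mem_nb]
    exact ⟨m.g_adj hx.1, by rw [← inv1_eq m hv hx.1]; exact hx.2⟩
  · intro x hx x' hx' hh
    rw [mem_coe, mem_filter, mem_nb] at hx hx'
    exact m.g_inj (InB.of_adj hx.1) (InB.of_adj hx'.1) hh

lemma inv1 (m : Mt G H f g) {u v : Fin n} (hv : H.Adj u v) (j : ℕ) :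
    lev H u v j = lev G u (g u v) j := by
  refine le_antisymm (inv1_lev_le m hv j) ?_
  have := inv1_lev_le m.symm (m.g_adj hv) j
  rwa [m.fg_adj hv] at this

/-- second view -/
lemma inv2_le (m : Mt G H f g) {u v x : Fin n} (hv : H.Adj v u) (hx : H.Adj u x) :
    ((nb H x) ∩ (B2 H v)).card ≤ ((nb G (g v x)) ∩ (B2 G v)).card := by
  refine card_le_card_of_injOn (g v) ?_ ?_
  · intro w hw
    rw [mem_coe, mem_inter, mem_nb, mem_B2] at hw
    obtain ⟨h1, h2⟩ := hw
    rw [mem_coe, mem_inter, mem_nb, mem_B2]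
    exact ⟨m.g_pres (InB.two hv hx) h2 h1, m.g_in v w h2⟩
  · intro w hw w' hw' hh
    rw [mem_coe, mem_inter, mem_nb, mem_B2] at hw hw'
    exact m.g_inj hw.2 hw'.2 hh

lemma inv2_eq (m : Mt G H f g) {u v x : Fin n} (hv : H.Adj v u) (hx : H.Adj u x) :
    ((nb H x) ∩ (B2 H v)).card = ((nb G (g v x)) ∩ (B2 G v)).card := by
  refine le_antisymm (inv2_le m hv hx) ?_
  have hxB : InB H v x := InB.two hv hx
  have := inv2_le m.symm (m.g_adj hv) (m.g_pres (InB.of_adj hv) hxB hx)
  rwa [m.fg v x hxB] at this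

lemma inv2_lev_le (m : Mt G H f g) {u v : Fin n} (hv : H.Adj v u) (j : ℕ) :
    lev H u v j ≤ lev G (g v u) v j := by
  unfold lev
  refine card_le_card_of_injOn (g v) ?_ ?_
  · intro x hx
    rw [mem_coe, mem_filter, mem_nb] at hx
    rw [mem_coe, mem_filter, mem_nb]
    exact ⟨m.g_pres (InB.of_adj hv) (InB.two hv hx.1) hx.1,
      by rw [← inv2_eq m hv hx.1]; exact hx.2⟩
  · intro x hx x' hx' hh
    rw [mem_coe, mem_filter, mem_nb] at hx hx'
    exact m.g_inj (InB.two hv hx.1) (InB.two hv hx'.1) hh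

lemma inv2 (m : Mt G H f g) {u v : Fin n} (hv : H.Adj v u) (j : ℕ) :
    lev H u v j = lev G (g v u) v j := by
  refine le_antisymm (inv2_lev_le m hv j) ?_
  have := inv2_lev_le m.symm (m.g_adj hv) j
  rwa [m.fg_adj hv] at this

/-- unique fingerprints force trivial matchings -/
theorem good_of_UF (h : UF G) : GoodG G := by
  classical
  intro H f g m
  have h1 : DD H g = ∅ := by
    rw [eq_empty_iff_forall_notMem]
    rintro ⟨v, u⟩ hvu
    rw [mem_DD] at hvu
    obtain ⟨hadj, hne⟩ := hvu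
    simp only at hadj hne
    apply hne
    have hl : ∀ j, lev G u (g u v) j = lev G (g v u) v j := fun j =>
      (inv1 m hadj.symm j).symm.trans (inv2 m hadj j)
    exact (h u (g u v) (g v u) v (m.g_adj hadj.symm) (m.g_adj hadj).symm hadj.ne hl).symm
  have h2 := card_DD m
  rw [h1, card_empty] at h2
  exact card_eq_zero.1 h2

end Pool.Agent.U140.SG
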