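import Pool.Agent.U140.SG.AcB
import Pool.Agent.U140.SG.Fp

/-! Collision probability of two fingerprints. -/

set_option linter.unusedSectionVars false
set_option linter.unusedVariables false

namespace Pool.Agent.U140.SG

open Finset Pool.Agent.Q299.PW

variable {n : ℕ}

/-- `ω` and `ω'` agree outside `A × Y` -/
def Agr (A Y : Finset (Fin n)) (ω ω' : Om n) : Prop :=
  ∀ e : Sym2 (Fin n), (¬ ∃ a ∈ A, ∃ y ∈ Y, e = s(a, y)) → ω e = ω' e

lemma Agr.nb_eq {A Y : Finset (Fin n)} {ω ω' : Om n} (h : Agr A Y ω ω') {x : Fin n}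
    (hA : x ∉ A) (hY : x ∉ Y) : nb (gr ω) x = nb (gr ω') x := by
  classical
  ext w
  rw [mem_nb, mem_nb, gr_adj, gr_adj, h s(x, w)]
  rintro ⟨a, ha, y, hy, he⟩
  rw [Sym2.eq_iff] at he
  rcases he with ⟨rfl, rfl⟩ | ⟨rfl, rfl⟩
  · exact hA ha
  · exact hY hy

lemma Agr.nb_iff {A Y : Finset (Fin n)} {ω ω' : Om n} (h : Agr A Y ω ω') (hd : Disjoint A Y)
    {x w : Fin n} (hx : x ∈ A) (hw : w ∉ Y) : w ∈ nb (gr ω) x ↔ w ∈ nb (gr ω') x := by
  classical
  rw [mem_nb, mem_nb, gr_adj, gr_adj, h s(x, w)]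
  rintro ⟨a, ha, y, hy, he⟩
  rw [Sym2.eq_iff] at he
  rcases he with ⟨rfl, rfl⟩ | ⟨rfl, rfl⟩
  · exact hw hy
  · exact disjoint_left.1 hd hx hy

lemma B2_congr {G G' : SimpleGraph (Fin n)} {v : Fin n} (h1 : nb G v = nb G' v)
    (h2 : ∀ s ∈ nb G v, nb G s = nb G' s) : B2 G v = B2 G' v := by
  ext w
  rw [mem_B2, mem_B2]
  unfold InB
  have e1 : ∀ w, G.Adj v w ↔ G'.Adj v w := fun w => by rw [← mem_nb, ← mem_nb, h1]
  refine or_congr Iff.rfl (or_congr (e1 w) ?_)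
  constructor
  · rintro ⟨s, hs, hw⟩
    refine ⟨s, (e1 s).1 hs, ?_⟩
    rw [← mem_nb, ← h2 s (mem_nb.2 hs), mem_nb]; exact hw
  · rintro ⟨s, hs, hw⟩
    have hs' := (e1 s).2 hs
    refine ⟨s, hs', ?_⟩
    rw [← mem_nb, h2 s (mem_nb.2 hs'), mem_nb]; exact hw

variable (u v u' v' : Fin n)

noncomputable def Exs (G : SimpleGraph (Fin n)) : Finset (Fin n) :=
  nb G u' ∪ (nb G v ∪ (nb G v' ∪ {u, u', v, v'}))

noncomputable def As (G : SimpleGraph (Fin n)) : Finset (Fin n) := nb G u \ Exs u v u' v' G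

noncomputable def Ys (G : SimpleGraph (Fin n)) : Finset (Fin n) :=
  B2 G v \ (nb G u ∪ Exs u v u' v' G)

noncomputable def ca (G : SimpleGraph (Fin n)) (a : Fin n) : ℕ :=
  (nb G a ∩ (B2 G v \ Ys u v u' v' G)).card

noncomputable def Acs (c : ℕ) (G : SimpleGraph (Fin n)) : Finset (Fin n) :=
  (As u v u' v' G).filter fun a => ca u v u' v' G a = c

variable {u v u' v'}

lemma not_Exs {G : SimpleGraph (Fin n)} {x : Fin n} (h : x ∉ Exs u v u' v' G) :
    x ∉ nb G u' ∧ x ∉ nb G v ∧ x ∉ nb G v' ∧ x ≠ u ∧ x ≠ u' ∧ x ≠ v ∧ x ≠ v' := by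
  unfold Exs at h
  simp only [mem_union, mem_insert, mem_singleton, not_or] at h
  tauto

lemma As_facts {G : SimpleGraph (Fin n)} {x : Fin n} (h : x ∈ As u v u' v' G) :
    x ∈ nb G u ∧ x ∉ nb G u' ∧ x ∉ nb G v ∧ x ∉ nb G v' ∧ x ≠ u ∧ x ≠ u' ∧ x ≠ v ∧ x ≠ v' := by
  unfold As at h
  rw [mem_sdiff] at h
  exact ⟨h.1, not_Exs h.2⟩

lemma Ys_facts {G : SimpleGraph (Fin n)} {x : Fin n} (h : x ∈ Ys u v u' v' G) :
    x ∈ B2 G v ∧ x ∉ nb G u ∧ x ∉ nb G u' ∧ x ∉ nb G v ∧ x ∉ nb G v' ∧ x ≠ u ∧ x ≠ u' ∧ x ≠ v ∧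
      x ≠ v' := by
  unfold Ys at h
  rw [mem_sdiff, mem_union, not_or] at h
  exact ⟨h.1, h.2.1, not_Exs h.2.2⟩

lemma disj_AY (G : SimpleGraph (Fin n)) : Disjoint (As u v u' v' G) (Ys u v u' v' G) := by
  rw [disjoint_left]
  intro x hx hx'
  exact (Ys_facts hx').2.1 (As_facts hx).1

lemma Acs_sub (c : ℕ) (G : SimpleGraph (Fin n)) : Acs u v u' v' c G ⊆ As u v u' v' G :=
  filter_subset _ _

lemma disj_AcY (c : ℕ) (G : SimpleGraph (Fin n)) :
    Disjoint (Acs u v u' v' c G) (Ys u v u' v' G) := (disj_AY G).mono_left (Acs_sub c G)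

/-- everything that does not change when the pairs between `Acs` and `Ys` are resampled -/
structure Same (u v u' v' : Fin n) (c : ℕ) (G G' : SimpleGraph (Fin n)) : Prop where
  nu : nb G u = nb G' u
  nu' : nb G u' = nb G' u'
  nx' : ∀ x ∈ nb G u', nb G x = nb G' x
  bv : B2 G v = B2 G' v
  bv' : B2 G v' = B2 G' v'
  as : As u v u' v' G = As u v u' v' G'
  ys : Ys u v u' v' G = Ys u v u' v' G'
  acs : Acs u v u' v' c G = Acs u v u' v' c G'
  nx : ∀ x ∈ nb G u, x ∉ Acs u v u' v' c G → nb G x = nb G' x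
  ca : ∀ a ∈ As u v u' v' G, ca u v u' v' G a = ca u v u' v' G' a

lemma same_of_agr (c : ℕ) {ω ω' : Om n}
    (h : Agr (Acs u v u' v' c (gr ω)) (Ys u v u' v' (gr ω)) ω ω') :
    Same u v u' v' c (gr ω) (gr ω') := by
  have hA : ∀ x ∈ Acs u v u' v' c (gr ω), _ := fun x hx => As_facts (Acs_sub c _ hx)
  have hY : ∀ x ∈ Ys u v u' v' (gr ω), _ := fun x hx => Ys_facts hx
  have nu : nb (gr ω) u = nb (gr ω') u :=
    h.nb_eq (fun hx => (hA u hx).2.2.2.2.1 rfl) (fun hx => (hY u hx).2.2.2.2.2.1 rfl)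
  have nu' : nb (gr ω) u' = nb (gr ω') u' :=
    h.nb_eq (fun hx => (hA u' hx).2.2.2.2.2.1 rfl) (fun hx => (hY u' hx).2.2.2.2.2.2.1 rfl)
  have nv : nb (gr ω) v = nb (gr ω') v :=
    h.nb_eq (fun hx => (hA v hx).2.2.2.2.2.2.1 rfl) (fun hx => (hY v hx).2.2.2.2.2.2.2.1 rfl)
  have nv' : nb (gr ω) v' = nb (gr ω') v' :=
    h.nb_eq (fun hx => (hA v' hx).2.2.2.2.2.2.2 rfl) (fun hx => (hY v' hx).2.2.2.2.2.2.2.2 rfl)
  have bv : B2 (gr ω) v = B2 (gr ω') v := B2_congr nv fun s hs =>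
    h.nb_eq (fun hx => (hA s hx).2.2.1 hs) (fun hx => (hY s hx).2.2.2.1 hs)
  have bv' : B2 (gr ω) v' = B2 (gr ω') v' := B2_congr nv' fun s hs =>
    h.nb_eq (fun hx => (hA s hx).2.2.2.1 hs) (fun hx => (hY s hx).2.2.2.2.1 hs)
  have nx' : ∀ x ∈ nb (gr ω) u', nb (gr ω) x = nb (gr ω') x := fun x hx =>
    h.nb_eq (fun hx' => (hA x hx').2.1 hx) (fun hx' => (hY x hx').2.2.1 hx)
  have nx : ∀ x ∈ nb (gr ω) u, x ∉ Acs u v u' v' c (gr ω) → nb (gr ω) x = nb (gr ω') x :=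
    fun x hx hxA => h.nb_eq hxA (fun hx' => (hY x hx').2.1 hx)
  have hExs : Exs u v u' v' (gr ω) = Exs u v u' v' (gr ω') := by
    unfold Exs; rw [nu', nv, nv']
  have as : As u v u' v' (gr ω) = As u v u' v' (gr ω') := by
    unfold As; rw [nu, hExs]
  have ys : Ys u v u' v' (gr ω) = Ys u v u' v' (gr ω') := by
    unfold Ys; rw [nu, hExs, bv]
  have hca : ∀ a ∈ As u v u' v' (gr ω), ca u v u' v' (gr ω) a = ca u v u' v' (gr ω') a := by
    intro a ha
    unfold ca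
    rw [← bv, ← ys]
    congr 1
    ext w
    simp only [mem_inter]
    refine and_congr_left fun hw => ?_
    have hwY : w ∉ Ys u v u' v' (gr ω) := (mem_sdiff.1 hw).2
    by_cases hac : a ∈ Acs u v u' v' c (gr ω)
    · exact h.nb_iff (disj_AcY c _) hac hwY
    · rw [h.nb_eq hac (fun hy => disjoint_left.1 (disj_AY _) ha hy)]
  have acs : Acs u v u' v' c (gr ω) = Acs u v u' v' c (gr ω') := by
    unfold Acs
    rw [← as]
    refine filter_congr fun a ha => ?_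
    rw [hca a ha]
  exact ⟨nu, nu', nx', bv, bv', as, ys, acs, nx, hca⟩

open Classical in
noncomputable def Sc (u v u' v' : Fin n) (c : ℕ) (ω : Om n) : Finset (Sym2 (Fin n)) :=
  univ.filter fun e => ¬ ∃ a ∈ Acs u v u' v' c (gr ω), ∃ y ∈ Ys u v u' v' (gr ω), e = s(a, y)

lemma mem_Sc {c : ℕ} {ω : Om n} {e : Sym2 (Fin n)} : e ∈ Sc u v u' v' c ω ↔
    ¬ ∃ a ∈ Acs u v u' v' c (gr ω), ∃ y ∈ Ys u v u' v' (gr ω), e = s(a, y) := by
  classical
  simp [Sc]

lemma agr_of_Sc {c : ℕ} {ω ω' : Om n} (h : ∀ e ∈ Sc u v u' v' c ω, ω e = ω' e) :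
    Agr (Acs u v u' v' c (gr ω)) (Ys u v u' v' (gr ω)) ω ω' := fun e he => h e (mem_Sc.2 he)

lemma Sc_stop (c : ℕ) (ω ω' : Om n) (h : ∀ e ∈ Sc u v u' v' c ω, ω e = ω' e) :
    Sc u v u' v' c ω' = Sc u v u' v' c ω := by
  have hs := same_of_agr c (agr_of_Sc h)
  ext e
  rw [mem_Sc, mem_Sc, ← hs.acs, ← hs.ys]

/-- second levels do not change -/
lemma lev'_same {c : ℕ} {G G' : SimpleGraph (Fin n)} (h : Same u v u' v' c G G') (j : ℕ) :
    lev G u' v' j = lev G' u' v' j := by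
  unfold lev
  rw [← h.nu', ← h.bv']
  congr 1
  refine filter_congr fun x hx => ?_
  rw [h.nx' x hx]

/-- decomposition of the first levels -/
lemma lev_split {c : ℕ} {G : SimpleGraph (Fin n)} (j : ℕ) :
    lev G u v (c + j) =
      ((nb G u \ Acs u v u' v' c G).filter fun x => (nb G x ∩ B2 G v).card = c + j).card +
      ((Acs u v u' v' c G).filter fun a => (nb G a ∩ Ys u v u' v' G).card = j).card := by
  classical
  unfold lev
  have hsub : Acs u v u' v' c G ⊆ nb G u := fun a ha => (As_facts (Acs_sub c G ha)).1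
  have h1 : (nb G u).filter (fun x => (nb G x ∩ B2 G v).card = c + j) =
      ((nb G u \ Acs u v u' v' c G).filter fun x => (nb G x ∩ B2 G v).card = c + j) ∪
      ((Acs u v u' v' c G).filter fun x => (nb G x ∩ B2 G v).card = c + j) := by
    rw [← filter_union, sdiff_union_of_subset hsub]
  rw [h1, card_union_of_disjoint]
  · congr 2
    refine filter_congr fun a ha => ?_
    have hca : (nb G a ∩ (B2 G v \ Ys u v u' v' G)).card = c := (mem_filter.1 ha).2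
    have hYB : Ys u v u' v' G ⊆ B2 G v := sdiff_subset
    have h2 : (nb G a ∩ B2 G v).card = (nb G a ∩ (B2 G v \ Ys u v u' v' G)).card +
        (nb G a ∩ Ys u v u' v' G).card := by
      rw [← card_union_of_disjoint]
      · congr 1
        rw [← inter_union_distrib_left, sdiff_union_of_subset hYB]
      · exact (disjoint_sdiff_self_left).mono inter_subset_right inter_subset_right
    rw [h2, hca]
    constructor
    · intro h; omega
    · intro h; omega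
  · refine Disjoint.mono (filter_subset _ _) (filter_subset _ _) ?_
    exact disjoint_sdiff_self_left

noncomputable def th0 (n J : ℕ) (p y₀ : ℝ) : ℝ :=
  1 / (20 * Real.sqrt (max 1 (n * p))) * (min 1 (y₀ * p) / (4 * J + 4)) ^ (2 * J)

noncomputable def ABd (J : ℕ) (θ s₀ : ℝ) : ℝ :=
  J * Real.exp (-(θ * s₀ / 2)) + (Real.sqrt (2 / (θ * s₀))) ^ J

lemma ABd_nonneg {J : ℕ} {θ s₀ : ℝ} : 0 ≤ ABd J θ s₀ := by unfold ABd; positivity

lemma ABd_anti {J : ℕ} {θ s₀ s : ℝ} (hθ : 0 < θ) (hs : 0 < s₀) (h : s₀ ≤ s) :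
    ABd J θ s ≤ ABd J θ s₀ := by
  unfold ABd
  gcongr

theorem col_c {p : ℝ} (h0 : 0 < p) (h1 : p ≤ 1 / 4) (c : ℕ) {J : ℕ} (hJ : 1 ≤ J)
    {s₀ y₀ : ℝ} (hs₀ : 0 < s₀) (hy₀ : (8 * J : ℝ) ≤ y₀) :
    Pr (wp p) (fun ω : Om n => (∀ j, lev (gr ω) u v j = lev (gr ω) u' v' j) ∧
      s₀ ≤ (Acs u v u' v' c (gr ω)).card ∧ y₀ ≤ (Ys u v u' v' (gr ω)).card) ≤
      ABd J (th0 n J p y₀) s₀ := by
  classical
  have hp1 : p ≤ 1 := by linarith
  have hw := wp_nonneg h0.le hp1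
  have hJr : (1 : ℝ) ≤ J := by exact_mod_cast hJ
  have hy0 : 0 < y₀ := by linarith
  have hth : 0 < th0 n J p y₀ := by
    unfold th0
    have : 0 < min 1 (y₀ * p) := lt_min one_pos (by positivity)
    have : 0 < Real.sqrt (max 1 (n * p)) := Real.sqrt_pos.2 (lt_of_lt_of_le one_pos (le_max_left _ _))
    positivity
  refine Pr_le_of_stop hw (wp_sum p) (Sc u v u' v' c) (Sc_stop c) ABd_nonneg fun κ => ?_
  set A := Acs u v u' v' c (gr κ) with hA
  set Y := Ys u v u' v' (gr κ) with hY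
  have hagr : ∀ ω : Om n, Agr A Y κ (mix (Sc u v u' v' c κ) κ ω) := fun ω =>
    agr_of_Sc fun e he => (mix_mem he).symm
  have hsame : ∀ ω : Om n, Same u v u' v' c (gr κ) (gr (mix (Sc u v u' v' c κ) κ ω)) := fun ω =>
    same_of_agr c (hagr ω)
  by_cases hc : s₀ ≤ (A.card : ℝ) ∧ y₀ ≤ (Y.card : ℝ)
  swap
  · rw [Pr_false]
    · exact ABd_nonneg
    · rintro ω ⟨-, g1, g2⟩
      rw [← (hsame ω).acs] at g1
      rw [← (hsame ω).ys] at g2
      exact hc ⟨g1, g2⟩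
  obtain ⟨hcA, hcY⟩ := hc
  have hYN : 8 * J ≤ Y.card := by
    have : (8 * J : ℝ) ≤ (Y.card : ℝ) := hy₀.trans hcY
    exact_mod_cast this
  obtain ⟨m, hm1, hm2⟩ := bp_window (N := Y.card) h0 h1 hJ hYN
  have hYn : (Y.card : ℝ) ≤ n := by
    have := card_le_univ Y
    rw [Fintype.card_fin] at this
    exact_mod_cast this
  have hθle : th0 n J p y₀ ≤ 1 / (20 * Real.sqrt (max 1 (Y.card * p))) *
      (min 1 (Y.card * p) / (4 * J + 4)) ^ (2 * J) := by
    unfold th0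
    have hmin : 0 ≤ min 1 (y₀ * p) := le_min zero_le_one (by positivity)
    have e1 : min 1 (y₀ * p) ≤ min 1 (Y.card * p) :=
      min_le_min_left _ (mul_le_mul_of_nonneg_right hcY h0.le)
    have e2 : max 1 ((Y.card : ℝ) * p) ≤ max 1 (n * p) :=
      max_le_max_left _ (mul_le_mul_of_nonneg_right hYn h0.le)
    have e3 : 0 < Real.sqrt (max 1 ((Y.card : ℝ) * p)) :=
      Real.sqrt_pos.2 (lt_of_lt_of_le one_pos (le_max_left _ _))
    have e4 : Real.sqrt (max 1 ((Y.card : ℝ) * p)) ≤ Real.sqrt (max 1 (n * p)) :=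
      Real.sqrt_le_sqrt e2
    refine mul_le_mul ?_ ?_ (by positivity) (by positivity)
    · refine one_div_le_one_div_of_le (by positivity) (by linarith)
    · refine pow_le_pow_left₀ (by positivity) ?_ _
      exact div_le_div_of_nonneg_right e1 (by positivity)
  have hAne : A.Nonempty := by
    rw [← card_pos]
    have : (0 : ℝ) < A.card := lt_of_lt_of_le hs₀ hcA
    exact_mod_cast this
  set t : ℕ → ℕ := fun i => lev (gr κ) u' v' (c + (m + 2 * i)) -
    ((nb (gr κ) u \ A).filter fun x => (nb (gr κ) x ∩ B2 (gr κ) v).card = c + (m + 2 * i)).card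
    with ht
  have hac := ac_bits h0.le hp1 A Y (disj_AcY c _) hAne hth
    (fun j hj1 hj2 => hθle.trans (hm2 j hj1 hj2)) hm1 t
  refine (Pr_mono hw fun ω hω => ?_).trans (hac.trans (ABd_anti hth hs₀ hcA))
  intro i hi
  obtain ⟨g1, -, -⟩ := hω
  have hS := hsame ω
  have g2 := g1 (c + (m + 2 * i))
  rw [← lev'_same hS, lev_split (c := c) (u' := u') (v' := v'), ← hS.acs, ← hS.ys, ← hS.nu,
    ← hS.bv] at g2
  have e1 : ((nb (gr κ) u \ A).filter fun x =>
      (nb (gr (mix (Sc u v u' v' c κ) κ ω)) x ∩ B2 (gr κ) v).card = c + (m + 2 * i)) =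
      ((nb (gr κ) u \ A).filter fun x => (nb (gr κ) x ∩ B2 (gr κ) v).card = c + (m + 2 * i)) := by
    refine filter_congr fun x hx => ?_
    rw [mem_sdiff] at hx
    rw [hS.nx x hx.1 hx.2]
  have e2 : (A.filter fun a =>
      (nb (gr (mix (Sc u v u' v' c κ) κ ω)) a ∩ Y).card = m + 2 * i) =
      (A.filter fun a => (Y.filter fun y => ω s(a, y) = true).card = m + 2 * i) := by
    refine filter_congr fun a ha => ?_
    have : nb (gr (mix (Sc u v u' v' c κ) κ ω)) a ∩ Y = Y.filter fun y => ω s(a, y) = true := by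
      ext y
      rw [mem_inter, mem_nb, gr_adj, mem_filter]
      constructor
      · rintro ⟨⟨h2, h3⟩, h4⟩
        rw [mix_not] at h3
        · exact ⟨h4, h3⟩
        · rw [mem_Sc, not_not]; exact ⟨a, ha, y, h4, rfl⟩
      · rintro ⟨h4, h3⟩
        refine ⟨⟨?_, ?_⟩, h4⟩
        · rintro rfl
          exact disjoint_left.1 (disj_AcY c _) ha h4
        · rw [mix_not]
          · exact h3
          · rw [mem_Sc, not_not]; exact ⟨a, ha, y, h4, rfl⟩
    rw [this]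
  rw [e1, e2] at g2
  rw [ht]
  simp only
  omega

end Pool.Agent.U140.SG
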