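import Pool.Agent.U140.SG.Col

/-! Unique fingerprints with high probability. -/

set_option linter.unusedSectionVars false
set_option linter.unusedVariables false

namespace Pool.Agent.U140.SG

open Finset Pool.Agent.Q299.PW

variable {n : ℕ} {u v u' v' : Fin n}

structure Typ2 (G : SimpleGraph (Fin n)) (δ D Γ : ℕ) : Prop where
  mind : ∀ v, δ ≤ (nb G v).card
  maxd : ∀ v, (nb G v).card ≤ D
  cod : ∀ x y, x ≠ y → (nb G x ∩ nb G y).card ≤ Γ

variable {G : SimpleGraph (Fin n)} {δ D Γ : ℕ}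

lemma ca_le (t : Typ2 G δ D Γ) {a : Fin n} (ha : a ∈ As u v u' v' G) :
    ca u v u' v' G a ≤ 4 * Γ + 4 := by
  classical
  obtain ⟨h1, h2, h3, h4, h5, h6, h7, h8⟩ := As_facts ha
  unfold ca
  have hsub : nb G a ∩ (B2 G v \ Ys u v u' v' G) ⊆
      (nb G a ∩ nb G u) ∪ ((nb G a ∩ nb G u') ∪ ((nb G a ∩ nb G v) ∪ ((nb G a ∩ nb G v') ∪
        {u, u', v, v'}))) := by
    intro w hw
    rw [mem_inter, mem_sdiff] at hw
    obtain ⟨w1, w2, w3⟩ := hw
    have : w ∈ nb G u ∪ Exs u v u' v' G := by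
      by_contra hh
      exact w3 (mem_sdiff.2 ⟨w2, hh⟩)
    unfold Exs at this
    simp only [mem_union, mem_inter] at this ⊢
    tauto
  have c1 := card_le_card hsub
  have c2 := card_union_le (nb G a ∩ nb G u) ((nb G a ∩ nb G u') ∪ ((nb G a ∩ nb G v) ∪
    ((nb G a ∩ nb G v') ∪ {u, u', v, v'})))
  have c3 := card_union_le (nb G a ∩ nb G u') ((nb G a ∩ nb G v) ∪
    ((nb G a ∩ nb G v') ∪ {u, u', v, v'}))
  have c4 := card_union_le (nb G a ∩ nb G v) ((nb G a ∩ nb G v') ∪ {u, u', v, v'})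
  have c5 := card_union_le (nb G a ∩ nb G v') {u, u', v, v'}
  have c6 : ({u, u', v, v'} : Finset (Fin n)).card ≤ 4 := card_le_four
  have d1 := t.cod a u h5
  have d2 := t.cod a u' h6
  have d3 := t.cod a v h7
  have d4 := t.cod a v' h8
  omega

lemma As_card (t : Typ2 G δ D Γ) (huu' : u ≠ u') (huv : u ≠ v) (hv'u : v' ≠ u) :
    δ ≤ (As u v u' v' G).card + 3 * Γ + 4 := by
  classical
  have hsub : nb G u ⊆ As u v u' v' G ∪ ((nb G u ∩ nb G u') ∪ ((nb G u ∩ nb G v) ∪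
      ((nb G u ∩ nb G v') ∪ {u, u', v, v'}))) := by
    intro w hw
    by_cases h : w ∈ Exs u v u' v' G
    · unfold Exs at h
      simp only [mem_union, mem_inter] at h ⊢
      tauto
    · exact mem_union_left _ (mem_sdiff.2 ⟨hw, h⟩)
  have c1 := card_le_card hsub
  have c2 := card_union_le (As u v u' v' G) ((nb G u ∩ nb G u') ∪ ((nb G u ∩ nb G v) ∪
      ((nb G u ∩ nb G v') ∪ {u, u', v, v'})))
  have c3 := card_union_le (nb G u ∩ nb G u') ((nb G u ∩ nb G v) ∪
      ((nb G u ∩ nb G v') ∪ {u, u', v, v'}))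
  have c4 := card_union_le (nb G u ∩ nb G v) ((nb G u ∩ nb G v') ∪ {u, u', v, v'})
  have c5 := card_union_le (nb G u ∩ nb G v') {u, u', v, v'}
  have c6 : ({u, u', v, v'} : Finset (Fin n)).card ≤ 4 := card_le_four
  have d1 := t.cod u u' huu'
  have d2 := t.cod u v huv
  have d3 := t.cod u v' hv'u.symm
  have d4 := t.mind u
  omega

lemma B2_card (t : Typ2 G δ D Γ) (v : Fin n) : δ * (δ - 1) ≤ (B2 G v).card * Γ := by
  classical
  set S : Finset (Fin n × Fin n) := (nb G v).biUnion fun x =>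
    ((nb G x).erase v).image fun w => (x, w) with hS
  have h1 : δ * (δ - 1) ≤ S.card := by
    rw [hS, card_biUnion]
    · have h2 : ∀ x ∈ nb G v, δ - 1 ≤ (((nb G x).erase v).image fun w => (x, w)).card := by
        intro x _
        rw [card_image_of_injective _ (fun w w' hh => (Prod.ext_iff.1 hh).2)]
        have := pred_card_le_card_erase (s := nb G x) (a := v)
        have := t.mind x
        omega
      calc δ * (δ - 1) ≤ (nb G v).card * (δ - 1) := Nat.mul_le_mul_right _ (t.mind v)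
        _ = ∑ x ∈ nb G v, (δ - 1) := by rw [sum_const, smul_eq_mul]
        _ ≤ _ := sum_le_sum h2
    · intro x _ y _ hxy
      rw [Function.onFun, disjoint_left]
      intro q hq hq'
      obtain ⟨w, _, rfl⟩ := mem_image.1 hq
      obtain ⟨w', _, he⟩ := mem_image.1 hq'
      exact hxy (Prod.ext_iff.1 he).1.symm
  refine h1.trans (card_le_fib S (B2 G v) (fun q w => q.2 = w) Γ ?_ ?_)
  · intro q hq
    rw [hS, mem_biUnion] at hq
    obtain ⟨x, hx, hq⟩ := hq
    obtain ⟨w, hw, rfl⟩ := mem_image.1 hq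
    exact ⟨w, mem_B2.2 (InB.two (mem_nb.1 hx) (mem_nb.1 (mem_of_mem_erase hw))), rfl⟩
  · intro w hw S' hS' hr
    rcases S'.eq_empty_or_nonempty with h0 | ⟨q₀, hq₀⟩
    · rw [h0]; simp
    have hmem : ∀ q ∈ S', G.Adj v q.1 ∧ G.Adj q.1 q.2 ∧ q.2 ≠ v := by
      intro q hq
      have := hS' hq
      rw [hS, mem_biUnion] at this
      obtain ⟨x, hx, hq2⟩ := this
      obtain ⟨w', hw', rfl⟩ := mem_image.1 hq2
      exact ⟨mem_nb.1 hx, mem_nb.1 (mem_of_mem_erase hw'), ne_of_mem_erase hw'⟩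
    have hwv : v ≠ w := by
      rw [← hr q₀ hq₀]; exact (hmem q₀ hq₀).2.2.symm
    refine le_trans ?_ (t.cod v w hwv)
    refine card_le_card_of_injOn Prod.fst ?_ ?_
    · intro q hq
      obtain ⟨k1, k2, k3⟩ := hmem q hq
      rw [mem_coe, mem_inter, mem_nb, mem_nb]
      refine ⟨k1, ?_⟩
      rw [← hr q hq]; exact k2.symm
    · intro q hq q' hq' hh
      exact Prod.ext hh ((hr q hq).trans (hr q' hq').symm)

lemma Ys_card (t : Typ2 G δ D Γ) : (B2 G v).card ≤ (Ys u v u' v' G).card + 4 * D + 4 := by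
  classical
  have hsub : B2 G v ⊆ Ys u v u' v' G ∪ (nb G u ∪ (nb G u' ∪ (nb G v ∪ (nb G v' ∪
      {u, u', v, v'})))) := by
    intro w hw
    by_cases h : w ∈ nb G u ∪ Exs u v u' v' G
    · unfold Exs at h
      simp only [mem_union] at h ⊢
      tauto
    · exact mem_union_left _ (mem_sdiff.2 ⟨hw, h⟩)
  have c1 := card_le_card hsub
  have c2 := card_union_le (Ys u v u' v' G) (nb G u ∪ (nb G u' ∪ (nb G v ∪ (nb G v' ∪
      {u, u', v, v'}))))
  have c3 := card_union_le (nb G u) (nb G u' ∪ (nb G v ∪ (nb G v' ∪ {u, u', v, v'})))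
  have c4 := card_union_le (nb G u') (nb G v ∪ (nb G v' ∪ {u, u', v, v'}))
  have c5 := card_union_le (nb G v) (nb G v' ∪ {u, u', v, v'})
  have c7 := card_union_le (nb G v') {u, u', v, v'}
  have c6 : ({u, u', v, v'} : Finset (Fin n)).card ≤ 4 := card_le_four
  have d1 := t.maxd u
  have d2 := t.maxd u'
  have d3 := t.maxd v
  have d4 := t.maxd v'
  omega

lemma exists_c (t : Typ2 G δ D Γ) (huu' : u ≠ u') (huv : u ≠ v) (hv'u : v' ≠ u) {s₀ y₀ : ℕ}
    (hs : s₀ * (4 * Γ + 5) + 3 * Γ + 4 ≤ δ) (hs0 : 0 < s₀)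
    (hy : (y₀ + 4 * D + 4) * Γ ≤ δ * (δ - 1)) (hΓ : 0 < Γ) :
    ∃ c ∈ range (4 * Γ + 5), s₀ ≤ (Acs u v u' v' c G).card ∧ y₀ ≤ (Ys u v u' v' G).card := by
  classical
  have hA := As_card t huu' huv hv'u
  have hB := B2_card t v
  have hY := Ys_card (u := u) (v := v) (u' := u') (v' := v') t
  have hy' : y₀ ≤ (Ys u v u' v' G).card := by
    have h1 : (y₀ + 4 * D + 4) * Γ ≤ (B2 G v).card * Γ := hy.trans hB
    have h2 := Nat.le_of_mul_le_mul_right h1 hΓ
    omega
  by_contra hcon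
  push Not at hcon
  have h3 : ∀ c ∈ range (4 * Γ + 5), (Acs u v u' v' c G).card < s₀ := by
    intro c hc
    by_contra hh
    push Not at hh
    have := hcon c hc hh
    omega
  have h4 : (As u v u' v' G).card ≤ ∑ c ∈ range (4 * Γ + 5), (Acs u v u' v' c G).card := by
    rw [← card_biUnion]
    · refine card_le_card fun a ha => ?_
      rw [mem_biUnion]
      refine ⟨ca u v u' v' G a, ?_, mem_filter.2 ⟨ha, rfl⟩⟩
      rw [mem_range]
      have := ca_le t ha
      omega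
    · intro c _ c' _ hne
      rw [Function.onFun, disjoint_left]
      intro a ha ha'
      exact hne ((mem_filter.1 ha).2.symm.trans (mem_filter.1 ha').2)
  have h5 : ∑ c ∈ range (4 * Γ + 5), (Acs u v u' v' c G).card <
      ∑ c ∈ range (4 * Γ + 5), s₀ := by
    refine sum_lt_sum_of_nonempty ⟨0, by simp⟩ h3
  rw [sum_const, card_range, smul_eq_mul] at h5
  have e : (4 * Γ + 5) * s₀ = s₀ * (4 * Γ + 5) := mul_comm _ _
  omega

theorem uf_bound {p : ℝ} (h0 : 0 < p) (h1 : p ≤ 1 / 4) {J : ℕ} (hJ : 1 ≤ J) {s₀ y₀ : ℕ}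
    (hs0 : 0 < s₀) (hy0 : 8 * J ≤ y₀) (hs : s₀ * (4 * Γ + 5) + 3 * Γ + 4 ≤ δ)
    (hy : (y₀ + 4 * D + 4) * Γ ≤ δ * (δ - 1)) (hΓ : 0 < Γ) :
    Pr (wp p) (fun ω : Om n => Typ2 (gr ω) δ D Γ ∧ ¬ UF (gr ω)) ≤
      n ^ 4 * ((4 * Γ + 5) * ABd J (th0 n J p y₀) s₀) := by
  classical
  have hw := wp_nonneg h0.le (by linarith : p ≤ 1)
  set Q : Finset ((Fin n × Fin n) × (Fin n × Fin n)) := univ with hQ
  set E : (Fin n × Fin n) × (Fin n × Fin n) → ℕ → Om n → Prop := fun q c ω =>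
    (∀ j, lev (gr ω) q.1.1 q.1.2 j = lev (gr ω) q.2.1 q.2.2 j) ∧
      (s₀ : ℝ) ≤ (Acs q.1.1 q.1.2 q.2.1 q.2.2 c (gr ω)).card ∧
      (y₀ : ℝ) ≤ (Ys q.1.1 q.1.2 q.2.1 q.2.2 (gr ω)).card with hE
  refine le_trans (Pr_mono hw (B := fun ω : Om n => ∃ q ∈ Q, ∃ c ∈ range (4 * Γ + 5), E q c ω)
    fun ω h => ?_) ?_
  · obtain ⟨t, hU⟩ := h
    unfold UF at hU
    push Not at hU
    obtain ⟨a, b, a', b', hab, hab', hb'a, hlev, hne⟩ := hU
    obtain ⟨c, hc, hs1, hy1⟩ := exists_c t hne hab.ne hb'a hs hs0 hy hΓ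
    exact ⟨((a, b), (a', b')), mem_univ _, c, hc, hlev, by exact_mod_cast hs1, by exact_mod_cast hy1⟩
  · refine (Pr_exists_le hw _ _).trans ?_
    have h2 : ∀ q ∈ Q, Pr (wp p) (fun ω : Om n => ∃ c ∈ range (4 * Γ + 5), E q c ω) ≤
        (4 * Γ + 5) * ABd J (th0 n J p y₀) s₀ := by
      intro q _
      refine (Pr_exists_le hw _ _).trans ?_
      have h3 : ∀ c ∈ range (4 * Γ + 5), Pr (wp p) (E q c) ≤ ABd J (th0 n J p y₀) s₀ := by
        intro c _
        exact col_c h0 h1 c hJ (by exact_mod_cast hs0) (by exact_mod_cast hy0)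
      refine (sum_le_sum h3).trans ?_
      rw [sum_const, card_range, nsmul_eq_mul]
      push_cast
      exact le_rfl
    refine (sum_le_sum h2).trans ?_
    rw [sum_const, hQ, card_univ, Fintype.card_prod, Fintype.card_prod, Fintype.card_fin,
      nsmul_eq_mul]
    push_cast
    refine le_of_eq ?_
    ring

/-! ### the typical properties -/

lemma mind_bound {p : ℝ} (h0 : 0 ≤ p) (h1 : p ≤ 1) {δ : ℕ} (hδ : (δ : ℝ) ≤ (n - 1 : ℝ) * p / 4) :
    Pr (wp p) (fun ω : Om n => ¬ ∀ v, δ ≤ (nb (gr ω) v).card) ≤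
      n * Real.exp (-((n - 1 : ℝ) * p / 4)) := by
  classical
  have hw := wp_nonneg h0 h1
  refine le_trans (Pr_mono hw (B := fun ω : Om n => ∃ v ∈ (univ : Finset (Fin n)),
    ((((univ.erase v).image fun w => s(v, w)).filter fun e => ω e = true).card : ℝ) ≤
      (n - 1 : ℝ) * p / 4) fun ω h => ?_) ?_
  · push Not at h
    obtain ⟨v, hv⟩ := h
    refine ⟨v, mem_univ _, ?_⟩
    have h2 : (((univ.erase v).image fun w => s(v, w)).filter fun e => ω e = true).card ≤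
        (nb (gr ω) v).card := by
      have : ((univ.erase v).image fun w => s(v, w)).filter (fun e => ω e = true) ⊆
          (nb (gr ω) v).image fun w => s(v, w) := by
        intro e he
        rw [mem_filter, mem_image] at he
        obtain ⟨⟨w, hw, rfl⟩, h3⟩ := he
        refine mem_image_of_mem _ ?_
        rw [mem_nb, gr_adj]
        exact ⟨(ne_of_mem_erase hw).symm, h3⟩
      exact (card_le_card this).trans card_image_le
    have h3 : ((((univ.erase v).image fun w => s(v, w)).filter fun e => ω e = true).card : ℝ) <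
        δ := by exact_mod_cast lt_of_le_of_lt h2 hv
    linarith
  · refine (Pr_exists_le hw _ _).trans ?_
    have h2 : ∀ v ∈ (univ : Finset (Fin n)), Pr (wp p) (fun ω : Om n =>
        ((((univ.erase v).image fun w => s(v, w)).filter fun e => ω e = true).card : ℝ) ≤
        (n - 1 : ℝ) * p / 4) ≤ Real.exp (-((n - 1 : ℝ) * p / 4)) := by
      intro v _
      refine low_tail h0 h1 _ (N := (n - 1 : ℝ)) ?_
      rw [card_image_of_injective _ (fun w w' hh => Sym2.congr_right.1 hh),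
        card_erase_of_mem (mem_univ _), card_univ, Fintype.card_fin]
      have hn : 1 ≤ n := Nat.one_le_iff_ne_zero.2 fun h => by subst h; exact v.elim0
      rw [Nat.cast_sub hn]; simp
    refine (sum_le_sum h2).trans ?_
    rw [sum_const, card_univ, Fintype.card_fin, nsmul_eq_mul]

lemma cod_bound {p : ℝ} (h0 : 0 ≤ p) (h1 : p ≤ 1) (Γ : ℕ) :
    Pr (wp p) (fun ω : Om n => ¬ ∀ x y, x ≠ y → (nb (gr ω) x ∩ nb (gr ω) y).card ≤ Γ) ≤
      n ^ 2 * (Real.exp 1 * n / (Γ + 1 : ℕ) * p ^ 2) ^ (Γ + 1) := by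
  classical
  have hw := wp_nonneg h0 h1
  refine le_trans (Pr_mono hw (B := fun ω : Om n => ∃ q ∈ (univ : Finset (Fin n × Fin n)).filter
    (fun q => q.1 ≠ q.2), ∃ T ∈ powersetCard (Γ + 1) ((univ.erase q.1).erase q.2),
      ∀ e ∈ (T ×ˢ ({q.1, q.2} : Finset (Fin n))).image (fun z => s(z.1, z.2)), ω e = true)
      fun ω h => ?_) ?_
  · push Not at h
    obtain ⟨x, y, hxy, hlt⟩ := h
    obtain ⟨T, hT1, hT2⟩ := exists_subset_card_eq (Nat.succ_le_iff.2 hlt)
    refine ⟨(x, y), mem_filter.2 ⟨mem_univ _, hxy⟩, T, ?_, ?_⟩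
    · rw [mem_powersetCard]
      refine ⟨fun w hw => ?_, hT2⟩
      have h3 := mem_inter.1 (hT1 hw)
      rw [mem_nb, mem_nb] at h3
      rw [mem_erase, mem_erase]
      exact ⟨h3.2.ne', h3.1.ne', mem_univ _⟩
    · intro e he
      obtain ⟨⟨w, z⟩, hz, rfl⟩ := mem_image.1 he
      rw [mem_product, mem_insert, mem_singleton] at hz
      simp only at hz
      have h3 := mem_inter.1 (hT1 hz.1)
      rw [mem_nb, mem_nb, gr_adj, gr_adj] at h3
      simp only
      rw [Sym2.eq_swap]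
      rcases hz.2 with rfl | rfl
      · exact h3.1.2
      · exact h3.2.2
  · refine (Pr_exists_le hw _ _).trans ?_
    have h2 : ∀ q ∈ (univ : Finset (Fin n × Fin n)).filter (fun q => q.1 ≠ q.2),
        Pr (wp p) (fun ω : Om n => ∃ T ∈ powersetCard (Γ + 1) ((univ.erase q.1).erase q.2),
        ∀ e ∈ (T ×ˢ ({q.1, q.2} : Finset (Fin n))).image (fun z => s(z.1, z.2)), ω e = true) ≤
        (Real.exp 1 * n / (Γ + 1 : ℕ) * p ^ 2) ^ (Γ + 1) := by
      intro q hq
      have hne := (mem_filter.1 hq).2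
      refine (Pr_exists_le hw _ _).trans ?_
      have h3 : ∀ T ∈ powersetCard (Γ + 1) ((univ.erase q.1).erase q.2),
          Pr (wp p) (fun ω : Om n => ∀ e ∈ (T ×ˢ ({q.1, q.2} : Finset (Fin n))).image
            (fun z => s(z.1, z.2)), ω e = true) ≤ (p ^ 2) ^ (Γ + 1) := by
        intro T hT
        obtain ⟨hT1, hT2⟩ := mem_powersetCard.1 hT
        rw [pr_all]
        have hd : Disjoint T ({q.1, q.2} : Finset (Fin n)) := by
          rw [disjoint_left]
          intro w hw hw'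
          have := hT1 hw
          rw [mem_erase, mem_erase] at this
          rw [mem_insert, mem_singleton] at hw'
          rcases hw' with h | h
          · exact this.2.1 h
          · exact this.1 h
        rw [card_image_of_injOn (inj_pair hd), card_product, hT2, card_pair hne, ← pow_mul,
          mul_comm]
      refine (sum_le_sum h3).trans ?_
      rw [sum_const, card_powersetCard, nsmul_eq_mul, mul_pow]
      refine mul_le_mul_of_nonneg_right ?_ (by positivity)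
      refine le_trans ?_ (choose_le_exp n (Γ + 1) (Nat.succ_pos Γ))
      refine Nat.cast_le.2 (Nat.choose_le_choose _ ?_)
      exact (card_le_univ _).trans (by rw [Fintype.card_fin])
    refine (sum_le_sum h2).trans ?_
    rw [sum_const, nsmul_eq_mul]
    refine mul_le_mul_of_nonneg_right ?_ (by positivity)
    have h4 : ((univ : Finset (Fin n × Fin n)).filter (fun q => q.1 ≠ q.2)).card ≤ n * n :=
      (card_le_univ _).trans (by rw [Fintype.card_prod, Fintype.card_fin])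
    calc (((univ : Finset (Fin n × Fin n)).filter (fun q => q.1 ≠ q.2)).card : ℝ) ≤
        ((n * n : ℕ) : ℝ) := Nat.cast_le.2 h4
      _ = (n : ℝ) ^ 2 := by push_cast; ring

theorem r12_bound {p : ℝ} (h0 : 0 < p) (h1 : p ≤ 1 / 4) {J : ℕ} (hJ : 1 ≤ J) {s₀ y₀ δ D Γ : ℕ}
    (hs0 : 0 < s₀) (hy0 : 8 * J ≤ y₀) (hs : s₀ * (4 * Γ + 5) + 3 * Γ + 4 ≤ δ)
    (hy : (y₀ + 4 * D + 4) * Γ ≤ δ * (δ - 1)) (hΓ : 0 < Γ)
    (hδ : (δ : ℝ) ≤ (n - 1 : ℝ) * p / 4) :
    Pr (wp p) (fun ω : Om n => ¬ UF (gr ω)) ≤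
      n * Real.exp (-((n - 1 : ℝ) * p / 4)) +
      n * (Real.exp 1 * n / (D + 1 : ℕ) * p) ^ (D + 1) +
      n ^ 2 * (Real.exp 1 * n / (Γ + 1 : ℕ) * p ^ 2) ^ (Γ + 1) +
      n ^ 4 * ((4 * Γ + 5) * ABd J (th0 n J p y₀) s₀) := by
  classical
  have hp1 : p ≤ 1 := by linarith
  have hw := wp_nonneg h0.le hp1
  set E1 : Om n → Prop := fun ω => ¬ ∀ v, δ ≤ (nb (gr ω) v).card with hE1
  set E2 : Om n → Prop := fun ω => ¬ MaxDeg (gr ω) D with hE2
  set E3 : Om n → Prop := fun ω => ¬ ∀ x y, x ≠ y → (nb (gr ω) x ∩ nb (gr ω) y).card ≤ Γ with hE3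
  set E4 : Om n → Prop := fun ω => Typ2 (gr ω) δ D Γ ∧ ¬ UF (gr ω) with hE4
  refine le_trans (Pr_mono hw (B := fun ω => ((E1 ω ∨ E2 ω) ∨ E3 ω) ∨ E4 ω) fun ω h => ?_) ?_
  · by_contra hcon
    push Not at hcon
    obtain ⟨⟨⟨g1, g2⟩, g3⟩, g4⟩ := hcon
    apply g4
    refine ⟨⟨?_, ?_, ?_⟩, h⟩
    · exact g1
    · intro v
      have : MaxDeg (gr ω) D := by by_contra hh; exact g2 hh
      refine le_trans (le_of_eq ?_) (this v)
      unfold nb
      congr
    · exact g3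
  · have c4 := Pr_or_le hw (fun ω => ((E1 ω ∨ E2 ω) ∨ E3 ω)) E4
    have c3 := Pr_or_le hw (fun ω => (E1 ω ∨ E2 ω)) E3
    have c2 := Pr_or_le hw E1 E2
    have b1 : Pr (wp p) E1 ≤ _ := mind_bound h0.le hp1 hδ
    have b2 : Pr (wp p) E2 ≤ _ := maxdeg_bound h0.le hp1 D
    have b3 : Pr (wp p) E3 ≤ _ := cod_bound h0.le hp1 Γ
    have b4 : Pr (wp p) E4 ≤ _ := uf_bound h0 h1 hJ hs0 hy0 hs hy hΓ
    linarith

end Pool.Agent.U140.SG
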