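import Pool.Agent.U140.SG.Seq

/-! 5-cycles: deterministic counting. -/

set_option linter.unusedSectionVars false
set_option linter.unusedVariables false

namespace Pool.Agent.U140.SG

open Finset

variable {n : ℕ}

open Classical in
noncomputable def paths3 (G : SimpleGraph (Fin n)) (x y : Fin n) : Finset (Fin n × Fin n) :=
  univ.filter fun ab => IsP3 G x ab.1 ab.2 y

def T3 (G : SimpleGraph (Fin n)) (K : ℕ) : Prop := ∀ x y, (paths3 G x y).card ≤ K

open Classical in
noncomputable def cn (G : SimpleGraph (Fin n)) (x y : Fin n) : Finset (Fin n) :=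
  univ.filter fun w => G.Adj w x ∧ G.Adj w y

lemma mem_cn {G : SimpleGraph (Fin n)} {x y w : Fin n} : w ∈ cn G x y ↔ G.Adj w x ∧ G.Adj w y := by
  classical
  simp [cn]

lemma mem_paths3 {G : SimpleGraph (Fin n)} {x y : Fin n} {ab : Fin n × Fin n} :
    ab ∈ paths3 G x y ↔ IsP3 G x ab.1 ab.2 y := by
  classical
  simp [paths3]

lemma cn_card {G : SimpleGraph (Fin n)} {K : ℕ} (h : T3 G K) {x y : Fin n} (hxy : x ≠ y) :
    (cn G x y).card ≤ K + 1 := by
  classical
  rcases (cn G x y).eq_empty_or_nonempty with h0 | ⟨w, hw⟩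
  · rw [h0]; simp
  have h1 : ((cn G x y).erase w).card ≤ (paths3 G x w).card := by
    refine card_le_card_of_injOn (fun v => (v, y)) ?_ ?_
    · intro v hv
      rw [mem_coe, mem_erase, mem_cn] at hv
      rw [mem_cn] at hw
      rw [mem_coe, mem_paths3]
      exact ⟨hv.2.1.symm, hv.2.2, hw.2.symm, hxy, hv.1, hw.1.ne'⟩
    · intro v _ v' _ hh
      exact (Prod.ext_iff.1 hh).1
  have h2 := card_erase_add_one hw
  have := h x w
  omega

structure IsC5 (G : SimpleGraph (Fin n)) (c : Fin 5 → Fin n) : Prop where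
  inj : Function.Injective c
  adj : ∀ i, G.Adj (c i) (c (i + 1))

open Classical in
noncomputable def cyc (G : SimpleGraph (Fin n)) : Finset (Fin 5 → Fin n) := univ.filter (IsC5 G)

lemma mem_cyc {G : SimpleGraph (Fin n)} {c : Fin 5 → Fin n} : c ∈ cyc G ↔ IsC5 G c := by
  classical
  simp [cyc]

def Vs (c : Fin 5 → Fin n) : Finset (Fin n) := univ.image c
def Es (c : Fin 5 → Fin n) : Finset (Sym2 (Fin n)) := univ.image fun i => s(c i, c (i + 1))

/-- the three edges away from the root -/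
def In (c : Fin 5 → Fin n) : Finset (Sym2 (Fin n)) := pe (c 1) (c 2) (c 3) (c 4)

/-- the dihedral action -/
def act (k : Fin 5) (b : Bool) (c : Fin 5 → Fin n) : Fin 5 → Fin n :=
  fun i => c (k + (if b then -i else i))

lemma mem_Vs {c : Fin 5 → Fin n} {v : Fin n} : v ∈ Vs c ↔ ∃ i, c i = v := by simp [Vs]

lemma mem_Es {c : Fin 5 → Fin n} {e : Sym2 (Fin n)} : e ∈ Es c ↔ ∃ i, s(c i, c (i + 1)) = e := by
  simp [Es]

lemma act_bij (k : Fin 5) (b : Bool) :
    Function.Bijective (fun i : Fin 5 => k + (if b then -i else i)) := by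
  revert k b; decide

lemma act_injective (k : Fin 5) (b : Bool) :
    Function.Injective (act k b : (Fin 5 → Fin n) → (Fin 5 → Fin n)) := by
  intro c c' h
  funext j
  obtain ⟨i, hi⟩ := (act_bij k b).2 j
  have := congrFun h i
  unfold act at this
  simp only at hi
  rwa [hi] at this

lemma IsC5.act {G : SimpleGraph (Fin n)} {c : Fin 5 → Fin n} (h : IsC5 G c) (k : Fin 5) (b : Bool) :
    IsC5 G (act k b c) := by
  refine ⟨h.inj.comp (act_bij k b).1, fun i => ?_⟩
  unfold SG.act
  cases b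
  · have := h.adj (k + i)
    simp only [Bool.false_eq_true, if_false]
    rwa [← add_assoc]
  · have := h.adj (k + -(i + 1))
    simp only [if_true]
    have e : k + -(i + 1) + 1 = k + -i := by abel
    rw [e] at this
    exact this.symm

lemma Vs_act (k : Fin 5) (b : Bool) (c : Fin 5 → Fin n) : Vs (act k b c) = Vs c := by
  ext v
  rw [mem_Vs, mem_Vs]
  constructor
  · rintro ⟨i, hi⟩; exact ⟨_, hi⟩
  · rintro ⟨j, hj⟩
    obtain ⟨i, hi⟩ := (act_bij k b).2 j
    exact ⟨i, by unfold act; simp only at hi; rw [hi, hj]⟩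

lemma Es_act_sub (k : Fin 5) (b : Bool) (c : Fin 5 → Fin n) : Es (act k b c) ⊆ Es c := by
  intro e he
  rw [mem_Es] at he ⊢
  obtain ⟨i, rfl⟩ := he
  unfold act
  cases b
  · refine ⟨k + i, ?_⟩
    simp only [Bool.false_eq_true, if_false]
    rw [add_assoc]
  · refine ⟨k + -(i + 1), ?_⟩
    simp only [if_true]
    have e : k + -(i + 1) + 1 = k + -i := by abel
    rw [e, Sym2.eq_swap]

/-- composition -/
lemma act_act (k k' : Fin 5) (b b' : Bool) (c : Fin 5 → Fin n) :
    act k b (act k' b' c) = act (k' + (if b' then -k else k)) (b ^^ b') c := by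
  funext i
  unfold act
  congr 1
  revert i k k' b b'; decide

lemma act_zero (c : Fin 5 → Fin n) : act 0 false c = c := by
  funext i; unfold act; simp

lemma exists_act_inv (k : Fin 5) (b : Bool) (c : Fin 5 → Fin n) :
    ∃ k' b', act k' b' (act k b c) = c := by
  cases b
  · refine ⟨-k, false, ?_⟩
    rw [act_act]; simp [act_zero]
  · refine ⟨k, true, ?_⟩
    rw [act_act]; simp [act_zero]

lemma Es_act (k : Fin 5) (b : Bool) (c : Fin 5 → Fin n) : Es (act k b c) = Es c := by
  refine Subset.antisymm (Es_act_sub k b c) ?_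
  obtain ⟨k', b', h⟩ := exists_act_inv k b c
  have := Es_act_sub k' b' (act k b c)
  rwa [h] at this

def K5 (K : ℕ) : ℕ := 2 * K + (K + 1) * (K + 1)

open Classical in
/-- cycles through a dart at the root and a third vertex -/
lemma card_root {G : SimpleGraph (Fin n)} {K : ℕ} (h : T3 G K) {u v w : Fin n} (hu : w ≠ u)
    (hv : w ≠ v) :
    ((cyc G).filter fun c => c 0 = u ∧ c 1 = v ∧ w ∈ Vs c).card ≤ K5 K := by
  have h2 : ((cyc G).filter fun c => c 0 = u ∧ c 1 = v ∧ c 2 = w).card ≤ K := by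
    refine le_trans ?_ (h w u)
    refine card_le_card_of_injOn (fun c => (c 3, c 4)) ?_ ?_
    · intro c hc
      rw [mem_coe, mem_filter, mem_cyc] at hc
      obtain ⟨⟨hi, ha⟩, h0, h1, h2⟩ := hc
      rw [mem_coe, mem_paths3, ← h2, ← h0]
      exact ⟨ha 2, ha 3, ha 4, hi.ne (by decide), hi.ne (by decide), hi.ne (by decide)⟩
    · intro c hc c' hc' hh
      rw [mem_coe, mem_filter] at hc hc'
      obtain ⟨_, h0, h1, h2⟩ := hc
      obtain ⟨_, h0', h1', h2'⟩ := hc'
      obtain ⟨e3, e4⟩ := Prod.ext_iff.1 hh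
      simp only at e3 e4
      funext i
      fin_cases i
      · exact h0.trans h0'.symm
      · exact h1.trans h1'.symm
      · exact h2.trans h2'.symm
      · exact e3
      · exact e4
  have h4 : ((cyc G).filter fun c => c 0 = u ∧ c 1 = v ∧ c 4 = w).card ≤ K := by
    refine le_trans ?_ (h v w)
    refine card_le_card_of_injOn (fun c => (c 2, c 3)) ?_ ?_
    · intro c hc
      rw [mem_coe, mem_filter, mem_cyc] at hc
      obtain ⟨⟨hi, ha⟩, h0, h1, h2⟩ := hc
      rw [mem_coe, mem_paths3, ← h2, ← h1]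
      exact ⟨ha 1, ha 2, ha 3, hi.ne (by decide), hi.ne (by decide), hi.ne (by decide)⟩
    · intro c hc c' hc' hh
      rw [mem_coe, mem_filter] at hc hc'
      obtain ⟨_, h0, h1, h2⟩ := hc
      obtain ⟨_, h0', h1', h2'⟩ := hc'
      obtain ⟨e3, e4⟩ := Prod.ext_iff.1 hh
      simp only at e3 e4
      funext i
      fin_cases i
      · exact h0.trans h0'.symm
      · exact h1.trans h1'.symm
      · exact e3
      · exact e4
      · exact h2.trans h2'.symm
  have h3 : ((cyc G).filter fun c => c 0 = u ∧ c 1 = v ∧ c 3 = w).card ≤ (K + 1) * (K + 1) := by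
    refine le_trans ?_ (Nat.mul_le_mul (cn_card h hv) (cn_card h hu))
    rw [← card_product]
    refine card_le_card_of_injOn (fun c => (c 2, c 4)) ?_ ?_
    · intro c hc
      rw [mem_coe, mem_filter, mem_cyc] at hc
      obtain ⟨⟨hi, ha⟩, h0, h1, h2⟩ := hc
      rw [mem_coe, mem_product, mem_cn, mem_cn, ← h2, ← h1, ← h0]
      exact ⟨⟨ha 2, (ha 1).symm⟩, (ha 3).symm, ha 4⟩
    · intro c hc c' hc' hh
      rw [mem_coe, mem_filter] at hc hc'
      obtain ⟨_, h0, h1, h2⟩ := hc
      obtain ⟨_, h0', h1', h2'⟩ := hc'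
      obtain ⟨e3, e4⟩ := Prod.ext_iff.1 hh
      simp only at e3 e4
      funext i
      fin_cases i
      · exact h0.trans h0'.symm
      · exact h1.trans h1'.symm
      · exact e3
      · exact h2.trans h2'.symm
      · exact e4
  have hsub : ((cyc G).filter fun c => c 0 = u ∧ c 1 = v ∧ w ∈ Vs c) ⊆
      ((cyc G).filter fun c => c 0 = u ∧ c 1 = v ∧ c 2 = w) ∪
      (((cyc G).filter fun c => c 0 = u ∧ c 1 = v ∧ c 4 = w) ∪
      ((cyc G).filter fun c => c 0 = u ∧ c 1 = v ∧ c 3 = w)) := by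
    intro c hc
    rw [mem_filter] at hc
    obtain ⟨hc, h0, h1, hw⟩ := hc
    rw [mem_Vs] at hw
    obtain ⟨i, hi⟩ := hw
    simp only [mem_union, mem_filter]
    fin_cases i
    · exact absurd (hi.symm.trans h0) hu
    · exact absurd (hi.symm.trans h1) hv
    · exact Or.inl ⟨hc, h0, h1, hi⟩
    · exact Or.inr (Or.inr ⟨hc, h0, h1, hi⟩)
    · exact Or.inr (Or.inl ⟨hc, h0, h1, hi⟩)
  have h5 := card_le_card hsub
  have h6 := card_union_le ((cyc G).filter fun c => c 0 = u ∧ c 1 = v ∧ c 2 = w)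
      (((cyc G).filter fun c => c 0 = u ∧ c 1 = v ∧ c 4 = w) ∪
      ((cyc G).filter fun c => c 0 = u ∧ c 1 = v ∧ c 3 = w))
  have h7 := card_union_le ((cyc G).filter fun c => c 0 = u ∧ c 1 = v ∧ c 4 = w)
      ((cyc G).filter fun c => c 0 = u ∧ c 1 = v ∧ c 3 = w)
  unfold K5
  omega

/-- cycles through a dart at the root and a third vertex, set version -/
lemma card_root' {G : SimpleGraph (Fin n)} {K : ℕ} (h : T3 G K) {u v w : Fin n} (hu : w ≠ u)
    (hv : w ≠ v) (S : Finset (Fin 5 → Fin n))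
    (hS : ∀ c ∈ S, IsC5 G c ∧ c 0 = u ∧ c 1 = v ∧ w ∈ Vs c) : S.card ≤ K5 K := by
  classical
  refine le_trans (card_le_card fun c hc => ?_) (card_root h hu hv)
  rw [mem_filter, mem_cyc]
  exact hS c hc

/-- from darts at the root to edges anywhere -/
lemma card_edge_le (G : SimpleGraph (Fin n)) (Q : (Fin 5 → Fin n) → Prop)
    (hQ : ∀ k b c, Q c → Q (act k b c)) (u v : Fin n) {M : ℕ}
    (h1 : ∀ S : Finset (Fin 5 → Fin n), (∀ c ∈ S, IsC5 G c ∧ c 0 = u ∧ c 1 = v ∧ Q c) → S.card ≤ M)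
    (h2 : ∀ S : Finset (Fin 5 → Fin n), (∀ c ∈ S, IsC5 G c ∧ c 0 = v ∧ c 1 = u ∧ Q c) → S.card ≤ M)
    (S : Finset (Fin 5 → Fin n)) (hS : ∀ c ∈ S, IsC5 G c ∧ s(u, v) ∈ Es c ∧ Q c) :
    S.card ≤ 10 * M := by
  classical
  have hsub : S ⊆ (univ : Finset (Fin 5)).biUnion fun i =>
        (S.filter fun c => act i false c 0 = u ∧ act i false c 1 = v) ∪
        (S.filter fun c => act i false c 0 = v ∧ act i false c 1 = u) := by
    intro c hc
    obtain ⟨hc5, he, hq⟩ := hS c hc
    rw [mem_Es] at he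
    obtain ⟨i, hi⟩ := he
    rw [mem_biUnion]
    refine ⟨i, mem_univ _, ?_⟩
    have h0 : act i false c 0 = c i := by unfold act; simp
    have h1 : act i false c 1 = c (i + 1) := by unfold act; simp
    rw [Sym2.eq_iff] at hi
    rw [mem_union]
    rcases hi with ⟨e1, e2⟩ | ⟨e1, e2⟩
    · exact Or.inl (mem_filter.2 ⟨hc, h0.trans e1, h1.trans e2⟩)
    · exact Or.inr (mem_filter.2 ⟨hc, h0.trans e1, h1.trans e2⟩)
  refine (card_le_card hsub).trans (card_biUnion_le.trans ?_)
  have : ∀ i ∈ (univ : Finset (Fin 5)),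
      ((S.filter fun c => act i false c 0 = u ∧ act i false c 1 = v) ∪
        (S.filter fun c => act i false c 0 = v ∧ act i false c 1 = u)).card ≤ 2 * M := by
    intro i _
    refine (card_union_le _ _).trans ?_
    have a1 : (S.filter fun c => act i false c 0 = u ∧ act i false c 1 = v).card ≤ M := by
      rw [← card_image_of_injective _ (act_injective i false)]
      refine h1 _ fun c hc => ?_
      obtain ⟨d, hd, rfl⟩ := mem_image.1 hc
      obtain ⟨hd1, hd2, hd3⟩ := mem_filter.1 hd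
      exact ⟨(hS d hd1).1.act i false, hd2, hd3, hQ _ _ _ (hS d hd1).2.2⟩
    have a2 : (S.filter fun c => act i false c 0 = v ∧ act i false c 1 = u).card ≤ M := by
      rw [← card_image_of_injective _ (act_injective i false)]
      refine h2 _ fun c hc => ?_
      obtain ⟨d, hd, rfl⟩ := mem_image.1 hc
      obtain ⟨hd1, hd2, hd3⟩ := mem_filter.1 hd
      exact ⟨(hS d hd1).1.act i false, hd2, hd3, hQ _ _ _ (hS d hd1).2.2⟩
    omega
  refine (sum_le_sum this).trans ?_
  simp
  omega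

/-- cycles through an edge and a vertex -/
lemma card_edge_vertex {G : SimpleGraph (Fin n)} {K : ℕ} (h : T3 G K) {g : Sym2 (Fin n)} {w : Fin n}
    (hw : w ∉ g) (S : Finset (Fin 5 → Fin n)) (hS : ∀ c ∈ S, IsC5 G c ∧ g ∈ Es c ∧ w ∈ Vs c) :
    S.card ≤ 10 * K5 K := by
  induction g using Sym2.ind with
  | _ u v =>
  rw [Sym2.mem_iff, not_or] at hw
  exact card_edge_le G (fun c => w ∈ Vs c) (fun k b c h => by rwa [Vs_act]) u v
    (fun S hS => card_root' h hw.1 hw.2 S hS) (fun S hS => card_root' h hw.2 hw.1 S hS) S hS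

end Pool.Agent.U140.SG
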