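import Pool.Agent.U140.SG.Pop2
import Pool.Agent.U140.SG.Greedy

/-! Exposure of a random set of pairs: the bad event and its probability. -/

set_option linter.unusedSectionVars false
set_option linter.unusedVariables false

namespace Pool.Agent.U140.SG

open Finset Pool.Agent.Q299.PW

variable {n : ℕ}

abbrev It (n : ℕ) := (Fin n × Fin n × Fin n) ⊕ Sym2 (Fin n)

/-- the graph reconstructed from `G` inside `Q` and the items -/
def Hrec (G : SimpleGraph (Fin n)) (Q : Finset (Sym2 (Fin n))) (I : Finset (It n)) :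
    SimpleGraph (Fin n) where
  Adj a b := a ≠ b ∧ s(a, b) ∈ Q ∧ ((G.Adj a b ∧ Sum.inr s(a, b) ∉ I) ∨
    ∃ z x w, (Sum.inl (z, x, w) : It n) ∈ I ∧ s(a, b) = s(z, w))
  symm := ⟨fun a b h => by
    refine ⟨h.1.symm, ?_, ?_⟩
    · rw [Sym2.eq_swap]; exact h.2.1
    · rcases h.2.2 with h1 | h1
      · left; refine ⟨h1.1.symm, ?_⟩; rw [Sym2.eq_swap]; exact h1.2
      · right; rw [Sym2.eq_swap]; exact h1⟩
  loopless := ⟨fun _ h => h.1 rfl⟩

open Classical in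
/-- preimage according to the items -/
noncomputable def prc (I : Finset (It n)) (z w : Fin n) : Fin n :=
  if h : ∃ x, (Sum.inl (z, x, w) : It n) ∈ I then Classical.choose h else w

open Classical in
/-- marked cycles according to the items -/
noncomputable def MCs (G : SimpleGraph (Fin n)) (Q : Finset (Sym2 (Fin n))) (I : Finset (It n)) :
    Finset (Fin 5 → Fin n) :=
  univ.filter fun C => IsC5 (Hrec G Q I) C ∧
    ∃ i, prc I (C i) (C (i + 1)) ≠ C (i + 1) ∨ prc I (C (i + 1)) (C i) ≠ C i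

noncomputable def dem (I : Finset (It n)) (C : Fin 5 → Fin n) : Fin n × Fin n :=
  (prc I (C 0) (C 1), prc I (C 0) (C 4))

def Bad (G : SimpleGraph (Fin n)) (Q : Finset (Sym2 (Fin n))) (L₀ C₀ : ℕ) : Prop :=
  ∃ I : Finset (It n), I ≠ ∅ ∧ (MCs G Q I).card ≤ L₀ * I.card ∧
    ∃ l' ∈ List.sublistsLen (C₀ * I.card) (MCs G Q I).toList, Chain G Q (l'.map (dem I))

lemma Hrec_mix (Q : Finset (Sym2 (Fin n))) (κ ω ω' : Om n) (I : Finset (It n)) :
    Hrec (gr (mix Q κ ω)) Q I = Hrec (gr (mix Q κ ω')) Q I := by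
  ext a b
  unfold Hrec
  simp only [gr_adj]
  refine and_congr_right fun h1 => and_congr_right fun h2 => ?_
  rw [mix_mem h2, mix_mem h2]

lemma MCs_mix (Q : Finset (Sym2 (Fin n))) (κ ω ω' : Om n) (I : Finset (It n)) :
    MCs (gr (mix Q κ ω)) Q I = MCs (gr (mix Q κ ω')) Q I := by
  unfold MCs
  rw [Hrec_mix Q κ ω ω']

/-- probability of the bad event -/
theorem bad_bound {p : ℝ} (h0 : 0 ≤ p) (h1 : p ≤ 1) (D L₀ C₀ : ℕ) (hC : 0 < C₀)
    (Q : Finset (Sym2 (Fin n))) (κ : Om n) :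
    Pr (wp p) (fun ω : Om n => MaxDeg (gr (mix Q κ ω)) D ∧ Bad (gr (mix Q κ ω)) Q L₀ C₀) ≤
      (1 + (Real.exp 1 * L₀ / C₀ * Wt n p D) ^ C₀) ^ (Fintype.card (It n)) - 1 := by
  classical
  have hw := wp_nonneg h0 h1
  have hw1 := wp_sum p
  set ξ : ℝ := (Real.exp 1 * L₀ / C₀ * Wt n p D) ^ C₀ with hξ
  have hWt := Wt_nonneg (n := n) h0 D
  set A : Finset (It n) → Om n → Prop := fun I ω =>
    (MCs (gr (mix Q κ κ)) Q I).card ≤ L₀ * I.card ∧
    ∃ l' ∈ List.sublistsLen (C₀ * I.card) (MCs (gr (mix Q κ κ)) Q I).toList,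
      (MaxDeg (gr (mix Q κ ω)) D ∧ Chain (gr (mix Q κ ω)) Q (l'.map (dem I))) with hA
  have hstep : Pr (wp p) (fun ω : Om n => MaxDeg (gr (mix Q κ ω)) D ∧
      Bad (gr (mix Q κ ω)) Q L₀ C₀) ≤ ∑ I ∈ (univ : Finset (Finset (It n))).erase ∅,
        Pr (wp p) (A I) := by
    refine le_trans (Pr_mono hw fun ω h => ?_) (Pr_exists_le hw _ A)
    obtain ⟨hm, I, hI, hc, l', hl', hch⟩ := h
    rw [MCs_mix Q κ ω κ] at hc hl'
    exact ⟨I, mem_erase.2 ⟨hI, mem_univ _⟩, hc, l', hl', hm, hch⟩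
  refine hstep.trans ?_
  have hterm : ∀ I ∈ (univ : Finset (Finset (It n))).erase ∅, Pr (wp p) (A I) ≤ ξ ^ I.card := by
    intro I hI
    have hIc : 0 < I.card := card_pos.2 (nonempty_iff_ne_empty.2 (mem_erase.1 hI).1)
    by_cases hc : (MCs (gr (mix Q κ κ)) Q I).card ≤ L₀ * I.card
    swap
    · rw [Pr_false _ fun ω h => hc h.1]
      rw [hξ]; positivity
    have h2 : Pr (wp p) (A I) ≤
        (List.sublistsLen (C₀ * I.card) (MCs (gr (mix Q κ κ)) Q I).toList).length *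
          (Wt n p D) ^ (C₀ * I.card) := by
      refine le_trans (Pr_mono hw fun ω h => h.2) (Pr_exists_list_le hw _ _ (by positivity) ?_)
      intro l' hl'
      have := seq_bound h0 h1 D (l'.map (dem I)) Q κ
      rw [List.length_map, (List.mem_sublistsLen.1 hl').2] at this
      exact this
    refine h2.trans ?_
    rw [List.length_sublistsLen, length_toList]
    have h3 : (((MCs (gr (mix Q κ κ)) Q I).card.choose (C₀ * I.card) : ℕ) : ℝ) ≤
        (Real.exp 1 * L₀ / C₀) ^ (C₀ * I.card) := by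
      have h4 : (((MCs (gr (mix Q κ κ)) Q I).card.choose (C₀ * I.card) : ℕ) : ℝ) ≤
          (((L₀ * I.card).choose (C₀ * I.card) : ℕ) : ℝ) :=
        Nat.cast_le.2 (Nat.choose_le_choose _ hc)
      refine h4.trans ?_
      have h5 := choose_le_exp (L₀ * I.card) (C₀ * I.card) (Nat.mul_pos hC hIc)
      refine h5.trans (le_of_eq ?_)
      congr 1
      push_cast
      have : (I.card : ℝ) ≠ 0 := by exact_mod_cast hIc.ne'
      have : (C₀ : ℝ) ≠ 0 := by exact_mod_cast hC.ne'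
      field_simp
    calc (((MCs (gr (mix Q κ κ)) Q I).card.choose (C₀ * I.card) : ℕ) : ℝ) *
          (Wt n p D) ^ (C₀ * I.card)
        ≤ (Real.exp 1 * L₀ / C₀) ^ (C₀ * I.card) * (Wt n p D) ^ (C₀ * I.card) :=
          mul_le_mul_of_nonneg_right h3 (by positivity)
      _ = ξ ^ I.card := by rw [hξ, ← mul_pow, ← pow_mul]
  refine (sum_le_sum hterm).trans ?_
  have h6 := sum_pow_card (β := It n) ξ
  have h7 := add_sum_erase (univ : Finset (Finset (It n))) (fun I => ξ ^ I.card) (mem_univ ∅)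
  simp only [card_empty, pow_zero] at h7
  linarith

/-! ### the true items -/

variable {G H : SimpleGraph (Fin n)} {f g : Fin n → Fin n → Fin n} {K : ℕ}

open Classical in
noncomputable def I0 (G H : SimpleGraph (Fin n)) (f : Fin n → Fin n → Fin n)
    (Q : Finset (Sym2 (Fin n))) : Finset (It n) :=
  univ.filter fun t => match t with
    | Sum.inl (z, x, w) => G.Adj z x ∧ f z x = w ∧ w ≠ x ∧ s(z, w) ∈ Q
    | Sum.inr e => e ∈ G.edgeSet ∧ e ∉ H.edgeSet ∧ e ∈ Q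

lemma mem_I0_inl {Q : Finset (Sym2 (Fin n))} {z x w : Fin n} :
    (Sum.inl (z, x, w) : It n) ∈ I0 G H f Q ↔ G.Adj z x ∧ f z x = w ∧ w ≠ x ∧ s(z, w) ∈ Q := by
  classical
  simp [I0]

lemma mem_I0_inr {Q : Finset (Sym2 (Fin n))} {e : Sym2 (Fin n)} :
    (Sum.inr e : It n) ∈ I0 G H f Q ↔ e ∈ G.edgeSet ∧ e ∉ H.edgeSet ∧ e ∈ Q := by
  classical
  simp [I0]

lemma Hrec_I0 (m : Mt G H f g) (Q : Finset (Sym2 (Fin n))) (a b : Fin n) :
    (Hrec G Q (I0 G H f Q)).Adj a b ↔ H.Adj a b ∧ s(a, b) ∈ Q := by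
  constructor
  · rintro ⟨h1, h2, h3⟩
    refine ⟨?_, h2⟩
    rcases h3 with ⟨h4, h5⟩ | ⟨z, x, w, h4, h5⟩
    · by_contra h6
      exact h5 (mem_I0_inr.2 ⟨h4, h6, h2⟩)
    · rw [mem_I0_inl] at h4
      obtain ⟨k1, k2, k3, k4⟩ := h4
      have := m.f_adj k1
      rw [k2] at this
      have h6 : s(a, b) ∈ H.edgeSet := by rw [h5]; exact this
      exact h6
  · rintro ⟨h1, h2⟩
    refine ⟨h1.ne, h2, ?_⟩
    by_cases h3 : G.Adj a b
    · left
      refine ⟨h3, fun h4 => ?_⟩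
      rw [mem_I0_inr] at h4
      exact h4.2.1 h1
    · right
      refine ⟨a, g a b, b, ?_, rfl⟩
      rw [mem_I0_inl]
      refine ⟨m.g_adj h1, m.fg_adj h1, ?_, h2⟩
      intro h4
      apply h3
      have := m.g_adj h1
      rwa [← h4] at this

lemma prc_I0 (m : Mt G H f g) (Q : Finset (Sym2 (Fin n))) {z w : Fin n} (h : H.Adj z w)
    (hQ : s(z, w) ∈ Q) : prc (I0 G H f Q) z w = g z w := by
  classical
  unfold prc
  split_ifs with hx
  · have h1 := Classical.choose_spec hx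
    rw [mem_I0_inl] at h1
    obtain ⟨k1, k2, k3, k4⟩ := h1
    conv_rhs => rw [← k2]
    exact (m.gf_adj k1).symm
  · by_contra hne
    apply hx
    refine ⟨g z w, ?_⟩
    rw [mem_I0_inl]
    exact ⟨m.g_adj h, m.fg_adj h, hne, hQ⟩

lemma IsC5_Hrec (m : Mt G H f g) (Q : Finset (Sym2 (Fin n))) (C : Fin 5 → Fin n) :
    IsC5 (Hrec G Q (I0 G H f Q)) C ↔ IsC5 H C ∧ Es C ⊆ Q := by
  constructor
  · intro h
    refine ⟨⟨h.inj, fun i => ((Hrec_I0 m Q _ _).1 (h.adj i)).1⟩, fun e he => ?_⟩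
    rw [mem_Es] at he
    obtain ⟨i, rfl⟩ := he
    exact ((Hrec_I0 m Q _ _).1 (h.adj i)).2
  · rintro ⟨h1, h2⟩
    exact ⟨h1.inj, fun i => (Hrec_I0 m Q _ _).2 ⟨h1.adj i, h2 (mem_Es.2 ⟨i, rfl⟩)⟩⟩

lemma mem_MCs_I0 (m : Mt G H f g) (Q : Finset (Sym2 (Fin n))) (C : Fin 5 → Fin n) :
    C ∈ MCs G Q (I0 G H f Q) ↔ IsC5 H C ∧ Es C ⊆ Q ∧ Mk g C := by
  classical
  unfold MCs
  rw [mem_filter, IsC5_Hrec m]
  constructor
  · rintro ⟨-, ⟨h1, h2⟩, i, h3⟩
    refine ⟨h1, h2, i, ?_⟩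
    have hQ : s(C i, C (i + 1)) ∈ Q := h2 (mem_Es.2 ⟨i, rfl⟩)
    rw [prc_I0 m Q (h1.adj i) hQ, prc_I0 m Q (h1.adj i).symm (by rw [Sym2.eq_swap]; exact hQ)] at h3
    exact h3
  · rintro ⟨h1, h2, i, h3⟩
    refine ⟨mem_univ _, ⟨h1, h2⟩, i, ?_⟩
    have hQ : s(C i, C (i + 1)) ∈ Q := h2 (mem_Es.2 ⟨i, rfl⟩)
    rw [prc_I0 m Q (h1.adj i) hQ, prc_I0 m Q (h1.adj i).symm (by rw [Sym2.eq_swap]; exact hQ)]
    exact h3

lemma dem_I0 (m : Mt G H f g) (Q : Finset (Sym2 (Fin n))) {C : Fin 5 → Fin n} (h : IsC5 H C)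
    (hQ : Es C ⊆ Q) : dem (I0 G H f Q) C = (vw g C 0 1, vw g C 0 4) := by
  unfold dem
  have e1 : s(C 0, C 1) ∈ Q := hQ (mem_Es.2 ⟨0, rfl⟩)
  have e4 : s(C 0, C 4) ∈ Q := hQ (mem_Es.2 ⟨4, by rw [Sym2.eq_swap]; rfl⟩)
  have a1 : H.Adj (C 0) (C 1) := h.adj 0
  have a4 : H.Adj (C 0) (C 4) := (h.adj 4).symm
  rw [prc_I0 m Q a1 e1, prc_I0 m Q a4 e4]
  rfl

/-- if not bad, few pairs are discovered -/
lemma AA_card (m : Mt G H f g) {L₀ C₀ : ℕ} (ω : Om n)
    (hb : ¬ Bad G (univ.filter fun e => ω e = true) L₀ C₀)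
    (hc : (MCs G (univ.filter fun e => ω e = true)
      (I0 G H f (univ.filter fun e => ω e = true))).card ≤
        L₀ * (I0 G H f (univ.filter fun e => ω e = true)).card) :
    (AA H g ω).card ≤ 3 * (C₀ * (I0 G H f (univ.filter fun e => ω e = true)).card) := by
  classical
  set Q : Finset (Sym2 (Fin n)) := univ.filter fun e => ω e = true with hQ
  set I := I0 G H f Q with hI
  have hmQ : ∀ e, e ∈ Q ↔ ω e = true := fun e => by rw [hQ, mem_filter]; simp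
  obtain ⟨l', T, h1, h2, h3, h4, h5⟩ := greedy
    (P := fun (C : Fin 5 → Fin n) (c : Fin n × Fin n × Fin n × Fin n) =>
      C ∈ MCs G Q I ∧ c = (vw g C 0 1, vw g C 0 2, vw g C 0 3, vw g C 0 4))
    (New := fun S c => ¬ pe c.1 c.2.1 c.2.2.1 c.2.2.2 ⊆ S)
    (es := fun c => pe c.1 c.2.1 c.2.2.1 c.2.2.2)
    (fun S T c hST h h' => h (h'.trans hST)) (M := 3)
    (fun c => by unfold pe; exact card_le_three) (MCs G Q I).toList Q
  -- discovered pairs are in `T`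
  have hAT : AA H g ω ⊆ T \ Q := by
    intro e he
    unfold AA at he
    rw [mem_filter] at he
    obtain ⟨-, e1, C, c1, c2, c3, c4⟩ := he
    rw [mem_sdiff, hmQ, e1]
    refine ⟨?_, by simp⟩
    have hEs : Es C ⊆ Q := fun h hh => (hmQ h).2 (c4 h hh)
    have hC : C ∈ MCs G Q I := (mem_MCs_I0 m Q C).2 ⟨c1, hEs, c2⟩
    rcases h5 C (mem_toList.2 hC) with ⟨-, c, ⟨-, hc1⟩, hc2⟩ | h
    · rw [hc1] at hc2
      exact hc2 c3
    · have := h (vw g C 0 1, vw g C 0 2, vw g C 0 3, vw g C 0 4) ⟨hC, rfl⟩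
      rw [not_not] at this
      exact this c3
  have hA3 : (AA H g ω).card ≤ 3 * l'.length := (card_le_card hAT).trans h3
  by_contra hcon
  push Not at hcon
  have hlen : C₀ * I.card ≤ l'.length := by
    by_contra hh
    push Not at hh
    have := Nat.mul_le_mul_left 3 hh.le
    omega
  -- conversion to a chain
  have hconv : ∀ (l : List (Fin 5 → Fin n)) (S : Finset (Sym2 (Fin n))),
      GChain (P := fun (C : Fin 5 → Fin n) (c : Fin n × Fin n × Fin n × Fin n) =>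
        C ∈ MCs G Q I ∧ c = (vw g C 0 1, vw g C 0 2, vw g C 0 3, vw g C 0 4))
        (fun S c => ¬ pe c.1 c.2.1 c.2.2.1 c.2.2.2 ⊆ S)
        (fun c => pe c.1 c.2.1 c.2.2.1 c.2.2.2) S l → Chain G S (l.map (dem I)) := by
    intro l
    induction l with
    | nil => intro S _; trivial
    | cons C l ih =>
      intro S h
      obtain ⟨c, ⟨hc1, hc2⟩, hc3, hc4⟩ := h
      subst hc2
      obtain ⟨q1, q2, q3⟩ := (mem_MCs_I0 m Q C).1 hc1
      rw [List.map_cons]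
      have v := m.vw_cyc q1 0
      refine ⟨vw g C 0 2, vw g C 0 3, ?_, ?_, ?_⟩
      · rw [hI, dem_I0 m Q q1 q2]
        exact ⟨v.adj 1, v.adj 2, v.adj 3, v.inj.ne (by decide), v.inj.ne (by decide),
          v.inj.ne (by decide)⟩
      · rw [hI, dem_I0 m Q q1 q2]
        exact hc3
      · rw [hI, dem_I0 m Q q1 q2]
        exact ih _ hc4
  apply hb
  refine ⟨I, ?_, hc, l'.take (C₀ * I.card), ?_, hconv _ _ (h4.take _)⟩
  · intro hI0
    have hM : (MCs G Q I).card ≤ 0 := by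
      refine hc.trans ?_
      rw [hI0]; simp
    have hM0 : (MCs G Q I) = ∅ := card_eq_zero.1 (Nat.le_zero.1 hM)
    rw [hM0] at h1
    simp only [toList_empty, List.sublist_nil] at h1
    rw [h1] at hA3
    simp at hA3
    rw [hA3] at hcon
    simp at hcon
  · rw [List.mem_sublistsLen]
    refine ⟨(List.take_sublist _ _).trans h1, ?_⟩
    rw [List.length_take, min_eq_left hlen]

end Pool.Agent.U140.SG
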