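import Pool.Agent.U140.SG.GL

/-! Expected number of discovered pairs. -/

set_option linter.unusedSectionVars false
set_option linter.unusedVariables false

namespace Pool.Agent.U140.SG

open Finset Pool.Agent.Q299.PW

variable {n : ℕ} {G H : SimpleGraph (Fin n)} {f g : Fin n → Fin n → Fin n} {K : ℕ}

open Classical in
noncomputable def Qo (ω : Om n) : Finset (Sym2 (Fin n)) := univ.filter fun e => ω e = true

lemma mem_Qo {ω : Om n} {e : Sym2 (Fin n)} : e ∈ Qo ω ↔ ω e = true := by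
  classical
  simp [Qo]

/-- a list of almost disjoint cycles is exposed with small probability -/
lemma chain_prob {ρ : ℝ} (h0 : 0 ≤ ρ) (h1 : ρ ≤ 1) (es : (Fin 5 → Fin n) → Finset (Sym2 (Fin n)))
    (hes : ∀ C, 4 ≤ (es C).card ∨ True) {l : List (Fin 5 → Fin n)} :
    ∀ {S : Finset (Sym2 (Fin n))}, (∀ C ∈ l, 4 ≤ (es C).card) →
    GChain (fun (C : Fin 5 → Fin n) (c : Fin 5 → Fin n) => c = C)
      (fun S c => Disjoint (es c) S) es S l →
    ∃ U : Finset (Sym2 (Fin n)), Disjoint U S ∧ 4 * l.length ≤ U.card ∧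
      ∀ h ∈ U, ∃ C ∈ l, h ∈ es C := by
  classical
  induction l with
  | nil => intro S _ _; exact ⟨∅, by simp, by simp, by simp⟩
  | cons C l ih =>
    intro S hc h
    obtain ⟨c, rfl, h2, h3⟩ := h
    obtain ⟨U, u1, u2, u3⟩ := ih (fun C hC => hc C (List.mem_cons_of_mem _ hC)) h3
    refine ⟨U ∪ es c, ?_, ?_, ?_⟩
    · rw [disjoint_union_left]
      exact ⟨u1.mono_right subset_union_left, h2⟩
    · rw [card_union_of_disjoint (u1.mono_right subset_union_right), List.length_cons]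
      have := hc c List.mem_cons_self
      omega
    · intro h hh
      rcases mem_union.1 hh with hh | hh
      · obtain ⟨C, hC, hm⟩ := u3 h hh
        exact ⟨C, List.mem_cons_of_mem _ hC, hm⟩
      · exact ⟨c, List.mem_cons_self, hh⟩

/-- tail of the number of exposed cycles through a dart -/
lemma dart_tail (m : Mt G H f g) (hT : T3 G K) {Up : ℕ} (hUp : UpB G Up) {ρ : ℝ} (h0 : 0 ≤ ρ)
    (h1 : ρ ≤ 1) (k : ℕ) (z w : Fin n) :
    Pr (wp ρ) (fun ω : Om n => ∃ S : Finset (Fin 5 → Fin n),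
      (∀ C ∈ S, IsC5 H C ∧ C 0 = z ∧ C 1 = w ∧ Es C ⊆ Qo ω) ∧ k * (1 + 5 * K5 K) < S.card) ≤
      (Up.choose k : ℝ) * ρ ^ (4 * k) := by
  classical
  have hw := wp_nonneg h0 h1
  set F : Finset (Fin 5 → Fin n) := univ.filter fun C => IsC5 H C ∧ C 0 = z ∧ C 1 = w with hF
  have hFc : F.card ≤ Up := UpH m hUp z w F fun C hC => (mem_filter.1 hC).2
  set es : (Fin 5 → Fin n) → Finset (Sym2 (Fin n)) := fun C => (Es C).erase s(z, w) with hes
  set A : List (Fin 5 → Fin n) → Om n → Prop := fun l ω =>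
    GChain (fun (C : Fin 5 → Fin n) (c : Fin 5 → Fin n) => c = C)
      (fun S c => Disjoint (es c) S) es ∅ l ∧ ∀ C ∈ l, ∀ h ∈ Es C, ω h = true with hA
  have hstep : Pr (wp ρ) (fun ω : Om n => ∃ S : Finset (Fin 5 → Fin n),
      (∀ C ∈ S, IsC5 H C ∧ C 0 = z ∧ C 1 = w ∧ Es C ⊆ Qo ω) ∧ k * (1 + 5 * K5 K) < S.card) ≤
      Pr (wp ρ) (fun ω : Om n => ∃ l ∈ List.sublistsLen k F.toList, A l ω) := by
    refine Pr_mono hw fun ω h => ?_
    obtain ⟨S, hS1, hS2⟩ := h
    obtain ⟨l', T, g1, g2, g3, g4, g5⟩ := greedy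
      (P := fun (C : Fin 5 → Fin n) (c : Fin 5 → Fin n) => c = C ∧ ∀ h ∈ Es C, ω h = true)
      (New := fun S c => Disjoint (es c) S) (es := es)
      (fun S T c hST h => h.mono_right hST) (M := 5)
      (fun c => (card_le_card (erase_subset _ _)).trans (by
        unfold Es; exact card_image_le.trans (by simp))) F.toList ∅
    have hconv : ∀ (l : List (Fin 5 → Fin n)) (S : Finset (Sym2 (Fin n))),
        GChain (P := fun (C : Fin 5 → Fin n) (c : Fin 5 → Fin n) => c = C ∧ ∀ h ∈ Es C, ω h = true)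
          (fun S c => Disjoint (es c) S) es S l →
        GChain (fun (C : Fin 5 → Fin n) (c : Fin 5 → Fin n) => c = C)
          (fun S c => Disjoint (es c) S) es S l ∧ ∀ C ∈ l, ∀ h ∈ Es C, ω h = true := by
      intro l
      induction l with
      | nil => intro S _; exact ⟨trivial, by simp⟩
      | cons C l ih =>
        intro S h
        obtain ⟨c, ⟨rfl, hc1⟩, hc2, hc3⟩ := h
        obtain ⟨i1, i2⟩ := ih _ hc3
        refine ⟨⟨c, rfl, hc2, i1⟩, ?_⟩
        intro C' hC'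
        rcases List.mem_cons.1 hC' with rfl | hC'
        · exact hc1
        · exact i2 C' hC'
    have hSsub : S ⊆ l'.toFinset ∪ (S.filter fun C => ¬ Disjoint (es C) T) := by
      intro C hC
      obtain ⟨q1, q2, q3, q4⟩ := hS1 C hC
      have hCF : C ∈ F.toList := mem_toList.2 (mem_filter.2 ⟨mem_univ _, q1, q2, q3⟩)
      rw [mem_union, List.mem_toFinset, mem_filter]
      rcases g5 C hCF with ⟨h, -⟩ | h
      · exact Or.inl h
      · exact Or.inr ⟨hC, h C ⟨rfl, fun h hh => mem_Qo.1 (q4 hh)⟩⟩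
    have hTc : T.card ≤ 5 * l'.length := by rwa [sdiff_empty] at g3
    have hb := card_le_fib (S.filter fun C => ¬ Disjoint (es C) T) T
      (fun C h => h ∈ Es C ∧ h ≠ s(z, w)) (K5 K) ?_ ?_
    · have h2 := card_le_card hSsub
      have h3 := card_union_le l'.toFinset (S.filter fun C => ¬ Disjoint (es C) T)
      have h4 := List.toFinset_card_le l'
      have h5 : T.card * K5 K ≤ 5 * l'.length * K5 K := Nat.mul_le_mul_right _ hTc
      have h6 : k * (1 + 5 * K5 K) < l'.length * (1 + 5 * K5 K) := by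
        have e : l'.length * (1 + 5 * K5 K) = l'.length + 5 * l'.length * K5 K := by ring
        rw [e]; omega
      have h7 : k < l'.length := Nat.lt_of_mul_lt_mul_right h6
      refine ⟨l'.take k, ?_, ?_⟩
      · rw [List.mem_sublistsLen]
        refine ⟨(List.take_sublist _ _).trans g1, ?_⟩
        rw [List.length_take, min_eq_left h7.le]
      · exact hconv _ _ (g4.take k)
    · intro C hC
      obtain ⟨h2, h3⟩ := mem_filter.1 hC
      rw [not_disjoint_iff] at h3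
      obtain ⟨h, hh1, hh2⟩ := h3
      rw [hes, mem_erase] at hh1
      exact ⟨h, hh2, hh1.2, hh1.1⟩
    · intro h hh S' hS' hr
      rcases S'.eq_empty_or_nonempty with he0 | ⟨C₀, hC₀⟩
      · rw [he0]; simp
      have hmem : ∀ C ∈ S', IsC5 H C ∧ C 0 = z ∧ C 1 = w := fun C hC => by
        obtain ⟨q1, q2, q3, q4⟩ := hS1 C (mem_filter.1 (hS' hC)).1
        exact ⟨q1, q2, q3⟩
      have hzw : z ≠ w := by
        obtain ⟨q1, q2, q3⟩ := hmem C₀ hC₀
        rw [← q2, ← q3]; exact q1.inj.ne (by decide)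
      have hx : ∃ x, x ∈ h ∧ x ≠ z ∧ x ≠ w := by
        by_contra hcon
        push Not at hcon
        obtain ⟨k1, k2⟩ := hr C₀ hC₀
        obtain ⟨q1, q2, q3⟩ := hmem C₀ hC₀
        rw [mem_Es] at k1
        obtain ⟨i, rfl⟩ := k1
        have hne : C₀ i ≠ C₀ (i + 1) := (q1.adj i).ne
        apply k2
        have a1 := hcon (C₀ i) (Sym2.mem_mk_left _ _)
        have a2 := hcon (C₀ (i + 1)) (Sym2.mem_mk_right _ _)
        rw [Sym2.eq_iff]
        by_cases b1 : C₀ i = z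
        · left
          refine ⟨b1, a2 fun b2 => hne (b1.trans b2.symm)⟩
        · right
          refine ⟨a1 b1, ?_⟩
          by_contra b2
          exact hne ((a1 b1).trans (a2 b2).symm)
      obtain ⟨x, hx1, hx2, hx3⟩ := hx
      refine card_rootH m hT (u := z) (v := w) (w := x) hx2 hx3 S' ?_
      intro C hC
      obtain ⟨q1, q2, q3⟩ := hmem C hC
      refine ⟨q1, q2, q3, ?_⟩
      obtain ⟨k1, k2⟩ := hr C hC
      rw [mem_Es] at k1
      obtain ⟨i, rfl⟩ := k1
      rw [Sym2.mem_iff] at hx1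
      rw [mem_Vs]
      rcases hx1 with rfl | rfl
      · exact ⟨i, rfl⟩
      · exact ⟨i + 1, rfl⟩
  refine hstep.trans ?_
  have hlist : ∀ l ∈ List.sublistsLen k F.toList, Pr (wp ρ) (A l) ≤ ρ ^ (4 * k) := by
    intro l hl
    obtain ⟨hl1, hl2⟩ := List.mem_sublistsLen.1 hl
    have hlF : ∀ C ∈ l, IsC5 H C ∧ C 0 = z ∧ C 1 = w := fun C hC =>
      (mem_filter.1 (mem_toList.1 (hl1.subset hC))).2
    by_cases hG : GChain (fun (C : Fin 5 → Fin n) (c : Fin 5 → Fin n) => c = C)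
      (fun S c => Disjoint (es c) S) es ∅ l
    swap
    · rw [Pr_false _ fun ω h => hG h.1]; positivity
    obtain ⟨U, -, u2, u3⟩ := chain_prob h0 h1 es (fun C => Or.inr trivial) (fun C hC => by
      rw [hes]
      simp only
      have := card_Es (hlF C hC).1
      have h2 := pred_card_le_card_erase (s := Es C) (a := s(z, w))
      omega) hG
    refine (Pr_mono hw (B := fun ω => ∀ e ∈ U, ω e = true) fun ω h => ?_).trans ?_
    · intro e he
      obtain ⟨C, hC, heC⟩ := u3 e he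
      exact h.2 C hC e (mem_of_mem_erase heC)
    · rw [pr_all]
      rw [hl2] at u2
      exact pow_le_pow_of_le_one h0 h1 u2
  refine (Pr_exists_list_le hw _ A (by positivity) hlist).trans ?_
  rw [List.length_sublistsLen, length_toList]
  refine mul_le_mul_of_nonneg_right ?_ (by positivity)
  exact Nat.cast_le.2 (Nat.choose_le_choose _ hFc)

/-- number of marked exposed cycles -/
lemma MCs_card (m : Mt G H f g) {L₁ : ℕ} (ω : Om n)
    (hL : ∀ z w, ∀ S : Finset (Fin 5 → Fin n),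
      (∀ C ∈ S, IsC5 H C ∧ C 0 = z ∧ C 1 = w ∧ Es C ⊆ Qo ω) → S.card ≤ L₁) :
    (MCs G (Qo ω) (I0 G H f (Qo ω))).card ≤ 10 * L₁ * (I0 G H f (Qo ω)).card := by
  classical
  set Q := Qo ω with hQ
  -- items of the first kind
  set J : Finset (Fin n × Fin n × Fin n) := univ.filter fun t => (Sum.inl t : It n) ∈ I0 G H f Q
    with hJ
  have hJc : J.card ≤ (I0 G H f Q).card := by
    refine card_le_card_of_injOn (fun t => (Sum.inl t : It n)) ?_ ?_
    · intro t ht
      exact (mem_filter.1 ht).2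
    · intro t _ t' _ hh
      exact Sum.inl_injective hh
  have hb := card_le_fib (MCs G Q (I0 G H f Q)) (J ×ˢ (univ : Finset (Fin 5 × Bool)))
    (fun C tib => act tib.2.1 tib.2.2 C 0 = tib.1.1 ∧ act tib.2.1 tib.2.2 C 1 = tib.1.2.2) L₁ ?_ ?_
  · rw [card_product] at hb
    have h10 : (univ : Finset (Fin 5 × Bool)).card = 10 := by simp
    rw [h10] at hb
    calc _ ≤ _ := hb
      _ = 10 * L₁ * J.card := by ring
      _ ≤ _ := Nat.mul_le_mul_left _ hJc
  · intro C hC
    obtain ⟨q1, q2, i, q3⟩ := (mem_MCs_I0 m Q C).1 hC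
    have hQi : s(C i, C (i + 1)) ∈ Q := q2 (mem_Es.2 ⟨i, rfl⟩)
    rcases q3 with q3 | q3
    · have hit : (Sum.inl (C i, g (C i) (C (i + 1)), C (i + 1)) : It n) ∈ I0 G H f Q := by
        rw [mem_I0_inl]
        exact ⟨m.g_adj (q1.adj i), m.fg_adj (q1.adj i), fun h => q3 h.symm, hQi⟩
      refine ⟨((C i, g (C i) (C (i + 1)), C (i + 1)), (i, false)), ?_, ?_, ?_⟩
      · rw [mem_product]
        exact ⟨mem_filter.2 ⟨mem_univ _, hit⟩, mem_univ _⟩
      · unfold act; simp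
      · unfold act; simp
    · have hit : (Sum.inl (C (i + 1), g (C (i + 1)) (C i), C i) : It n) ∈ I0 G H f Q := by
        rw [mem_I0_inl]
        exact ⟨m.g_adj (q1.adj i).symm, m.fg_adj (q1.adj i).symm, fun h => q3 h.symm, by
          rw [Sym2.eq_swap]; exact hQi⟩
      refine ⟨((C (i + 1), g (C (i + 1)) (C i), C i), (i + 1, true)), ?_, ?_, ?_⟩
      · rw [mem_product]
        exact ⟨mem_filter.2 ⟨mem_univ _, hit⟩, mem_univ _⟩
      · unfold act; simp
      · unfold act; simp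
  · rintro ⟨⟨z, x, w⟩, ⟨i, b⟩⟩ ht S' hS' hr
    rw [← card_image_of_injective S' (act_injective i b)]
    refine hL z w _ ?_
    intro c hc
    obtain ⟨C, hC, rfl⟩ := mem_image.1 hc
    obtain ⟨q1, q2, q3⟩ := (mem_MCs_I0 m Q C).1 (hS' hC)
    obtain ⟨r1, r2⟩ := hr C hC
    exact ⟨q1.act i b, r1, r2, by rw [Es_act]; exact q2⟩

open Classical in
noncomputable def EGH (G H : SimpleGraph (Fin n)) : Finset (Sym2 (Fin n)) :=
  univ.filter fun e => e ∈ G.edgeSet ∧ e ∉ H.edgeSet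

lemma card_EGH (m : Mt G H f g) : (EGH G H).card ≤ (DD G f).card := by
  classical
  have h : EGH G H ⊆ (DD G f).image fun zx => s(zx.1, zx.2) := by
    intro e he
    unfold EGH at he
    rw [mem_filter] at he
    obtain ⟨-, h1, h2⟩ := he
    induction e using Sym2.ind with
    | _ z x =>
    rw [mem_image]
    refine ⟨(z, x), ?_, rfl⟩
    rw [mem_DD]
    refine ⟨h1, fun h3 => h2 ?_⟩
    have := m.f_adj (show G.Adj z x from h1)
    simp only at h3
    rw [h3] at this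
    exact this
  exact (card_le_card h).trans card_image_le

lemma I0_card (ω : Om n) : ((I0 G H f (Qo ω)).card : ℝ) ≤
    ∑ zx ∈ DD G f, (if ω s(zx.1, f zx.1 zx.2) = true then (1 : ℝ) else 0) +
    ∑ e ∈ EGH G H, (if ω e = true then (1 : ℝ) else 0) := by
  classical
  have h : I0 G H f (Qo ω) ⊆
      ((DD G f).filter fun zx => ω s(zx.1, f zx.1 zx.2) = true).image
        (fun zx => (Sum.inl (zx.1, zx.2, f zx.1 zx.2) : It n)) ∪
      ((EGH G H).filter fun e => ω e = true).image (fun e => (Sum.inr e : It n)) := by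
    intro t ht
    rw [mem_union, mem_image, mem_image]
    rcases t with ⟨z, x, w⟩ | e
    · left
      rw [mem_I0_inl, mem_Qo] at ht
      obtain ⟨k1, k2, k3, k4⟩ := ht
      refine ⟨(z, x), mem_filter.2 ⟨mem_DD.2 ⟨k1, ?_⟩, ?_⟩, ?_⟩
      · simp only; rw [k2]; exact k3
      · simp only; rw [k2]; exact k4
      · simp only; rw [k2]
    · right
      rw [mem_I0_inr, mem_Qo] at ht
      exact ⟨e, mem_filter.2 ⟨by unfold EGH; rw [mem_filter]; exact ⟨mem_univ _, ht.1, ht.2.1⟩,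
        ht.2.2⟩, rfl⟩
  have h2 : (I0 G H f (Qo ω)).card ≤
      ((DD G f).filter fun zx => ω s(zx.1, f zx.1 zx.2) = true).card +
      ((EGH G H).filter fun e => ω e = true).card :=
    (card_le_card h).trans ((card_union_le _ _).trans (Nat.add_le_add card_image_le card_image_le))
  have h3 : ((I0 G H f (Qo ω)).card : ℝ) ≤
      (((DD G f).filter fun zx => ω s(zx.1, f zx.1 zx.2) = true).card : ℝ) +
      (((EGH G H).filter fun e => ω e = true).card : ℝ) := by exact_mod_cast h2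
  refine h3.trans (le_of_eq ?_)
  rw [← sum_filter, ← sum_filter, sum_const, sum_const, nsmul_eq_mul, nsmul_eq_mul, mul_one,
    mul_one]

lemma Ex_true (ρ : ℝ) (e : Sym2 (Fin n)) :
    Ex (wp ρ) (fun ω : Om n => if ω e = true then (1 : ℝ) else 0) = ρ := by
  classical
  have h1 := pr_all ρ ({e} : Finset (Sym2 (Fin n)))
  simp only [card_singleton, pow_one] at h1
  refine Eq.trans ?_ h1
  unfold Pr
  refine congrArg (Ex (wp ρ)) (funext fun ω => ?_)
  by_cases h : ω e = true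
  · have h' : ∀ x ∈ ({e} : Finset (Sym2 (Fin n))), ω x = true := by
      intro x hx; rw [mem_singleton.1 hx]; exact h
    rw [if_pos h, if_pos h']
  · have h' : ¬ ∀ x ∈ ({e} : Finset (Sym2 (Fin n))), ω x = true :=
      fun hh => h (hh e (mem_singleton_self e))
    rw [if_neg h, if_neg h']

theorem gl_main (m : Mt G H f g) (hT : T3 G K) {Up : ℕ} (hUp : UpB G Up) {ρ : ℝ} (h0 : 0 ≤ ρ)
    (h1 : ρ ≤ 1) {C₀ k : ℕ} {β : ℝ}
    (hβ : Pr (wp ρ) (fun ω : Om n => Bad G (Qo ω) (10 * (k * (1 + 5 * K5 K))) C₀) ≤ β) :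
    Ex (wp ρ) (fun ω : Om n => ((AA H g ω).card : ℝ)) ≤ 6 * C₀ * ρ * (DD G f).card +
      (Fintype.card (Sym2 (Fin n)) : ℝ) * (β + n ^ 2 * ((Up.choose k : ℝ) * ρ ^ (4 * k))) := by
  classical
  have hw := wp_nonneg h0 h1
  have hw1 := wp_sum ρ
  set L₁ := k * (1 + 5 * K5 K) with hL₁
  set B1 : Om n → Prop := fun ω => Bad G (Qo ω) (10 * L₁) C₀ with hB1
  set B2 : Fin n × Fin n → Om n → Prop := fun zw ω => ∃ S : Finset (Fin 5 → Fin n),
      (∀ C ∈ S, IsC5 H C ∧ C 0 = zw.1 ∧ C 1 = zw.2 ∧ Es C ⊆ Qo ω) ∧ L₁ < S.card with hB2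
  set N : ℝ := (Fintype.card (Sym2 (Fin n)) : ℝ) with hN
  have hpt : ∀ ω : Om n, ((AA H g ω).card : ℝ) ≤
      (3 * C₀ : ℝ) * (∑ zx ∈ DD G f, (if ω s(zx.1, f zx.1 zx.2) = true then (1 : ℝ) else 0) +
        ∑ e ∈ EGH G H, (if ω e = true then (1 : ℝ) else 0)) +
      N * (if (B1 ω ∨ ∃ zw ∈ (univ : Finset (Fin n × Fin n)), B2 zw ω) then (1 : ℝ) else 0) := by
    intro ω
    have hS1 : 0 ≤ ∑ zx ∈ DD G f, (if ω s(zx.1, f zx.1 zx.2) = true then (1 : ℝ) else 0) +
        ∑ e ∈ EGH G H, (if ω e = true then (1 : ℝ) else 0) := by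
      refine add_nonneg (sum_nonneg fun _ _ => ?_) (sum_nonneg fun _ _ => ?_) <;>
        split_ifs <;> norm_num
    by_cases hb : B1 ω ∨ ∃ zw ∈ (univ : Finset (Fin n × Fin n)), B2 zw ω
    · rw [if_pos hb, mul_one]
      have : ((AA H g ω).card : ℝ) ≤ N := by
        rw [hN]; exact_mod_cast card_le_univ _
      have h3 : 0 ≤ (3 * C₀ : ℝ) * (∑ zx ∈ DD G f,
          (if ω s(zx.1, f zx.1 zx.2) = true then (1 : ℝ) else 0) +
        ∑ e ∈ EGH G H, (if ω e = true then (1 : ℝ) else 0)) := mul_nonneg (by positivity) hS1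
      linarith
    · rw [if_neg hb, mul_zero, add_zero]
      push Not at hb
      have hL : ∀ z w, ∀ S : Finset (Fin 5 → Fin n),
          (∀ C ∈ S, IsC5 H C ∧ C 0 = z ∧ C 1 = w ∧ Es C ⊆ Qo ω) → S.card ≤ L₁ := by
        intro z w S hS
        by_contra hh
        push Not at hh
        exact hb.2 (z, w) (mem_univ _) ⟨S, hS, hh⟩
      have h4 := MCs_card m ω hL
      have h5 := AA_card m (L₀ := 10 * L₁) (C₀ := C₀) ω hb.1 h4
      have h6 : ((AA H g ω).card : ℝ) ≤ 3 * (C₀ * (I0 G H f (Qo ω)).card) := by exact_mod_cast h5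
      refine h6.trans ?_
      calc (3 : ℝ) * (C₀ * (I0 G H f (Qo ω)).card) = (3 * C₀ : ℝ) * (I0 G H f (Qo ω)).card := by ring
        _ ≤ _ := mul_le_mul_of_nonneg_left (I0_card ω) (by positivity)
  refine (Ex_mono hw hpt).trans ?_
  rw [Ex_add, Ex_smul, Ex_smul, Ex_add, Ex_sum, Ex_sum]
  have e1 : ∑ zx ∈ DD G f, Ex (wp ρ) (fun ω : Om n =>
      if ω s(zx.1, f zx.1 zx.2) = true then (1 : ℝ) else 0) = (DD G f).card * ρ := by
    rw [sum_congr rfl fun zx _ => Ex_true ρ s(zx.1, f zx.1 zx.2), sum_const, nsmul_eq_mul]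
  have e2 : ∑ e ∈ EGH G H, Ex (wp ρ) (fun ω : Om n => if ω e = true then (1 : ℝ) else 0) =
      (EGH G H).card * ρ := by
    rw [sum_congr rfl fun e _ => Ex_true ρ e, sum_const, nsmul_eq_mul]
  have e3 : Ex (wp ρ) (fun ω : Om n =>
      if (B1 ω ∨ ∃ zw ∈ (univ : Finset (Fin n × Fin n)), B2 zw ω) then (1 : ℝ) else 0) =
      Pr (wp ρ) (fun ω => B1 ω ∨ ∃ zw ∈ (univ : Finset (Fin n × Fin n)), B2 zw ω) := by
    unfold Pr
    congr 1
    funext ω
    by_cases h : (B1 ω ∨ ∃ zw ∈ (univ : Finset (Fin n × Fin n)), B2 zw ω)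
    · rw [if_pos h, if_pos h]
    · rw [if_neg h, if_neg h]
  rw [e1, e2, e3]
  have h7 : Pr (wp ρ) (fun ω => B1 ω ∨ ∃ zw ∈ (univ : Finset (Fin n × Fin n)), B2 zw ω) ≤
      β + n ^ 2 * ((Up.choose k : ℝ) * ρ ^ (4 * k)) := by
    refine (Pr_or_le hw _ _).trans (add_le_add hβ ?_)
    refine (Pr_exists_le hw _ _).trans ?_
    refine (sum_le_sum fun zw _ => dart_tail m hT hUp h0 h1 k zw.1 zw.2).trans ?_
    rw [sum_const, card_univ, Fintype.card_prod, Fintype.card_fin, nsmul_eq_mul]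
    push_cast
    rw [sq]
  have h8 : ((EGH G H).card : ℝ) ≤ (DD G f).card := by exact_mod_cast card_EGH m
  have h9 : N * Pr (wp ρ) (fun ω => B1 ω ∨ ∃ zw ∈ (univ : Finset (Fin n × Fin n)), B2 zw ω) ≤
      N * (β + n ^ 2 * ((Up.choose k : ℝ) * ρ ^ (4 * k))) :=
    mul_le_mul_of_nonneg_left h7 (by rw [hN]; positivity)
  have h10 : (3 * C₀ : ℝ) * (((DD G f).card : ℝ) * ρ + (EGH G H).card * ρ) ≤
      6 * C₀ * ρ * (DD G f).card := by
    have : ((EGH G H).card : ℝ) * ρ ≤ (DD G f).card * ρ := mul_le_mul_of_nonneg_right h8 h0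
    have h11 : (3 * C₀ : ℝ) * (((DD G f).card : ℝ) * ρ + (EGH G H).card * ρ) ≤
        (3 * C₀ : ℝ) * (((DD G f).card : ℝ) * ρ + (DD G f).card * ρ) :=
      mul_le_mul_of_nonneg_left (by linarith) (by positivity)
    refine h11.trans (le_of_eq ?_)
    ring
  linarith

end Pool.Agent.U140.SG
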