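import Pool.Agent.U140.SG.Mt

/-! The combinatorial case analysis, global version: every `H`-cycle with a moved root has a
violation. -/

set_option linter.unusedSectionVars false
set_option linter.unusedVariables false

namespace Pool.Agent.U140.SG

open Finset

variable {n : ℕ} {G H : SimpleGraph (Fin n)} {f g : Fin n → Fin n → Fin n}
  {SP : Sym2 (Fin n) → Sym2 (Fin n) → Prop}

lemma mem_Vs5 {c : Fin 5 → Fin n} {w : Fin n} :
    w ∈ Vs c ↔ (w = c 0 ∨ w = c 1 ∨ w = c 2 ∨ w = c 3 ∨ w = c 4) := by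
  rw [mem_Vs]
  constructor
  · rintro ⟨i, rfl⟩
    fin_cases i <;> simp
  · rintro (h | h | h | h | h) <;> exact ⟨_, h.symm⟩

lemma mem_Es5 {c : Fin 5 → Fin n} {e : Sym2 (Fin n)} :
    e ∈ Es c ↔ (e = s(c 0, c 1) ∨ e = s(c 1, c 2) ∨ e = s(c 2, c 3) ∨ e = s(c 3, c 4) ∨
      e = s(c 4, c 0)) := by
  rw [mem_Es]
  constructor
  · rintro ⟨i, rfl⟩
    fin_cases i <;> simp
  · rintro (h | h | h | h | h)
    · exact ⟨0, h.symm⟩
    · exact ⟨1, h.symm⟩
    · exact ⟨2, h.symm⟩
    · exact ⟨3, h.symm⟩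
    · exact ⟨4, h.symm⟩

lemma mem_In {c : Fin 5 → Fin n} {e : Sym2 (Fin n)} :
    e ∈ In c ↔ (e = s(c 1, c 2) ∨ e = s(c 2, c 3) ∨ e = s(c 3, c 4)) := by
  unfold In pe; simp

lemma loc_of_NV (m : Mt G H f g) {C : Fin 5 → Fin n} (hC : IsC5 H C) (hM : Mk g C)
    (h : NV G f g SP C) :
    Loc SP (WW g C) (C 0) (C 1) (C 2) (C 3) (C 4)
      (g (C 0) (C 1)) (g (C 0) (C 2)) (g (C 0) (C 3)) (g (C 0) (C 4)) := by
  have h0 : ¬ Viol G f g SP C := by have := h 0 false; rwa [act_zero] at this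
  have hr : ¬ Viol G f g SP (act 0 true C) := h 0 true
  unfold Viol at h0 hr
  push Not at h0 hr
  obtain ⟨n1, n3, n4, n5, n8, nk⟩ := h0
  obtain ⟨m1, -, -, -, -, -⟩ := hr
  have hv := m.vw_cyc hC 0
  have v0 : vw g C 0 0 = C 0 := m.vw_root C 0
  have w0 : ∀ w, WW g C (C 0) w ↔ (w = C 0 ∨ w = g (C 0) (C 1) ∨ w = g (C 0) (C 2) ∨
      w = g (C 0) (C 3) ∨ w = g (C 0) (C 4)) := by
    intro w
    rw [← mem_Vs_vw, mem_Vs5, v0]
    rfl
  have wself : ∀ j, WW g C (C j) (C j) := fun j => ⟨j, m.g_self _⟩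
  have a1 : act 0 true C 1 = C 4 := rfl
  have a0 : act 0 true C 0 = C 0 := by unfold act; simp
  -- the Π relation
  have hPi : ∀ x', H.Adj (C 0) x' → g (C 0) x' ≠ x' → ∀ s,
      RR G f g SP (g (C 0) x') s x' s := by
    intro x' hx' hne s
    right; left
    refine ⟨rfl, hne, C 0, m.g_adj hx', m.fg_adj hx'⟩
  have hadj1 : H.Adj (C 0) (C 1) := hC.adj 0
  have hadj4 : H.Adj (C 0) (C 4) := (hC.adj 4).symm
  have r1 : g (C 0) (C 1) ≠ C 1 → ¬ WW g C (C 0) (C 1) ∧ g (C 0) (C 1) ≠ C 0 ∧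
      g (C 0) (C 1) ≠ C 1 ∧ g (C 0) (C 1) ≠ C 2 ∧ g (C 0) (C 1) ≠ C 3 ∧ g (C 0) (C 1) ≠ C 4 := by
    intro hne
    have h1 : ¬ (C 1 ∈ Vs (vw g C 0) ∨ vw g C 0 1 ∈ Vs C) := fun hh => n1 ⟨hne, hh⟩
    push Not at h1
    obtain ⟨h1, h2⟩ := h1
    rw [mem_Vs_vw] at h1
    rw [mem_Vs5] at h2
    push Not at h2
    exact ⟨h1, h2⟩
  have r1' : g (C 0) (C 4) ≠ C 4 → ¬ WW g C (C 0) (C 4) ∧ g (C 0) (C 4) ≠ C 0 ∧
      g (C 0) (C 4) ≠ C 1 ∧ g (C 0) (C 4) ≠ C 2 ∧ g (C 0) (C 4) ≠ C 3 ∧ g (C 0) (C 4) ≠ C 4 := by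
    intro hne
    have e1 : vw g (act 0 true C) 0 1 = g (C 0) (C 4) := by
      unfold vw; rw [a0, a1]
    have h1 : ¬ (act 0 true C 1 ∈ Vs (vw g (act 0 true C) 0) ∨
        vw g (act 0 true C) 0 1 ∈ Vs (act 0 true C)) := fun hh => m1 ⟨by rw [e1, a1]; exact hne, hh⟩
    push Not at h1
    obtain ⟨h1, h2⟩ := h1
    rw [mem_Vs_vw, WW_act, a0, a1] at h1
    rw [Vs_act, e1, mem_Vs5] at h2
    push Not at h2
    exact ⟨h1, h2⟩
  have kx : ∀ _ : g (C 0) (C 1) ≠ C 1, ∀ _ : RR G f g SP (vw g C 0 1) (vw g C 0 2) (C 1) (C 2),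
      False := by
    intro hne hs
    have := ViolK_iff nk 1 1 1 (Or.inl rfl) hs ?_ (C 1)
    · exact (r1 hne).1 (this.1 (wself 1))
    · have e : vw g C 0 (1 - 1) = C 0 := by simpa using v0
      have e' : C (1 - 1) = C 0 := by simp
      rw [e, e']
      exact hPi (C 1) hadj1 hne (C 0)
  have ky : ∀ _ : g (C 0) (C 4) ≠ C 4, ∀ _ : RR G f g SP (vw g C 0 4) (vw g C 0 3) (C 4) (C 3),
      False := by
    intro hne hs
    have := ViolK_iff nk 4 4 1 (Or.inl rfl) ?_ hs (C 4)
    · exact (r1' hne).1 (this.1 (wself 4))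
    · have e : vw g C 0 (4 + 1) = C 0 := by
        have : (4 : Fin 5) + 1 = 0 := by decide
        rw [this]; exact v0
      rw [e]
      have e' : C (4 + 1) = C 0 := by
        have : (4 : Fin 5) + 1 = 0 := by decide
        rw [this]
      rw [e']
      exact hPi (C 4) hadj4 hne (C 0)
  exact {
    d1 := hC.inj.ne (by decide)
    d2 := hC.inj.ne (by decide)
    d3 := hC.inj.ne (by decide)
    d4 := hC.inj.ne (by decide)
    d5 := hC.inj.ne (by decide)
    d6 := hC.inj.ne (by decide)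
    d7 := hC.inj.ne (by decide)
    d8 := hC.inj.ne (by decide)
    d9 := hC.inj.ne (by decide)
    d10 := hC.inj.ne (by decide)
    e1 := fun hh => (hv.inj.ne (by decide : (0 : Fin 5) ≠ 1)) (v0.trans hh)
    e2 := fun hh => (hv.inj.ne (by decide : (0 : Fin 5) ≠ 2)) (v0.trans hh)
    e3 := fun hh => (hv.inj.ne (by decide : (0 : Fin 5) ≠ 3)) (v0.trans hh)
    e4 := fun hh => (hv.inj.ne (by decide : (0 : Fin 5) ≠ 4)) (v0.trans hh)
    e5 := hv.inj.ne (by decide : (1 : Fin 5) ≠ 2)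
    e6 := hv.inj.ne (by decide : (1 : Fin 5) ≠ 3)
    e7 := hv.inj.ne (by decide : (1 : Fin 5) ≠ 4)
    e8 := hv.inj.ne (by decide : (2 : Fin 5) ≠ 3)
    e9 := hv.inj.ne (by decide : (2 : Fin 5) ≠ 4)
    e10 := hv.inj.ne (by decide : (3 : Fin 5) ≠ 4)
    w0 := w0
    r1 := r1
    r1' := r1'
    r3 := by
      intro e he hne
      have heIn : e ∈ In (vw g C 0) := by rw [mem_In]; exact he
      have heE : e ∉ Es C := by rw [mem_Es5]; exact hne
      have : ∃ h ∈ Es C, SP e h := by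
        by_contra hcon
        push Not at hcon
        exact n3 ⟨hM, e, heIn, heE, hcon⟩
      obtain ⟨h, hh, hs⟩ := this
      have hn : ¬ (C 0 ∈ h ∨ (∃ w ∈ Vs (vw g C 0), w ∈ h ∧ w ∉ e) ∨
          (∃ w ∈ Vs C, w ∈ e ∧ w ∉ h)) := fun hh' => n4 ⟨e, heIn, heE, h, hh, hs, hh'⟩
      push Not at hn
      obtain ⟨k1, k2, k3⟩ := hn
      refine ⟨h, ?_, hs, ?_, ?_⟩
      · rw [mem_Es5] at hh
        rcases hh with rfl | rfl | rfl | rfl | rfl
        · exact absurd (Sym2.mem_mk_left _ _) k1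
        · exact Or.inl rfl
        · exact Or.inr (Or.inl rfl)
        · exact Or.inr (Or.inr rfl)
        · exact absurd (Sym2.mem_mk_right _ _) k1
      · intro w hw hwh
        exact k2 w (mem_Vs_vw.2 hw) hwh
      · intro w hw hwe
        exact k3 w (mem_Vs5.2 hw) hwe
    r5 := by
      intro e₁ e₂ h he₁ he₂ hne hn1 hn2 hh hs1 hs2
      refine n5 ⟨e₁, mem_In.2 he₁, e₂, mem_In.2 he₂, hne, h, ?_, hs1, hs2⟩
      rw [mem_Es5]
      rcases hh with h | h | h
      · exact Or.inr (Or.inl h)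
      · exact Or.inr (Or.inr (Or.inl h))
      · exact Or.inr (Or.inr (Or.inr (Or.inl h)))
    kx := fun hne hs => kx hne (Or.inl hs)
    ky := fun hne hs => ky hne (Or.inl (by
      rw [Sym2.eq_swap (a := vw g C 0 4), Sym2.eq_swap (a := C 4)]; exact hs))
    k2 := by
      intro hne heq
      refine kx hne ?_
      have e : vw g C 0 2 = C 2 := heq
      rw [e]
      exact hPi (C 1) hadj1 hne (C 2)
    k2' := by
      intro hne heq
      refine ky hne ?_
      have e : vw g C 0 3 = C 3 := heq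
      rw [e]
      exact hPi (C 4) hadj4 hne (C 3)
    ka1 := fun hs1 hs2 => ViolK_iff nk 2 2 1 (Or.inl rfl) (Or.inl hs2) (Or.inl (by
      rw [Sym2.eq_swap (a := vw g C 0 2), Sym2.eq_swap (a := C 2)]; exact hs1))
    ka1' := fun hs1 hs2 => ViolK_iff nk 2 2 (-1) (Or.inr rfl) (Or.inl (by
      rw [Sym2.eq_swap (a := C 2)]; exact hs2)) (Or.inl (by
      rw [Sym2.eq_swap (a := vw g C 0 2)]; exact hs1))
    ka2 := fun hs1 hs2 => ViolK_iff nk 2 3 1 (Or.inl rfl) (Or.inl hs2) (Or.inl (by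
      rw [Sym2.eq_swap (a := vw g C 0 2), Sym2.eq_swap (a := C 3)]; exact hs1))
    ka2' := fun hs1 hs2 => ViolK_iff nk 2 3 (-1) (Or.inr rfl) (Or.inl (by
      rw [Sym2.eq_swap (a := C 3)]; exact hs2)) (Or.inl (by
      rw [Sym2.eq_swap (a := vw g C 0 2)]; exact hs1))
    kb1 := fun hs1 hs2 => ViolK_iff nk 3 2 (-1) (Or.inr rfl) (Or.inl (by
      rw [Sym2.eq_swap (a := C 2)]; exact hs1)) (Or.inl (by
      rw [Sym2.eq_swap (a := vw g C 0 3)]; exact hs2))
    kb1' := fun hs1 hs2 => ViolK_iff nk 3 2 1 (Or.inl rfl) (Or.inl hs1) (Or.inl (by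
      rw [Sym2.eq_swap (a := vw g C 0 3), Sym2.eq_swap (a := C 2)]; exact hs2))
    kb2 := fun hs1 hs2 => ViolK_iff nk 3 3 (-1) (Or.inr rfl) (Or.inl (by
      rw [Sym2.eq_swap (a := C 3)]; exact hs1)) (Or.inl (by
      rw [Sym2.eq_swap (a := vw g C 0 3)]; exact hs2))
    kb2' := fun hs1 hs2 => ViolK_iff nk 3 3 1 (Or.inl rfl) (Or.inl hs1) (Or.inl (by
      rw [Sym2.eq_swap (a := vw g C 0 3), Sym2.eq_swap (a := C 3)]; exact hs2))
    wa := wself 2
    wb := wself 3 }


lemma parity : ∀ s : Fin 5 → Bool, ¬ ∀ j, s (j + (if s j then 3 else 2)) = !(s j) := by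
  decide

lemma loc_rot (m : Mt G H f g) {C : Fin 5 → Fin n} (hC : IsC5 H C) (hM : Mk g C)
    (h : NV G f g SP C) (j : Fin 5) :
    Loc SP (WW g C) (C j) (C (j + 1)) (C (j + 2)) (C (j + 3)) (C (j + 4))
      (g (C j) (C (j + 1))) (g (C j) (C (j + 2))) (g (C j) (C (j + 3))) (g (C j) (C (j + 4))) := by
  have h1 := loc_of_NV m (hC.act j false) (hM.act j false) (h.act j false)
  rw [WW_act] at h1
  have e : ∀ i, act j false C i = C (j + i) := fun i => by unfold act; simp
  simp only [e, add_zero] at h1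
  exact h1

lemma loc_rot' (m : Mt G H f g) {C : Fin 5 → Fin n} (hC : IsC5 H C) (hM : Mk g C)
    (h : NV G f g SP C) (j : Fin 5) :
    Loc SP (WW g C) (C j) (C (j + 4)) (C (j + 3)) (C (j + 2)) (C (j + 1))
      (g (C j) (C (j + 4))) (g (C j) (C (j + 3))) (g (C j) (C (j + 2))) (g (C j) (C (j + 1))) := by
  have h1 := loc_of_NV m (hC.act j true) (hM.act j true) (h.act j true)
  rw [WW_act] at h1
  have e : ∀ i, act j true C i = C (j + -i) := fun i => by unfold act; simp
  have e1 : (-1 : Fin 5) = 4 := by decide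
  have e2 : (-2 : Fin 5) = 3 := by decide
  have e3 : (-3 : Fin 5) = 2 := by decide
  have e4 : (-4 : Fin 5) = 1 := by decide
  simp only [e, e1, e2, e3, e4, neg_zero, add_zero] at h1
  exact h1

theorem exists_viol (m : Mt G H f g) {C : Fin 5 → Fin n} (hC : IsC5 H C)
    (hx : g (C 0) (C 1) ≠ C 1) : ¬ NV G f g SP C := by
  intro h
  have hM : Mk g C := ⟨0, Or.inl hx⟩
  have L := loc_rot m hC hM h
  have L' := loc_rot' m hC hM h
  have hpm : ∀ j, g (C j) (C (j + 1)) ≠ C (j + 1) → g (C j) (C (j + 4)) ≠ C (j + 4) :=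
    fun j hj => ((L j).xy_disj hj).1
  have hmp : ∀ j, g (C j) (C (j + 4)) ≠ C (j + 4) → g (C j) (C (j + 1)) ≠ C (j + 1) :=
    fun j hj => ((L' j).xy_disj hj).1
  have h0 : ¬ Viol G f g SP C := by have := h 0 false; rwa [act_zero] at this
  have hr : ¬ Viol G f g SP (act 0 true C) := h 0 true
  -- step 2
  have step2 : ¬ IsC5 G C := by
    intro hG
    have hx' : g (C 0) (C (0 + 1)) ≠ C (0 + 1) := by simpa using hx
    obtain ⟨hy, hcase⟩ := (L 0).xy_disj hx'
    simp only [zero_add] at hy hcase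
    have v0 : vw g C 0 0 = C 0 := m.vw_root C 0
    have hR : g (C 0) (C 2) = C 3 → False := by
      intro ha
      apply h0
      unfold Viol
      refine Or.inr (Or.inr (Or.inr (Or.inr (Or.inl ⟨hx, C 4, ?_, ?_, ?_⟩))))
      · have := (L 0).r1 (by simpa using hx)
        simp only [zero_add] at this
        exact this.2.2.2.2.2.symm
      · rw [v0]; exact hG.adj 4
      · have : vw g C 0 2 = C 3 := ha
        rw [this]
        exact (hG.adj 3).symm
    have hQ : g (C 0) (C 3) = C 2 → False := by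
      intro hb
      apply hr
      unfold Viol
      have a0 : act 0 true C 0 = C 0 := rfl
      have a1 : act 0 true C 1 = C 4 := rfl
      have a2 : act 0 true C 2 = C 3 := rfl
      have e1 : vw g (act 0 true C) 0 1 = g (C 0) (C 4) := rfl
      have e2 : vw g (act 0 true C) 0 2 = g (C 0) (C 3) := rfl
      have e0 : vw g (act 0 true C) 0 0 = C 0 := m.g_self _
      refine Or.inr (Or.inr (Or.inr (Or.inr (Or.inl ⟨?_, C 1, ?_, ?_, ?_⟩))))
      · rw [e1, a1]; exact hy
      · rw [e1]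
        have := (L 0).r1' (by simpa using hy)
        simp only [zero_add] at this
        exact this.2.2.1.symm
      · rw [e0]; exact (hG.adj 0).symm
      · rw [e2, hb]; exact hG.adj 1
    rcases hcase with ⟨ha, -, -⟩ | ⟨ha, -, -⟩ | ⟨hb, -, -⟩
    · exact hR ha
    · exact hR ha
    · exact hQ hb
  -- step 1
  have step1 : ∀ j, g (C j) (C (j + 1)) ≠ C (j + 1) := by
    intro j hj1
    have hj4 : g (C j) (C (j + 4)) = C (j + 4) := by
      by_contra hne
      exact hmp j hne hj1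
    obtain ⟨h2, h3⟩ := (L j).good hj1 hj4
    apply step2
    have hcv := m.vw_cyc hC j
    have : vw g C j = C := by
      funext i
      have key : ∀ k, vw g C j (j + k) = C (j + k) := by
        intro k
        fin_cases k
        · simpa using m.vw_root C j
        · exact hj1
        · exact h2
        · exact h3
        · exact hj4
      have := key (i - j)
      rwa [add_sub_cancel] at this
    rwa [this] at hcv
  have step1' : ∀ j, g (C j) (C (j + 4)) ≠ C (j + 4) := fun j => hpm j (step1 j)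
  -- step 4
  have step4 : ∀ j, ∃ b : Bool, (∀ w, WW g C (C (j + (if b then 3 else 2))) w ↔ WW g C (C j) w) ∧
      ∀ i, WW g C (C j) (C i) → i = j ∨ i = j + (if b then 3 else 2) := by
    intro j
    have hVs : ∀ i, (C i = C j ∨ C i = C (j + 1) ∨ C i = C (j + 2) ∨ C i = C (j + 3) ∨
        C i = C (j + 4)) := by
      intro i
      have : i = j ∨ i = j + 1 ∨ i = j + 2 ∨ i = j + 3 ∨ i = j + 4 := by
        revert i j; decide
      rcases this with h | h | h | h | h <;> rw [← h] <;> tauto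
    obtain ⟨-, hcase⟩ := (L j).xy_disj (step1 j)
    rcases hcase with ⟨ha, hb, hs⟩ | ⟨ha, hW, hI⟩ | ⟨hb, hW, hI⟩
    · exfalso
      have hj : ¬ Viol G f g SP (act j false C) := h j false
      have hk : ¬ VK G f g SP (act j false C) := fun hh => hj (by
        unfold Viol; exact Or.inr (Or.inr (Or.inr (Or.inr (Or.inr hh)))))
      have e : ∀ i, act j false C i = C (j + i) := fun i => by unfold act; simp
      have ev : ∀ i, vw g (act j false C) 0 i = g (C j) (C (j + i)) := by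
        intro i; unfold vw; rw [e, e, add_zero]
      have key := ViolK_iff hk 2 3 (-1) (Or.inr rfl) (by
        right; right
        have i1 : (2 : Fin 5) + 1 = 3 := by decide
        have i2 : (3 : Fin 5) + -1 = 2 := by decide
        rw [i1, i2, ev, ev, e, e]
        refine ⟨ha, hb, ?_⟩
        rw [ha, hb]
        have := step1' (j + 3)
        have i3 : j + 3 + 4 = j + 2 := by rw [add_assoc]; rfl
        rwa [i3] at this) (by
        left
        have i1 : (2 : Fin 5) - 1 = 1 := by decide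
        have i2 : (3 : Fin 5) - -1 = 4 := by decide
        rw [i1, i2, ev, ev, e, e, Sym2.eq_swap (a := g (C j) (C (j + 2)))]
        exact hs) (C (j + 2))
      rw [WW_act, e, e, add_zero] at key
      have h1 : WW g C (C j) (C (j + 2)) := by rw [← hb]; exact ⟨j + 3, rfl⟩
      have h2 := key.2 h1
      have h3 := ((L (j + 3)).r1' (step1' (j + 3))).1
      have i3 : j + 3 + 4 = j + 2 := by rw [add_assoc]; rfl
      rw [i3] at h3
      exact h3 h2
    · refine ⟨true, by simpa using hW, fun i hi => ?_⟩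
      rcases hI _ (hVs i) hi with h | h
      · exact Or.inl (hC.inj h)
      · exact Or.inr (by simpa using hC.inj h)
    · refine ⟨false, by simpa using hW, fun i hi => ?_⟩
      rcases hI _ (hVs i) hi with h | h
      · exact Or.inl (hC.inj h)
      · exact Or.inr (by simpa using hC.inj h)
  choose s hs using step4
  refine parity s fun j => ?_
  obtain ⟨hW, hI⟩ := hs j
  set t : Fin 5 := if s j then 3 else 2 with ht
  obtain ⟨hW', hI'⟩ := hs (j + t)
  have hself : WW g C (C j) (C j) := ⟨j, m.g_self _⟩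
  have h1 := hI' j ((hW (C j)).2 hself)
  have ht0 : t ≠ 0 := by
    rw [ht]; split_ifs <;> decide
  rcases h1 with h1 | h1
  · exfalso
    apply ht0
    have := congrArg (fun k => k - j) h1
    simpa using this.symm
  · have h2 : t + (if s (j + t) then (3 : Fin 5) else 2) = 0 := by
      have := congrArg (fun k => k - j) h1
      simp only [sub_self] at this
      rw [this]; abel
    cases h3 : s (j + t) <;> cases h4 : s j <;> simp only [h3, h4] at ht h2 ⊢
    · rw [ht] at h2; exact absurd h2 (by decide)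
    · rfl
    · rfl
    · rw [ht] at h2; exact absurd h2 (by decide)

end Pool.Agent.U140.SG
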