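import Pool.Agent.U140.SG.VKc
import Pool.Agent.U140.SG.Greedy

/-! The pair property holds typically. -/

set_option linter.unusedSectionVars false
set_option linter.unusedVariables false

namespace Pool.Agent.U140.SG

open Finset Pool.Agent.Q299.PW

variable {n : ℕ} {G : SimpleGraph (Fin n)} {K m : ℕ}

lemma cyc_ext {c c' : Fin 5 → Fin n} (h0 : c 0 = c' 0) (h1 : c 1 = c' 1) (h2 : c 2 = c' 2)
    (h3 : c 3 = c' 3) (h4 : c 4 = c' 4) : c = c' := by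
  funext i
  fin_cases i
  · exact h0
  · exact h1
  · exact h2
  · exact h3
  · exact h4

lemma card_134 (hT : T3 G K) (u s s' : Fin n) (S : Finset (Fin 5 → Fin n))
    (hS : ∀ c ∈ S, IsC5 G c ∧ c 0 = u ∧ c 1 = s ∧ c 4 = s') : S.card ≤ K := by
  refine le_trans ?_ (hT s s')
  refine card_le_card_of_injOn (fun c => (c 2, c 3)) ?_ ?_
  · intro c hc
    obtain ⟨h1, h2, h3, h4⟩ := hS c hc
    rw [mem_coe, mem_paths3, ← h3, ← h4]
    exact ⟨h1.adj 1, h1.adj 2, h1.adj 3, h1.inj.ne (by decide), h1.inj.ne (by decide),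
      h1.inj.ne (by decide)⟩
  · intro c hc c' hc' hh
    obtain ⟨h1, h2, h3, h4⟩ := hS c hc
    obtain ⟨h1', h2', h3', h4'⟩ := hS c' hc'
    obtain ⟨e1, e2⟩ := Prod.ext_iff.1 hh
    exact cyc_ext (h2.trans h2'.symm) (h3.trans h3'.symm) e1 e2 (h4.trans h4'.symm)

lemma card_mid (hT : T3 G K) (u : Fin n) (e : Sym2 (Fin n)) (S : Finset (Fin 5 → Fin n))
    (hS : ∀ c ∈ S, IsC5 G c ∧ c 0 = u ∧ s(c 2, c 3) = e) : S.card ≤ 2 * ((K + 1) * (K + 1)) := by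
  classical
  induction e using Sym2.ind with
  | _ a b =>
  have key : ∀ a b : Fin n, (S.filter fun c => c 2 = a ∧ c 3 = b).card ≤ (K + 1) * (K + 1) := by
    intro a b
    rcases (S.filter fun c => c 2 = a ∧ c 3 = b).eq_empty_or_nonempty with h0 | ⟨c₀, hc₀⟩
    · rw [h0]; simp
    obtain ⟨h1, h2, h3⟩ := mem_filter.1 hc₀
    obtain ⟨k1, k2, k3⟩ := hS c₀ h1
    have hua : u ≠ a := by rw [← k2, ← h2]; exact k1.inj.ne (by decide)
    have hub : u ≠ b := by rw [← k2, ← h3]; exact k1.inj.ne (by decide)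
    refine le_trans ?_ (Nat.mul_le_mul (cn_card hT hua) (cn_card hT hub))
    rw [← card_product]
    refine card_le_card_of_injOn (fun c => (c 1, c 4)) ?_ ?_
    · intro c hc
      obtain ⟨h1, h2, h3⟩ := mem_filter.1 hc
      obtain ⟨k1, k2, k3⟩ := hS c h1
      rw [mem_coe, mem_product, mem_cn, mem_cn, ← k2, ← h2, ← h3]
      exact ⟨⟨(k1.adj 0).symm, k1.adj 1⟩, k1.adj 4, (k1.adj 3).symm⟩
    · intro c hc c' hc' hh
      obtain ⟨h1, h2, h3⟩ := mem_filter.1 hc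
      obtain ⟨k1, k2, k3⟩ := hS c h1
      obtain ⟨h1', h2', h3'⟩ := mem_filter.1 hc'
      obtain ⟨k1', k2', k3'⟩ := hS c' h1'
      obtain ⟨e1, e2⟩ := Prod.ext_iff.1 hh
      exact cyc_ext (k2.trans k2'.symm) e1 (h2.trans h2'.symm) (h3.trans h3'.symm) e2
  have hsub : S ⊆ (S.filter fun c => c 2 = a ∧ c 3 = b) ∪ (S.filter fun c => c 2 = b ∧ c 3 = a) := by
    intro c hc
    obtain ⟨k1, k2, k3⟩ := hS c hc
    rw [Sym2.eq_iff] at k3
    rw [mem_union, mem_filter, mem_filter]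
    tauto
  have h1 := card_le_card hsub
  have h2 := card_union_le (S.filter fun c => c 2 = a ∧ c 3 = b)
    (S.filter fun c => c 2 = b ∧ c 3 = a)
  have h3 := key a b
  have h4 := key b a
  omega

/-- the family of pairs of cycles at `(u, v)` related by `M` -/
structure Fam (G : SimpleGraph (Fin n)) (m : ℕ) (u v : Fin n) (M : Finset (Fin n × Fin n))
    (S : Finset ((Fin 5 → Fin n) × (Fin 5 → Fin n))) : Prop where
  deg1 : ∀ s, ∀ T : Finset (Fin n), (∀ t ∈ T, (s, t) ∈ M) → T.card ≤ m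
  deg2 : ∀ t, ∀ T : Finset (Fin n), (∀ s ∈ T, (s, t) ∈ M) → T.card ≤ m
  mem : ∀ cc ∈ S, IsC5 G cc.1 ∧ IsC5 G cc.2 ∧ cc.1 0 = u ∧ cc.2 0 = v ∧
        (cc.1 1, cc.2 1) ∈ M ∧ (cc.1 4, cc.2 4) ∈ M ∧ Vs cc.1 ≠ Vs cc.2

lemma Fam.sub {u v : Fin n} {M : Finset (Fin n × Fin n)}
    {S S' : Finset ((Fin 5 → Fin n) × (Fin 5 → Fin n))} (h : Fam G m u v M S) (hs : S' ⊆ S) :
    Fam G m u v M S' := ⟨h.deg1, h.deg2, fun cc hcc => h.mem cc (hs hcc)⟩

open Classical in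
lemma Fam.swap {u v : Fin n} {M : Finset (Fin n × Fin n)}
    {S : Finset ((Fin 5 → Fin n) × (Fin 5 → Fin n))} (h : Fam G m u v M S) :
    Fam G m v u (M.image Prod.swap) (S.image Prod.swap) := by
  have hM : ∀ a b, (a, b) ∈ M.image Prod.swap ↔ (b, a) ∈ M := by
    intro a b
    rw [mem_image]
    constructor
    · rintro ⟨⟨c, d⟩, hcd, he⟩
      obtain ⟨e1, e2⟩ := Prod.ext_iff.1 he
      simp only [Prod.swap] at e1 e2
      rw [← e1, ← e2]; exact hcd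
    · intro hh; exact ⟨(b, a), hh, rfl⟩
  refine ⟨?_, ?_, ?_⟩
  · intro s T hT
    exact h.deg2 s T fun t ht => (hM _ _).1 (hT t ht)
  · intro s T hT
    exact h.deg1 s T fun t ht => (hM _ _).1 (hT t ht)
  · intro cc hcc
    obtain ⟨⟨c, c'⟩, hc, rfl⟩ := mem_image.1 hcc
    obtain ⟨k1, k2, k3, k4, k5, k6, k7⟩ := h.mem _ hc
    exact ⟨k2, k1, k4, k3, (hM _ _).2 k5, (hM _ _).2 k6, k7.symm⟩

open Classical in
lemma Fam.rev {u v : Fin n} {M : Finset (Fin n × Fin n)}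
    {S : Finset ((Fin 5 → Fin n) × (Fin 5 → Fin n))} (h : Fam G m u v M S) :
    Fam G m u v M (S.image fun cc => (act 0 true cc.1, act 0 true cc.2)) := by
  refine ⟨h.deg1, h.deg2, ?_⟩
  intro cc hcc
  obtain ⟨⟨c, c'⟩, hc, rfl⟩ := mem_image.1 hcc
  obtain ⟨k1, k2, k3, k4, k5, k6, k7⟩ := h.mem _ hc
  refine ⟨k1.act 0 true, k2.act 0 true, ?_, ?_, ?_, ?_, ?_⟩
  · simpa [act] using k3
  · simpa [act] using k4
  · have e1 : act 0 true c 1 = c 4 := by unfold act; rfl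
    have e2 : act 0 true c' 1 = c' 4 := by unfold act; rfl
    simp only
    rw [e1, e2]; exact k6
  · have e1 : act 0 true c 4 = c 1 := by unfold act; rfl
    have e2 : act 0 true c' 4 = c' 1 := by unfold act; rfl
    simp only
    rw [e1, e2]; exact k5
  · simp only
    rw [Vs_act, Vs_act]; exact k7

open Classical in
lemma card_rev (S : Finset ((Fin 5 → Fin n) × (Fin 5 → Fin n))) :
    (S.image fun cc => (act 0 true cc.1, act 0 true cc.2)).card = S.card := by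
  refine card_image_of_injective _ ?_
  rintro ⟨a, b⟩ ⟨a', b'⟩ hh
  obtain ⟨e1, e2⟩ := Prod.ext_iff.1 hh
  exact Prod.ext (act_injective 0 true e1) (act_injective 0 true e2)

variable {u v : Fin n} {M : Finset (Fin n × Fin n)}
  {S : Finset ((Fin 5 → Fin n) × (Fin 5 → Fin n))}

lemma Fam.fix1 (hT : T3 G K) (h : Fam G m u v M S) (C₁ : Fin 5 → Fin n)
    (hC : ∀ cc ∈ S, cc.1 = C₁) : S.card ≤ m * (m * K) := by
  classical
  have h1 := card_le_fib S (univ.filter fun t => (C₁ 1, t) ∈ M) (fun cc t => cc.2 1 = t) (m * K)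
    ?_ ?_
  · exact h1.trans (Nat.mul_le_mul_right _ (h.deg1 _ _ fun t ht => (mem_filter.1 ht).2))
  · intro cc hcc
    obtain ⟨k1, k2, k3, k4, k5, k6, k7⟩ := h.mem _ hcc
    rw [hC cc hcc] at k5
    exact ⟨_, mem_filter.2 ⟨mem_univ _, k5⟩, rfl⟩
  · intro t ht S' hS' hr
    have h2 := card_le_fib S' (univ.filter fun t => (C₁ 4, t) ∈ M) (fun cc t => cc.2 4 = t) K
      ?_ ?_
    · exact h2.trans (Nat.mul_le_mul_right _ (h.deg1 _ _ fun t ht => (mem_filter.1 ht).2))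
    · intro cc hcc
      obtain ⟨k1, k2, k3, k4, k5, k6, k7⟩ := h.mem _ (hS' hcc)
      rw [hC cc (hS' hcc)] at k6
      exact ⟨_, mem_filter.2 ⟨mem_univ _, k6⟩, rfl⟩
    · intro t' ht' S'' hS'' hr''
      have hinj : Set.InjOn (fun cc : (Fin 5 → Fin n) × (Fin 5 → Fin n) => cc.2)
          (S'' : Set ((Fin 5 → Fin n) × (Fin 5 → Fin n))) := by
        intro cc hcc cc' hcc' hh
        refine Prod.ext ?_ hh
        rw [hC cc (hS' (hS'' hcc)), hC cc' (hS' (hS'' hcc'))]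
      rw [← card_image_of_injOn hinj]
      refine card_134 hT v t t' _ ?_
      intro c hc
      obtain ⟨cc, hcc, rfl⟩ := mem_image.1 hc
      obtain ⟨k1, k2, k3, k4, k5, k6, k7⟩ := h.mem _ (hS' (hS'' hcc))
      exact ⟨k2, k4, hr cc (hS'' hcc), hr'' cc hcc⟩

lemma Fam.fix2 (hT : T3 G K) (h : Fam G m u v M S) (C₂ : Fin 5 → Fin n)
    (hC : ∀ cc ∈ S, cc.2 = C₂) : S.card ≤ m * (m * K) := by
  classical
  rw [← card_image_of_injective S Prod.swap_injective]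
  refine h.swap.fix1 hT C₂ ?_
  intro cc hcc
  obtain ⟨c, hc, rfl⟩ := mem_image.1 hcc
  exact hC c hc

lemma Fam.mid1 (hT : T3 G K) (h : Fam G m u v M S) (T : Finset (Sym2 (Fin n)))
    (hC : ∀ cc ∈ S, s(cc.1 2, cc.1 3) ∈ T) :
    S.card ≤ T.card * (2 * ((K + 1) * (K + 1)) * (m * (m * K))) := by
  classical
  refine card_le_fib S T (fun cc e => s(cc.1 2, cc.1 3) = e) _ (fun cc hcc => ⟨_, hC cc hcc, rfl⟩) ?_
  intro e he S' hS' hr
  have h1 := card_le_fib S' (S'.image Prod.fst) (fun cc C => cc.1 = C) (m * (m * K)) ?_ ?_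
  · refine h1.trans (Nat.mul_le_mul_right _ ?_)
    refine card_mid hT u e _ ?_
    intro c hc
    obtain ⟨cc, hcc, rfl⟩ := mem_image.1 hc
    obtain ⟨k1, k2, k3, k4, k5, k6, k7⟩ := h.mem _ (hS' hcc)
    exact ⟨k1, k3, hr cc hcc⟩
  · intro cc hcc
    exact ⟨_, mem_image_of_mem _ hcc, rfl⟩
  · intro C hC S'' hS'' hr''
    exact (h.sub (hS''.trans hS')).fix1 hT C hr''

lemma Fam.mid2 (hT : T3 G K) (h : Fam G m u v M S) (T : Finset (Sym2 (Fin n)))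
    (hC : ∀ cc ∈ S, s(cc.2 2, cc.2 3) ∈ T) :
    S.card ≤ T.card * (2 * ((K + 1) * (K + 1)) * (m * (m * K))) := by
  classical
  rw [← card_image_of_injective S Prod.swap_injective]
  refine h.swap.mid1 hT T ?_
  intro cc hcc
  obtain ⟨c, hc, rfl⟩ := mem_image.1 hcc
  exact hC c hc

/-- a neighbour of the first root inside the second cycle -/
lemma Fam.end1 (hT : T3 G K) (h : Fam G m u v M S)
    (hC : ∀ cc ∈ S, cc.1 1 = cc.2 2 ∨ cc.1 1 = cc.2 3) :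
    S.card ≤ M.card * (K5 K * (m * K)) := by
  classical
  refine card_le_fib S M (fun cc q => (cc.1 1, cc.2 1) = q) _
    (fun cc hcc => ⟨_, (h.mem _ hcc).2.2.2.2.1, rfl⟩) ?_
  rintro ⟨s, t⟩ hq S' hS' hr
  rcases S'.eq_empty_or_nonempty with h0 | ⟨cc₀, hcc₀⟩
  · rw [h0]; simp
  have h1 := card_le_fib S' (S'.image Prod.snd) (fun cc C => cc.2 = C) (m * K) ?_ ?_
  · refine h1.trans (Nat.mul_le_mul_right _ ?_)
    obtain ⟨k1, k2, k3, k4, k5, k6, k7⟩ := h.mem _ (hS' hcc₀)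
    obtain ⟨e1, e2⟩ := Prod.ext_iff.1 (hr cc₀ hcc₀)
    simp only at e1 e2
    have hd := hC _ (hS' hcc₀)
    refine card_root' hT (u := v) (v := t) (w := s) ?_ ?_ _ ?_
    · rw [← k4, ← e1]
      rcases hd with hd | hd
      · rw [hd]; exact k2.inj.ne (by decide)
      · rw [hd]; exact k2.inj.ne (by decide)
    · rw [← e2, ← e1]
      rcases hd with hd | hd
      · rw [hd]; exact k2.inj.ne (by decide)
      · rw [hd]; exact k2.inj.ne (by decide)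
    · intro c hc
      obtain ⟨cc, hcc, rfl⟩ := mem_image.1 hc
      obtain ⟨k1, k2, k3, k4, k5, k6, k7⟩ := h.mem _ (hS' hcc)
      obtain ⟨e1, e2⟩ := Prod.ext_iff.1 (hr cc hcc)
      simp only at e1 e2
      refine ⟨k2, k4, e2, ?_⟩
      rw [mem_Vs, ← e1]
      rcases hC _ (hS' hcc) with hd | hd
      · exact ⟨2, hd.symm⟩
      · exact ⟨3, hd.symm⟩
  · intro cc hcc
    exact ⟨_, mem_image_of_mem _ hcc, rfl⟩
  · intro C hC' S'' hS'' hr''
    have h2 := card_le_fib S'' (univ.filter fun s' => (s', C 4) ∈ M) (fun cc s' => cc.1 4 = s') K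
      ?_ ?_
    · exact h2.trans (Nat.mul_le_mul_right _ (h.deg2 _ _ fun t ht => (mem_filter.1 ht).2))
    · intro cc hcc
      obtain ⟨k1, k2, k3, k4, k5, k6, k7⟩ := h.mem _ (hS' (hS'' hcc))
      rw [hr'' cc hcc] at k6
      exact ⟨_, mem_filter.2 ⟨mem_univ _, k6⟩, rfl⟩
    · intro s' hs' S₃ hS₃ hr₃
      have hinj : Set.InjOn (fun cc : (Fin 5 → Fin n) × (Fin 5 → Fin n) => cc.1)
          (S₃ : Set ((Fin 5 → Fin n) × (Fin 5 → Fin n))) := by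
        intro cc hcc cc' hcc' hh
        refine Prod.ext hh ?_
        rw [hr'' cc (hS₃ hcc), hr'' cc' (hS₃ hcc')]
      rw [← card_image_of_injOn hinj]
      refine card_134 hT u s s' _ ?_
      intro c hc
      obtain ⟨cc, hcc, rfl⟩ := mem_image.1 hc
      obtain ⟨k1, k2, k3, k4, k5, k6, k7⟩ := h.mem _ (hS' (hS'' (hS₃ hcc)))
      exact ⟨k1, k3, (Prod.ext_iff.1 (hr cc (hS'' (hS₃ hcc)))).1, hr₃ cc hcc⟩

lemma Fam.end4 (hT : T3 G K) (h : Fam G m u v M S)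
    (hC : ∀ cc ∈ S, cc.1 4 = cc.2 2 ∨ cc.1 4 = cc.2 3) :
    S.card ≤ M.card * (K5 K * (m * K)) := by
  classical
  rw [← card_rev S]
  refine h.rev.end1 hT ?_
  intro cc hcc
  obtain ⟨c, hc, rfl⟩ := mem_image.1 hcc
  exact (hC c hc).symm

/-- same middle edge, same direction, different first neighbours -/
lemma Fam.same1 (hT : T3 G K) (h : Fam G m u v M S)
    (hC : ∀ cc ∈ S, cc.1 2 = cc.2 2 ∧ cc.1 3 = cc.2 3 ∧ cc.1 1 ≠ cc.2 1) :
    S.card ≤ M.card * ((K + 1) * (K * (m * 1))) := by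
  classical
  refine card_le_fib S M (fun cc q => (cc.1 1, cc.2 1) = q) _
    (fun cc hcc => ⟨_, (h.mem _ hcc).2.2.2.2.1, rfl⟩) ?_
  rintro ⟨s, t⟩ hq S' hS' hr
  rcases S'.eq_empty_or_nonempty with h0 | ⟨cc₀, hcc₀⟩
  · rw [h0]; simp
  have hst : s ≠ t := by
    obtain ⟨e1, e2⟩ := Prod.ext_iff.1 (hr cc₀ hcc₀)
    simp only at e1 e2
    rw [← e1, ← e2]; exact (hC _ (hS' hcc₀)).2.2
  have h1 := card_le_fib S' (cn G s t) (fun cc a => cc.1 2 = a) (K * (m * 1)) ?_ ?_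
  · exact h1.trans (Nat.mul_le_mul_right _ (cn_card hT hst))
  · intro cc hcc
    obtain ⟨k1, k2, k3, k4, k5, k6, k7⟩ := h.mem _ (hS' hcc)
    obtain ⟨e1, e2⟩ := Prod.ext_iff.1 (hr cc hcc)
    simp only at e1 e2
    obtain ⟨d1, d2, d3⟩ := hC _ (hS' hcc)
    refine ⟨_, ?_, rfl⟩
    rw [mem_cn, ← e1, ← e2]
    refine ⟨(k1.adj 1).symm, ?_⟩
    rw [d1]; exact (k2.adj 1).symm
  · intro a ha S'' hS'' hr''
    have h2 := card_le_fib S'' (paths3 G a u) (fun cc bs => (cc.1 3, cc.1 4) = bs) (m * 1) ?_ ?_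
    · exact h2.trans (Nat.mul_le_mul_right _ (hT a u))
    · intro cc hcc
      obtain ⟨k1, k2, k3, k4, k5, k6, k7⟩ := h.mem _ (hS' (hS'' hcc))
      refine ⟨_, ?_, rfl⟩
      rw [mem_paths3, ← hr'' cc hcc, ← k3]
      exact ⟨k1.adj 2, k1.adj 3, k1.adj 4, k1.inj.ne (by decide), k1.inj.ne (by decide),
        k1.inj.ne (by decide)⟩
    · rintro ⟨b, s'⟩ hb S₃ hS₃ hr₃
      have h3 := card_le_fib S₃ (univ.filter fun t' => (s', t') ∈ M) (fun cc t' => cc.2 4 = t') 1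
        ?_ ?_
      · exact h3.trans (Nat.mul_le_mul_right _ (h.deg1 _ _ fun t ht => (mem_filter.1 ht).2))
      · intro cc hcc
        obtain ⟨k1, k2, k3, k4, k5, k6, k7⟩ := h.mem _ (hS' (hS'' (hS₃ hcc)))
        obtain ⟨e1, e2⟩ := Prod.ext_iff.1 (hr₃ cc hcc)
        simp only at e1 e2
        rw [e2] at k6
        exact ⟨_, mem_filter.2 ⟨mem_univ _, k6⟩, rfl⟩
      · intro t' ht' S₄ hS₄ hr₄
        rw [card_le_one]
        intro cc hcc cc' hcc'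
        have key : ∀ cc ∈ S₄, cc.1 0 = u ∧ cc.1 1 = s ∧ cc.1 2 = a ∧ cc.1 3 = b ∧ cc.1 4 = s' ∧
            cc.2 0 = v ∧ cc.2 1 = t ∧ cc.2 2 = a ∧ cc.2 3 = b ∧ cc.2 4 = t' := by
          intro cc hcc
          have g3 := hS₄ hcc
          have g2 := hS₃ g3
          have g1 := hS'' g2
          obtain ⟨k1, k2, k3, k4, k5, k6, k7⟩ := h.mem _ (hS' g1)
          obtain ⟨e1, e2⟩ := Prod.ext_iff.1 (hr cc g1)
          obtain ⟨e3, e4⟩ := Prod.ext_iff.1 (hr₃ cc g3)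
          have e5 := hr'' cc g2
          obtain ⟨d1, d2, d3⟩ := hC _ (hS' g1)
          exact ⟨k3, e1, e5, e3, e4, k4, e2, d1.symm.trans e5, d2.symm.trans e3, hr₄ cc hcc⟩
        obtain ⟨a0, a1, a2, a3, a4, b0, b1, b2, b3, b4⟩ := key cc hcc
        obtain ⟨a0', a1', a2', a3', a4', b0', b1', b2', b3', b4'⟩ := key cc' hcc'
        exact Prod.ext (cyc_ext (a0.trans a0'.symm) (a1.trans a1'.symm) (a2.trans a2'.symm)
          (a3.trans a3'.symm) (a4.trans a4'.symm)) (cyc_ext (b0.trans b0'.symm)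
          (b1.trans b1'.symm) (b2.trans b2'.symm) (b3.trans b3'.symm) (b4.trans b4'.symm))

lemma Fam.same4 (hT : T3 G K) (h : Fam G m u v M S)
    (hC : ∀ cc ∈ S, cc.1 2 = cc.2 2 ∧ cc.1 3 = cc.2 3 ∧ cc.1 4 ≠ cc.2 4) :
    S.card ≤ M.card * ((K + 1) * (K * (m * 1))) := by
  classical
  rw [← card_rev S]
  refine h.rev.same1 hT ?_
  intro cc hcc
  obtain ⟨c, hc, rfl⟩ := mem_image.1 hcc
  obtain ⟨d1, d2, d3⟩ := hC c hc
  exact ⟨d2, d1, d3⟩

lemma Fam.same0 (hT : T3 G K) (h : Fam G m u v M S)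
    (hC : ∀ cc ∈ S, cc.1 2 = cc.2 2 ∧ cc.1 3 = cc.2 3 ∧ cc.1 1 = cc.2 1 ∧ cc.1 4 = cc.2 4) :
    S.card ≤ (K + 1) * (K + 1) * (K * 1) := by
  classical
  rcases S.eq_empty_or_nonempty with h0 | ⟨cc₀, hcc₀⟩
  · rw [h0]; simp
  have huv : u ≠ v := by
    obtain ⟨k1, k2, k3, k4, k5, k6, k7⟩ := h.mem _ hcc₀
    obtain ⟨d1, d2, d3, d4⟩ := hC _ hcc₀
    intro huv
    apply k7
    have : cc₀.1 = cc₀.2 := cyc_ext (by rw [k3, k4, huv]) d3 d1 d2 d4
    rw [this]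
  have h1 := card_le_fib S (cn G u v ×ˢ cn G u v) (fun cc q => (cc.1 1, cc.1 4) = q) (K * 1) ?_ ?_
  · refine h1.trans (Nat.mul_le_mul_right _ ?_)
    rw [card_product]
    exact Nat.mul_le_mul (cn_card hT huv) (cn_card hT huv)
  · intro cc hcc
    obtain ⟨k1, k2, k3, k4, k5, k6, k7⟩ := h.mem _ hcc
    obtain ⟨d1, d2, d3, d4⟩ := hC _ hcc
    refine ⟨_, ?_, rfl⟩
    rw [mem_product, mem_cn, mem_cn, ← k3, ← k4]
    refine ⟨⟨(k1.adj 0).symm, ?_⟩, k1.adj 4, ?_⟩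
    · simp only; rw [d3]; exact (k2.adj 0).symm
    · simp only; rw [d4]; exact k2.adj 4
  · rintro ⟨s, s'⟩ hs S' hS' hr
    have h2 := card_le_fib S' (paths3 G s s') (fun cc ab => (cc.1 2, cc.1 3) = ab) 1 ?_ ?_
    · exact h2.trans (Nat.mul_le_mul_right _ (hT s s'))
    · intro cc hcc
      obtain ⟨k1, k2, k3, k4, k5, k6, k7⟩ := h.mem _ (hS' hcc)
      obtain ⟨e1, e2⟩ := Prod.ext_iff.1 (hr cc hcc)
      simp only at e1 e2
      refine ⟨_, ?_, rfl⟩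
      rw [mem_paths3, ← e1, ← e2]
      exact ⟨k1.adj 1, k1.adj 2, k1.adj 3, k1.inj.ne (by decide), k1.inj.ne (by decide),
        k1.inj.ne (by decide)⟩
    · rintro ⟨a, b⟩ hab S'' hS'' hr''
      rw [card_le_one]
      intro cc hcc cc' hcc'
      have key : ∀ cc ∈ S'', cc.1 0 = u ∧ cc.1 1 = s ∧ cc.1 2 = a ∧ cc.1 3 = b ∧ cc.1 4 = s' ∧
          cc.2 0 = v ∧ cc.2 1 = s ∧ cc.2 2 = a ∧ cc.2 3 = b ∧ cc.2 4 = s' := by
        intro cc hcc
        have g1 := hS'' hcc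
        obtain ⟨k1, k2, k3, k4, k5, k6, k7⟩ := h.mem _ (hS' g1)
        obtain ⟨e1, e2⟩ := Prod.ext_iff.1 (hr cc g1)
        obtain ⟨e3, e4⟩ := Prod.ext_iff.1 (hr'' cc hcc)
        obtain ⟨d1, d2, d3, d4⟩ := hC _ (hS' g1)
        exact ⟨k3, e1, e3, e4, e2, k4, d3.symm.trans e1, d1.symm.trans e3, d2.symm.trans e4,
          d4.symm.trans e2⟩
      obtain ⟨a0, a1, a2, a3, a4, b0, b1, b2, b3, b4⟩ := key cc hcc
      obtain ⟨a0', a1', a2', a3', a4', b0', b1', b2', b3', b4'⟩ := key cc' hcc'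
      exact Prod.ext (cyc_ext (a0.trans a0'.symm) (a1.trans a1'.symm) (a2.trans a2'.symm)
        (a3.trans a3'.symm) (a4.trans a4'.symm)) (cyc_ext (b0.trans b0'.symm)
        (b1.trans b1'.symm) (b2.trans b2'.symm) (b3.trans b3'.symm) (b4.trans b4'.symm))

/-- opposite direction, different first neighbours -/
lemma Fam.opp1 (hT : T3 G K) (h : Fam G m u v M S)
    (hC : ∀ cc ∈ S, cc.1 2 = cc.2 3 ∧ cc.1 3 = cc.2 2 ∧ cc.1 1 ≠ cc.2 1) :
    S.card ≤ M.card * (K * ((K + 1) * (m * 1))) := by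
  classical
  refine card_le_fib S M (fun cc q => (cc.1 1, cc.2 1) = q) _
    (fun cc hcc => ⟨_, (h.mem _ hcc).2.2.2.2.1, rfl⟩) ?_
  rintro ⟨s, t⟩ hq S' hS' hr
  have h1 := card_le_fib S' (paths3 G s t) (fun cc ab => (cc.1 2, cc.1 3) = ab)
    ((K + 1) * (m * 1)) ?_ ?_
  · exact h1.trans (Nat.mul_le_mul_right _ (hT s t))
  · intro cc hcc
    obtain ⟨k1, k2, k3, k4, k5, k6, k7⟩ := h.mem _ (hS' hcc)
    obtain ⟨e1, e2⟩ := Prod.ext_iff.1 (hr cc hcc)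
    simp only at e1 e2
    obtain ⟨d1, d2, d3⟩ := hC _ (hS' hcc)
    refine ⟨_, ?_, rfl⟩
    rw [mem_paths3, ← e1, ← e2]
    refine ⟨k1.adj 1, k1.adj 2, ?_, k1.inj.ne (by decide), ?_, d3⟩
    · simp only; rw [d2]; exact (k2.adj 1).symm
    · simp only; rw [d1]; exact k2.inj.ne (by decide)
  · rintro ⟨a, b⟩ hab S'' hS'' hr''
    rcases S''.eq_empty_or_nonempty with h0 | ⟨cc₀, hcc₀⟩
    · rw [h0]; simp
    have hub : u ≠ b := by
      obtain ⟨k1, k2, k3, k4, k5, k6, k7⟩ := h.mem _ (hS' (hS'' hcc₀))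
      obtain ⟨e1, e2⟩ := Prod.ext_iff.1 (hr'' cc₀ hcc₀)
      simp only at e1 e2
      rw [← k3, ← e2]; exact k1.inj.ne (by decide)
    have h2 := card_le_fib S'' (cn G u b) (fun cc s' => cc.1 4 = s') (m * 1) ?_ ?_
    · exact h2.trans (Nat.mul_le_mul_right _ (cn_card hT hub))
    · intro cc hcc
      obtain ⟨k1, k2, k3, k4, k5, k6, k7⟩ := h.mem _ (hS' (hS'' hcc))
      obtain ⟨e1, e2⟩ := Prod.ext_iff.1 (hr'' cc hcc)
      simp only at e1 e2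
      refine ⟨_, ?_, rfl⟩
      rw [mem_cn, ← k3, ← e2]
      exact ⟨k1.adj 4, (k1.adj 3).symm⟩
    · intro s' hs' S₃ hS₃ hr₃
      have h3 := card_le_fib S₃ (univ.filter fun t' => (s', t') ∈ M) (fun cc t' => cc.2 4 = t') 1
        ?_ ?_
      · exact h3.trans (Nat.mul_le_mul_right _ (h.deg1 _ _ fun t ht => (mem_filter.1 ht).2))
      · intro cc hcc
        obtain ⟨k1, k2, k3, k4, k5, k6, k7⟩ := h.mem _ (hS' (hS'' (hS₃ hcc)))
        rw [hr₃ cc hcc] at k6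
        exact ⟨_, mem_filter.2 ⟨mem_univ _, k6⟩, rfl⟩
      · intro t' ht' S₄ hS₄ hr₄
        rw [card_le_one]
        intro cc hcc cc' hcc'
        have key : ∀ cc ∈ S₄, cc.1 0 = u ∧ cc.1 1 = s ∧ cc.1 2 = a ∧ cc.1 3 = b ∧ cc.1 4 = s' ∧
            cc.2 0 = v ∧ cc.2 1 = t ∧ cc.2 2 = b ∧ cc.2 3 = a ∧ cc.2 4 = t' := by
          intro cc hcc
          have g3 := hS₄ hcc
          have g2 := hS₃ g3
          have g1 := hS'' g2
          obtain ⟨k1, k2, k3, k4, k5, k6, k7⟩ := h.mem _ (hS' g1)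
          obtain ⟨e1, e2⟩ := Prod.ext_iff.1 (hr cc g1)
          obtain ⟨e3, e4⟩ := Prod.ext_iff.1 (hr'' cc g2)
          obtain ⟨d1, d2, d3⟩ := hC _ (hS' g1)
          exact ⟨k3, e1, e3, e4, hr₃ cc g3, k4, e2, d2.symm.trans e4, d1.symm.trans e3, hr₄ cc hcc⟩
        obtain ⟨a0, a1, a2, a3, a4, b0, b1, b2, b3, b4⟩ := key cc hcc
        obtain ⟨a0', a1', a2', a3', a4', b0', b1', b2', b3', b4'⟩ := key cc' hcc'
        exact Prod.ext (cyc_ext (a0.trans a0'.symm) (a1.trans a1'.symm) (a2.trans a2'.symm)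
          (a3.trans a3'.symm) (a4.trans a4'.symm)) (cyc_ext (b0.trans b0'.symm)
          (b1.trans b1'.symm) (b2.trans b2'.symm) (b3.trans b3'.symm) (b4.trans b4'.symm))

/-- opposite direction, same first neighbours -/
lemma Fam.opp0 (hT : T3 G K) (h : Fam G m u v M S)
    (hC : ∀ cc ∈ S, cc.1 2 = cc.2 3 ∧ cc.1 3 = cc.2 2 ∧ cc.1 1 = cc.2 1) :
    S.card ≤ M.card * (K * ((K + 1) * (m * 1))) := by
  classical
  refine card_le_fib S M (fun cc q => (cc.1 1, cc.2 1) = q) _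
    (fun cc hcc => ⟨_, (h.mem _ hcc).2.2.2.2.1, rfl⟩) ?_
  rintro ⟨s, t⟩ hq S' hS' hr
  have h1 := card_le_fib S' (paths3 G u s) (fun cc sb => (cc.1 4, cc.1 3) = sb)
    ((K + 1) * (m * 1)) ?_ ?_
  · exact h1.trans (Nat.mul_le_mul_right _ (hT u s))
  · intro cc hcc
    obtain ⟨k1, k2, k3, k4, k5, k6, k7⟩ := h.mem _ (hS' hcc)
    obtain ⟨e1, e2⟩ := Prod.ext_iff.1 (hr cc hcc)
    simp only at e1 e2
    obtain ⟨d1, d2, d3⟩ := hC _ (hS' hcc)
    refine ⟨_, ?_, rfl⟩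
    rw [mem_paths3, ← e1, ← k3]
    refine ⟨(k1.adj 4).symm, (k1.adj 3).symm, ?_, k1.inj.ne (by decide), k1.inj.ne (by decide),
      k1.inj.ne (by decide)⟩
    simp only; rw [d2, d3]; exact (k2.adj 1).symm
  · rintro ⟨s', b⟩ hab S'' hS'' hr''
    rcases S''.eq_empty_or_nonempty with h0 | ⟨cc₀, hcc₀⟩
    · rw [h0]; simp
    have hsb : s ≠ b := by
      obtain ⟨k1, k2, k3, k4, k5, k6, k7⟩ := h.mem _ (hS' (hS'' hcc₀))
      obtain ⟨e1, e2⟩ := Prod.ext_iff.1 (hr'' cc₀ hcc₀)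
      obtain ⟨e3, e4⟩ := Prod.ext_iff.1 (hr cc₀ (hS'' hcc₀))
      simp only at e1 e2 e3 e4
      rw [← e3, ← e2]; exact k1.inj.ne (by decide)
    have h2 := card_le_fib S'' (cn G s b) (fun cc a => cc.1 2 = a) (m * 1) ?_ ?_
    · exact h2.trans (Nat.mul_le_mul_right _ (cn_card hT hsb))
    · intro cc hcc
      obtain ⟨k1, k2, k3, k4, k5, k6, k7⟩ := h.mem _ (hS' (hS'' hcc))
      obtain ⟨e1, e2⟩ := Prod.ext_iff.1 (hr'' cc hcc)
      obtain ⟨e3, e4⟩ := Prod.ext_iff.1 (hr cc (hS'' hcc))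
      simp only at e1 e2 e3 e4
      refine ⟨_, ?_, rfl⟩
      rw [mem_cn, ← e3, ← e2]
      exact ⟨(k1.adj 1).symm, k1.adj 2⟩
    · intro a ha S₃ hS₃ hr₃
      have h3 := card_le_fib S₃ (univ.filter fun t' => (s', t') ∈ M) (fun cc t' => cc.2 4 = t') 1
        ?_ ?_
      · exact h3.trans (Nat.mul_le_mul_right _ (h.deg1 _ _ fun t ht => (mem_filter.1 ht).2))
      · intro cc hcc
        obtain ⟨k1, k2, k3, k4, k5, k6, k7⟩ := h.mem _ (hS' (hS'' (hS₃ hcc)))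
        obtain ⟨e1, e2⟩ := Prod.ext_iff.1 (hr'' cc (hS₃ hcc))
        simp only at e1 e2
        rw [e1] at k6
        exact ⟨_, mem_filter.2 ⟨mem_univ _, k6⟩, rfl⟩
      · intro t' ht' S₄ hS₄ hr₄
        rw [card_le_one]
        intro cc hcc cc' hcc'
        have key : ∀ cc ∈ S₄, cc.1 0 = u ∧ cc.1 1 = s ∧ cc.1 2 = a ∧ cc.1 3 = b ∧ cc.1 4 = s' ∧
            cc.2 0 = v ∧ cc.2 1 = t ∧ cc.2 2 = b ∧ cc.2 3 = a ∧ cc.2 4 = t' := by
          intro cc hcc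
          have g3 := hS₄ hcc
          have g2 := hS₃ g3
          have g1 := hS'' g2
          obtain ⟨k1, k2, k3, k4, k5, k6, k7⟩ := h.mem _ (hS' g1)
          obtain ⟨e1, e2⟩ := Prod.ext_iff.1 (hr cc g1)
          obtain ⟨e3, e4⟩ := Prod.ext_iff.1 (hr'' cc g2)
          have e5 := hr₃ cc g3
          obtain ⟨d1, d2, d3⟩ := hC _ (hS' g1)
          exact ⟨k3, e1, e5, e4, e3, k4, e2, d2.symm.trans e4, d1.symm.trans e5, hr₄ cc hcc⟩
        obtain ⟨a0, a1, a2, a3, a4, b0, b1, b2, b3, b4⟩ := key cc hcc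
        obtain ⟨a0', a1', a2', a3', a4', b0', b1', b2', b3', b4'⟩ := key cc' hcc'
        exact Prod.ext (cyc_ext (a0.trans a0'.symm) (a1.trans a1'.symm) (a2.trans a2'.symm)
          (a3.trans a3'.symm) (a4.trans a4'.symm)) (cyc_ext (b0.trans b0'.symm)
          (b1.trans b1'.symm) (b2.trans b2'.symm) (b3.trans b3'.symm) (b4.trans b4'.symm))

/-- middle edge of the second cycle among the inner edges of the first one -/
lemma Fam.share (hT : T3 G K) (h : Fam G m u v M S)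
    (hC : ∀ cc ∈ S, s(cc.2 2, cc.2 3) ∈ In cc.1) :
    S.card ≤ M.card * (2 * (K5 K * (m * K)) + 4 * (K * (K + 1) * m)) +
      (K + 1) * (K + 1) * K := by
  classical
  set S1 := S.filter fun cc => cc.1 1 = cc.2 2 ∨ cc.1 1 = cc.2 3 with hS1
  set S2 := S.filter fun cc => cc.1 4 = cc.2 2 ∨ cc.1 4 = cc.2 3 with hS2
  set S3 := S.filter fun cc => cc.1 2 = cc.2 2 ∧ cc.1 3 = cc.2 3 ∧ cc.1 1 ≠ cc.2 1 with hS3
  set S4 := S.filter fun cc => cc.1 2 = cc.2 2 ∧ cc.1 3 = cc.2 3 ∧ cc.1 4 ≠ cc.2 4 with hS4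
  set S5 := S.filter fun cc => cc.1 2 = cc.2 2 ∧ cc.1 3 = cc.2 3 ∧ cc.1 1 = cc.2 1 ∧
    cc.1 4 = cc.2 4 with hS5
  set S6 := S.filter fun cc => cc.1 2 = cc.2 3 ∧ cc.1 3 = cc.2 2 ∧ cc.1 1 ≠ cc.2 1 with hS6
  set S7 := S.filter fun cc => cc.1 2 = cc.2 3 ∧ cc.1 3 = cc.2 2 ∧ cc.1 1 = cc.2 1 with hS7
  have hsub : S ⊆ S1 ∪ (S2 ∪ (S3 ∪ (S4 ∪ (S5 ∪ (S6 ∪ S7))))) := by
    intro cc hcc
    have hd := hC cc hcc
    rw [mem_In, Sym2.eq_iff, Sym2.eq_iff, Sym2.eq_iff] at hd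
    simp only [mem_union, hS1, hS2, hS3, hS4, hS5, hS6, hS7, mem_filter]
    rcases hd with (⟨d1, d2⟩ | ⟨d1, d2⟩) | (⟨d1, d2⟩ | ⟨d1, d2⟩) | (⟨d1, d2⟩ | ⟨d1, d2⟩)
    · exact Or.inl ⟨hcc, Or.inl d1.symm⟩
    · exact Or.inl ⟨hcc, Or.inr d2.symm⟩
    · by_cases b1 : cc.1 1 = cc.2 1
      · by_cases b2 : cc.1 4 = cc.2 4
        · exact Or.inr (Or.inr (Or.inr (Or.inr (Or.inl ⟨hcc, d1.symm, d2.symm, b1, b2⟩))))
        · exact Or.inr (Or.inr (Or.inr (Or.inl ⟨hcc, d1.symm, d2.symm, b2⟩)))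
      · exact Or.inr (Or.inr (Or.inl ⟨hcc, d1.symm, d2.symm, b1⟩))
    · by_cases b1 : cc.1 1 = cc.2 1
      · exact Or.inr (Or.inr (Or.inr (Or.inr (Or.inr (Or.inr ⟨hcc, d2.symm, d1.symm, b1⟩)))))
      · exact Or.inr (Or.inr (Or.inr (Or.inr (Or.inr (Or.inl ⟨hcc, d2.symm, d1.symm, b1⟩)))))
    · exact Or.inr (Or.inl ⟨hcc, Or.inr d2.symm⟩)
    · exact Or.inr (Or.inl ⟨hcc, Or.inl d1.symm⟩)
  have c1 : S1.card ≤ M.card * (K5 K * (m * K)) :=
    (h.sub (filter_subset _ S : S1 ⊆ S)).end1 hT fun cc hcc => (mem_filter.1 hcc).2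
  have c2 : S2.card ≤ M.card * (K5 K * (m * K)) :=
    (h.sub (filter_subset _ S : S2 ⊆ S)).end4 hT fun cc hcc => (mem_filter.1 hcc).2
  have c3 : S3.card ≤ M.card * ((K + 1) * (K * (m * 1))) :=
    (h.sub (filter_subset _ S : S3 ⊆ S)).same1 hT fun cc hcc => (mem_filter.1 hcc).2
  have c4 : S4.card ≤ M.card * ((K + 1) * (K * (m * 1))) :=
    (h.sub (filter_subset _ S : S4 ⊆ S)).same4 hT fun cc hcc => (mem_filter.1 hcc).2
  have c5 : S5.card ≤ (K + 1) * (K + 1) * (K * 1) :=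
    (h.sub (filter_subset _ S : S5 ⊆ S)).same0 hT fun cc hcc => (mem_filter.1 hcc).2
  have c6 : S6.card ≤ M.card * (K * ((K + 1) * (m * 1))) :=
    (h.sub (filter_subset _ S : S6 ⊆ S)).opp1 hT fun cc hcc => (mem_filter.1 hcc).2
  have c7 : S7.card ≤ M.card * (K * ((K + 1) * (m * 1))) :=
    (h.sub (filter_subset _ S : S7 ⊆ S)).opp0 hT fun cc hcc => (mem_filter.1 hcc).2
  have u1 := card_le_card hsub
  have u2 := card_union_le S1 (S2 ∪ (S3 ∪ (S4 ∪ (S5 ∪ (S6 ∪ S7)))))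
  have u3 := card_union_le S2 (S3 ∪ (S4 ∪ (S5 ∪ (S6 ∪ S7))))
  have u4 := card_union_le S3 (S4 ∪ (S5 ∪ (S6 ∪ S7)))
  have u5 := card_union_le S4 (S5 ∪ (S6 ∪ S7))
  have u6 := card_union_le S5 (S6 ∪ S7)
  have u7 := card_union_le S6 S7
  have e1 : M.card * ((K + 1) * (K * (m * 1))) = M.card * (K * (K + 1) * m) := by ring
  have e2 : M.card * (K * ((K + 1) * (m * 1))) = M.card * (K * (K + 1) * m) := by ring
  have e3 : (K + 1) * (K + 1) * (K * 1) = (K + 1) * (K + 1) * K := by ring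
  rw [e1] at c3 c4
  rw [e2] at c6 c7
  rw [e3] at c5
  have e4 : M.card * (2 * (K5 K * (m * K)) + 4 * (K * (K + 1) * m)) =
      2 * (M.card * (K5 K * (m * K))) + 4 * (M.card * (K * (K + 1) * m)) := by ring
  rw [e4]
  omega

end Pool.Agent.U140.SG
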