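import Pool.Agent.Q299.PW.Indep

/-! Conditioning on a set of coordinates, product weights. -/

set_option linter.unusedSectionVars false
set_option linter.unusedVariables false

namespace Pool.Agent.U140.SG

open Finset Pool.Agent.Q299.PW

section Gen

variable {ι α : Type*} [Fintype ι] [DecidableEq ι] [Fintype α] [DecidableEq α] {w : α → ℝ}

/-- `κ` on `S`, `ω` off `S` -/
def mix (S : Finset ι) (κ ω : ι → α) : ι → α := fun e => if e ∈ S then κ e else ω e

lemma mix_mem {S : Finset ι} {κ ω : ι → α} {e : ι} (h : e ∈ S) : mix S κ ω e = κ e := if_pos h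
lemma mix_not {S : Finset ι} {κ ω : ι → α} {e : ι} (h : e ∉ S) : mix S κ ω e = ω e := if_neg h

lemma mix_mix (S : Finset ι) (κ ω : ι → α) : mix S (mix S κ ω) (mix S ω κ) = κ := by
  funext e
  by_cases h : e ∈ S
  · rw [mix_mem h, mix_mem h]
  · rw [mix_not h, mix_not h]

def mixE (S : Finset ι) : (ι → α) × (ι → α) ≃ (ι → α) × (ι → α) where
  toFun x := (mix S x.1 x.2, mix S x.2 x.1)
  invFun x := (mix S x.1 x.2, mix S x.2 x.1)
  left_inv x := by
    refine Prod.ext ?_ ?_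
    · exact mix_mix S x.1 x.2
    · exact mix_mix S x.2 x.1
  right_inv x := by
    refine Prod.ext ?_ ?_
    · exact mix_mix S x.1 x.2
    · exact mix_mix S x.2 x.1

lemma wt_mix (S : Finset ι) (κ ω : ι → α) :
    (∏ i, w (mix S κ ω i)) * (∏ i, w (mix S ω κ i)) = (∏ i, w (κ i)) * ∏ i, w (ω i) := by
  rw [← prod_mul_distrib, ← prod_mul_distrib]
  refine prod_congr rfl fun i _ => ?_
  by_cases h : i ∈ S
  · rw [mix_mem h, mix_mem h]
  · rw [mix_not h, mix_not h, mul_comm]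

lemma Ex_mix (hw1 : ∑ a, w a = 1) (S : Finset ι) (F : (ι → α) → ℝ) :
    Ex w (fun κ => Ex w (fun ω => F (mix S κ ω))) = Ex w F := by
  have h1 : Ex w (fun κ => Ex w (fun ω => F (mix S κ ω))) =
      ∑ x : (ι → α) × (ι → α), (∏ i, w (x.1 i)) * (∏ i, w (x.2 i)) * F (mix S x.1 x.2) := by
    unfold Ex
    rw [Fintype.sum_prod_type]
    refine sum_congr rfl fun κ _ => ?_
    rw [mul_sum]
    refine sum_congr rfl fun ω _ => ?_
    ring
  have h2 : ∑ x : (ι → α) × (ι → α), (∏ i, w (x.1 i)) * (∏ i, w (x.2 i)) * F (mix S x.1 x.2) =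
      ∑ x : (ι → α) × (ι → α), (∏ i, w (x.1 i)) * (∏ i, w (x.2 i)) * F x.1 := by
    refine Fintype.sum_equiv (mixE S) _ _ fun x => ?_
    change _ = (∏ i, w (mix S x.1 x.2 i)) * (∏ i, w (mix S x.2 x.1 i)) * F (mix S x.1 x.2)
    rw [wt_mix]
  rw [h1, h2, Fintype.sum_prod_type]
  unfold Ex
  refine sum_congr rfl fun κ _ => ?_
  have : ∀ ω : ι → α, (∏ i, w (κ i)) * (∏ i, w (ω i)) * F κ =
      ((∏ i, w (κ i)) * F κ) * ∏ i, w (ω i) := fun ω => by ring
  simp only
  rw [sum_congr rfl fun ω _ => this ω, ← mul_sum, sum_prod_one hw1, mul_one]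

/-- conditional bound -/
lemma Pr_le_of_mix (hw : ∀ a, 0 ≤ w a) (hw1 : ∑ a, w a = 1) (S : Finset ι)
    {A : (ι → α) → Prop} {B : ℝ} (h : ∀ κ, Pr w (fun ω => A (mix S κ ω)) ≤ B) : Pr w A ≤ B := by
  classical
  have h1 : Pr w A = Ex w (fun κ => Pr w (fun ω => A (mix S κ ω))) := by
    unfold Pr
    exact (Ex_mix hw1 S (fun ω => if A ω then 1 else 0)).symm
  rw [h1]
  refine (Ex_mono hw h).trans ?_
  rw [Ex_const hw1]

lemma Pr_le_one (hw : ∀ a, 0 ≤ w a) (hw1 : ∑ a, w a = 1) (A : (ι → α) → Prop) : Pr w A ≤ 1 := by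
  classical
  have h := Ex_mono hw (f := fun ω => if A ω then (1:ℝ) else 0) (g := fun _ => 1)
    (fun ω => by split_ifs <;> norm_num)
  rw [Ex_const hw1] at h
  exact h

lemma Pr_false (A : (ι → α) → Prop) (h : ∀ ω, ¬ A ω) : Pr w A = 0 := by
  classical
  unfold Pr Ex
  refine sum_eq_zero fun ω _ => ?_
  simp [h ω]

/-- Markov -/
lemma Pr_markov (hw : ∀ a, 0 ≤ w a) {f : (ι → α) → ℝ} (hf : ∀ ω, 0 ≤ f ω) {t : ℝ} (ht : 0 < t) :
    Pr w (fun ω => t < f ω) ≤ Ex w f / t := by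
  have h := Pr_le_Ex hw (A := fun ω => t < f ω) (f := fun ω => (1 / t) * f ω)
    (fun ω => by have := hf ω; positivity)
    (fun ω h => by rw [one_div, inv_mul_eq_div, le_div_iff₀ ht]; linarith)
  rw [Ex_smul] at h
  rw [one_div, inv_mul_eq_div] at h
  exact h

/-- union bound over a set of finsets with weights -/
lemma sum_pow_card {β : Type*} [Fintype β] [DecidableEq β] (ξ : ℝ) :
    ∑ I : Finset β, ξ ^ I.card = (1 + ξ) ^ (Fintype.card β) := by
  have h := Finset.sum_pow_mul_eq_add_pow ξ (1:ℝ) (univ : Finset β)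
  simp only [one_pow, mul_one, powerset_univ, card_univ] at h
  rw [h, add_comm]

end Gen

section Bl

variable {ι : Type*} [Fintype ι] [DecidableEq ι]

noncomputable def wp (p : ℝ) : Bool → ℝ := fun b => if b then p else 1 - p

lemma wp_nonneg {p : ℝ} (h0 : 0 ≤ p) (h1 : p ≤ 1) (b : Bool) : 0 ≤ wp p b := by
  unfold wp; split_ifs <;> linarith

lemma wp_sum (p : ℝ) : ∑ b, wp p b = 1 := by simp [wp]

/-- all coordinates of `D` are `true` -/
lemma pr_all (p : ℝ) (D : Finset ι) :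
    Pr (wp p) (fun ω : ι → Bool => ∀ e ∈ D, ω e = true) = p ^ D.card := by
  classical
  have h1 : Pr (wp p) (fun ω : ι → Bool => ∀ e ∈ D, ω e = true) =
      Ex (wp p) (fun ω => ∏ e ∈ D, (if ω e = true then (1 : ℝ) else 0)) := by
    unfold Pr
    congr 1
    funext ω
    by_cases h : ∀ e ∈ D, ω e = true
    · rw [if_pos h, prod_congr rfl fun e he => if_pos (h e he), prod_const_one]
    · rw [if_neg h]
      push Not at h
      obtain ⟨e, he, h⟩ := h
      rw [prod_eq_zero he (if_neg h)]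
  rw [h1, Ex_prod_on (wp_sum p) D (fun (_ : ι) (b : Bool) => if b = true then (1 : ℝ) else 0)]
  simp [wp]

/-- all coordinates of `D` are `true`, and an event that does not look at `D` -/
lemma pr_all_and (p : ℝ) (D : Finset ι) {A : (ι → Bool) → Prop}
    (hA : ∀ ω ω' : ι → Bool, (∀ e ∉ D, ω e = ω' e) → (A ω ↔ A ω')) :
    Pr (wp p) (fun ω : ι → Bool => (∀ e ∈ D, ω e = true) ∧ A ω) = p ^ D.card * Pr (wp p) A := by
  have h := Pr_and_indep (w := wp p) (wp_sum p) D
    (A := fun ω => ∀ e ∈ D, ω e = true) (B := A)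
    (fun ω ω' h => forall₂_congr fun e he => by rw [h e he])
    (fun ω ω' h => hA ω ω' h)
  rw [h, pr_all]

end Bl

end Pool.Agent.U140.SG
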