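import Pool.Agent.U140.SG.Cyc
import Pool.Agent.U140.SG.Case

/-! Ball matchings, views, violations. -/

set_option linter.unusedSectionVars false
set_option linter.unusedVariables false

namespace Pool.Agent.U140.SG

open Finset

variable {n : ℕ}

/-- within distance two -/
def InB (G : SimpleGraph (Fin n)) (z w : Fin n) : Prop :=
  w = z ∨ G.Adj z w ∨ ∃ s, G.Adj z s ∧ G.Adj s w

structure Mt (G H : SimpleGraph (Fin n)) (f g : Fin n → Fin n → Fin n) : Prop where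
  f_self : ∀ z, f z z = z
  g_self : ∀ z, g z z = z
  f_in : ∀ z w, InB G z w → InB H z (f z w)
  g_in : ∀ z w, InB H z w → InB G z (g z w)
  gf : ∀ z w, InB G z w → g z (f z w) = w
  fg : ∀ z w, InB H z w → f z (g z w) = w
  adj : ∀ z a b, InB G z a → InB G z b → (G.Adj a b ↔ H.Adj (f z a) (f z b))

lemma InB.self (G : SimpleGraph (Fin n)) (z : Fin n) : InB G z z := Or.inl rfl
lemma InB.of_adj {G : SimpleGraph (Fin n)} {z w : Fin n} (h : G.Adj z w) : InB G z w :=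
  Or.inr (Or.inl h)

variable {G H : SimpleGraph (Fin n)} {f g : Fin n → Fin n → Fin n}

lemma Mt.symm (m : Mt G H f g) : Mt H G g f where
  f_self := m.g_self
  g_self := m.f_self
  f_in := m.g_in
  g_in := m.f_in
  gf := m.fg
  fg := m.gf
  adj := by
    intro z a b ha hb
    have := m.adj z (g z a) (g z b) (m.g_in z a ha) (m.g_in z b hb)
    rw [m.fg z a ha, m.fg z b hb] at this
    exact this.symm

lemma Mt.f_adj (m : Mt G H f g) {z x : Fin n} (h : G.Adj z x) : H.Adj z (f z x) := by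
  have := (m.adj z z x (InB.self G z) (InB.of_adj h)).1 h
  rwa [m.f_self] at this

lemma Mt.g_adj (m : Mt G H f g) {z x : Fin n} (h : H.Adj z x) : G.Adj z (g z x) := m.symm.f_adj h

lemma Mt.gf_adj (m : Mt G H f g) {z x : Fin n} (h : G.Adj z x) : g z (f z x) = x :=
  m.gf z x (InB.of_adj h)

lemma Mt.fg_adj (m : Mt G H f g) {z x : Fin n} (h : H.Adj z x) : f z (g z x) = x :=
  m.fg z x (InB.of_adj h)

/-- every vertex of a 5-cycle is in the ball of every other one -/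
lemma IsC5.inB {C : Fin 5 → Fin n} (h : IsC5 H C) (i j : Fin 5) : InB H (C i) (C j) := by
  have key : ∀ k : Fin 5, InB H (C i) (C (i + k)) := by
    intro k
    have h0 := h.adj i
    have h1 := h.adj (i + 1)
    have h4 := h.adj (i + 4)
    have h3 := h.adj (i + 3)
    have e1 : i + 1 + 1 = i + 2 := by rw [add_assoc]; rfl
    have e3 : i + 3 + 1 = i + 4 := by rw [add_assoc]; rfl
    have e4 : i + 4 + 1 = i := by rw [add_assoc]; simp
    rw [e1] at h1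
    rw [e3] at h3
    rw [e4] at h4
    fin_cases k
    · left; simp
    · right; left; exact h0
    · right; right; exact ⟨_, h0, h1⟩
    · right; right; exact ⟨_, h4.symm, h3.symm⟩
    · right; left; exact h4.symm
  have := key (j - i)
  rwa [add_sub_cancel] at this

/-- the view of `C` from `C j` -/
def vw (g : Fin n → Fin n → Fin n) (C : Fin 5 → Fin n) (j : Fin 5) : Fin 5 → Fin n :=
  fun i => g (C j) (C i)

lemma Mt.vw_cyc (m : Mt G H f g) {C : Fin 5 → Fin n} (h : IsC5 H C) (j : Fin 5) :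
    IsC5 G (vw g C j) := by
  refine ⟨fun a b hab => ?_, fun i => ?_⟩
  · have h1 : g (C j) (C a) = g (C j) (C b) := hab
    have h2 := congrArg (f (C j)) h1
    rw [m.fg _ _ (h.inB j a), m.fg _ _ (h.inB j b)] at h2
    exact h.inj h2
  · exact (m.symm.adj (C j) _ _ (h.inB j i) (h.inB j (i + 1))).1 (h.adj i)

lemma Mt.vw_root (m : Mt G H f g) (C : Fin 5 → Fin n) (j : Fin 5) : vw g C j j = C j :=
  m.g_self _

lemma Mt.f_vw (m : Mt G H f g) {C : Fin 5 → Fin n} (h : IsC5 H C) (j i : Fin 5) :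
    f (C j) (vw g C j i) = C i := m.fg _ _ (h.inB j i)

lemma Mt.vw_inj (m : Mt G H f g) {C C' : Fin 5 → Fin n} (h : IsC5 H C) (h' : IsC5 H C')
    {j : Fin 5} (hv : vw g C j = vw g C' j) : C = C' := by
  have h0 : C j = C' j := by
    rw [← m.vw_root C j, ← m.vw_root C' j, hv]
  funext i
  rw [← m.f_vw h j i, ← m.f_vw h' j i, hv, h0]

/-- relation between darts of `G` and darts of `H` -/
def RR (G : SimpleGraph (Fin n)) (f g : Fin n → Fin n → Fin n)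
    (SP : Sym2 (Fin n) → Sym2 (Fin n) → Prop) (u s v s' : Fin n) : Prop :=
  SP s(u, s) s(v, s') ∨ (s = s' ∧ u ≠ v ∧ ∃ z, G.Adj z u ∧ f z u = v) ∨
    (u = v ∧ s = s' ∧ g u s ≠ s)

/-- some dart of `C` is defective -/
def Mk (g : Fin n → Fin n → Fin n) (C : Fin 5 → Fin n) : Prop :=
  ∃ i, g (C i) (C (i + 1)) ≠ C (i + 1) ∨ g (C (i + 1)) (C i) ≠ C i

def V1 (g : Fin n → Fin n → Fin n) (C : Fin 5 → Fin n) : Prop :=
  vw g C 0 1 ≠ C 1 ∧ (C 1 ∈ Vs (vw g C 0) ∨ vw g C 0 1 ∈ Vs C)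

def V3 (SP : Sym2 (Fin n) → Sym2 (Fin n) → Prop) (g : Fin n → Fin n → Fin n)
    (C : Fin 5 → Fin n) : Prop :=
  Mk g C ∧ ∃ e ∈ In (vw g C 0), e ∉ Es C ∧ ∀ h ∈ Es C, ¬ SP e h

def V4 (SP : Sym2 (Fin n) → Sym2 (Fin n) → Prop) (g : Fin n → Fin n → Fin n)
    (C : Fin 5 → Fin n) : Prop :=
  ∃ e ∈ In (vw g C 0), e ∉ Es C ∧ ∃ h ∈ Es C, SP e h ∧
    (C 0 ∈ h ∨ (∃ w ∈ Vs (vw g C 0), w ∈ h ∧ w ∉ e) ∨ (∃ w ∈ Vs C, w ∈ e ∧ w ∉ h))

def V5 (SP : Sym2 (Fin n) → Sym2 (Fin n) → Prop) (g : Fin n → Fin n → Fin n)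
    (C : Fin 5 → Fin n) : Prop :=
  ∃ e₁ ∈ In (vw g C 0), ∃ e₂ ∈ In (vw g C 0), e₁ ≠ e₂ ∧ ∃ h ∈ Es C, SP e₁ h ∧ SP e₂ h

def V8 (G : SimpleGraph (Fin n)) (g : Fin n → Fin n → Fin n) (C : Fin 5 → Fin n) : Prop :=
  vw g C 0 1 ≠ C 1 ∧ ∃ t, t ≠ vw g C 0 1 ∧ G.Adj t (vw g C 0 0) ∧ G.Adj t (vw g C 0 2)

def VK (G : SimpleGraph (Fin n)) (f g : Fin n → Fin n → Fin n)
    (SP : Sym2 (Fin n) → Sym2 (Fin n) → Prop) (C : Fin 5 → Fin n) : Prop :=
  ∃ i j : Fin 5, ∃ σ : Fin 5, (σ = 1 ∨ σ = -1) ∧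
    RR G f g SP (vw g C 0 i) (vw g C 0 (i + 1)) (C j) (C (j + σ)) ∧
    RR G f g SP (vw g C 0 i) (vw g C 0 (i - 1)) (C j) (C (j - σ)) ∧
    Vs (vw g C 0) ≠ Vs (vw g C j)

def Viol (G : SimpleGraph (Fin n)) (f g : Fin n → Fin n → Fin n)
    (SP : Sym2 (Fin n) → Sym2 (Fin n) → Prop) (C : Fin 5 → Fin n) : Prop :=
  V1 g C ∨ V3 SP g C ∨ V4 SP g C ∨ V5 SP g C ∨ V8 G g C ∨ VK G f g SP C

def NV (G : SimpleGraph (Fin n)) (f g : Fin n → Fin n → Fin n)
    (SP : Sym2 (Fin n) → Sym2 (Fin n) → Prop) (C : Fin 5 → Fin n) : Prop :=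
  ∀ k b, ¬ Viol G f g SP (act k b C)

lemma NV.act {SP : Sym2 (Fin n) → Sym2 (Fin n) → Prop} {C : Fin 5 → Fin n}
    (h : NV G f g SP C) (k : Fin 5) (b : Bool) : NV G f g SP (act k b C) := by
  intro k' b'
  rw [act_act]
  exact h _ _

lemma Mk.act {C : Fin 5 → Fin n} (h : Mk g C) (k : Fin 5) (b : Bool) : Mk g (act k b C) := by
  obtain ⟨i, hi⟩ := h
  cases b
  · refine ⟨i - k, ?_⟩
    unfold SG.act
    simp only [Bool.false_eq_true, if_false]
    have e1 : k + (i - k) = i := by abel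
    have e2 : k + (i - k + 1) = i + 1 := by abel
    rw [e1, e2]
    exact hi
  · refine ⟨k - (i + 1), ?_⟩
    unfold SG.act
    simp only [if_true]
    have e1 : k + -(k - (i + 1)) = i + 1 := by abel
    have e2 : k + -(k - (i + 1) + 1) = i := by abel
    rw [e1, e2]
    exact hi.symm

/-- `w` is a vertex of the view from `r` -/
def WW (g : Fin n → Fin n → Fin n) (C : Fin 5 → Fin n) (r w : Fin n) : Prop := ∃ i, g r (C i) = w

lemma WW_act (C : Fin 5 → Fin n) (k : Fin 5) (b : Bool) : WW g (act k b C) = WW g C := by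
  funext r w
  unfold WW
  apply propext
  constructor
  · rintro ⟨i, hi⟩; exact ⟨_, hi⟩
  · rintro ⟨j, hj⟩
    obtain ⟨i, hi⟩ := (act_bij k b).2 j
    exact ⟨i, by unfold act; simp only at hi; rw [hi, hj]⟩

lemma mem_Vs_vw {C : Fin 5 → Fin n} {j : Fin 5} {w : Fin n} :
    w ∈ Vs (vw g C j) ↔ WW g C (C j) w := by
  rw [mem_Vs]; rfl

lemma ViolK_iff {SP : Sym2 (Fin n) → Sym2 (Fin n) → Prop} {C : Fin 5 → Fin n}
    (h : ¬ VK G f g SP C) (i j σ : Fin 5) (hσ : σ = 1 ∨ σ = -1)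
    (h1 : RR G f g SP (vw g C 0 i) (vw g C 0 (i + 1)) (C j) (C (j + σ)))
    (h2 : RR G f g SP (vw g C 0 i) (vw g C 0 (i - 1)) (C j) (C (j - σ))) (w : Fin n) :
    WW g C (C j) w ↔ WW g C (C 0) w := by
  by_contra hne
  apply h
  refine ⟨i, j, σ, hσ, h1, h2, fun hh => hne ?_⟩
  rw [← mem_Vs_vw, ← mem_Vs_vw, hh]

end Pool.Agent.U140.SG
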