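import Pool.Agent.U140.SG.Ty3

/-! Parameters, part one: the failure probability. -/

set_option linter.unusedSectionVars false
set_option linter.unusedVariables false

namespace Pool.Agent.U140.SG

open Finset Pool.Agent.Q299.PW

lemma half_le_exp : (1 / 2 : ℝ) ≤ Real.exp (-(1 / 2)) := by
  have := Real.add_one_le_exp (-(1 / 2) : ℝ)
  linarith

lemma pow_half_le {a : ℝ} (ha0 : 0 ≤ a) (ha : a ≤ 1 / 2) {k : ℕ} {L : ℝ} (hk : 2 * L ≤ k) :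
    a ^ k ≤ Real.exp (-L) := by
  calc a ^ k ≤ (Real.exp (-(1 / 2))) ^ k := pow_le_pow_left₀ ha0 (ha.trans half_le_exp) k
    _ = Real.exp (-(k / 2 : ℝ)) := by rw [← Real.exp_nat_mul]; congr 1; ring
    _ ≤ Real.exp (-L) := by rw [Real.exp_le_exp]; linarith

lemma one_add_pow_le {y : ℝ} (hy : 0 ≤ y) {N : ℕ} {z : ℝ} (hz : (N : ℝ) * y ≤ z) (hz1 : z ≤ 1) :
    (1 + y) ^ N - 1 ≤ 2 * z := by
  have h1 : (1 + y) ^ N ≤ Real.exp (N * y) := by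
    rw [Real.exp_nat_mul]
    refine pow_le_pow_left₀ (by linarith) ?_ N
    have := Real.add_one_le_exp y
    linarith
  have h0 : 0 ≤ (N : ℝ) * y := by positivity
  have h2 := Real.abs_exp_sub_one_le (x := (N : ℝ) * y) (by rw [abs_of_nonneg h0]; linarith)
  rw [abs_of_nonneg h0] at h2
  have h3 := (abs_le.1 h2).2
  linarith

lemma exp_one_lt' : Real.exp 1 < 2.7182818286 := Real.exp_one_lt_d9

structure Hyp (n M : ℕ) (p L : ℝ) : Prop where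
  p0 : 0 < p
  p1 : p ≤ 1
  L1 : 1 ≤ L
  X1 : 1 ≤ (n : ℝ)
  XM : (n : ℝ) ≤ L ^ M
  q : (n : ℝ) ^ 2 * p ^ 3 * L ^ 24 ≤ 1
  De : L ^ 32 ≤ (n : ℝ) ^ 3 * p ^ 4

variable {n M : ℕ} {p L : ℝ}

namespace Hyp

lemma q1 (h : Hyp n M p L) : (n : ℝ) ^ 2 * p ^ 3 ≤ 1 := by
  have h1 : 1 ≤ L ^ 24 := one_le_pow₀ h.L1
  have h2 : 0 ≤ (n : ℝ) ^ 2 * p ^ 3 := by have := h.p0; positivity
  nlinarith [h.q]

lemma ledelta (h : Hyp n M p L) : (n : ℝ) ^ 3 * p ^ 4 ≤ n * p := by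
  have h0 := h.p0
  have : (n : ℝ) ^ 3 * p ^ 4 = (n : ℝ) ^ 2 * p ^ 3 * (n * p) := by ring
  rw [this]
  have h2 : 0 ≤ (n : ℝ) * p := by positivity
  nlinarith [h.q1]

lemma L32 (h : Hyp n M p L) : L ≤ L ^ 32 := le_self_pow₀ h.L1 (by norm_num)

lemma d_ge (h : Hyp n M p L) : L ^ 32 ≤ n * p := h.De.trans h.ledelta

lemma d1 (h : Hyp n M p L) : 1 ≤ n * p := (one_le_pow₀ h.L1).trans h.d_ge

lemma X_ge (h : Hyp n M p L) : L ^ 32 ≤ n := by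
  refine h.d_ge.trans ?_
  have h0 := h.p1
  have : (0 : ℝ) ≤ n := by positivity
  nlinarith

end Hyp

noncomputable def Dp (n : ℕ) (p : ℝ) : ℕ := ⌈6 * ((n : ℝ) * p)⌉₊

lemma Dp_ge (n : ℕ) (p : ℝ) : 6 * ((n : ℝ) * p) ≤ Dp n p := Nat.le_ceil _

lemma Dp_le (h : Hyp n M p L) : (Dp n p : ℝ) ≤ 7 * (n * p) := by
  have h1 := Nat.ceil_lt_add_one (a := 6 * ((n : ℝ) * p)) (by have := h.d1; linarith)
  have := h.d1
  unfold Dp
  linarith

lemma Wt_le (h : Hyp n M p L) : Wt n p (Dp n p) ≤ 169 * ((n : ℝ) ^ 2 * p ^ 3) := by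
  unfold Wt
  have h0 := h.p0
  have h1 := Dp_le h
  have hn : (0 : ℝ) ≤ n := by positivity
  have hD : (0 : ℝ) ≤ Dp n p := by positivity
  have h2 : 3 * (Dp n p : ℝ) * n * p ^ 2 ≤ 3 * (7 * (n * p)) * n * p ^ 2 := by gcongr
  have h3 : 3 * (Dp n p : ℝ) ^ 2 * p ≤ 3 * (7 * (n * p)) ^ 2 * p := by gcongr
  nlinarith

lemma Wt_le_inv (h : Hyp n M p L) (hL : 169 ≤ L) {C : ℝ} (hC : 0 ≤ C) (hCL : C ≤ L) {j : ℕ}
    (hj : j ≤ 22) : C * L ^ j * Wt n p (Dp n p) ≤ 1 := by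
  have h0 := h.p0
  have h1 := Wt_le h
  have hL0 : 0 ≤ L := by linarith
  have hq : 0 ≤ (n : ℝ) ^ 2 * p ^ 3 := by positivity
  have h2 : L ^ j ≤ L ^ 22 := pow_le_pow_right₀ h.L1 hj
  have hW0 := Wt_nonneg (n := n) h0.le (Dp n p)
  calc C * L ^ j * Wt n p (Dp n p) ≤ L * L ^ 22 * (169 * ((n : ℝ) ^ 2 * p ^ 3)) := by gcongr
    _ ≤ L * L ^ 22 * (L * ((n : ℝ) ^ 2 * p ^ 3)) := by gcongr
    _ = (n : ℝ) ^ 2 * p ^ 3 * L ^ 24 := by ring
    _ ≤ 1 := h.q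

/-- part 1 -/
lemma part1 (h : Hyp n M p L) :
    n * (Real.exp 1 * n / (Dp n p + 1 : ℕ) * p) ^ (Dp n p + 1) ≤ L ^ M * Real.exp (-L) := by
  have h0 := h.p0
  have hd := h.d1
  have hD := Dp_ge n p
  have he := exp_one_lt'
  have hL0 : 0 ≤ L := by linarith [h.L1]
  refine mul_le_mul h.XM (pow_half_le (by positivity) ?_ ?_) (by positivity) (by positivity)
  · rw [div_mul_eq_mul_div, div_le_iff₀ (by positivity)]
    push_cast
    have : Real.exp 1 * n * p = Real.exp 1 * (n * p) := by ring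
    rw [this]
    nlinarith
  · push_cast
    have := h.d_ge
    have := h.L32
    linarith

/-- part 2 -/
lemma part2 (h : Hyp n M p L) (hL : 169 ≤ L) :
    n ^ 2 * (Wt n p (Dp n p)) ^ (2 * M + 1) ≤ 1 / L := by
  have h0 := h.p0
  have hL0 : 0 < L := by linarith
  have hW := Wt_le_inv h hL (C := 1) (by norm_num) h.L1 (j := 1) (by norm_num)
  have hW0 := Wt_nonneg (n := n) h0.le (Dp n p)
  have h1 : Wt n p (Dp n p) ≤ 1 / L := by
    rw [le_div_iff₀ hL0]; nlinarith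
  have h2 : (n : ℝ) ^ 2 ≤ L ^ (2 * M) := by
    calc (n : ℝ) ^ 2 ≤ (L ^ M) ^ 2 := pow_le_pow_left₀ (by positivity) h.XM 2
      _ = L ^ (2 * M) := by rw [← pow_mul, mul_comm]
  calc (n : ℝ) ^ 2 * (Wt n p (Dp n p)) ^ (2 * M + 1) ≤ L ^ (2 * M) * (1 / L) ^ (2 * M + 1) := by
        gcongr
    _ = 1 / L := by
        rw [pow_succ (1 / L), div_pow, one_pow]
        field_simp

noncomputable def rp (n : ℕ) (p : ℝ) : ℕ := ⌈7000 * ((n : ℝ) ^ 3 * p ^ 4)⌉₊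

lemma rp_ge (n : ℕ) (p : ℝ) : 7000 * ((n : ℝ) ^ 3 * p ^ 4) ≤ rp n p := Nat.le_ceil _

lemma De1 (h : Hyp n M p L) : 1 ≤ (n : ℝ) ^ 3 * p ^ 4 := (one_le_pow₀ h.L1).trans h.De

lemma rp_le (h : Hyp n M p L) : (rp n p : ℝ) ≤ 7001 * ((n : ℝ) ^ 3 * p ^ 4) := by
  have h2 := De1 h
  have h1 := Nat.ceil_lt_add_one (a := 7000 * ((n : ℝ) ^ 3 * p ^ 4)) (by linarith)
  unfold rp
  linarith

/-- part 3 -/
lemma part3 (h : Hyp n M p L) :
    n ^ 2 * (((Dp n p).choose (rp n p) : ℝ) * (Wt n p (Dp n p)) ^ (rp n p)) ≤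
      L ^ (2 * M) * Real.exp (-L) := by
  have h0 := h.p0
  have hL0 : 0 ≤ L := by linarith [h.L1]
  have hDe := De1 h
  have hrp : (0 : ℝ) < rp n p := by have := rp_ge n p; linarith
  have hrp' : 0 < rp n p := by exact_mod_cast hrp
  have hW0 := Wt_nonneg (n := n) h0.le (Dp n p)
  have h2 : (n : ℝ) ^ 2 ≤ L ^ (2 * M) := by
    calc (n : ℝ) ^ 2 ≤ (L ^ M) ^ 2 := pow_le_pow_left₀ (by positivity) h.XM 2
      _ = L ^ (2 * M) := by rw [← pow_mul, mul_comm]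
  refine mul_le_mul h2 ?_ (by positivity) (by positivity)
  have h3 := choose_le_exp (Dp n p) (rp n p) hrp'
  have h4 : Real.exp 1 * (Dp n p : ℝ) / rp n p * Wt n p (Dp n p) ≤ 1 / 2 := by
    rw [div_mul_eq_mul_div, div_le_iff₀ hrp]
    have e1 := Wt_le h
    have e2 := Dp_le h
    have e3 := exp_one_lt'
    have e4 : Real.exp 1 * (Dp n p : ℝ) * Wt n p (Dp n p) ≤
        2.7182818286 * (7 * (n * p)) * (169 * ((n : ℝ) ^ 2 * p ^ 3)) := by gcongr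
    have e5 : 2.7182818286 * (7 * (n * p)) * (169 * ((n : ℝ) ^ 2 * p ^ 3)) =
        2.7182818286 * 7 * 169 * ((n : ℝ) ^ 3 * p ^ 4) := by ring
    have e6 := rp_ge n p
    rw [e5] at e4
    nlinarith
  calc ((Dp n p).choose (rp n p) : ℝ) * (Wt n p (Dp n p)) ^ (rp n p)
      ≤ (Real.exp 1 * (Dp n p : ℝ) / rp n p) ^ (rp n p) * (Wt n p (Dp n p)) ^ (rp n p) :=
        mul_le_mul_of_nonneg_right h3 (by positivity)
    _ = (Real.exp 1 * (Dp n p : ℝ) / rp n p * Wt n p (Dp n p)) ^ (rp n p) := by rw [mul_pow]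
    _ ≤ Real.exp (-L) := by
        refine pow_half_le (by positivity) h4 ?_
        have e6 := rp_ge n p
        have := h.De
        have := h.L32
        linarith

/-- the parts of the vertex set -/
lemma N_facts (hn : 8 ≤ n) : 3 * (n / 4) + 2 ≤ n ∧ (n : ℝ) / 8 ≤ ((n / 4 : ℕ) : ℝ) := by
  refine ⟨by omega, ?_⟩
  have h1 : n ≤ 8 * (n / 4) := by omega
  have h2 : (n : ℝ) ≤ 8 * ((n / 4 : ℕ) : ℝ) := by exact_mod_cast h1
  linarith

noncomputable def w0 (n : ℕ) (p : ℝ) : ℝ := ((n / 4 : ℕ) : ℝ) * p / 4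
noncomputable def b0 (n K : ℕ) (p : ℝ) : ℝ := w0 n p * ((n / 4 : ℕ) : ℝ) * p / 4 / (K + 1)

lemma w0_ge (hn : 8 ≤ n) (hp : 0 < p) : (n : ℝ) * p / 32 ≤ w0 n p := by
  have h := (N_facts hn).2
  unfold w0
  have : (n : ℝ) / 8 * p ≤ ((n / 4 : ℕ) : ℝ) * p := mul_le_mul_of_nonneg_right h hp.le
  linarith

lemma w0N_ge (hn : 8 ≤ n) (hp : 0 < p) :
    ((n : ℝ) * p) ^ 2 / 1024 ≤ w0 n p * ((n / 4 : ℕ) : ℝ) * p / 4 := by
  have h := (N_facts hn).2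
  have h2 := w0_ge hn hp
  have h3 : (n : ℝ) * p / 32 * (n / 8) ≤ w0 n p * ((n / 4 : ℕ) : ℝ) :=
    mul_le_mul h2 h (by positivity) (by unfold w0; positivity)
  have h4 := mul_le_mul_of_nonneg_right h3 hp.le
  nlinarith

lemma b0w0_ge (hn : 8 ≤ n) (hp : 0 < p) (K : ℕ) :
    (n : ℝ) ^ 3 * p ^ 4 / (131072 * (K + 1)) ≤ b0 n K p * w0 n p * p / 4 := by
  have h1 := w0N_ge hn hp
  have h2 := w0_ge hn hp
  have hK : (0 : ℝ) < K + 1 := by positivity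
  have h3 : ((n : ℝ) * p) ^ 2 / 1024 / (K + 1) ≤ b0 n K p := by
    unfold b0
    exact div_le_div_of_nonneg_right h1 hK.le
  have hb : 0 ≤ b0 n K p := le_trans (by positivity) h3
  have h4 : ((n : ℝ) * p) ^ 2 / 1024 / (K + 1) * (n * p / 32) ≤ b0 n K p * w0 n p :=
    mul_le_mul h3 h2 (by positivity) hb
  have h5 := mul_le_mul_of_nonneg_right h4 hp.le
  have e : (n : ℝ) ^ 3 * p ^ 4 / (131072 * (K + 1)) =
      ((n : ℝ) * p) ^ 2 / 1024 / (K + 1) * (n * p / 32) * p / 4 := by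
    field_simp
    ring
  rw [e]
  linarith

/-- part 4 -/
lemma part4 (h : Hyp n M p L) (hn : 8 ≤ n) (K : ℕ) (hK : 131072 * (K + 1 : ℝ) ≤ L) :
    n ^ 2 * (2 * Real.exp (-(((n / 4 : ℕ) : ℝ) * p / 4)) +
      Real.exp (-(w0 n p * ((n / 4 : ℕ) : ℝ) * p / 4)) +
      Real.exp (-(b0 n K p * w0 n p * p / 4))) ≤ 4 * (L ^ (2 * M) * Real.exp (-L)) := by
  have h0 := h.p0
  have hL0 : 0 < L := by linarith [h.L1]
  have h2 : (n : ℝ) ^ 2 ≤ L ^ (2 * M) := by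
    calc (n : ℝ) ^ 2 ≤ (L ^ M) ^ 2 := pow_le_pow_left₀ (by positivity) h.XM 2
      _ = L ^ (2 * M) := by rw [← pow_mul, mul_comm]
  have hKp : (1 : ℝ) ≤ K + 1 := by linarith [Nat.cast_nonneg (α := ℝ) K]
  have hL2 : 131072 ≤ L := by nlinarith
  have hLL : L * L ≤ L ^ 32 := by
    calc L * L = L ^ 2 := by ring
      _ ≤ L ^ 32 := pow_le_pow_right₀ h.L1 (by norm_num)
  have a1 : L ≤ ((n / 4 : ℕ) : ℝ) * p / 4 := by
    have := w0_ge hn h0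
    unfold w0 at this
    have h3 := h.d_ge
    nlinarith
  have hdd : (n : ℝ) * p ≤ (n * p) ^ 2 := by
    have := h.d1
    nlinarith
  have a2 : L ≤ w0 n p * ((n / 4 : ℕ) : ℝ) * p / 4 := by
    have := w0N_ge hn h0
    have h3 := h.d_ge
    nlinarith
  have a3 : L ≤ b0 n K p * w0 n p * p / 4 := by
    refine le_trans ?_ (b0w0_ge hn h0 K)
    rw [le_div_iff₀ (by positivity)]
    have h3 := h.De
    nlinarith
  have e1 : Real.exp (-(((n / 4 : ℕ) : ℝ) * p / 4)) ≤ Real.exp (-L) := by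
    rw [Real.exp_le_exp]; linarith
  have e2 : Real.exp (-(w0 n p * ((n / 4 : ℕ) : ℝ) * p / 4)) ≤ Real.exp (-L) := by
    rw [Real.exp_le_exp]; linarith
  have e3 : Real.exp (-(b0 n K p * w0 n p * p / 4)) ≤ Real.exp (-L) := by
    rw [Real.exp_le_exp]; linarith
  calc _ ≤ (n : ℝ) ^ 2 * (4 * Real.exp (-L)) := by
        refine mul_le_mul_of_nonneg_left (by linarith) (by positivity)
    _ ≤ L ^ (2 * M) * (4 * Real.exp (-L)) := mul_le_mul_of_nonneg_right h2 (by positivity)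
    _ = _ := by ring

/-- part 5 -/
lemma part5 (h : Hyp n M p L) (hL : 6 ^ 7 ≤ L) :
    (1 + (Real.exp 1 * (2 * Dp n p) / 7 * p) ^ 7) ^ n - 1 ≤ 2 * (6 ^ 7 / L) := by
  have h0 := h.p0
  have hL0 : 0 < L := by linarith [h.L1]
  have hX := h.X1
  have hX0 : (0 : ℝ) < n := by linarith
  refine one_add_pow_le (by positivity) ?_ ?_
  · have e1 := Dp_le h
    have e2 := exp_one_lt'
    have e3 : Real.exp 1 * (2 * (Dp n p : ℝ)) / 7 * p ≤ 6 * (n * p ^ 2) := by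
      have e4 : Real.exp 1 * (2 * (Dp n p : ℝ)) ≤ 3 * (2 * (7 * (n * p))) := by
        gcongr; linarith
      have e5 : Real.exp 1 * (2 * (Dp n p : ℝ)) / 7 * p ≤ 3 * (2 * (7 * (n * p))) / 7 * p := by
        gcongr
      calc _ ≤ _ := e5
        _ = 6 * (n * p ^ 2) := by ring
    have hy0 : 0 ≤ (n : ℝ) * p ^ 2 := by positivity
    have hy6 : ((n : ℝ) * p ^ 2) ^ 6 * n ^ 2 ≤ 1 := by
      have e : ((n : ℝ) * p ^ 2) ^ 6 * n ^ 2 = ((n : ℝ) ^ 2 * p ^ 3) ^ 4 := by ring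
      rw [e]
      exact pow_le_one₀ (by positivity) h.q1
    have hy1 : (n : ℝ) * p ^ 2 ≤ 1 := by
      by_contra hh
      push Not at hh
      have h3 : 1 < ((n : ℝ) * p ^ 2) ^ 6 := one_lt_pow₀ hh (by norm_num)
      have h4 : 1 ≤ (n : ℝ) ^ 2 := one_le_pow₀ hX
      nlinarith
    have e4 : (Real.exp 1 * (2 * (Dp n p : ℝ)) / 7 * p) ^ 7 ≤ 6 ^ 7 * ((n : ℝ) * p ^ 2) ^ 6 := by
      calc _ ≤ (6 * ((n : ℝ) * p ^ 2)) ^ 7 := pow_le_pow_left₀ (by positivity) e3 7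
        _ = 6 ^ 7 * (((n : ℝ) * p ^ 2) ^ 6 * (n * p ^ 2)) := by ring
        _ ≤ 6 ^ 7 * (((n : ℝ) * p ^ 2) ^ 6 * 1) := by gcongr
        _ = _ := by ring
    have e5 : (n : ℝ) * ((Real.exp 1 * (2 * (Dp n p : ℝ)) / 7 * p) ^ 7) ≤ 6 ^ 7 / n := by
      rw [le_div_iff₀ hX0]
      calc (n : ℝ) * ((Real.exp 1 * (2 * (Dp n p : ℝ)) / 7 * p) ^ 7) * n
          ≤ n * (6 ^ 7 * ((n : ℝ) * p ^ 2) ^ 6) * n := by gcongr
        _ = 6 ^ 7 * (((n : ℝ) * p ^ 2) ^ 6 * n ^ 2) := by ring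
        _ ≤ 6 ^ 7 * 1 := by gcongr
        _ = 6 ^ 7 := by ring
    refine e5.trans ?_
    refine div_le_div_of_nonneg_left (by norm_num) hL0 ?_
    exact h.L32.trans h.X_ge
  · rw [div_le_one hL0]; exact hL

end Pool.Agent.U140.SG
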