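import Pool.Agent.U140.SG.Par1

/-! Parameters, part two. -/

set_option linter.unusedSectionVars false
set_option linter.unusedVariables false

namespace Pool.Agent.U140.SG

open Finset Pool.Agent.Q299.PW

variable {n M : ℕ} {p L : ℝ}

def rM (M : ℕ) : ℕ := 2 * M + 1
def Kc (M : ℕ) : ℕ := 3 * rM M * (3 * rM M)
def C2 (M : ℕ) : ℕ := (7 * Kc M + 6) * 7001
noncomputable def Upc (M n : ℕ) (p : ℝ) : ℕ := Kc M * rp n p + 6 * rp n p * (Kc M + 1)
noncomputable def rho (n : ℕ) (p L : ℝ) : ℝ := Real.sqrt (Real.sqrt (L / ((n : ℝ) ^ 3 * p ^ 4)))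
noncomputable def tau (n : ℕ) (p L : ℝ) : ℕ := ⌊(n : ℝ) ^ 3 * p ^ 4 / L⌋₊
noncomputable def muc (M n : ℕ) (p L : ℝ) : ℕ := 50 * Upc M n p / tau n p L
noncomputable def kc (M : ℕ) (L : ℝ) : ℕ := ⌈6 * ((C2 M : ℝ) * L)⌉₊
noncomputable def L0c (M : ℕ) (L : ℝ) : ℕ := 10 * (kc M L * (1 + 5 * K5 (Kc M)))
def C0c (M : ℕ) : ℕ := 7 * M + 1
noncomputable def r1c (n : ℕ) (p L : ℝ) : ℕ := ⌊(n : ℝ) ^ 3 * p ^ 4 / L ^ 3⌋₊

lemma cancel1 {D L : ℝ} (hD : 0 < D) (hL : 0 < L) : D / L * (L / D) = 1 := by field_simp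
lemma cancel2 {D L : ℝ} (hD : 0 < D) (C : ℝ) : C * D * (L / D) = C * L := by field_simp

lemma C2_ge (M : ℕ) : 1 ≤ C2 M := by unfold C2; omega
lemma C2_ge' (M : ℕ) : (1 : ℝ) ≤ C2 M := by exact_mod_cast C2_ge M

lemma Upc_le (h : Hyp n M p L) : (Upc M n p : ℝ) ≤ C2 M * ((n : ℝ) ^ 3 * p ^ 4) := by
  have h1 := rp_le h
  have e : (Upc M n p : ℝ) = (7 * Kc M + 6) * rp n p := by
    unfold Upc; push_cast; ring
  have e2 : (C2 M : ℝ) = (7 * Kc M + 6) * 7001 := by unfold C2; push_cast; ring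
  rw [e, e2]
  have : (0 : ℝ) ≤ 7 * (Kc M : ℝ) + 6 := by positivity
  nlinarith [mul_le_mul_of_nonneg_left h1 this]

lemma rho4 (h : Hyp n M p L) : rho n p L ^ 4 = L / ((n : ℝ) ^ 3 * p ^ 4) := by
  have h1 := De1 h
  have hL := h.L1
  have h2 : 0 ≤ L / ((n : ℝ) ^ 3 * p ^ 4) := by positivity
  unfold rho
  have e : ∀ x : ℝ, x ^ 4 = (x ^ 2) ^ 2 := fun x => by ring
  rw [e, Real.sq_sqrt (Real.sqrt_nonneg _), Real.sq_sqrt h2]

lemma rho_pos (h : Hyp n M p L) : 0 < rho n p L := by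
  have h1 := De1 h
  have hL := h.L1
  unfold rho
  refine Real.sqrt_pos.2 (Real.sqrt_pos.2 ?_)
  positivity

lemma rho_le (h : Hyp n M p L) : rho n p L ≤ 1 / L ^ 2 := by
  have hL := h.L1
  have hL0 : 0 < L := by linarith
  have hr := rho_pos h
  have hD := h.De
  by_contra hh
  push Not at hh
  have h1 : (1 / L ^ 2) ^ 4 < rho n p L ^ 4 := pow_lt_pow_left₀ hh (by positivity) (by norm_num)
  rw [rho4 h] at h1
  have h2 : L / ((n : ℝ) ^ 3 * p ^ 4) ≤ L / L ^ 32 :=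
    div_le_div_of_nonneg_left hL0.le (by positivity) hD
  have h3 : L / L ^ 32 = (1 / L ^ 2) ^ 4 / L ^ 23 := by field_simp
  have h4 : (1 / L ^ 2) ^ 4 / L ^ 23 ≤ (1 / L ^ 2) ^ 4 :=
    div_le_self (by positivity) (one_le_pow₀ hL)
  linarith

lemma rho_half (h : Hyp n M p L) (hL : 2 ≤ L) : rho n p L ≤ 1 / 2 := by
  refine (rho_le h).trans ?_
  refine one_div_le_one_div_of_le (by norm_num) ?_
  nlinarith

lemma rho_ge (h : Hyp n M p L) : L / n ≤ rho n p L := by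
  have h4 := rho4 h
  have h0 := rho_pos h
  have hL := h.L1
  have h1 : rho n p L ≤ 1 := by
    refine (rho_le h).trans ?_
    rw [div_le_one (by positivity)]
    exact one_le_pow₀ hL
  have h2 : rho n p L ^ 4 ≤ rho n p L := by
    calc rho n p L ^ 4 = rho n p L * rho n p L ^ 3 := by ring
      _ ≤ rho n p L * 1 := by
          refine mul_le_mul_of_nonneg_left (pow_le_one₀ h0.le h1) h0.le
      _ = _ := by ring
  refine le_trans ?_ h2
  rw [h4]
  refine div_le_div_of_nonneg_left (by linarith) (by have := De1 h; linarith) ?_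
  refine h.ledelta.trans ?_
  have := h.p1
  have : (0 : ℝ) ≤ n := by positivity
  nlinarith [h.p0]

lemma tau_pos (h : Hyp n M p L) : 0 < tau n p L := by
  have hL := h.L1
  have hL0 : 0 < L := by linarith
  unfold tau
  rw [Nat.floor_pos, le_div_iff₀ hL0, one_mul]
  exact h.L32.trans h.De

lemma tau_le (h : Hyp n M p L) : (tau n p L : ℝ) ≤ (n : ℝ) ^ 3 * p ^ 4 / L := by
  have hL := h.L1
  have h0 := h.p0
  exact Nat.floor_le (by positivity)

lemma tau_ge (h : Hyp n M p L) : (n : ℝ) ^ 3 * p ^ 4 / L ≤ 2 * tau n p L := by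
  have h1 := Nat.lt_floor_add_one ((n : ℝ) ^ 3 * p ^ 4 / L)
  have h2 : (1 : ℝ) ≤ tau n p L := by exact_mod_cast tau_pos h
  unfold tau at *
  linarith

lemma tau_rho (h : Hyp n M p L) : (tau n p L : ℝ) * rho n p L ^ 4 ≤ 1 := by
  have hL := h.L1
  have hL0 : 0 < L := by linarith
  have hD := De1 h
  have hD0 : 0 < (n : ℝ) ^ 3 * p ^ 4 := by linarith
  rw [rho4 h]
  have h1 := tau_le h
  calc (tau n p L : ℝ) * (L / ((n : ℝ) ^ 3 * p ^ 4)) ≤
      ((n : ℝ) ^ 3 * p ^ 4 / L) * (L / ((n : ℝ) ^ 3 * p ^ 4)) := by gcongr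
    _ = 1 := cancel1 hD0 hL0

lemma tau_rho' (h : Hyp n M p L) : 1 ≤ 2 * (tau n p L : ℝ) * rho n p L ^ 4 := by
  have hL := h.L1
  have hL0 : 0 < L := by linarith
  have hD := De1 h
  have hD0 : 0 < (n : ℝ) ^ 3 * p ^ 4 := by linarith
  rw [rho4 h]
  have h1 := tau_ge h
  calc 1 = ((n : ℝ) ^ 3 * p ^ 4 / L) * (L / ((n : ℝ) ^ 3 * p ^ 4)) := (cancel1 hD0 hL0).symm
    _ ≤ (2 * tau n p L) * (L / ((n : ℝ) ^ 3 * p ^ 4)) := by gcongr

lemma Up_rho (h : Hyp n M p L) : (Upc M n p : ℝ) * rho n p L ^ 4 ≤ C2 M * L := by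
  have hL := h.L1
  have hL0 : 0 < L := by linarith
  have hD := De1 h
  have hD0 : 0 < (n : ℝ) ^ 3 * p ^ 4 := by linarith
  rw [rho4 h]
  have h1 := Upc_le h
  calc (Upc M n p : ℝ) * (L / ((n : ℝ) ^ 3 * p ^ 4)) ≤
      (C2 M * ((n : ℝ) ^ 3 * p ^ 4)) * (L / ((n : ℝ) ^ 3 * p ^ 4)) := by gcongr
    _ = C2 M * L := cancel2 hD0 _

lemma hU_ok (h : Hyp n M p L) (hL : 10 * (C2 M : ℝ) ≤ L) :
    (10 * Upc M n p : ℝ) * rho n p L ^ 5 ≤ 1 := by
  have h1 := Up_rho h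
  have h2 := rho_le h
  have h3 := rho_pos h
  have hL1 := h.L1
  have hL0 : 0 < L := by linarith
  have e : (10 * Upc M n p : ℝ) * rho n p L ^ 5 =
      10 * ((Upc M n p : ℝ) * rho n p L ^ 4) * rho n p L := by ring
  rw [e]
  calc 10 * ((Upc M n p : ℝ) * rho n p L ^ 4) * rho n p L ≤ 10 * (C2 M * L) * (1 / L ^ 2) := by
        gcongr
    _ = 10 * C2 M / L := by field_simp
    _ ≤ 1 := by rw [div_le_one hL0]; exact hL

lemma mu_lt (h : Hyp n M p L) : 50 * Upc M n p < (muc M n p L + 1) * tau n p L := by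
  have h1 := tau_pos h
  unfold muc
  exact (Nat.div_lt_iff_lt_mul h1).1 (Nat.lt_succ_self _)

lemma mu_le (h : Hyp n M p L) : (muc M n p L : ℝ) ≤ 100 * (C2 M * L) := by
  have h1 := tau_pos h
  have h1' : (0 : ℝ) < tau n p L := by exact_mod_cast h1
  have h2 : muc M n p L * tau n p L ≤ 50 * Upc M n p := Nat.div_mul_le_self _ _
  have h3 : (muc M n p L : ℝ) * tau n p L ≤ 50 * Upc M n p := by exact_mod_cast h2
  have h4 := Up_rho h
  have h5 := tau_rho' h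
  have hr := rho_pos h
  have h6 : (muc M n p L : ℝ) * 1 ≤ muc M n p L * (2 * tau n p L * rho n p L ^ 4) :=
    mul_le_mul_of_nonneg_left h5 (by positivity)
  have h7 : (muc M n p L : ℝ) * (2 * tau n p L * rho n p L ^ 4) =
      2 * rho n p L ^ 4 * (muc M n p L * tau n p L) := by ring
  have h8 : 2 * rho n p L ^ 4 * (muc M n p L * tau n p L) ≤
      2 * rho n p L ^ 4 * (50 * Upc M n p) := mul_le_mul_of_nonneg_left h3 (by positivity)
  have h9 : 2 * rho n p L ^ 4 * (50 * (Upc M n p : ℝ)) = 100 * ((Upc M n p : ℝ) * rho n p L ^ 4) := by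
    ring
  linarith

lemma kc_ge (M : ℕ) (L : ℝ) : 6 * ((C2 M : ℝ) * L) ≤ kc M L := Nat.le_ceil _

lemma kc_le (h : Hyp n M p L) : (kc M L : ℝ) ≤ 7 * (C2 M * L) := by
  have hL := h.L1
  have h2 := C2_ge' M
  have h3 : 1 ≤ (C2 M : ℝ) * L := by nlinarith
  have h1 := Nat.ceil_lt_add_one (a := 6 * ((C2 M : ℝ) * L)) (by linarith)
  unfold kc
  linarith

lemma choose_rho (h : Hyp n M p L) :
    ((Upc M n p).choose (kc M L) : ℝ) * rho n p L ^ (4 * kc M L) ≤ Real.exp (-L) := by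
  have hL := h.L1
  have h2 := C2_ge' M
  have h3 : 1 ≤ (C2 M : ℝ) * L := by nlinarith
  have hk := kc_ge M L
  have hk0 : (0 : ℝ) < kc M L := by linarith
  have hk0' : 0 < kc M L := by exact_mod_cast hk0
  have h4 := choose_le_exp (Upc M n p) (kc M L) hk0'
  have hr := rho_pos h
  calc ((Upc M n p).choose (kc M L) : ℝ) * rho n p L ^ (4 * kc M L)
      ≤ (Real.exp 1 * Upc M n p / kc M L) ^ (kc M L) * rho n p L ^ (4 * kc M L) :=
        mul_le_mul_of_nonneg_right h4 (by positivity)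
    _ = (Real.exp 1 * Upc M n p / kc M L * rho n p L ^ 4) ^ (kc M L) := by
        rw [pow_mul, mul_pow]
    _ ≤ Real.exp (-L) := by
        refine pow_half_le (by positivity) ?_ (by nlinarith)
        rw [div_mul_eq_mul_div, div_le_iff₀ hk0]
        have e1 := Up_rho h
        have e2 := exp_one_lt'
        have e3 : Real.exp 1 * (Upc M n p : ℝ) * rho n p L ^ 4 =
            Real.exp 1 * ((Upc M n p : ℝ) * rho n p L ^ 4) := by ring
        rw [e3]
        have e4 : Real.exp 1 * ((Upc M n p : ℝ) * rho n p L ^ 4) ≤ 2.7182818286 * (C2 M * L) := by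
          gcongr
        linarith

lemma card_sym2_le (n : ℕ) : (Fintype.card (Sym2 (Fin n)) : ℝ) ≤ (n : ℝ) ^ 2 := by
  have h1 : Fintype.card (Sym2 (Fin n)) ≤ n * n := by
    have := Fintype.card_quotient_le (α := Fin n × Fin n) (Sym2.Rel.setoid (Fin n))
    simp only [Fintype.card_prod, Fintype.card_fin] at this
    refine le_trans (le_of_eq ?_) this
    exact Fintype.card_congr (Equiv.refl _)
  have h2 : (Fintype.card (Sym2 (Fin n)) : ℝ) ≤ (n : ℝ) * n := by exact_mod_cast h1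
  rw [sq]; exact h2

lemma herr_ok (h : Hyp n M p L) (hL2 : 2 ≤ L) (hE : L ^ (5 * M) * Real.exp (-L) ≤ 1) :
    (Fintype.card (Sym2 (Fin n)) : ℝ) * (1 / (n : ℝ) ^ 4 +
      n ^ 2 * (((Upc M n p).choose (kc M L) : ℝ) * rho n p L ^ (4 * kc M L))) ≤ rho n p L := by
  have h1 := choose_rho h
  have h2 := card_sym2_le n
  have h3 := rho_ge h
  have hX := h.X1
  have hX0 : (0 : ℝ) < n := by linarith
  have hr := rho_pos h
  refine le_trans ?_ h3
  have h4 : (Fintype.card (Sym2 (Fin n)) : ℝ) * (1 / (n : ℝ) ^ 4 +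
      n ^ 2 * (((Upc M n p).choose (kc M L) : ℝ) * rho n p L ^ (4 * kc M L))) ≤
      (n : ℝ) ^ 2 * (1 / (n : ℝ) ^ 4 + n ^ 2 * Real.exp (-L)) := by
    refine mul_le_mul h2 ?_ (by positivity) (by positivity)
    have := mul_le_mul_of_nonneg_left h1 (by positivity : (0 : ℝ) ≤ (n : ℝ) ^ 2)
    linarith
  refine h4.trans ?_
  rw [le_div_iff₀ hX0]
  have e1 : (n : ℝ) ^ 2 * (1 / (n : ℝ) ^ 4 + n ^ 2 * Real.exp (-L)) * n =
      1 / n + n ^ 5 * Real.exp (-L) := by field_simp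
  rw [e1]
  have e2 : 1 / (n : ℝ) ≤ 1 := by rw [div_le_one hX0]; exact hX
  have e3 : (n : ℝ) ^ 5 * Real.exp (-L) ≤ 1 := by
    refine le_trans ?_ hE
    refine mul_le_mul_of_nonneg_right ?_ (Real.exp_pos _).le
    calc (n : ℝ) ^ 5 ≤ (L ^ M) ^ 5 := pow_le_pow_left₀ hX0.le h.XM 5
      _ = L ^ (5 * M) := by rw [← pow_mul, mul_comm]
  linarith

end Pool.Agent.U140.SG
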