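import Pool.Agent.U140.SG.Par2

/-! Parameters, part three. -/

set_option linter.unusedSectionVars false
set_option linter.unusedVariables false

namespace Pool.Agent.U140.SG

open Finset Pool.Agent.Q299.PW

variable {n M : ℕ} {p L : ℝ}

/-- every ball matching is trivial on darts -/
def GoodG (G : SimpleGraph (Fin n)) : Prop :=
  ∀ (H : SimpleGraph (Fin n)) (f g : Fin n → Fin n → Fin n), Mt G H f g → DD G f = ∅

lemma r1_ge (h : Hyp n M p L) : (n : ℝ) ^ 3 * p ^ 4 / L ^ 3 ≤ 2 * r1c n p L := by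
  have hL := h.L1
  have hL0 : 0 < L := by linarith
  have h1 := Nat.lt_floor_add_one ((n : ℝ) ^ 3 * p ^ 4 / L ^ 3)
  have h3 : 1 ≤ r1c n p L := by
    unfold r1c
    rw [Nat.one_le_floor_iff, le_div_iff₀ (by positivity), one_mul]
    exact (pow_le_pow_right₀ hL (by norm_num)).trans h.De
  have h2 : (1 : ℝ) ≤ r1c n p L := by exact_mod_cast h3
  unfold r1c at *
  linarith

lemma r1_le (h : Hyp n M p L) : (r1c n p L : ℝ) ≤ (n : ℝ) ^ 3 * p ^ 4 / L ^ 3 := by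
  have hL := h.L1
  have h0 := h.p0
  exact Nat.floor_le (by positivity)

lemma r1_big (h : Hyp n M p L) : L ^ 29 ≤ 2 * r1c n p L := by
  have hL := h.L1
  have hL0 : 0 < L := by linarith
  refine le_trans ?_ (r1_ge h)
  rw [le_div_iff₀ (by positivity)]
  calc L ^ 29 * L ^ 3 = L ^ 32 := by ring
    _ ≤ _ := h.De

lemma cancel3 {D L C : ℝ} (hD : 0 < D) (hL : 0 < L) : C * D / (D / L ^ 3) = C * L ^ 3 := by
  field_simp

/-- part 6 -/
lemma part6 (h : Hyp n M p L) (hL : 169 ≤ L) (hC : (725214 : ℝ) * C2 M ≤ L)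
    (hM : (4 * M + 2 : ℝ) ≤ L) :
    (1 + (Real.exp 1 * (((muc M n p L + 1 : ℕ) : ℝ) * Dp n p) / r1c n p L *
      Wt n p (Dp n p) ^ 2) ^ r1c n p L) ^ (n * n) - 1 ≤ 2 * (1 / L) := by
  have h0 := h.p0
  have hL1 := h.L1
  have hL0 : 0 < L := by linarith
  have hC2 := C2_ge' M
  have hW0 := Wt_nonneg (n := n) h0.le (Dp n p)
  have hr1 := r1_big h
  have hDe := De1 h
  have hDe0 : 0 < (n : ℝ) ^ 3 * p ^ 4 := by linarith
  have hr0 : (0 : ℝ) < r1c n p L := by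
    have : (1 : ℝ) ≤ L ^ 29 := one_le_pow₀ hL1
    linarith
  -- the base
  have hbase : Real.exp 1 * (((muc M n p L + 1 : ℕ) : ℝ) * Dp n p) / r1c n p L *
      Wt n p (Dp n p) ^ 2 ≤ 1 / L := by
    have a1 : ((muc M n p L + 1 : ℕ) : ℝ) ≤ 101 * (C2 M * L) := by
      push_cast
      have := mu_le h
      have : 1 ≤ (C2 M : ℝ) * L := by nlinarith
      linarith
    have a2 := Dp_le h
    have a3 := Wt_le h
    have a4 := exp_one_lt'
    have a5 : Real.exp 1 * (((muc M n p L + 1 : ℕ) : ℝ) * Dp n p) * Wt n p (Dp n p) ≤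
        3 * (101 * (C2 M * L) * (7 * (n * p))) * (169 * ((n : ℝ) ^ 2 * p ^ 3)) := by
      gcongr
      linarith
    have a6 : 3 * (101 * (C2 M * L) * (7 * (n * p))) * (169 * ((n : ℝ) ^ 2 * p ^ 3)) =
        (358449 * C2 M * L) * ((n : ℝ) ^ 3 * p ^ 4) := by ring
    rw [a6] at a5
    have a7 : Real.exp 1 * (((muc M n p L + 1 : ℕ) : ℝ) * Dp n p) * Wt n p (Dp n p) / r1c n p L ≤
        (725214 * C2 M) * L ^ 4 := by
      rw [div_le_iff₀ hr0]
      refine a5.trans ?_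
      have b1 := r1_ge h
      rw [div_le_iff₀ (by positivity)] at b1
      have b2 : (0:ℝ) ≤ 358449 * C2 M * L := by positivity
      have b3 := mul_le_mul_of_nonneg_left b1 b2
      have b4 : 358449 * (C2 M : ℝ) * L * (2 * (r1c n p L : ℝ) * L ^ 3) =
        716898 * C2 M * (L ^ 4 * r1c n p L) := by ring
      have b5 : 0 ≤ (C2 M : ℝ) * (L ^ 4 * r1c n p L) := by positivity
      nlinarith
    have a8 := Wt_le_inv h hL (C := 725214 * C2 M) (by positivity) hC (j := 5) (by norm_num)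
    have e : Real.exp 1 * (((muc M n p L + 1 : ℕ) : ℝ) * Dp n p) / r1c n p L *
      Wt n p (Dp n p) ^ 2 = Real.exp 1 * (((muc M n p L + 1 : ℕ) : ℝ) * Dp n p) *
        Wt n p (Dp n p) / r1c n p L * Wt n p (Dp n p) := by ring
    rw [e, le_div_iff₀ hL0]
    calc _ ≤ (725214 * C2 M) * L ^ 4 * Wt n p (Dp n p) * L := by gcongr
      _ = 725214 * C2 M * L ^ 5 * Wt n p (Dp n p) := by ring
      _ ≤ 1 := a8
  have hpow : (Real.exp 1 * (((muc M n p L + 1 : ℕ) : ℝ) * Dp n p) / r1c n p L *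
      Wt n p (Dp n p) ^ 2) ^ r1c n p L ≤ (1 / L) ^ (2 * M + 1) := by
    have h1L : 1 / L ≤ 1 := by rw [div_le_one hL0]; exact hL1
    refine (pow_le_pow_left₀ (by positivity) hbase _).trans ?_
    refine pow_le_pow_of_le_one (by positivity) h1L ?_
    have : (4 * M + 2 : ℝ) ≤ 2 * r1c n p L := by
      have : L ≤ L ^ 29 := le_self_pow₀ hL1 (by norm_num)
      linarith
    have h3 : (4 * M + 2 : ℕ) ≤ 2 * r1c n p L := by exact_mod_cast this
    omega
  refine one_add_pow_le (by positivity) ?_ ?_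
  · refine (mul_le_mul_of_nonneg_left hpow (Nat.cast_nonneg _)).trans ?_
    push_cast
    have h2 : (n : ℝ) * n ≤ L ^ (2 * M) := by
      calc (n : ℝ) * n = (n : ℝ) ^ 2 := by ring
        _ ≤ (L ^ M) ^ 2 := pow_le_pow_left₀ (by positivity) h.XM 2
        _ = L ^ (2 * M) := by rw [← pow_mul, mul_comm]
    calc (n : ℝ) * n * (1 / L) ^ (2 * M + 1) ≤ L ^ (2 * M) * (1 / L) ^ (2 * M + 1) := by
          gcongr
      _ = 1 / L := by
          rw [pow_succ (1 / L), div_pow, one_pow]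
          field_simp
  · rw [div_le_one hL0]; exact hL1

lemma card_It_le (h : Hyp n M p L) : (Fintype.card (It n) : ℝ) ≤ 2 * L ^ (3 * M) := by
  have h1 := card_sym2_le n
  have hX := h.X1
  have e : (Fintype.card (It n) : ℝ) = (n : ℝ) ^ 3 + Fintype.card (Sym2 (Fin n)) := by
    rw [Fintype.card_sum, Fintype.card_prod, Fintype.card_prod, Fintype.card_fin]
    push_cast
    ring
  rw [e]
  have h2 : (n : ℝ) ^ 2 ≤ (n : ℝ) ^ 3 := pow_le_pow_right₀ hX (by norm_num)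
  have h3 : (n : ℝ) ^ 3 ≤ L ^ (3 * M) := by
    calc (n : ℝ) ^ 3 ≤ (L ^ M) ^ 3 := pow_le_pow_left₀ (by positivity) h.XM 3
      _ = L ^ (3 * M) := by rw [← pow_mul, mul_comm]
  linarith

/-- part 7 -/
lemma part7 (h : Hyp n M p L) (hL : 169 ≤ L)
    (hC : (210 : ℝ) * (C2 M * (1 + 5 * K5 (Kc M))) ≤ L) :
    ((1 + (Real.exp 1 * L0c M L / C0c M * Wt n p (Dp n p)) ^ C0c M) ^ (Fintype.card (It n)) - 1) /
      (1 / (n : ℝ) ^ 4) ≤ 4 * (1 / L) := by
  have h0 := h.p0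
  have hL1 := h.L1
  have hL0 : 0 < L := by linarith
  have hX := h.X1
  have hX0 : (0 : ℝ) < n := by linarith
  have hW0 := Wt_nonneg (n := n) h0.le (Dp n p)
  have hk := kc_le h
  have hC0 : (1 : ℝ) ≤ C0c M := by unfold C0c; push_cast; linarith [Nat.cast_nonneg (α := ℝ) M]
  have hbase : Real.exp 1 * L0c M L / C0c M * Wt n p (Dp n p) ≤ 1 / L := by
    have a4 := exp_one_lt'
    have a1 : (L0c M L : ℝ) ≤ 70 * (C2 M * (1 + 5 * K5 (Kc M))) * L := by
      have e1 : (L0c M L : ℝ) = 10 * ((kc M L : ℝ) * (1 + 5 * K5 (Kc M))) := by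
        unfold L0c; push_cast; ring
      rw [e1]
      calc 10 * ((kc M L : ℝ) * (1 + 5 * K5 (Kc M))) ≤
          10 * (7 * (C2 M * L) * (1 + 5 * K5 (Kc M))) := by gcongr
        _ = _ := by ring
    have a2 : Real.exp 1 * L0c M L / C0c M ≤ 3 * (70 * (C2 M * (1 + 5 * K5 (Kc M))) * L) := by
      have : Real.exp 1 * L0c M L / C0c M ≤ Real.exp 1 * L0c M L := by
        exact div_le_self (by positivity) hC0
      refine this.trans ?_
      gcongr
      linarith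
    have a8 := Wt_le_inv h hL (C := 210 * (C2 M * (1 + 5 * K5 (Kc M)))) (by positivity) hC
      (j := 2) (by norm_num)
    rw [le_div_iff₀ hL0]
    calc _ ≤ 3 * (70 * (C2 M * (1 + 5 * K5 (Kc M))) * L) * Wt n p (Dp n p) * L := by gcongr
      _ = 210 * (C2 M * (1 + 5 * K5 (Kc M))) * L ^ 2 * Wt n p (Dp n p) := by ring
      _ ≤ 1 := a8
  have hpow : (Real.exp 1 * L0c M L / C0c M * Wt n p (Dp n p)) ^ C0c M ≤ (1 / L) ^ (7 * M + 1) :=
    pow_le_pow_left₀ (by positivity) hbase _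
  have hX4 : (n : ℝ) ^ 4 ≤ L ^ (4 * M) := by
    calc (n : ℝ) ^ 4 ≤ (L ^ M) ^ 4 := pow_le_pow_left₀ (by positivity) h.XM 4
      _ = L ^ (4 * M) := by rw [← pow_mul, mul_comm]
  have hIt := card_It_le h
  have hz : (Fintype.card (It n) : ℝ) * (Real.exp 1 * L0c M L / C0c M * Wt n p (Dp n p)) ^ C0c M ≤
      2 * (L ^ (3 * M) * (1 / L) ^ (7 * M + 1)) := by
    calc _ ≤ 2 * L ^ (3 * M) * (1 / L) ^ (7 * M + 1) :=
          mul_le_mul hIt hpow (by positivity) (by positivity)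
      _ = _ := by ring
  have hval : L ^ (3 * M) * (1 / L) ^ (7 * M + 1) = 1 / L ^ (4 * M + 1) := by
    rw [div_pow, one_pow, mul_one_div, div_eq_div_iff (by positivity) (by positivity), one_mul,
      ← pow_add]
    congr 1
    ring
  rw [hval] at hz
  have hone : 2 * (1 / L ^ (4 * M + 1)) ≤ 1 := by
    have : L ≤ L ^ (4 * M + 1) := le_self_pow₀ hL1 (by omega)
    rw [mul_one_div, div_le_one (by positivity)]
    linarith
  have hfin := one_add_pow_le (by positivity) hz hone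
  rw [div_div_eq_mul_div, div_one]
  have h5 : ((1 + (Real.exp 1 * L0c M L / C0c M * Wt n p (Dp n p)) ^ C0c M) ^
      (Fintype.card (It n)) - 1) * (n : ℝ) ^ 4 ≤ 2 * (2 * (1 / L ^ (4 * M + 1))) * L ^ (4 * M) := by
    refine mul_le_mul hfin hX4 (by positivity) (by positivity)
  refine h5.trans (le_of_eq ?_)
  rw [pow_succ]
  field_simp
  norm_num

noncomputable def Loc' (n K : ℕ) (p : ℝ) : ℕ := ⌊b0 n K p * w0 n p * p / 4⌋₊

def C6 (M : ℕ) : ℕ := Kc M * Kc M + 24 * ((Kc M + 1) * (Kc M + 1) * Kc M) + 2 * (K5 (Kc M) * Kc M) +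
  4 * (Kc M * (Kc M + 1)) + (Kc M + 1) * (Kc M + 1) * Kc M

lemma Bf_le (K m r₁ : ℕ) (hm : 1 ≤ m) (hr : 1 ≤ r₁) :
    Bf K m r₁ ≤ r₁ * (m * m) * (K * K + 24 * ((K + 1) * (K + 1) * K) + 2 * (K5 K * K) +
      4 * (K * (K + 1)) + (K + 1) * (K + 1) * K) := by
  unfold Bf
  have hmm : 1 ≤ m * m := Nat.mul_pos hm hm
  have h1 : 1 ≤ r₁ * (m * m) := Nat.mul_pos hr hmm
  have h2 : r₁ ≤ r₁ * (m * m) := Nat.le_mul_of_pos_right _ hmm
  have h3 : m ≤ r₁ * (m * m) := by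
    calc m ≤ m * m := Nat.le_mul_of_pos_right _ hm
      _ ≤ r₁ * (m * m) := Nat.le_mul_of_pos_left _ hr
  have e1 : K * K * r₁ ≤ K * K * (r₁ * (m * m)) := Nat.mul_le_mul_left _ h2
  have e2 : 24 * r₁ * ((K + 1) * (K + 1) * (m * (m * K))) =
      24 * ((K + 1) * (K + 1) * K) * (r₁ * (m * m)) := by ring
  have e3 : 2 * (K5 K * (m * K)) ≤ 2 * (K5 K * K) * (r₁ * (m * m)) := by
    calc 2 * (K5 K * (m * K)) = 2 * (K5 K * K) * m := by ring
      _ ≤ _ := Nat.mul_le_mul_left _ h3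
  have e4 : 4 * (K * (K + 1) * m) ≤ 4 * (K * (K + 1)) * (r₁ * (m * m)) := by
    calc 4 * (K * (K + 1) * m) = 4 * (K * (K + 1)) * m := by ring
      _ ≤ _ := Nat.mul_le_mul_left _ h3
  have e5 : (K + 1) * (K + 1) * K ≤ (K + 1) * (K + 1) * K * (r₁ * (m * m)) :=
    Nat.le_mul_of_pos_right _ h1
  calc _ ≤ K * K * (r₁ * (m * m)) + 24 * ((K + 1) * (K + 1) * K) * (r₁ * (m * m)) +
      (2 * (K5 K * K) * (r₁ * (m * m)) + 4 * (K * (K + 1)) * (r₁ * (m * m))) +
      (K + 1) * (K + 1) * K * (r₁ * (m * m)) := by omega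
    _ = _ := by ring

noncomputable def cc (M : ℕ) : ℝ := (500 * K5 (Kc M) + 12) * (6 * C0c M + 1)

noncomputable def C8 (M : ℕ) : ℝ := 10 * (2 * K5 (Kc M) + cc M + 400 * cc M * K5 (Kc M) +
  200 * cc M * (100 * C2 M) * K5 (Kc M) + Kc M * K5 (Kc M) +
  50 * ((101 * C2 M) ^ 2 * C6 M) * (40 * cc M + Kc M + 30))

noncomputable def C4 (M : ℕ) : ℝ := 131072 * (Kc M + 1)

lemma hnum_ok (h : Hyp n M p L) (hn : 8 ≤ n) (hL : 2 * C4 M * (C8 M + 1) ≤ L) :
    10 * (2 * K5 (Kc M) + cc M / rho n p L ^ 4 + 400 * cc M * K5 (Kc M) +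
      200 * cc M * muc M n p L * K5 (Kc M) + Kc M * K5 (Kc M) +
      50 * Bf (Kc M) (muc M n p L + 1) (r1c n p L) * (40 * cc M + Kc M + 30)) <
      Loc' n (Kc M) p := by
  have h0 := h.p0
  have hL1 := h.L1
  have hL0 : 0 < L := by linarith
  have hDe := De1 h
  have hC2 := C2_ge' M
  have hcc : 0 ≤ cc M := by unfold cc; positivity
  have hrho : cc M / rho n p L ^ 4 = cc M * ((n : ℝ) ^ 3 * p ^ 4 / L) := by
    rw [rho4 h]; field_simp
  set Δ : ℝ := (n : ℝ) ^ 3 * p ^ 4 with hΔ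
  have hΔ0 : 0 < Δ := by linarith
  have hΔL : L ≤ Δ / L := by
    rw [le_div_iff₀ hL0]
    calc L * L = L ^ 2 := by ring
      _ ≤ L ^ 32 := pow_le_pow_right₀ hL1 (by norm_num)
      _ ≤ Δ := h.De
  have hy1 : 1 ≤ Δ / L := hL1.trans hΔL
  set y : ℝ := Δ / L with hy
  have hmu : (muc M n p L : ℝ) ≤ 100 * C2 M * y := by
    have := mu_le h
    have h2 : (C2 M : ℝ) * L ≤ C2 M * y := mul_le_mul_of_nonneg_left hΔL (by linarith)
    linarith
  have hr1 : 1 ≤ r1c n p L := by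
    have h1 := r1_big h
    have h2 : (1 : ℝ) ≤ L ^ 29 := one_le_pow₀ hL1
    have h3 : (0 : ℝ) < r1c n p L := by linarith
    have h4 : 0 < r1c n p L := by exact_mod_cast h3
    exact h4
  have hB : (Bf (Kc M) (muc M n p L + 1) (r1c n p L) : ℝ) ≤ (101 * C2 M) ^ 2 * C6 M * y := by
    have h1 := Bf_le (Kc M) (muc M n p L + 1) (r1c n p L) (by omega) hr1
    have h2 : (Bf (Kc M) (muc M n p L + 1) (r1c n p L) : ℝ) ≤
        (r1c n p L : ℝ) * (((muc M n p L + 1 : ℕ) : ℝ) * ((muc M n p L + 1 : ℕ) : ℝ)) * C6 M := by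
      unfold C6; exact_mod_cast h1
    have h3 : ((muc M n p L + 1 : ℕ) : ℝ) ≤ 101 * C2 M * L := by
      push_cast
      have := mu_le h
      have : 1 ≤ (C2 M : ℝ) * L := by nlinarith
      linarith
    have h4 := r1_le h
    refine h2.trans ?_
    calc (r1c n p L : ℝ) * (((muc M n p L + 1 : ℕ) : ℝ) * ((muc M n p L + 1 : ℕ) : ℝ)) * C6 M
        ≤ (Δ / L ^ 3) * ((101 * C2 M * L) * (101 * C2 M * L)) * C6 M := by gcongr
      _ = (101 * C2 M) ^ 2 * C6 M * y := by rw [hy]; field_simp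
  have hLo : Δ / C4 M - 1 < Loc' n (Kc M) p := by
    have h1 := Nat.lt_floor_add_one (b0 n (Kc M) p * w0 n p * p / 4)
    have h2 := b0w0_ge hn h0 (Kc M)
    unfold Loc' C4
    linarith
  refine lt_of_le_of_lt ?_ hLo
  rw [hrho]
  have hK5 : (0 : ℝ) ≤ K5 (Kc M) := by positivity
  have t1 : 2 * (K5 (Kc M) : ℝ) ≤ 2 * K5 (Kc M) * y := le_mul_of_one_le_right (by positivity) hy1
  have t2 : 400 * cc M * K5 (Kc M) ≤ 400 * cc M * K5 (Kc M) * y :=
    le_mul_of_one_le_right (by positivity) hy1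
  have t3 : 200 * cc M * muc M n p L * K5 (Kc M) ≤
      200 * cc M * (100 * C2 M * y) * K5 (Kc M) := by gcongr
  have t4 : (Kc M : ℝ) * K5 (Kc M) ≤ Kc M * K5 (Kc M) * y :=
    le_mul_of_one_le_right (by positivity) hy1
  have t5 : 50 * (Bf (Kc M) (muc M n p L + 1) (r1c n p L) : ℝ) * (40 * cc M + Kc M + 30) ≤
      50 * ((101 * C2 M) ^ 2 * C6 M * y) * (40 * cc M + Kc M + 30) := by gcongr
  have hsum : 10 * (2 * K5 (Kc M) + cc M * y + 400 * cc M * K5 (Kc M) +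
      200 * cc M * muc M n p L * K5 (Kc M) + Kc M * K5 (Kc M) +
      50 * Bf (Kc M) (muc M n p L + 1) (r1c n p L) * (40 * cc M + Kc M + 30)) ≤ C8 M * y := by
    unfold C8
    linarith
  refine hsum.trans ?_
  have hC4 : 1 ≤ C4 M := by unfold C4; linarith [Nat.cast_nonneg (α := ℝ) (Kc M)]
  have hC8 : 0 ≤ C8 M := by unfold C8; positivity
  have hyL : y * L = Δ := by rw [hy]; field_simp
  have h6 : C8 M * y + 1 ≤ (C8 M + 1) * y := by linarith
  have h7 : (C8 M + 1) * y ≤ Δ / C4 M := by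
    rw [le_div_iff₀ (by linarith)]
    rw [← hyL]
    have h8 : (C8 M + 1) * C4 M ≤ L := by nlinarith
    have h9 := mul_le_mul_of_nonneg_left h8 (by linarith : 0 ≤ y)
    linarith
  linarith

end Pool.Agent.U140.SG
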