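import Pool.Agent.U140.SG.Col2
import Pool.Agent.U140.SG.Par1

/-! Parameters for the fingerprint range. -/

set_option linter.unusedSectionVars false
set_option linter.unusedVariables false

namespace Pool.Agent.U140.SG

open Finset Pool.Agent.Q299.PW Filter Topology

variable {n : ℕ} {p L : ℝ}

structure Hyp2 (n : ℕ) (p L : ℝ) : Prop where
  p0 : 0 < p
  L1 : 1 ≤ L
  XL : (n : ℝ) = L ^ 10000
  a : 1 ≤ (n : ℝ) ^ 2 * p ^ 3 * L
  b : (n : ℝ) * p ^ 2 ≤ L

namespace Hyp2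

lemma d3 (h : Hyp2 n p L) : L ^ 9999 ≤ ((n : ℝ) * p) ^ 3 := by
  have hL := h.L1
  have hL0 : 0 < L := by linarith
  have h1 : L ^ 10000 ≤ ((n : ℝ) * p) ^ 3 * L := by
    calc L ^ 10000 = L ^ 10000 * 1 := by ring
      _ ≤ L ^ 10000 * ((n : ℝ) ^ 2 * p ^ 3 * L) := mul_le_mul_of_nonneg_left h.a (by positivity)
      _ = (n : ℝ) * ((n : ℝ) ^ 2 * p ^ 3 * L) := by rw [← h.XL]
      _ = ((n : ℝ) * p) ^ 3 * L := by ring
  have h2 : L ^ 9999 * L ≤ ((n : ℝ) * p) ^ 3 * L := by rw [← pow_succ]; exact h1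
  exact le_of_mul_le_mul_right h2 hL0

lemma d_ge (h : Hyp2 n p L) : L ^ 3333 ≤ (n : ℝ) * p := by
  have hL := h.L1
  have h0 := h.p0
  have hL0 : 0 < L := by linarith
  by_contra hh
  push Not at hh
  have h1 : ((n : ℝ) * p) ^ 3 < (L ^ 3333) ^ 3 :=
    pow_lt_pow_left₀ hh (by positivity) (by norm_num)
  rw [← pow_mul] at h1
  have := h.d3
  norm_num at h1
  linarith

lemma d_geL (h : Hyp2 n p L) {C : ℝ} (hC0 : 0 ≤ C) (hC : C ≤ L) : C * L ≤ (n : ℝ) * p := by
  have hL := h.L1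
  refine le_trans ?_ h.d_ge
  calc C * L ≤ L * L := mul_le_mul_of_nonneg_right hC (by linarith)
    _ = L ^ 2 := by ring
    _ ≤ L ^ 3333 := pow_le_pow_right₀ hL (by norm_num)

lemma n2 (h : Hyp2 n p L) (hL : 2 ≤ L) : (2 : ℝ) ≤ n := by
  rw [h.XL]
  exact hL.trans (le_self_pow₀ h.L1 (by norm_num))

lemma p4 (h : Hyp2 n p L) (hL : 16 ≤ L) : p ≤ 1 / 4 := by
  have h0 := h.p0
  by_contra hh
  push Not at hh
  have h1 := h.b
  have h2 : (n : ℝ) = L * L ^ 9999 := by rw [h.XL]; ring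
  have h3 : 16 ≤ L ^ 9999 := hL.trans (le_self_pow₀ h.L1 (by norm_num))
  have hL0 : 0 < L := by linarith
  rw [h2] at h1
  have h4 : L * (L ^ 9999 * p ^ 2) ≤ L * 1 := by linarith
  have h5 := le_of_mul_le_mul_left h4 hL0
  nlinarith

end Hyp2

noncomputable def G5 (L : ℝ) : ℕ := ⌈6 * L⌉₊
noncomputable def de5 (n : ℕ) (p : ℝ) : ℕ := ⌊((n : ℝ) - 1) * p / 4⌋₊
noncomputable def s5 (n : ℕ) (p L : ℝ) : ℕ := ⌊(n : ℝ) * p / (1000 * L)⌋₊
noncomputable def y5 (n : ℕ) (p L : ℝ) : ℕ := ⌊((n : ℝ) * p) ^ 2 / (10000 * L)⌋₊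

lemma G5_ge (L : ℝ) : 6 * L ≤ G5 L := Nat.le_ceil _
lemma G5_le (h : Hyp2 n p L) : (G5 L : ℝ) ≤ 7 * L := by
  have hL := h.L1
  have h1 := Nat.ceil_lt_add_one (a := 6 * L) (by linarith)
  unfold G5
  linarith

lemma de5_ge (h : Hyp2 n p L) (hL : 86000 ≤ L) : (n : ℝ) * p / 16 ≤ de5 n p := by
  have h1 := Nat.lt_floor_add_one (((n : ℝ) - 1) * p / 4)
  have h2 := h.n2 (by linarith)
  have h0 := h.p0
  have h3 := h.d_geL (C := 86000) (by norm_num) hL
  have h4 : (n : ℝ) * p / 8 ≤ ((n : ℝ) - 1) * p / 4 := by nlinarith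
  unfold de5
  linarith

lemma s5_le (h : Hyp2 n p L) : (s5 n p L : ℝ) ≤ (n : ℝ) * p / (1000 * L) := by
  have hL := h.L1
  have h0 := h.p0
  exact Nat.floor_le (by positivity)

lemma s5_ge (h : Hyp2 n p L) (hL : 86000 ≤ L) : (n : ℝ) * p / (2000 * L) ≤ s5 n p L := by
  have hL0 : 0 < L := by linarith
  have h1 := Nat.lt_floor_add_one ((n : ℝ) * p / (1000 * L))
  have h3 := h.d_geL (C := 86000) (by norm_num) hL
  have h4 : 1 ≤ (n : ℝ) * p / (2000 * L) := by
    rw [le_div_iff₀ (by positivity)]; nlinarith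
  have h5 : (n : ℝ) * p / (1000 * L) = 2 * ((n : ℝ) * p / (2000 * L)) := by
    field_simp; ring
  unfold s5
  linarith

lemma y5_le (h : Hyp2 n p L) : (y5 n p L : ℝ) ≤ ((n : ℝ) * p) ^ 2 / (10000 * L) := by
  have hL := h.L1
  exact Nat.floor_le (by positivity)

lemma y5_ge (h : Hyp2 n p L) (hL : 86000 ≤ L) : ((n : ℝ) * p) ^ 2 / (20000 * L) ≤ y5 n p L := by
  have hL0 : 0 < L := by linarith
  have h1 := Nat.lt_floor_add_one (((n : ℝ) * p) ^ 2 / (10000 * L))
  have h3 := h.d_geL (C := 86000) (by norm_num) hL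
  have h4 : 1 ≤ ((n : ℝ) * p) ^ 2 / (20000 * L) := by
    rw [le_div_iff₀ (by positivity)]; nlinarith
  have h5 : ((n : ℝ) * p) ^ 2 / (10000 * L) = 2 * (((n : ℝ) * p) ^ 2 / (20000 * L)) := by
    field_simp; ring
  unfold y5
  linarith

lemma cond_s (h : Hyp2 n p L) (hL : 86000 ≤ L) :
    s5 n p L * (4 * G5 L + 5) + 3 * G5 L + 4 ≤ de5 n p := by
  have hL0 : 0 < L := by linarith
  have h0 := h.p0
  have a1 := s5_le h
  have a2 := G5_le h
  have a3 := de5_ge h hL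
  have a4 := h.d_geL (C := 86000) (by norm_num) hL
  have h1 : (s5 n p L : ℝ) * (4 * G5 L + 5) + 3 * G5 L + 4 ≤ de5 n p := by
    have b1 : (s5 n p L : ℝ) * (4 * G5 L + 5) ≤ (n : ℝ) * p / (1000 * L) * (33 * L) := by
      refine mul_le_mul a1 (by linarith) (by positivity) (by positivity)
    have b2 : (n : ℝ) * p / (1000 * L) * (33 * L) = 33 / 1000 * ((n : ℝ) * p) := by
      field_simp
    rw [b2] at b1
    linarith
  exact_mod_cast h1

lemma cond_y (h : Hyp2 n p L) (hL : 86000 ≤ L) :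
    (y5 n p L + 4 * Dp n p + 4) * G5 L ≤ de5 n p * (de5 n p - 1) := by
  have hL0 : 0 < L := by linarith
  have h0 := h.p0
  have a1 := y5_le h
  have a2 := G5_le h
  have a3 := de5_ge h hL
  have a4 := h.d_geL (C := 86000) (by norm_num) hL
  have a5 : (Dp n p : ℝ) ≤ 7 * (n * p) := by
    have h1 := Nat.ceil_lt_add_one (a := 6 * ((n : ℝ) * p)) (by positivity)
    unfold Dp
    linarith
  have hδ1 : 1 ≤ de5 n p := by
    have : (1 : ℝ) ≤ de5 n p := by linarith
    exact_mod_cast this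
  have h1 : ((y5 n p L : ℝ) + 4 * Dp n p + 4) * G5 L ≤ de5 n p * (de5 n p - 1) := by
    set d : ℝ := (n : ℝ) * p with hd
    have b1 : ((y5 n p L : ℝ) + 4 * Dp n p + 4) * G5 L ≤ (d ^ 2 / (10000 * L) + 29 * d) * (7 * L) := by
      refine mul_le_mul (by linarith) a2 (by positivity) (by positivity)
    have b2 : (d ^ 2 / (10000 * L) + 29 * d) * (7 * L) = 7 / 10000 * d ^ 2 + 203 * (d * L) := by
      field_simp; ring
    have b3 : d * L ≤ d ^ 2 / 86000 := by
      rw [le_div_iff₀ (by norm_num)]; nlinarith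
    have b4 : d / 16 * (d / 16 - 1) ≤ (de5 n p : ℝ) * (de5 n p - 1) := by
      refine mul_le_mul a3 (by linarith) (by linarith) (by positivity)
    nlinarith
  have h2 : ((de5 n p - 1 : ℕ) : ℝ) = (de5 n p : ℝ) - 1 := by rw [Nat.cast_sub hδ1]; simp
  rw [← h2] at h1
  exact_mod_cast h1

lemma y5p_ge (h : Hyp2 n p L) (hL : 86000 ≤ L) : 1 / L ^ 3 ≤ (y5 n p L : ℝ) * p := by
  have hL0 : 0 < L := by linarith
  have h0 := h.p0
  have a1 := y5_ge h hL
  have a2 := h.a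
  have a3 := mul_le_mul_of_nonneg_right a1 h0.le
  refine le_trans ?_ a3
  rw [div_mul_eq_mul_div, div_le_div_iff₀ (by positivity) (by positivity)]
  have e : ((n : ℝ) * p) ^ 2 * p * L ^ 3 = ((n : ℝ) ^ 2 * p ^ 3 * L) * L ^ 2 := by ring
  rw [e]
  nlinarith

/-- lower bound for `θ` -/
lemma th_ge (h : Hyp2 n p L) (hL : 86000 ≤ L) :
    1 / (Real.sqrt (n * p) * L ^ 769) ≤ th0 n 96 p (y5 n p L) := by
  have hL0 : 0 < L := by linarith
  have hL1 := h.L1
  have h0 := h.p0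
  have hd : 1 ≤ (n : ℝ) * p := by
    have := h.d_geL (C := 1) (by norm_num) hL1
    linarith
  unfold th0
  rw [max_eq_right hd]
  have hs0 : 0 < Real.sqrt (n * p) := Real.sqrt_pos.2 (by linarith)
  have hmin : 1 / L ^ 3 ≤ min 1 ((y5 n p L : ℝ) * p) := by
    refine le_min ?_ (y5p_ge h hL)
    rw [div_le_one (by positivity)]
    exact one_le_pow₀ hL1
  have h2 : 1 / L ^ 4 ≤ min 1 ((y5 n p L : ℝ) * p) / (4 * ((96 : ℕ) : ℝ) + 4) := by
    rw [le_div_iff₀ (by positivity)]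
    refine le_trans ?_ hmin
    rw [div_mul_eq_mul_div, div_le_div_iff₀ (by positivity) (by positivity)]
    push_cast
    have : L ^ 4 = L ^ 3 * L := by ring
    rw [this]
    have h3 : 0 < L ^ 3 := by positivity
    nlinarith
  have h3 : (1 / L ^ 4) ^ (2 * 96) ≤ (min 1 ((y5 n p L : ℝ) * p) / (4 * ((96 : ℕ) : ℝ) + 4)) ^ (2 * 96) :=
    pow_le_pow_left₀ (by positivity) h2 _
  have h4 : (1 / L ^ 4) ^ (2 * 96) = 1 / L ^ 768 := by
    rw [div_pow, one_pow, ← pow_mul]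
  rw [h4] at h3
  calc 1 / (Real.sqrt (n * p) * L ^ 769) ≤ 1 / (20 * Real.sqrt (n * p)) * (1 / L ^ 768) := by
        rw [div_mul_div_comm, one_mul]
        refine one_div_le_one_div_of_le (by positivity) ?_
        have e : Real.sqrt (n * p) * L ^ 769 = L * (Real.sqrt (n * p) * L ^ 768) := by ring
        have e2 : 20 * Real.sqrt (n * p) * L ^ 768 = 20 * (Real.sqrt (n * p) * L ^ 768) := by ring
        rw [e, e2]
        exact mul_le_mul_of_nonneg_right (by linarith) (by positivity)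
    _ ≤ _ := mul_le_mul_of_nonneg_left h3 (by positivity)

lemma ths_ge (h : Hyp2 n p L) (hL : 86000 ≤ L) :
    Real.sqrt (n * p) / L ^ 771 ≤ th0 n 96 p (y5 n p L) * s5 n p L := by
  have hL0 : 0 < L := by linarith
  have hL1 := h.L1
  have h0 := h.p0
  have hd : 1 ≤ (n : ℝ) * p := by
    have := h.d_geL (C := 1) (by norm_num) hL1
    linarith
  have hs0 : 0 < Real.sqrt (n * p) := Real.sqrt_pos.2 (by linarith)
  have hss : Real.sqrt (n * p) * Real.sqrt (n * p) = n * p := Real.mul_self_sqrt (by linarith)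
  have h1 := mul_le_mul (th_ge h hL) (s5_ge h hL) (by positivity)
    (le_trans (by positivity) (th_ge h hL))
  refine le_trans ?_ h1
  have e : 1 / (Real.sqrt (n * p) * L ^ 769) * ((n : ℝ) * p / (2000 * L)) =
      Real.sqrt (n * p) / (2000 * L ^ 770) := by
    rw [div_mul_div_comm, one_mul, div_eq_div_iff (by positivity) (by positivity)]
    nth_rewrite 1 [← hss]
    ring
  rw [e]
  refine div_le_div_of_nonneg_left hs0.le (by positivity) ?_
  have : L ^ 771 = L * L ^ 770 := by ring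
  rw [this]
  exact mul_le_mul_of_nonneg_right (by linarith) (by positivity)

lemma ths6 (h : Hyp2 n p L) (hL : 86000 ≤ L) :
    L ^ 5373 ≤ (th0 n 96 p (y5 n p L) * s5 n p L) ^ 6 := by
  have hL0 : 0 < L := by linarith
  have hL1 := h.L1
  have h0 := h.p0
  have hd : 0 ≤ (n : ℝ) * p := by positivity
  have h1 := ths_ge h hL
  have h2 := pow_le_pow_left₀ (by positivity) h1 6
  refine le_trans ?_ h2
  rw [div_pow, le_div_iff₀ (by positivity)]
  have e1 : Real.sqrt (n * p) ^ 6 = ((n : ℝ) * p) ^ 3 := by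
    have : Real.sqrt (n * p) ^ 6 = (Real.sqrt (n * p) ^ 2) ^ 3 := by ring
    rw [this, Real.sq_sqrt hd]
  rw [e1, ← pow_mul, ← pow_add]
  norm_num
  exact h.d3

lemma part_m4 (h : Hyp2 n p L) (hL : 86000 ≤ L) :
    n ^ 4 * ((4 * G5 L + 5) * ABd 96 (th0 n 96 p (y5 n p L)) (s5 n p L)) ≤
      L ^ 40002 * Real.exp (-L) + 1 / L := by
  have hL0 : 0 < L := by linarith
  have hL1 := h.L1
  have h0 := h.p0
  set x : ℝ := th0 n 96 p (y5 n p L) * s5 n p L with hx
  have h6 := ths6 h hL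
  have hx0 : 0 < x := by
    have h1 := ths_ge h hL
    have hd : 1 ≤ (n : ℝ) * p := by
      have := h.d_geL (C := 1) (by norm_num) hL1
      linarith
    have hs0 : 0 < Real.sqrt (n * p) := Real.sqrt_pos.2 (by linarith)
    exact lt_of_lt_of_le (by positivity) h1
  have hxL : 2 * L ≤ x := by
    by_contra hh
    push Not at hh
    have h2 : x ^ 6 < (2 * L) ^ 6 := pow_lt_pow_left₀ hh hx0.le (by norm_num)
    have h3 : (2 * L) ^ 6 ≤ (L * L) ^ 6 := pow_le_pow_left₀ (by positivity)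
      (mul_le_mul_of_nonneg_right (by linarith) hL0.le) 6
    have h4 : (L * L) ^ 6 = L ^ 12 := by ring
    have h5 : L ^ 12 ≤ L ^ 5373 := pow_le_pow_right₀ hL1 (by norm_num)
    linarith
  have hX4 : (n : ℝ) ^ 4 = L ^ 40000 := by rw [h.XL, ← pow_mul]
  have hG := G5_le h
  have hG' : 4 * (G5 L : ℝ) + 5 ≤ 33 * L := by linarith
  have hpow : (Real.sqrt (2 / x)) ^ 96 ≤ 64 ^ 8 / L ^ 42984 := by
    have e1 : (Real.sqrt (2 / x)) ^ 96 = (2 / x) ^ 48 := by
      have : (Real.sqrt (2 / x)) ^ 96 = ((Real.sqrt (2 / x)) ^ 2) ^ 48 := by rw [← pow_mul]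
      rw [this, Real.sq_sqrt (by positivity)]
    have e2 : (2 / x) ^ 48 = (64 / x ^ 6) ^ 8 := by
      rw [div_pow, div_pow, ← pow_mul]; norm_num
    rw [e1, e2, div_pow]
    refine div_le_div_of_nonneg_left (by positivity) (by positivity) ?_
    calc L ^ 42984 = (L ^ 5373) ^ 8 := by rw [← pow_mul]
      _ ≤ (x ^ 6) ^ 8 := pow_le_pow_left₀ (by positivity) h6 8
  unfold ABd
  rw [hX4]
  have hexp : Real.exp (-(x / 2)) ≤ Real.exp (-L) := by rw [Real.exp_le_exp]; linarith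
  have e3 : th0 n 96 p (y5 n p L) * (s5 n p L : ℝ) = x := hx.symm
  rw [e3]
  have b1 : (4 * (G5 L : ℝ) + 5) * (((96 : ℕ) : ℝ) * Real.exp (-(x / 2)) + (Real.sqrt (2 / x)) ^ 96) ≤
      33 * L * (96 * Real.exp (-L) + 64 ^ 8 / L ^ 42984) := by
    refine mul_le_mul hG' ?_ (by positivity) (by positivity)
    push_cast
    linarith
  have b2 := mul_le_mul_of_nonneg_left b1 (by positivity : (0 : ℝ) ≤ L ^ 40000)
  refine b2.trans ?_
  have e4 : L ^ 40000 * (33 * L * (96 * Real.exp (-L) + 64 ^ 8 / L ^ 42984)) =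
      3168 * (L ^ 40001 * Real.exp (-L)) + L ^ 40001 * (33 * 64 ^ 8) / L ^ 42984 := by ring
  rw [e4]
  have c1 : 3168 * (L ^ 40001 * Real.exp (-L)) ≤ L ^ 40002 * Real.exp (-L) := by
    have e5 : L ^ 40002 * Real.exp (-L) = L * (L ^ 40001 * Real.exp (-L)) := by ring
    rw [e5]
    exact mul_le_mul_of_nonneg_right (by linarith) (by positivity)
  have c2 : L ^ 40001 * (33 * 64 ^ 8) / L ^ 42984 ≤ 1 / L := by
    rw [div_le_div_iff₀ (by positivity) hL0, one_mul]
    have e6 : L ^ 42984 = L ^ 40002 * L ^ 2982 := by rw [← pow_add]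
    have e7 : L ^ 40001 * (33 * 64 ^ 8) * L = L ^ 40002 * (33 * 64 ^ 8) := by ring
    rw [e6, e7]
    refine mul_le_mul_of_nonneg_left ?_ (by positivity)
    have c3 : (86000 : ℝ) ^ 4 ≤ L ^ 4 := pow_le_pow_left₀ (by norm_num) hL 4
    have c4 : L ^ 4 ≤ L ^ 2982 := pow_le_pow_right₀ hL1 (by norm_num)
    have c5 : (33 * 64 ^ 8 : ℝ) ≤ 86000 ^ 4 := by norm_num
    linarith
  linarith

noncomputable def tot5 (L : ℝ) : ℝ :=
  L ^ 10000 * Real.exp (-L) + L ^ 10000 * Real.exp (-L) + L ^ 20000 * Real.exp (-L) +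
    (L ^ 40002 * Real.exp (-L) + 1 / L)

lemma tot5_tendsto : Tendsto tot5 atTop (𝓝 0) := by
  have h1 : ∀ j : ℕ, Tendsto (fun L : ℝ => L ^ j * Real.exp (-L)) atTop (𝓝 0) := fun j =>
    Real.tendsto_pow_mul_exp_neg_atTop_nhds_zero j
  have h2 : Tendsto (fun L : ℝ => 1 / L) atTop (𝓝 0) := by
    simpa using tendsto_inv_atTop_zero (𝕜 := ℝ)
  have h4 := (((h1 10000).add (h1 10000)).add (h1 20000)).add ((h1 40002).add h2)
  simp only [add_zero] at h4
  exact h4

theorem r12_main {η : ℝ} (hη : 0 < η) : ∃ Λ : ℝ, ∀ (n : ℕ) (p L : ℝ), Λ ≤ L →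
    Hyp2 n p L → Pr (wp p) (fun ω : Om n => ¬ GoodG (gr ω)) ≤ η := by
  classical
  have e1 : ∀ᶠ L : ℝ in atTop, tot5 L ≤ η := tot5_tendsto.eventually_le_const hη
  have e2 := eventually_ge_atTop (86000 : ℝ)
  obtain ⟨Λ, hΛ⟩ := eventually_atTop.1 (e1.and e2)
  refine ⟨Λ, fun n p L hL h => ?_⟩
  obtain ⟨f1, f2⟩ := hΛ L hL
  have h0 := h.p0
  have hL1 := h.L1
  have hL0 : 0 < L := by linarith
  have hp4 := h.p4 (by linarith)
  have hw := wp_nonneg h0.le (by linarith : p ≤ 1)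
  have hn2 := h.n2 (by linarith)
  refine (Pr_mono hw fun ω hω => fun hU => hω (good_of_UF hU)).trans ?_
  have hs0 : 0 < s5 n p L := by
    have a1 := s5_ge h f2
    have a2 := h.d_geL (C := 86000) (by norm_num) f2
    have a3 : 0 < (n : ℝ) * p / (2000 * L) := by
      have : 0 < (n : ℝ) * p := by nlinarith
      positivity
    have : (0 : ℝ) < s5 n p L := by linarith
    exact_mod_cast this
  have hy0 : 8 * 96 ≤ y5 n p L := by
    have a1 := y5_ge h f2
    have a2 := h.d_geL (C := 86000) (by norm_num) f2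
    have a3 : (768 : ℝ) ≤ ((n : ℝ) * p) ^ 2 / (20000 * L) := by
      rw [le_div_iff₀ (by positivity)]
      nlinarith
    have : (768 : ℝ) ≤ y5 n p L := by linarith
    exact_mod_cast this
  have hG0 : 0 < G5 L := by
    have a1 := G5_ge L
    have : (0 : ℝ) < G5 L := by linarith
    exact_mod_cast this
  have hb := r12_bound (n := n) h0 hp4 (J := 96) (by norm_num) hs0 hy0 (cond_s h f2) (cond_y h f2)
    hG0 (Nat.floor_le (by
      have : 0 ≤ (n : ℝ) - 1 := by linarith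
      positivity))
  refine hb.trans (le_trans ?_ f1)
  unfold tot5
  have hdL := h.d_geL (C := 86000) (by norm_num) f2
  have hhalf : L ≤ ((n : ℝ) - 1) * p / 4 := by
    have : (n : ℝ) * p / 8 ≤ ((n : ℝ) - 1) * p / 4 := by nlinarith
    linarith
  have m1 : (n : ℝ) * Real.exp (-(((n : ℝ) - 1) * p / 4)) ≤ L ^ 10000 * Real.exp (-L) := by
    rw [h.XL] at hhalf ⊢
    refine mul_le_mul_of_nonneg_left ?_ (by positivity)
    rw [Real.exp_le_exp]; linarith
  have m2 : (n : ℝ) * (Real.exp 1 * n / (Dp n p + 1 : ℕ) * p) ^ (Dp n p + 1) ≤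
      L ^ 10000 * Real.exp (-L) := by
    have he := exp_one_lt'
    have hD := Dp_ge n p
    refine mul_le_mul h.XL.le (pow_half_le (by positivity) ?_ ?_) (by positivity) (by positivity)
    · rw [div_mul_eq_mul_div, div_le_iff₀ (by positivity)]
      push_cast
      have : Real.exp 1 * n * p = Real.exp 1 * (n * p) := by ring
      rw [this]
      nlinarith
    · push_cast
      linarith
  have m3 : (n : ℝ) ^ 2 * (Real.exp 1 * n / (G5 L + 1 : ℕ) * p ^ 2) ^ (G5 L + 1) ≤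
      L ^ 20000 * Real.exp (-L) := by
    have he := exp_one_lt'
    have hG := G5_ge L
    have hX2 : (n : ℝ) ^ 2 = L ^ 20000 := by rw [h.XL, ← pow_mul]
    refine mul_le_mul hX2.le (pow_half_le (by positivity) ?_ ?_) (by positivity) (by positivity)
    · rw [div_mul_eq_mul_div, div_le_iff₀ (by positivity)]
      push_cast
      have e : Real.exp 1 * n * p ^ 2 = Real.exp 1 * (n * p ^ 2) := by ring
      rw [e]
      have h3 : Real.exp 1 * ((n : ℝ) * p ^ 2) ≤ 2.7182818286 * L := by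
        have := h.b
        gcongr
      linarith
    · push_cast
      linarith
  have m4 := part_m4 h f2
  linarith

end Pool.Agent.U140.SG
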