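import Pool.Agent.U140.SG.Rig
import Pool.Agent.U140.SG.Mix

/-! Popular pairs. -/

set_option linter.unusedSectionVars false
set_option linter.unusedVariables false

namespace Pool.Agent.U140.SG

open Finset Pool.Agent.Q299.PW

variable {n : ℕ} {G H : SimpleGraph (Fin n)} {f g : Fin n → Fin n → Fin n} {K : ℕ}

lemma fin5_c (i j : Fin 5) (h : i = j + 1) : i + 1 ≠ j := by revert i j; decide

lemma card_Es {c : Fin 5 → Fin n} (h : IsC5 G c) : (Es c).card = 5 := by
  unfold Es
  rw [card_image_of_injective]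
  · simp
  · intro i j hij
    simp only [Sym2.eq_iff] at hij
    rcases hij with ⟨h1, -⟩ | ⟨h1, h2⟩
    · exact h.inj h1
    · have e1 := h.inj h1
      have e2 := h.inj h2
      exact absurd e2 (fin5_c i j e1)

lemma card_In_le (c : Fin 5 → Fin n) : (In c).card ≤ 3 := by
  unfold In pe
  exact card_le_three

open Classical in
/-- marked `H`-cycles whose view uses `e` -/
noncomputable def Fe (H : SimpleGraph (Fin n)) (g : Fin n → Fin n → Fin n) (e : Sym2 (Fin n)) :
    Finset (Fin 5 → Fin n) :=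
  univ.filter fun C => IsC5 H C ∧ Mk g C ∧ e ∈ In (vw g C 0) ∧ e ∉ Es C

lemma mem_Fe {e : Sym2 (Fin n)} {C : Fin 5 → Fin n} :
    C ∈ Fe H g e ↔ IsC5 H C ∧ Mk g C ∧ e ∈ In (vw g C 0) ∧ e ∉ Es C := by
  classical
  simp [Fe]

/-- maximal spread subfamily -/
lemma exists_spread (F : Finset (Fin 5 → Fin n)) (τ : ℕ) (hτ : 0 < τ) :
    ∃ F' ⊆ F, (∀ h, (F'.filter fun C => h ∈ Es C).card ≤ τ) ∧
      ∀ C ∈ F, C ∉ F' → ∃ h ∈ Es C, τ ≤ (F'.filter fun C => h ∈ Es C).card := by
  classical
  set 𝒮 := F.powerset.filter fun F' => ∀ h, (F'.filter fun C => h ∈ Es C).card ≤ τ with h𝒮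
  have hne : 𝒮.Nonempty := ⟨∅, by rw [h𝒮, mem_filter]; simp⟩
  obtain ⟨F', hF', hmax⟩ := exists_max_image 𝒮 card hne
  rw [h𝒮, mem_filter, mem_powerset] at hF'
  refine ⟨F', hF'.1, hF'.2, ?_⟩
  intro C hC hCn
  by_contra hcon
  push Not at hcon
  have hins : insert C F' ∈ 𝒮 := by
    rw [h𝒮, mem_filter, mem_powerset]
    refine ⟨insert_subset hC hF'.1, fun h => ?_⟩
    rw [filter_insert]
    split_ifs with hh
    · have := hcon h hh
      exact (card_insert_le _ _).trans this
    · exact hF'.2 h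
  have := hmax _ hins
  rw [card_insert_of_notMem hCn] at this
  omega

/-- second moment lower bound -/
lemma second_moment {ρ : ℝ} (h0 : 0 < ρ) (h1 : ρ ≤ 1 / 2) (m : Mt G H f g) (hT : T3 G K)
    (F : Finset (Fin 5 → Fin n)) (hF : ∀ C ∈ F, IsC5 H C) {τ : ℕ}
    (hτ : ∀ h, (F.filter fun C => h ∈ Es C).card ≤ τ) (hτρ : (τ : ℝ) * ρ ^ 4 ≤ 1)
    (hN : (F.card : ℝ) * ρ ^ 5 ≤ 1) (e : Sym2 (Fin n)) (he : ∀ C ∈ F, e ∉ Es C) :
    (F.card : ℝ) * ρ ^ 5 ≤ (500 * K5 K + 12) *
      Pr (wp ρ) (fun ω : Om n => ω e = false ∧ ∃ C ∈ F, ∀ h ∈ Es C, ω h = true) := by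
  classical
  have hw := wp_nonneg h0.le (by linarith : ρ ≤ 1)
  have hw1 := wp_sum ρ
  set c : ℝ := 250 * K5 K + 6 with hc
  have hc0 : 0 < c := by rw [hc]; positivity
  set N : ℝ := (F.card : ℝ) with hNdef
  set A : (Fin 5 → Fin n) → Om n → Prop := fun C ω => ∀ h ∈ Es C, ω h = true with hA
  set X : Om n → ℝ := fun ω => ∑ C ∈ F, if A C ω then (1 : ℝ) else 0 with hX
  have hEX : Ex (wp ρ) X = N * ρ ^ 5 := by
    rw [hX, Ex_sum]
    have : ∀ C ∈ F, Ex (wp ρ) (fun ω : Om n => if A C ω then (1 : ℝ) else 0) = ρ ^ 5 := by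
      intro C hC
      have := pr_all ρ (Es C)
      rw [card_Es (hF C hC)] at this
      rw [← this]
      unfold Pr
      congr 1
      funext ω
      by_cases ha : A C ω
      · have ha' : ∀ e ∈ Es C, ω e = true := ha
        rw [if_pos ha, if_pos ha']
      · have ha' : ¬ ∀ e ∈ Es C, ω e = true := ha
        rw [if_neg ha, if_neg ha']
    rw [sum_congr rfl this, sum_const, nsmul_eq_mul]
  have hEX2 : Ex (wp ρ) (fun ω => X ω * X ω) ≤ c * (N * ρ ^ 5) := by
    have h2 : (fun ω => X ω * X ω) = fun ω => ∑ C ∈ F, ∑ C' ∈ F,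
        if ∀ h ∈ Es C ∪ Es C', ω h = true then (1 : ℝ) else 0 := by
      funext ω
      rw [hX]
      simp only
      rw [sum_mul_sum]
      refine sum_congr rfl fun C _ => sum_congr rfl fun C' _ => ?_
      by_cases a1 : A C ω <;> by_cases a2 : A C' ω
      · rw [if_pos a1, if_pos a2, if_pos, one_mul]
        intro h hh
        rcases mem_union.1 hh with hh | hh
        · exact a1 h hh
        · exact a2 h hh
      · rw [if_neg a2, mul_zero, if_neg]
        exact fun hh => a2 fun h hx => hh h (mem_union_right _ hx)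
      · rw [if_neg a1, zero_mul, if_neg]
        exact fun hh => a1 fun h hx => hh h (mem_union_left _ hx)
      · rw [if_neg a1, zero_mul, if_neg]
        exact fun hh => a1 fun h hx => hh h (mem_union_left _ hx)
    rw [h2, Ex_sum]
    have h3 : ∀ C ∈ F, Ex (wp ρ) (fun ω : Om n => ∑ C' ∈ F,
        if ∀ h ∈ Es C ∪ Es C', ω h = true then (1 : ℝ) else 0) ≤ c * ρ ^ 5 := by
      intro C hC
      rw [Ex_sum]
      have hC5 := hF C hC
      -- bound each term
      set F1 := F.filter fun C' => ∃ h ∈ Es C, h ∈ Es C' ∧ ∃ w ∈ Vs C, w ∉ h ∧ w ∈ Vs C' with hF1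
      set F2 := F.filter fun C' => ∃ h ∈ Es C, h ∈ Es C' with hF2
      have hterm : ∀ C' ∈ F, Ex (wp ρ) (fun ω : Om n =>
          if ∀ h ∈ Es C ∪ Es C', ω h = true then (1 : ℝ) else 0) ≤
          (if C' ∈ F1 then ρ ^ 5 else 0) + (if C' ∈ F2 then ρ ^ 9 else 0) + ρ ^ 10 := by
        intro C' hC'
        have hpr : Ex (wp ρ) (fun ω : Om n =>
            if ∀ h ∈ Es C ∪ Es C', ω h = true then (1 : ℝ) else 0) = ρ ^ (Es C ∪ Es C').card := by
          rw [← pr_all ρ (Es C ∪ Es C')]
          unfold Pr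
          congr 1
          funext ω
          by_cases h : ∀ h ∈ Es C ∪ Es C', ω h = true
          · rw [if_pos h, if_pos h]
          · rw [if_neg h, if_neg h]
        rw [hpr]
        have hC5' := hF C' hC'
        have hcard := card_union_add_card_inter (Es C) (Es C')
        rw [card_Es hC5, card_Es hC5'] at hcard
        have hρ1 : ρ ≤ 1 := by linarith
        by_cases g1 : C' ∈ F1
        · rw [if_pos g1]
          have : ρ ^ (Es C ∪ Es C').card ≤ ρ ^ 5 :=
            pow_le_pow_of_le_one h0.le hρ1 (by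
              have := card_le_card (subset_union_left : Es C ⊆ Es C ∪ Es C')
              rw [card_Es hC5] at this
              exact this)
          have : 0 ≤ (if C' ∈ F2 then ρ ^ 9 else 0) := by split_ifs <;> positivity
          have : 0 ≤ ρ ^ 10 := by positivity
          linarith
        · rw [if_neg g1]
          by_cases g2 : C' ∈ F2
          · rw [if_pos g2]
            -- exactly one common edge
            have hint : (Es C ∩ Es C').card ≤ 1 := by
              rw [card_le_one]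
              intro a ha b hb
              by_contra hne
              apply g1
              rw [hF1, mem_filter]
              refine ⟨hC', a, (mem_inter.1 ha).1, (mem_inter.1 ha).2, ?_⟩
              have hb1 := (mem_inter.1 hb).1
              have hb2 := (mem_inter.1 hb).2
              have hnd : ¬ b.IsDiag := by
                rw [mem_Es] at hb1
                obtain ⟨i, rfl⟩ := hb1
                rw [Sym2.mk_isDiag_iff]
                exact (hC5.adj i).ne
              have : ∃ w, w ∈ b ∧ w ∉ a := by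
                by_contra hcon
                push Not at hcon
                apply hne
                induction b using Sym2.ind with
                | _ p q =>
                rw [Sym2.mk_isDiag_iff] at hnd
                exact ((Sym2.mem_and_mem_iff hnd).1 ⟨hcon p (Sym2.mem_mk_left _ _),
                  hcon q (Sym2.mem_mk_right _ _)⟩)
              obtain ⟨w, hw1, hw2⟩ := this
              have hV : ∀ D : Fin 5 → Fin n, b ∈ Es D → w ∈ Vs D := by
                intro D hD
                rw [mem_Es] at hD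
                obtain ⟨i, rfl⟩ := hD
                rw [Sym2.mem_iff] at hw1
                rw [mem_Vs]
                rcases hw1 with rfl | rfl
                · exact ⟨i, rfl⟩
                · exact ⟨i + 1, rfl⟩
              exact ⟨w, hV C hb1, hw2, hV C' hb2⟩
            have : ρ ^ (Es C ∪ Es C').card ≤ ρ ^ 9 :=
              pow_le_pow_of_le_one h0.le hρ1 (by omega)
            have : 0 ≤ ρ ^ 10 := by positivity
            linarith
          · rw [if_neg g2]
            have hint : (Es C ∩ Es C').card = 0 := by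
              rw [card_eq_zero]
              by_contra hne
              obtain ⟨a, ha⟩ := nonempty_iff_ne_empty.2 hne
              apply g2
              rw [hF2, mem_filter]
              exact ⟨hC', a, (mem_inter.1 ha).1, (mem_inter.1 ha).2⟩
            have : ρ ^ (Es C ∪ Es C').card ≤ ρ ^ 10 :=
              pow_le_pow_of_le_one h0.le hρ1 (by omega)
            linarith
      refine (sum_le_sum hterm).trans ?_
      rw [sum_add_distrib, sum_add_distrib, sum_const, nsmul_eq_mul, ← sum_filter, ← sum_filter,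
        sum_const, sum_const, nsmul_eq_mul, nsmul_eq_mul]
      have hF1s : F.filter (fun C' => C' ∈ F1) = F1 := by
        ext C'; rw [mem_filter]; exact ⟨fun h => h.2, fun h => ⟨(mem_filter.1 h).1, h⟩⟩
      have hF2s : F.filter (fun C' => C' ∈ F2) = F2 := by
        ext C'; rw [mem_filter]; exact ⟨fun h => h.2, fun h => ⟨(mem_filter.1 h).1, h⟩⟩
      rw [hF1s, hF2s]
      have b1 : F1.card ≤ 250 * K5 K := by
        have hb := card_le_fib F1 ((Es C) ×ˢ (Vs C))
          (fun C' hw => hw.1 ∈ Es C' ∧ hw.2 ∉ hw.1 ∧ hw.2 ∈ Vs C') (10 * K5 K) ?_ ?_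
        · have hVs : (Vs C).card ≤ 5 := by
            unfold Vs; exact card_image_le.trans (by simp)
          rw [card_product, card_Es hC5] at hb
          have : 5 * (Vs C).card * (10 * K5 K) ≤ 5 * 5 * (10 * K5 K) :=
            Nat.mul_le_mul_right _ (Nat.mul_le_mul_left _ hVs)
          omega
        · intro C' hC'
          obtain ⟨h2, h, hh, hh', w, hw, hw', hw''⟩ := mem_filter.1 hC'
          exact ⟨(h, w), mem_product.2 ⟨hh, hw⟩, hh', hw', hw''⟩
        · rintro ⟨h, w⟩ hhw S' hS' hr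
          rcases S'.eq_empty_or_nonempty with he0 | ⟨C₀, hC₀⟩
          · rw [he0]; simp
          refine card_edge_vertexH m hT (e := h) (w := w) (hr C₀ hC₀).2.1 _ ?_
          intro C' hC'
          exact ⟨hF C' (mem_filter.1 (hS' hC')).1, (hr C' hC').1, (hr C' hC').2.2⟩
      have b2 : F2.card ≤ 5 * τ := by
        have hb := card_le_fib F2 (Es C) (fun C' h => h ∈ Es C') τ ?_ ?_
        · rwa [card_Es hC5] at hb
        · intro C' hC'
          obtain ⟨h2, h, hh, hh'⟩ := mem_filter.1 hC'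
          exact ⟨h, hh, hh'⟩
        · intro h hh S' hS' hr
          refine (card_le_card fun C' hC' => ?_).trans (hτ h)
          exact mem_filter.2 ⟨(mem_filter.1 (hS' hC')).1, hr C' hC'⟩
      have b1' : (F1.card : ℝ) ≤ 250 * K5 K := by exact_mod_cast b1
      have b2' : (F2.card : ℝ) ≤ 5 * τ := by exact_mod_cast b2
      have e5 : 0 < ρ ^ 5 := by positivity
      have e9 : 0 < ρ ^ 9 := by positivity
      have t1 : (F1.card : ℝ) * ρ ^ 5 ≤ 250 * K5 K * ρ ^ 5 := mul_le_mul_of_nonneg_right b1' e5.le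
      have t2 : (F2.card : ℝ) * ρ ^ 9 ≤ 5 * ρ ^ 5 := by
        calc (F2.card : ℝ) * ρ ^ 9 ≤ 5 * τ * ρ ^ 9 := mul_le_mul_of_nonneg_right b2' e9.le
          _ = 5 * (τ * ρ ^ 4) * ρ ^ 5 := by ring
          _ ≤ 5 * 1 * ρ ^ 5 := by
            refine mul_le_mul_of_nonneg_right ?_ e5.le
            linarith
          _ = 5 * ρ ^ 5 := by ring
      have t3 : (F.card : ℝ) * ρ ^ 10 ≤ ρ ^ 5 := by
        calc (F.card : ℝ) * ρ ^ 10 = (F.card * ρ ^ 5) * ρ ^ 5 := by ring
          _ ≤ 1 * ρ ^ 5 := mul_le_mul_of_nonneg_right hN e5.le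
          _ = ρ ^ 5 := one_mul _
      rw [hc]
      linarith
    calc ∑ C ∈ F, Ex (wp ρ) (fun ω : Om n => ∑ C' ∈ F,
        if ∀ h ∈ Es C ∪ Es C', ω h = true then (1 : ℝ) else 0) ≤ ∑ C ∈ F, c * ρ ^ 5 := sum_le_sum h3
      _ = c * (N * ρ ^ 5) := by rw [sum_const, nsmul_eq_mul]; ring
  -- lower bound
  have hPr : N * ρ ^ 5 / c ≤ Pr (wp ρ) (fun ω : Om n => ∃ C ∈ F, A C ω) := by
    have h5 : Ex (wp ρ) (fun ω => (2 / c) * X ω + (-(1 / c ^ 2)) * (X ω * X ω)) ≤
        Pr (wp ρ) (fun ω : Om n => ∃ C ∈ F, A C ω) := by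
      unfold Pr
      refine Ex_mono hw fun ω => ?_
      by_cases h : ∃ C ∈ F, A C ω
      · rw [if_pos h]
        have : 0 ≤ (1 - X ω / c) ^ 2 := sq_nonneg _
        have e : (1 - X ω / c) ^ 2 = 1 - ((2 / c) * X ω + (-(1 / c ^ 2)) * (X ω * X ω)) := by
          field_simp
          ring
        linarith
      · rw [if_neg h]
        have : X ω = 0 := by
          rw [hX]
          refine sum_eq_zero fun C hC => ?_
          rw [if_neg fun hh => h ⟨C, hC, hh⟩]
        rw [this]; simp
    rw [Ex_add, Ex_smul, Ex_smul, hEX] at h5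
    refine le_trans ?_ h5
    have h6 : (1 / c ^ 2) * Ex (wp ρ) (fun ω => X ω * X ω) ≤ (1 / c ^ 2) * (c * (N * ρ ^ 5)) :=
      mul_le_mul_of_nonneg_left hEX2 (by positivity)
    have e : 2 / c * (N * ρ ^ 5) - 1 / c ^ 2 * (c * (N * ρ ^ 5)) = N * ρ ^ 5 / c := by
      field_simp; ring
    linarith
  -- independence of `e`
  have hind : Pr (wp ρ) (fun ω : Om n => ω e = false ∧ ∃ C ∈ F, ∀ h ∈ Es C, ω h = true) =
      Pr (wp ρ) (fun ω : Om n => ω e = false) * Pr (wp ρ) (fun ω : Om n => ∃ C ∈ F, A C ω) := by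
    refine Pr_and_indep hw1 {e} ?_ ?_
    · intro ω ω' h
      rw [h e (mem_singleton_self e)]
    · intro ω ω' h
      have : ∀ C ∈ F, (∀ k ∈ Es C, ω k = true) ↔ (∀ k ∈ Es C, ω' k = true) := by
        intro C hC
        refine forall₂_congr fun k hk => ?_
        rw [h k]
        rw [mem_singleton]
        rintro rfl
        exact he C hC hk
      constructor
      · rintro ⟨C, hC, hh⟩; exact ⟨C, hC, (this C hC).1 hh⟩
      · rintro ⟨C, hC, hh⟩; exact ⟨C, hC, (this C hC).2 hh⟩
  have hfalse : Pr (wp ρ) (fun ω : Om n => ω e = false) = 1 - ρ := by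
    have h1 := pr_all ρ ({e} : Finset (Sym2 (Fin n)))
    simp only [mem_singleton, forall_eq, card_singleton, pow_one] at h1
    have h2 := Pr_not hw1 (fun ω : Om n => ω e = true)
    rw [h1] at h2
    rw [← h2]
    congr 1
    funext ω
    simp
  rw [hind, hfalse]
  have h7 : N * ρ ^ 5 ≤ c * Pr (wp ρ) (fun ω : Om n => ∃ C ∈ F, A C ω) := by
    rw [div_le_iff₀ hc0] at hPr
    linarith
  have hnn := Pr_nonneg hw (fun ω : Om n => ∃ C ∈ F, A C ω)
  have h8 : (500 * (K5 K : ℝ) + 12) = 2 * c := by rw [hc]; ring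
  rw [h8]
  have h9 : c * Pr (wp ρ) (fun ω : Om n => ∃ C ∈ F, A C ω) ≤
      2 * c * ((1 - ρ) * Pr (wp ρ) (fun ω : Om n => ∃ C ∈ F, A C ω)) := by
    have : c * Pr (wp ρ) (fun ω : Om n => ∃ C ∈ F, A C ω) * 1 ≤
        c * Pr (wp ρ) (fun ω : Om n => ∃ C ∈ F, A C ω) * (2 * (1 - ρ)) :=
      mul_le_mul_of_nonneg_left (by linarith) (mul_nonneg hc0.le hnn)
    linarith
  linarith

end Pool.Agent.U140.SG
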