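import Pool.Agent.U140.SG.Pop

/-! The set of popular pairs. -/

set_option linter.unusedSectionVars false
set_option linter.unusedVariables false

namespace Pool.Agent.U140.SG

open Finset Pool.Agent.Q299.PW

variable {n : ℕ} {G H : SimpleGraph (Fin n)} {f g : Fin n → Fin n → Fin n} {K : ℕ}

open Classical in
/-- pairs outside the exposed set that are interior edges of a view of an exposed marked cycle -/
noncomputable def AA (H : SimpleGraph (Fin n)) (g : Fin n → Fin n → Fin n) (ω : Om n) :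
    Finset (Sym2 (Fin n)) :=
  univ.filter fun e => ω e = false ∧ ∃ C, IsC5 H C ∧ Mk g C ∧ e ∈ In (vw g C 0) ∧
    ∀ h ∈ Es C, ω h = true

theorem pop (m : Mt G H f g) (hT : T3 G K) {Up : ℕ} (hUp : UpB G Up) {ρ : ℝ} (h0 : 0 < ρ)
    (h1 : ρ ≤ 1 / 2) {τ : ℕ} (hτ0 : 0 < τ) (hτρ : (τ : ℝ) * ρ ^ 4 ≤ 1)
    (hU : (10 * Up : ℝ) * ρ ^ 5 ≤ 1) {R : ℝ}
    (hR : Ex (wp ρ) (fun ω : Om n => ((AA H g ω).card : ℝ)) ≤ R) :
    ∃ (P : Finset (Sym2 (Fin n) × Sym2 (Fin n))) (Nt : ℕ),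
      (Nt : ℝ) * ρ ^ 5 ≤ (500 * K5 K + 12) * R ∧ P.card * τ ≤ 5 * Nt ∧
      (∀ k, ∀ T : Finset (Sym2 (Fin n)), (∀ e ∈ T, (e, k) ∈ P) → T.card * τ ≤ 50 * Up) ∧
      (∀ e, ∀ T : Finset (Sym2 (Fin n)), (∀ k ∈ T, (e, k) ∈ P) → T.card * τ ≤ 50 * Up) ∧
      ∀ S : Finset (Fin 5 → Fin n),
        (∀ C ∈ S, IsC5 H C ∧ V3 (fun e k => (e, k) ∈ P) g C) → S.card ≤ Nt := by
  classical
  have hw := wp_nonneg h0.le (by linarith : ρ ≤ 1)
  have hw1 := wp_sum ρ
  choose Fs hFs1 hFs2 hFs3 using fun e => exists_spread (Fe H g e) τ hτ0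
  have hFc : ∀ e, (Fs e).card ≤ 10 * Up := by
    intro e
    rw [← image_view m (Fs e) fun C hC => (mem_Fe.1 (hFs1 e hC)).1]
    refine card_edgeUp hUp e _ ?_
    intro c hc
    obtain ⟨C, hC, rfl⟩ := mem_image.1 hc
    obtain ⟨k1, k2, k3, k4⟩ := mem_Fe.1 (hFs1 e hC)
    exact ⟨m.vw_cyc k1 0, In_sub_Es _ k3⟩
  have hsw : ∀ e, ∀ T : Finset (Sym2 (Fin n)),
      ∑ k ∈ T, ((Fs e).filter fun C => k ∈ Es C).card ≤ 5 * (Fs e).card := by
    intro e T
    simp_rw [card_filter]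
    rw [sum_comm]
    calc ∑ C ∈ Fs e, ∑ k ∈ T, (if k ∈ Es C then 1 else 0) ≤ ∑ C ∈ Fs e, 5 := by
          refine sum_le_sum fun C hC => ?_
          rw [← card_filter]
          rw [← card_Es (mem_Fe.1 (hFs1 e hC)).1]
          exact card_le_card fun k hk => (mem_filter.1 hk).2
      _ = 5 * (Fs e).card := by rw [sum_const, smul_eq_mul, mul_comm]
  set P : Finset (Sym2 (Fin n) × Sym2 (Fin n)) :=
    univ.filter fun eh => τ ≤ ((Fs eh.1).filter fun C => eh.2 ∈ Es C).card with hP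
  have hmemP : ∀ e k, (e, k) ∈ P ↔ τ ≤ ((Fs e).filter fun C => k ∈ Es C).card := by
    intro e k; rw [hP, mem_filter]; simp
  refine ⟨P, ∑ e, (Fs e).card, ?_, ?_, ?_, ?_, ?_⟩
  · have hE : Ex (wp ρ) (fun ω : Om n => ((AA H g ω).card : ℝ)) =
        ∑ e, Pr (wp ρ) (fun ω : Om n => e ∈ AA H g ω) := by
      have : (fun ω : Om n => ((AA H g ω).card : ℝ)) =
          fun ω : Om n => ∑ e ∈ univ, if e ∈ AA H g ω then (1:ℝ) else 0 := by
        funext ω
        rw [sum_ite_mem, univ_inter, sum_const, nsmul_eq_mul, mul_one]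
      rw [this, Ex_sum]
      refine sum_congr rfl fun e _ => ?_
      unfold Pr
      congr 1
      funext ω
      by_cases h : e ∈ AA H g ω
      · rw [if_pos h, if_pos h]
      · rw [if_neg h, if_neg h]
    have hK : (0:ℝ) ≤ 500 * K5 K + 12 := by positivity
    refine le_trans ?_ (mul_le_mul_of_nonneg_left hR hK)
    rw [hE, mul_sum]
    push_cast
    rw [sum_mul]
    refine sum_le_sum fun e _ => ?_
    have hNe : ((Fs e).card : ℝ) * ρ ^ 5 ≤ 1 := by
      have : ((Fs e).card : ℝ) ≤ 10 * Up := by exact_mod_cast hFc e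
      exact (mul_le_mul_of_nonneg_right this (by positivity)).trans hU
    refine (second_moment h0 h1 m hT (Fs e) (fun C hC => (mem_Fe.1 (hFs1 e hC)).1) (hFs2 e)
      hτρ hNe e (fun C hC => (mem_Fe.1 (hFs1 e hC)).2.2.2)).trans ?_
    refine mul_le_mul_of_nonneg_left (Pr_mono hw fun ω h => ?_) hK
    obtain ⟨h1, C, hC, h2⟩ := h
    obtain ⟨k1, k2, k3, k4⟩ := mem_Fe.1 (hFs1 e hC)
    unfold AA
    rw [mem_filter]
    exact ⟨mem_univ _, h1, C, k1, k2, k3, h2⟩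
  · calc P.card * τ = ∑ x ∈ P, τ := by rw [sum_const, smul_eq_mul]
      _ ≤ ∑ x ∈ P, ((Fs x.1).filter fun C => x.2 ∈ Es C).card :=
          sum_le_sum fun x hx => (hmemP x.1 x.2).1 hx
      _ ≤ ∑ x : Sym2 (Fin n) × Sym2 (Fin n), ((Fs x.1).filter fun C => x.2 ∈ Es C).card :=
          sum_le_sum_of_subset (subset_univ _)
      _ = ∑ e, ∑ k, ((Fs e).filter fun C => k ∈ Es C).card := by rw [Fintype.sum_prod_type]
      _ ≤ ∑ e, 5 * (Fs e).card := sum_le_sum fun e _ => hsw e univ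
      _ = 5 * ∑ e, (Fs e).card := by rw [mul_sum]
  · intro k T hTP
    set CH : Finset (Fin 5 → Fin n) := univ.filter fun C => IsC5 H C ∧ k ∈ Es C with hCH
    have hCHc : CH.card ≤ 10 * Up := by
      refine card_edgeUp (UpH m hUp) k _ fun C hC => (mem_filter.1 hC).2
    calc T.card * τ = ∑ e ∈ T, τ := by rw [sum_const, smul_eq_mul]
      _ ≤ ∑ e ∈ T, ((Fs e).filter fun C => k ∈ Es C).card :=
          sum_le_sum fun e he => (hmemP e k).1 (hTP e he)
      _ ≤ ∑ e ∈ T, ∑ C ∈ CH, (if e ∈ In (vw g C 0) then 1 else 0) := by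
          refine sum_le_sum fun e he => ?_
          rw [← card_filter]
          refine card_le_card fun C hC => ?_
          obtain ⟨hC1, hC2⟩ := mem_filter.1 hC
          obtain ⟨k1, k2, k3, k4⟩ := mem_Fe.1 (hFs1 e hC1)
          exact mem_filter.2 ⟨mem_filter.2 ⟨mem_univ _, k1, hC2⟩, k3⟩
      _ = ∑ C ∈ CH, ∑ e ∈ T, (if e ∈ In (vw g C 0) then 1 else 0) := sum_comm
      _ ≤ ∑ C ∈ CH, 3 := by
          refine sum_le_sum fun C hC => ?_
          rw [← card_filter]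
          exact (card_le_card fun e he => (mem_filter.1 he).2).trans (card_In_le (vw g C 0))
      _ = 3 * CH.card := by rw [sum_const, smul_eq_mul, mul_comm]
      _ ≤ 50 * Up := by omega
  · intro e T hTP
    calc T.card * τ = ∑ k ∈ T, τ := by rw [sum_const, smul_eq_mul]
      _ ≤ ∑ k ∈ T, ((Fs e).filter fun C => k ∈ Es C).card :=
          sum_le_sum fun k hk => (hmemP e k).1 (hTP k hk)
      _ ≤ 5 * (Fs e).card := hsw e T
      _ ≤ 50 * Up := by have := hFc e; omega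
  · intro S hS
    have : S ⊆ univ.biUnion fun e => Fs e := by
      intro C hC
      obtain ⟨k1, k2, e, k3, k4, k5⟩ := hS C hC
      rw [mem_biUnion]
      refine ⟨e, mem_univ _, ?_⟩
      by_contra hn
      obtain ⟨h, hh1, hh2⟩ := hFs3 e C (mem_Fe.2 ⟨k1, k2, k3, k4⟩) hn
      exact k5 h hh1 ((hmemP e h).2 hh2)
    exact (card_le_card this).trans card_biUnion_le

end Pool.Agent.U140.SG
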