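import Pool.Agent.U140.SG.Par5
import Pool.Agent.U140.SG.Par4

/-! Dense range: diameter two. -/

set_option linter.unusedSectionVars false
set_option linter.unusedVariables false

namespace Pool.Agent.U140.SG

open Finset Pool.Agent.Q299.PW Filter Topology

variable {n : ℕ}

def Diam2 (G : SimpleGraph (Fin n)) : Prop := ∀ v w, InB G v w

def RecM (G : SimpleGraph (Fin n)) : Prop :=
  ∀ (H : SimpleGraph (Fin n)) (f g : Fin n → Fin n → Fin n), Mt G H f g → Nonempty (G ≃g H)

lemma recM_of_good {G : SimpleGraph (Fin n)} (h : GoodG G) : RecM G := by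
  intro H f g m
  have h1 := h H f g m
  have h2 : ∀ z x, G.Adj z x → f z x = x := by
    intro z x hzx
    by_contra hne
    have : (z, x) ∈ DD G f := mem_DD.2 ⟨hzx, hne⟩
    rw [h1] at this
    exact notMem_empty _ this
  have h3 : G = H := by
    ext z x
    constructor
    · intro hzx
      have := m.f_adj hzx
      rwa [h2 z x hzx] at this
    · intro hzx
      have h4 := m.g_adj hzx
      have h5 := h2 z _ h4
      rw [m.fg_adj hzx] at h5
      rw [← h5] at h4
      exact h4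
  exact ⟨h3 ▸ SimpleGraph.Iso.refl⟩

lemma recM_of_diam2 {G : SimpleGraph (Fin n)} (h : Diam2 G) : RecM G := by
  classical
  intro H f g m
  rcases Nat.eq_zero_or_pos n with rfl | hn
  · exact ⟨⟨Equiv.refl _, fun {a} => a.elim0⟩⟩
  · set v : Fin n := ⟨0, hn⟩ with hv
    have hinj : Function.Injective (f v) := by
      intro a b hab
      rw [← m.gf v a (h v a), ← m.gf v b (h v b), hab]
    have hbij : Function.Bijective (f v) := Finite.injective_iff_bijective.1 hinj
    refine ⟨⟨Equiv.ofBijective (f v) hbij, ?_⟩⟩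
    intro a b
    exact (m.adj v a b (h v a) (h v b)).symm

lemma no_common {p : ℝ} (h0 : 0 ≤ p) (h1 : p ≤ 1) {v w : Fin n} (hvw : v ≠ w) :
    Pr (wp p) (fun ω : Om n => ∀ x ∈ (univ.erase v).erase w,
      ¬ (ω s(v, x) = true ∧ ω s(w, x) = true)) ≤ Real.exp (-(p ^ 2 * (n - 2 : ℝ))) := by
  classical
  have hw := wp_nonneg h0 h1
  have hw1 := wp_sum p
  set A : Finset (Fin n) := (univ.erase v).erase w with hA
  have hAc : (A.card : ℝ) = n - 2 := by
    have hn2 : 2 ≤ n := by
      have h2 : ({v, w} : Finset (Fin n)).card = 2 := card_pair hvw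
      have h3 := card_le_univ ({v, w} : Finset (Fin n))
      rw [h2, Fintype.card_fin] at h3
      exact h3
    rw [hA, card_erase_of_mem (mem_erase.2 ⟨hvw.symm, mem_univ _⟩), card_erase_of_mem (mem_univ _),
      card_univ, Fintype.card_fin]
    have : n - 1 - 1 = n - 2 := by omega
    rw [this, Nat.cast_sub hn2]; norm_num
  set D : Fin n → Finset (Sym2 (Fin n)) := fun x => {s(v, x), s(w, x)} with hD
  set f : Fin n → Om n → ℝ := fun x ω =>
    if ¬ (ω s(v, x) = true ∧ ω s(w, x) = true) then 1 else 0 with hf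
  have hEf : ∀ x ∈ A, Ex (wp p) (f x) = 1 - p ^ 2 := by
    intro x hx
    rw [hA, mem_erase, mem_erase] at hx
    have hne : s(v, x) ≠ s(w, x) := by
      intro hh
      exact hvw (Sym2.congr_left.1 hh)
    have h2 := pr_all p (D x)
    have hDc : (D x).card = 2 := by rw [hD]; exact card_pair hne
    rw [hDc] at h2
    have h3 := Pr_not hw1 (fun ω : Om n => ∀ e ∈ D x, ω e = true)
    rw [h2] at h3
    rw [← h3]
    unfold Pr
    refine congrArg (Ex _) (funext fun ω => ?_)
    rw [hf]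
    simp only
    have hiff : (ω s(v, x) = true ∧ ω s(w, x) = true) ↔ ∀ e ∈ D x, ω e = true := by
      rw [hD]
      simp
    by_cases hc : ω s(v, x) = true ∧ ω s(w, x) = true
    · rw [if_neg (not_not.2 hc), if_neg (not_not.2 (hiff.1 hc))]
    · rw [if_pos hc, if_pos fun h => hc (hiff.2 h)]
  have hprod := Ex_prod_blocks (w := wp p) hw1 A D f
    (by
      intro x _ ω ω' hh
      rw [hf]
      simp only
      rw [hh s(v, x) (by rw [hD]; simp), hh s(w, x) (by rw [hD]; simp)])
    (by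
      intro x hx y hy hxy
      rw [hA, mem_erase, mem_erase] at hx hy
      rw [disjoint_left]
      intro e he he'
      rw [hD, mem_insert, mem_singleton] at he he'
      have key : ∀ a b : Fin n, (a = v ∨ a = w) → (b = v ∨ b = w) → s(a, x) = s(b, y) → False := by
        intro a b ha hb hh
        rw [Sym2.eq_iff] at hh
        rcases hh with ⟨_, h2⟩ | ⟨h2, h3⟩
        · exact hxy h2
        · rcases hb with rfl | rfl
          · exact hx.2.1 h3
          · exact hx.1 h3
      rcases he with he | he <;> rcases he' with he' | he'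
      · exact key v v (Or.inl rfl) (Or.inl rfl) (he.symm.trans he')
      · exact key v w (Or.inl rfl) (Or.inr rfl) (he.symm.trans he')
      · exact key w v (Or.inr rfl) (Or.inl rfl) (he.symm.trans he')
      · exact key w w (Or.inr rfl) (Or.inr rfl) (he.symm.trans he'))
  have hPr : Pr (wp p) (fun ω : Om n => ∀ x ∈ A, ¬ (ω s(v, x) = true ∧ ω s(w, x) = true)) =
      Ex (wp p) (fun ω => ∏ x ∈ A, f x ω) := by
    unfold Pr
    refine congrArg (Ex _) (funext fun ω => ?_)
    by_cases hc : ∀ x ∈ A, ¬ (ω s(v, x) = true ∧ ω s(w, x) = true)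
    · rw [if_pos hc, prod_eq_one fun x hx => ?_]
      rw [hf]; simp only; rw [if_pos (hc x hx)]
    · rw [if_neg hc]
      push Not at hc
      obtain ⟨x, hx, h2⟩ := hc
      rw [prod_eq_zero hx]
      rw [hf]; simp only; rw [if_neg (not_not.2 h2)]
  rw [hPr, hprod, prod_congr rfl hEf, prod_const]
  have hp2 : 0 ≤ 1 - p ^ 2 := by nlinarith
  have hexp : 1 - p ^ 2 ≤ Real.exp (-(p ^ 2)) := by
    have := Real.add_one_le_exp (-(p ^ 2))
    linarith
  calc (1 - p ^ 2) ^ A.card ≤ (Real.exp (-(p ^ 2))) ^ A.card := pow_le_pow_left₀ hp2 hexp _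
    _ = Real.exp (-(p ^ 2 * (n - 2 : ℝ))) := by
        rw [← Real.exp_nat_mul, hAc]; congr 1; ring

lemma diam_bound {p : ℝ} (h0 : 0 ≤ p) (h1 : p ≤ 1) :
    Pr (wp p) (fun ω : Om n => ¬ Diam2 (gr ω)) ≤ n ^ 2 * Real.exp (-(p ^ 2 * (n - 2 : ℝ))) := by
  classical
  have hw := wp_nonneg h0 h1
  refine le_trans (Pr_mono hw (B := fun ω : Om n => ∃ q ∈ (univ : Finset (Fin n × Fin n)).filter
    (fun q => q.1 ≠ q.2), ∀ x ∈ (univ.erase q.1).erase q.2,
      ¬ (ω s(q.1, x) = true ∧ ω s(q.2, x) = true)) fun ω h => ?_) ?_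
  · unfold Diam2 at h
    push Not at h
    obtain ⟨v, w, hvw⟩ := h
    have hne : v ≠ w := by
      rintro rfl
      exact hvw (InB.self _ _)
    refine ⟨(v, w), mem_filter.2 ⟨mem_univ _, hne⟩, fun x hx hh => hvw ?_⟩
    rw [mem_erase, mem_erase] at hx
    simp only at hx hh
    refine InB.two (s := x) ⟨fun h => hx.2.1 h.symm, hh.1⟩ ⟨hx.1, ?_⟩
    rw [Sym2.eq_swap]; exact hh.2
  · refine (Pr_exists_le hw _ _).trans ?_
    refine (sum_le_sum fun q hq => no_common h0 h1 (mem_filter.1 hq).2).trans ?_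
    rw [sum_const, nsmul_eq_mul]
    refine mul_le_mul_of_nonneg_right ?_ (Real.exp_pos _).le
    have h4 : ((univ : Finset (Fin n × Fin n)).filter (fun q => q.1 ≠ q.2)).card ≤ n * n :=
      (card_le_univ _).trans (by rw [Fintype.card_prod, Fintype.card_fin])
    calc (((univ : Finset (Fin n × Fin n)).filter (fun q => q.1 ≠ q.2)).card : ℝ) ≤
        ((n * n : ℕ) : ℝ) := Nat.cast_le.2 h4
      _ = (n : ℝ) ^ 2 := by push_cast; ring

theorem r0_main {η : ℝ} (hη : 0 < η) : ∃ Λ : ℝ, ∀ (n : ℕ) (p L : ℝ), Λ ≤ L → 0 ≤ p → p ≤ 1 →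
    (n : ℝ) = L ^ 10000 → L ≤ n * p ^ 2 →
    Pr (wp p) (fun ω : Om n => ¬ Diam2 (gr ω)) ≤ η := by
  have h1 : Tendsto (fun L : ℝ => (2 : ℝ) ^ 20000 * ((L / 2) ^ 20000 * Real.exp (-(L / 2)))) atTop
      (𝓝 0) := by
    have h2 := (Real.tendsto_pow_mul_exp_neg_atTop_nhds_zero 20000).comp
      (tendsto_id.atTop_div_const (by norm_num : (0 : ℝ) < 2))
    have h3 := h2.const_mul ((2 : ℝ) ^ 20000)
    rw [mul_zero] at h3
    exact h3
  have e1 := h1.eventually_le_const hη
  have e2 := eventually_ge_atTop (4 : ℝ)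
  obtain ⟨Λ, hΛ⟩ := eventually_atTop.1 (e1.and e2)
  refine ⟨Λ, fun n p L hL h0 hp1 hn hb => ?_⟩
  obtain ⟨f1, f2⟩ := hΛ L hL
  refine (diam_bound h0 hp1).trans (le_trans ?_ f1)
  have hn4 : (4 : ℝ) ≤ n := by
    rw [hn]
    exact f2.trans (le_self_pow₀ (by linarith) (by norm_num))
  have hX2 : (n : ℝ) ^ 2 = 2 ^ 20000 * (L / 2) ^ 20000 := by
    rw [hn, ← mul_pow, ← pow_mul]
    congr 1
    ring
  rw [← mul_assoc, ← hX2]
  refine mul_le_mul_of_nonneg_left ?_ (by positivity)
  rw [Real.exp_le_exp]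
  have h3 : (n : ℝ) / 2 ≤ n - 2 := by linarith
  have h4 : p ^ 2 * ((n : ℝ) / 2) ≤ p ^ 2 * (n - 2) := mul_le_mul_of_nonneg_left h3 (sq_nonneg p)
  linarith

end Pool.Agent.U140.SG
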