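import Pool.Agent.U140.SG.VKc

/-! The deterministic inequality. -/

set_option linter.unusedSectionVars false
set_option linter.unusedVariables false

namespace Pool.Agent.U140.SG

open Finset

variable {n : ℕ} {G H : SimpleGraph (Fin n)} {f g : Fin n → Fin n → Fin n} {K : ℕ}

theorem rigid (m : Mt G H f g) (hT : T3 G K) {Lo : ℕ} (hLo : LoB G Lo) {Dg : ℕ}
    (hdeg : MaxDeg G Dg) (hSS : SSP G Dg) {μ B : ℕ} (hK : KRP G (μ + 1) B)
    (P : Finset (Sym2 (Fin n) × Sym2 (Fin n)))
    (hμ : ∀ k, ∀ T : Finset (Sym2 (Fin n)), (∀ e ∈ T, (e, k) ∈ P) → T.card ≤ μ)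
    (hμ' : ∀ e, ∀ T : Finset (Sym2 (Fin n)), (∀ k ∈ T, (e, k) ∈ P) → T.card ≤ μ)
    {B3 : ℕ} (h3 : ∀ S : Finset (Fin 5 → Fin n),
      (∀ C ∈ S, IsC5 H C ∧ V3 (fun e k => (e, k) ∈ P) g C) → S.card ≤ B3) :
    (DD G f).card * Lo ≤ 10 * ((DD G f).card * (2 * K5 K) + B3 + P.card * (40 * K5 K) +
      P.card * (μ * (20 * K5 K)) + (DD G f).card * (K * K5 K) +
      50 * (B * (4 * P.card + (K + 30) * (DD G f).card))) := by
  classical
  set SP : Sym2 (Fin n) → Sym2 (Fin n) → Prop := fun e k => (e, k) ∈ P with hSP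
  have hP : ∀ e e', SP e e' → (e, e') ∈ P := fun e e' h => h
  -- cycles with a moved first dart
  set S0 : Finset (Fin 5 → Fin n) := (cyc H).filter fun C => g (C 0) (C 1) ≠ C 1 with hS0
  have hlow : (DD G f).card * Lo ≤ S0.card := by
    -- disjoint family
    have h1 : ∀ zx : Fin n × Fin n, zx ∈ DD G f →
        Lo ≤ (S0.filter fun C => C 0 = zx.1 ∧ g (C 0) (C 1) = zx.2).card := by
      rintro ⟨z, x⟩ hzx
      rw [mem_DD] at hzx
      obtain ⟨T, hT1, hT2⟩ := hLo z x hzx.1
      refine hT2.trans ?_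
      refine card_le_card_of_injOn (fun c => vw f c 0) ?_ ?_
      · intro c hc
        obtain ⟨q1, q2, q3⟩ := hT1 c hc
        have v1 := m.symm.vw_cyc q1 0
        have v0 : vw f c 0 0 = c 0 := m.symm.vw_root c 0
        have e1 : vw f c 0 1 = f z x := by unfold vw; rw [q2, q3]
        have e2 : g (vw f c 0 0) (vw f c 0 1) = x := by
          rw [v0, q2, e1]; exact m.gf_adj hzx.1
        rw [mem_coe, mem_filter, hS0, mem_filter, mem_cyc]
        refine ⟨⟨v1, ?_⟩, ?_, e2⟩
        · show g (vw f c 0 0) (vw f c 0 1) ≠ vw f c 0 1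
          rw [e2, e1]; exact fun h => hzx.2 h.symm
        · show vw f c 0 0 = z
          rw [v0, q2]
      · intro c hc c' hc' hh
        exact m.symm.vw_inj (hT1 c hc).1 (hT1 c' hc').1 hh
    have h2 : (DD G f).card * Lo ≤
        ∑ zx ∈ DD G f, (S0.filter fun C => C 0 = zx.1 ∧ g (C 0) (C 1) = zx.2).card := by
      rw [← smul_eq_mul]
      exact card_nsmul_le_sum _ _ _ h1
    refine h2.trans ?_
    rw [← card_biUnion]
    · exact card_le_card (biUnion_subset.2 fun _ _ => filter_subset _ _)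
    · rintro ⟨z, x⟩ _ ⟨z', x'⟩ _ hne
      rw [Function.onFun, disjoint_left]
      intro C hC hC'
      apply hne
      obtain ⟨-, e1, e2⟩ := mem_filter.1 hC
      obtain ⟨-, e3, e4⟩ := mem_filter.1 hC'
      exact Prod.ext (e1.symm.trans e3) (e2.symm.trans e4)
  -- violations
  set VV : Finset (Fin 5 → Fin n) := (cyc H).filter fun C => Viol G f g SP C with hVV
  have hVVc : VV.card ≤ (DD G f).card * (2 * K5 K) + B3 + P.card * (40 * K5 K) +
      P.card * (μ * (20 * K5 K)) + (DD G f).card * (K * K5 K) +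
      50 * (B * (4 * P.card + (K + 30) * (DD G f).card)) := by
    have hsub : VV ⊆ ((cyc H).filter fun C => V1 g C) ∪ (((cyc H).filter fun C => V3 SP g C) ∪
        (((cyc H).filter fun C => V4 SP g C) ∪ (((cyc H).filter fun C => V5 SP g C) ∪
        (((cyc H).filter fun C => V8 G g C) ∪ ((cyc H).filter fun C => VK G f g SP C))))) := by
      intro C hC
      obtain ⟨h1, h2⟩ := mem_filter.1 hC
      simp only [mem_union, mem_filter]
      unfold Viol at h2
      rcases h2 with h | h | h | h | h | h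
      · exact Or.inl ⟨h1, h⟩
      · exact Or.inr (Or.inl ⟨h1, h⟩)
      · exact Or.inr (Or.inr (Or.inl ⟨h1, h⟩))
      · exact Or.inr (Or.inr (Or.inr (Or.inl ⟨h1, h⟩)))
      · exact Or.inr (Or.inr (Or.inr (Or.inr (Or.inl ⟨h1, h⟩))))
      · exact Or.inr (Or.inr (Or.inr (Or.inr (Or.inr ⟨h1, h⟩))))
    have hm : ∀ {Q : (Fin 5 → Fin n) → Prop} {C : Fin 5 → Fin n},
        C ∈ (cyc H).filter (fun C => Q C) → IsC5 H C ∧ Q C := fun hC =>
      ⟨mem_cyc.1 (mem_filter.1 hC).1, (mem_filter.1 hC).2⟩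
    have c1 := cnt_V1 m hT ((cyc H).filter fun C => V1 g C) fun C hC => hm hC
    have c3 := h3 ((cyc H).filter fun C => V3 SP g C) fun C hC => hm hC
    have c4 := cnt_V4 m hT P hP ((cyc H).filter fun C => V4 SP g C) fun C hC => hm hC
    have c5 := cnt_V5 m hT P hP hμ ((cyc H).filter fun C => V5 SP g C) fun C hC => hm hC
    have c8 := cnt_V8 m hT ((cyc H).filter fun C => V8 G g C) fun C hC => hm hC
    have ck := VK_count m hK P hP hμ hμ' ((cyc H).filter fun C => VK G f g SP C)
      fun C hC => hm hC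
    have ct := Mr_total m hT hdeg hSS P hP
    have ck' : ((cyc H).filter fun C => VK G f g SP C).card ≤
        50 * (B * (4 * P.card + (K + 30) * (DD G f).card)) :=
      ck.trans (Nat.mul_le_mul_left _ (Nat.mul_le_mul_left _ ct))
    refine (card_le_card hsub).trans ?_
    refine (card_union_le _ _).trans ?_
    refine (Nat.add_le_add c1 (card_union_le _ _)).trans ?_
    refine (Nat.add_le_add le_rfl (Nat.add_le_add c3 (card_union_le _ _))).trans ?_
    refine (Nat.add_le_add le_rfl (Nat.add_le_add le_rfl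
      (Nat.add_le_add c4 (card_union_le _ _)))).trans ?_
    refine (Nat.add_le_add le_rfl (Nat.add_le_add le_rfl
      (Nat.add_le_add le_rfl (Nat.add_le_add c5 (card_union_le _ _))))).trans ?_
    omega
  have hS0c : S0.card ≤ (univ : Finset (Fin 5 × Bool)).card * VV.card := by
    refine card_le_fib S0 _ (fun C kb => act kb.1 kb.2 C ∈ VV) _ ?_ ?_
    · intro C hC
      obtain ⟨h1, h2⟩ := mem_filter.1 hC
      have hC5 := mem_cyc.1 h1
      have := exists_viol m (SP := SP) hC5 h2
      unfold NV at this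
      push Not at this
      obtain ⟨k, b, hv⟩ := this
      exact ⟨(k, b), mem_univ _, mem_filter.2 ⟨mem_cyc.2 (hC5.act k b), hv⟩⟩
    · rintro ⟨k, b⟩ _ S' hS' hr
      exact card_le_card_of_injOn (act k b) hr ((act_injective k b).injOn)
  have h10 : (univ : Finset (Fin 5 × Bool)).card = 10 := by simp
  rw [h10] at hS0c
  exact hlow.trans (hS0c.trans (Nat.mul_le_mul_left _ hVVc))

end Pool.Agent.U140.SG
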