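import Pool.Agent.U140.SG.Mix

/-! Sequential bound for the existence of prescribed 3-paths, each with a new edge. -/

set_option linter.unusedSectionVars false
set_option linter.unusedVariables false

namespace Pool.Agent.U140.SG

open Finset Pool.Agent.Q299.PW

variable {n : ℕ}

abbrev Om (n : ℕ) := Sym2 (Fin n) → Bool

/-- the graph of a configuration -/
def gr (ω : Om n) : SimpleGraph (Fin n) where
  Adj x y := x ≠ y ∧ ω s(x, y) = true
  symm := ⟨fun x y h => ⟨h.1.symm, by rw [Sym2.eq_swap]; exact h.2⟩⟩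
  loopless := ⟨fun _ h => h.1 rfl⟩

lemma gr_adj (ω : Om n) (x y : Fin n) : (gr ω).Adj x y ↔ x ≠ y ∧ ω s(x, y) = true := Iff.rfl

/-- `x a b y` is a path with three edges -/
def IsP3 {V : Type*} (G : SimpleGraph V) (x a b y : V) : Prop :=
  G.Adj x a ∧ G.Adj a b ∧ G.Adj b y ∧ x ≠ b ∧ a ≠ y ∧ x ≠ y

/-- its edges -/
def pe {V : Type*} [DecidableEq V] (x a b y : V) : Finset (Sym2 V) := {s(x, a), s(a, b), s(b, y)}

def Chain (G : SimpleGraph (Fin n)) : Finset (Sym2 (Fin n)) → List (Fin n × Fin n) → Prop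
  | _, [] => True
  | S, q :: l => ∃ a b, IsP3 G q.1 a b q.2 ∧ ¬ pe q.1 a b q.2 ⊆ S ∧ Chain G (S ∪ pe q.1 a b q.2) l

open Classical in
/-- maximum degree at most `D` -/
def MaxDeg (G : SimpleGraph (Fin n)) (D : ℕ) : Prop :=
  ∀ v, (univ.filter fun w => G.Adj v w).card ≤ D

noncomputable def Wt (n : ℕ) (p : ℝ) (D : ℕ) : ℝ := n ^ 2 * p ^ 3 + 3 * D * n * p ^ 2 + 3 * D ^ 2 * p

lemma Wt_nonneg {p : ℝ} (h0 : 0 ≤ p) (D : ℕ) : 0 ≤ Wt n p D := by unfold Wt; positivity

/-- indicator of a known edge -/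
noncomputable def kn (S : Finset (Sym2 (Fin n))) (κ : Om n) (e : Sym2 (Fin n)) : ℝ :=
  if e ∈ S ∧ κ e = true ∧ ¬ e.IsDiag then 1 else 0

lemma kn_nonneg (S : Finset (Sym2 (Fin n))) (κ : Om n) (e : Sym2 (Fin n)) : 0 ≤ kn S κ e := by
  unfold kn; split_ifs <;> norm_num

lemma kn_sum {S : Finset (Sym2 (Fin n))} {κ : Om n} {D : ℕ} {ω : Om n}
    (h : MaxDeg (gr (mix S κ ω)) D) (v : Fin n) : ∑ w, kn S κ s(v, w) ≤ D := by
  classical
  have h1 : ∑ w, kn S κ s(v, w) =
      ((univ.filter fun w => s(v, w) ∈ S ∧ κ s(v, w) = true ∧ ¬ (s(v, w) : Sym2 (Fin n)).IsDiag).card : ℝ) := by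
    unfold kn
    rw [sum_ite, sum_const_zero, add_zero, sum_const, nsmul_eq_mul, mul_one]
  rw [h1]
  refine le_trans ?_ (Nat.cast_le.2 (h v))
  refine Nat.cast_le.2 (card_le_card fun w hw => ?_)
  rw [mem_filter] at hw ⊢
  refine ⟨mem_univ _, ?_, ?_⟩
  · rintro rfl
    exact hw.2.2.2 (by rw [Sym2.mk_isDiag_iff])
  · rw [mix_mem hw.2.1]; exact hw.2.2.1

lemma kn_sum' {S : Finset (Sym2 (Fin n))} {κ : Om n} {D : ℕ} {ω : Om n}
    (h : MaxDeg (gr (mix S κ ω)) D) (v : Fin n) : ∑ w, kn S κ s(w, v) ≤ D := by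
  have := kn_sum h v
  simp_rw [Sym2.eq_swap (a := v)] at this
  exact this

/-- the sum over the two inner vertices -/
lemma sum_bound {S : Finset (Sym2 (Fin n))} {κ : Om n} {D : ℕ} {ω : Om n} {p : ℝ} (h0 : 0 ≤ p)
    (h : MaxDeg (gr (mix S κ ω)) D) (x y : Fin n) :
    ∑ a, ∑ b, ((kn S κ s(x, a) + p) * (kn S κ s(a, b) + p) * (kn S κ s(b, y) + p) -
      kn S κ s(x, a) * kn S κ s(a, b) * kn S κ s(b, y)) ≤ Wt n p D := by
  have hD : (0 : ℝ) ≤ D := Nat.cast_nonneg _
  have e1 : ∑ a, ∑ b, kn S κ s(x, a) * kn S κ s(a, b) ≤ (D : ℝ) ^ 2 := by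
    calc ∑ a, ∑ b, kn S κ s(x, a) * kn S κ s(a, b)
        = ∑ a, kn S κ s(x, a) * ∑ b, kn S κ s(a, b) := by simp_rw [mul_sum]
      _ ≤ ∑ a, kn S κ s(x, a) * D :=
          sum_le_sum fun a _ => mul_le_mul_of_nonneg_left (kn_sum h a) (kn_nonneg _ _ _)
      _ = (∑ a, kn S κ s(x, a)) * D := by rw [sum_mul]
      _ ≤ D * D := mul_le_mul_of_nonneg_right (kn_sum h x) hD
      _ = (D : ℝ) ^ 2 := by ring
  have e2 : ∑ a, ∑ b, kn S κ s(x, a) * kn S κ s(b, y) ≤ (D : ℝ) ^ 2 := by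
    calc ∑ a, ∑ b, kn S κ s(x, a) * kn S κ s(b, y)
        = (∑ a, kn S κ s(x, a)) * ∑ b, kn S κ s(b, y) := by rw [sum_mul_sum]
      _ ≤ D * D := mul_le_mul (kn_sum h x) (kn_sum' h y) (sum_nonneg fun _ _ => kn_nonneg _ _ _) hD
      _ = (D : ℝ) ^ 2 := by ring
  have e3 : ∑ a, ∑ b, kn S κ s(a, b) * kn S κ s(b, y) ≤ (D : ℝ) ^ 2 := by
    rw [sum_comm]
    calc ∑ b, ∑ a, kn S κ s(a, b) * kn S κ s(b, y)
        = ∑ b, (∑ a, kn S κ s(a, b)) * kn S κ s(b, y) := by simp_rw [sum_mul]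
      _ ≤ ∑ b, D * kn S κ s(b, y) :=
          sum_le_sum fun b _ => mul_le_mul_of_nonneg_right (kn_sum' h b) (kn_nonneg _ _ _)
      _ = D * ∑ b, kn S κ s(b, y) := by rw [mul_sum]
      _ ≤ D * D := mul_le_mul_of_nonneg_left (kn_sum' h y) hD
      _ = (D : ℝ) ^ 2 := by ring
  have e4 : ∑ a : Fin n, ∑ b : Fin n, kn S κ s(x, a) ≤ n * D := by
    simp only [sum_const, card_univ, Fintype.card_fin, nsmul_eq_mul]
    rw [← mul_sum]
    exact mul_le_mul_of_nonneg_left (kn_sum h x) (Nat.cast_nonneg _)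
  have e5 : ∑ a : Fin n, ∑ b : Fin n, kn S κ s(a, b) ≤ n * D := by
    calc ∑ a : Fin n, ∑ b : Fin n, kn S κ s(a, b) ≤ ∑ a : Fin n, (D : ℝ) :=
          sum_le_sum fun a _ => kn_sum h a
      _ = n * D := by simp
  have e6 : ∑ a : Fin n, ∑ b : Fin n, kn S κ s(b, y) ≤ n * D := by
    calc ∑ a : Fin n, ∑ b : Fin n, kn S κ s(b, y) ≤ ∑ a : Fin n, (D : ℝ) :=
          sum_le_sum fun a _ => kn_sum' h y
      _ = n * D := by simp
  have e7 : ∑ a : Fin n, ∑ b : Fin n, (1 : ℝ) = n ^ 2 := by simp [sq]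
  have hexp : ∑ a, ∑ b, ((kn S κ s(x, a) + p) * (kn S κ s(a, b) + p) * (kn S κ s(b, y) + p) -
      kn S κ s(x, a) * kn S κ s(a, b) * kn S κ s(b, y)) =
      p * (∑ a, ∑ b, kn S κ s(x, a) * kn S κ s(a, b)) +
      p * (∑ a, ∑ b, kn S κ s(x, a) * kn S κ s(b, y)) +
      p * (∑ a, ∑ b, kn S κ s(a, b) * kn S κ s(b, y)) +
      p ^ 2 * (∑ a : Fin n, ∑ b : Fin n, kn S κ s(x, a)) +
      p ^ 2 * (∑ a : Fin n, ∑ b : Fin n, kn S κ s(a, b)) +
      p ^ 2 * (∑ a : Fin n, ∑ b : Fin n, kn S κ s(b, y)) +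
      p ^ 3 * (∑ a : Fin n, ∑ b : Fin n, (1 : ℝ)) := by
    simp only [mul_sum, ← sum_add_distrib]
    refine sum_congr rfl fun a _ => sum_congr rfl fun b _ => by ring
  rw [hexp, e7]
  unfold Wt
  have h2 : 0 ≤ p ^ 2 := by positivity
  nlinarith [mul_le_mul_of_nonneg_left e1 h0, mul_le_mul_of_nonneg_left e2 h0,
    mul_le_mul_of_nonneg_left e3 h0, mul_le_mul_of_nonneg_left e4 h2,
    mul_le_mul_of_nonneg_left e5 h2, mul_le_mul_of_nonneg_left e6 h2]

lemma pe_distinct {V : Type*} [DecidableEq V] {G : SimpleGraph V} {x a b y : V} (h : IsP3 G x a b y) :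
    s(x, a) ≠ s(a, b) ∧ s(x, a) ≠ s(b, y) ∧ s(a, b) ≠ s(b, y) := by
  obtain ⟨h1, h2, h3, h4, h5, h6⟩ := h
  refine ⟨?_, ?_, ?_⟩ <;> intro hh <;> rw [Sym2.eq_iff] at hh
  · rcases hh with ⟨rfl, rfl⟩ | ⟨rfl, _⟩
    · exact h4 rfl
    · exact h4 rfl
  · rcases hh with ⟨rfl, rfl⟩ | ⟨rfl, _⟩
    · exact h4 rfl
    · exact h6 rfl
  · rcases hh with ⟨rfl, rfl⟩ | ⟨rfl, _⟩
    · exact h5 rfl
    · exact h5 rfl

lemma not_diag_of_mem_pe {V : Type*} [DecidableEq V] {G : SimpleGraph V} {x a b y : V}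
    (h : IsP3 G x a b y) {e : Sym2 V} (he : e ∈ pe x a b y) : ¬ e.IsDiag := by
  obtain ⟨h1, h2, h3, h4, h5, h6⟩ := h
  unfold pe at he
  simp only [mem_insert, mem_singleton] at he
  rcases he with rfl | rfl | rfl <;> rw [Sym2.mk_isDiag_iff]
  · exact h1.ne
  · exact h2.ne
  · exact h3.ne

lemma open_of_mem_pe {ω : Om n} {x a b y : Fin n}
    (h : IsP3 (gr ω) x a b y) {e : Sym2 (Fin n)} (he : e ∈ pe x a b y) : ω e = true := by
  obtain ⟨h1, h2, h3, h4, h5, h6⟩ := h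
  unfold pe at he
  simp only [mem_insert, mem_singleton] at he
  rcases he with rfl | rfl | rfl
  · exact h1.2
  · exact h2.2
  · exact h3.2

theorem seq_bound {p : ℝ} (h0 : 0 ≤ p) (h1 : p ≤ 1) (D : ℕ) (l : List (Fin n × Fin n)) :
    ∀ (S : Finset (Sym2 (Fin n))) (κ : Om n),
    Pr (wp p) (fun ω : Om n => MaxDeg (gr (mix S κ ω)) D ∧ Chain (gr (mix S κ ω)) S l) ≤
      (Wt n p D) ^ l.length := by
  classical
  have hw := wp_nonneg h0 h1
  have hw1 := wp_sum p
  induction l with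
  | nil =>
    intro S κ
    simp only [List.length_nil, pow_zero]
    exact Pr_le_one hw hw1 _
  | cons q l ih =>
    intro S κ
    obtain ⟨x, y⟩ := q
    by_cases hdeg : ∃ ω : Om n, MaxDeg (gr (mix S κ ω)) D
    swap
    · push Not at hdeg
      rw [Pr_false _ fun ω h => hdeg ω h.1]
      exact pow_nonneg (Wt_nonneg h0 D) _
    obtain ⟨ω₀, hω₀⟩ := hdeg
    set B := (Wt n p D) ^ l.length with hB
    have hB0 : 0 ≤ B := pow_nonneg (Wt_nonneg h0 D) _
    set A : Fin n × Fin n → Om n → Prop := fun ab ω => MaxDeg (gr (mix S κ ω)) D ∧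
      IsP3 (gr (mix S κ ω)) x ab.1 ab.2 y ∧ ¬ pe x ab.1 ab.2 y ⊆ S ∧
      Chain (gr (mix S κ ω)) (S ∪ pe x ab.1 ab.2 y) l with hA
    have hle : Pr (wp p) (fun ω : Om n => MaxDeg (gr (mix S κ ω)) D ∧
        Chain (gr (mix S κ ω)) S ((x, y) :: l)) ≤ ∑ ab, Pr (wp p) (A ab) := by
      refine le_trans (Pr_mono hw fun ω h => ?_) (Pr_exists_le hw univ A)
      obtain ⟨hm, a, b, h1, h2, h3⟩ := h
      exact ⟨(a, b), mem_univ _, hm, h1, h2, h3⟩
    refine hle.trans ?_
    have hterm : ∀ ab : Fin n × Fin n, Pr (wp p) (A ab) ≤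
        ((kn S κ s(x, ab.1) + p) * (kn S κ s(ab.1, ab.2) + p) * (kn S κ s(ab.2, y) + p) -
          kn S κ s(x, ab.1) * kn S κ s(ab.1, ab.2) * kn S κ s(ab.2, y)) * B := by
      rintro ⟨a, b⟩
      simp only
      have k1 := kn_nonneg S κ s(x, a)
      have k2 := kn_nonneg S κ s(a, b)
      have k3 := kn_nonneg S κ s(b, y)
      have hval : 0 ≤ (kn S κ s(x, a) + p) * (kn S κ s(a, b) + p) * (kn S κ s(b, y) + p) -
          kn S κ s(x, a) * kn S κ s(a, b) * kn S κ s(b, y) := by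
        have : (kn S κ s(x, a) + p) * (kn S κ s(a, b) + p) * (kn S κ s(b, y) + p) -
          kn S κ s(x, a) * kn S κ s(a, b) * kn S κ s(b, y) =
          p * (kn S κ s(x, a) * kn S κ s(a, b)) + p * (kn S κ s(x, a) * kn S κ s(b, y)) +
          p * (kn S κ s(a, b) * kn S κ s(b, y)) + p ^ 2 * kn S κ s(x, a) + p ^ 2 * kn S κ s(a, b) +
          p ^ 2 * kn S κ s(b, y) + p ^ 3 := by ring
        rw [this]; positivity
      by_cases hne : ∃ ω : Om n, A (a, b) ω
      swap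
      · push Not at hne
        rw [Pr_false _ hne]
        exact mul_nonneg hval hB0
      obtain ⟨ω₁, -, hP, hS, -⟩ := hne
      simp only at hP hS
      set N := pe x a b y \ S with hN
      set κ' : Om n := fun e => if e ∈ S then κ e else true with hκ'
      have hagree : ∀ ω : Om n, (∀ e ∈ N, ω e = true) →
          mix S κ ω = mix (S ∪ pe x a b y) κ' ω := by
        intro ω hω
        funext e
        by_cases h1 : e ∈ S
        · rw [mix_mem h1, mix_mem (mem_union_left _ h1), hκ']; simp [h1]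
        · by_cases h2 : e ∈ pe x a b y
          · rw [mix_not h1, mix_mem (mem_union_right _ h2), hκ', hω e (mem_sdiff.2 ⟨h2, h1⟩)]
            simp [h1]
          · rw [mix_not h1, mix_not (by rw [mem_union]; tauto)]
      have hP1 : Pr (wp p) (A (a, b)) ≤ p ^ N.card * B := by
        refine le_trans (Pr_mono hw (B := fun ω => (∀ e ∈ N, ω e = true) ∧
          (MaxDeg (gr (mix (S ∪ pe x a b y) κ' ω)) D ∧
            Chain (gr (mix (S ∪ pe x a b y) κ' ω)) (S ∪ pe x a b y) l)) fun ω h => ?_) ?_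
        · obtain ⟨hm, h1, h2, h3⟩ := h
          simp only at h1 h2 h3
          have hω : ∀ e ∈ N, ω e = true := by
            intro e he
            obtain ⟨he1, he2⟩ := mem_sdiff.1 he
            have := open_of_mem_pe h1 he1
            rwa [mix_not he2] at this
          rw [hagree ω hω] at hm h3
          exact ⟨hω, hm, h3⟩
        · rw [pr_all_and p N]
          · exact mul_le_mul_of_nonneg_left (ih _ _) (pow_nonneg h0 _)
          · intro ω ω' hωω
            have : mix (S ∪ pe x a b y) κ' ω = mix (S ∪ pe x a b y) κ' ω' := by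
              funext e
              by_cases h : e ∈ S ∪ pe x a b y
              · rw [mix_mem h, mix_mem h]
              · rw [mix_not h, mix_not h]
                exact hωω e fun he => h (mem_union_right _ (mem_sdiff.1 he).1)
            rw [this]
      refine hP1.trans (mul_le_mul_of_nonneg_right ?_ hB0)
      obtain ⟨d1, d2, d3⟩ := pe_distinct hP
      have hprod : ∀ g : Sym2 (Fin n) → ℝ, ∏ e ∈ pe x a b y, g e = g s(x, a) * g s(a, b) * g s(b, y) := by
        intro g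
        unfold pe
        rw [prod_insert (by simp [d1, d2]), prod_insert (by simp [d3]), prod_singleton]
        ring
      have hknown : ∀ e ∈ pe x a b y, e ∈ S → kn S κ e = 1 := by
        intro e he heS
        have h1 := open_of_mem_pe hP he
        rw [mix_mem heS] at h1
        unfold kn
        rw [if_pos ⟨heS, h1, not_diag_of_mem_pe hP he⟩]
      have hzero : kn S κ s(x, a) * kn S κ s(a, b) * kn S κ s(b, y) = 0 := by
        rw [← hprod]
        rw [not_subset] at hS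
        obtain ⟨e, he, heS⟩ := hS
        refine prod_eq_zero he ?_
        unfold kn
        rw [if_neg (by tauto)]
      rw [hzero, sub_zero, ← hprod (fun e => kn S κ e + p)]
      have hpN : p ^ N.card = ∏ e ∈ pe x a b y, (if e ∈ S then (1 : ℝ) else p) := by
        rw [prod_ite, prod_const_one, one_mul, prod_const]
        congr 1
        rw [hN]
        congr 1
        ext e
        simp [mem_sdiff, mem_filter]
      rw [hpN]
      refine prod_le_prod (fun e _ => by split_ifs <;> simp [h0]) fun e he => ?_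
      by_cases h : e ∈ S
      · rw [if_pos h, hknown e he h]; linarith
      · rw [if_neg h]; have := kn_nonneg S κ e; linarith
    refine (sum_le_sum fun ab _ => hterm ab).trans ?_
    rw [← sum_mul, Fintype.sum_prod_type, List.length_cons, pow_succ, mul_comm ((Wt n p D) ^ l.length)]
    exact mul_le_mul_of_nonneg_right (sum_bound h0 hω₀ x y) hB0

end Pool.Agent.U140.SG
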