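import Pool.Agent.U140.SG.Cnt
import Pool.Agent.U140.SG.Greedy

/-! Typical properties, part one. -/

set_option linter.unusedSectionVars false
set_option linter.unusedVariables false

namespace Pool.Agent.U140.SG

open Finset Pool.Agent.Q299.PW

variable {n : ℕ}

lemma low_tail {p : ℝ} (h0 : 0 ≤ p) (h1 : p ≤ 1) (F : Finset (Sym2 (Fin n))) {N : ℝ}
    (hN : N ≤ F.card) :
    Pr (wp p) (fun ω : Om n => ((F.filter fun e => ω e = true).card : ℝ) ≤ N * p / 4) ≤
      Real.exp (-(N * p / 4)) := by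
  classical
  have hw := wp_nonneg h0 h1
  have h := Pr_cnt_le (ι := Sym2 (Fin n)) hw (wp_sum p) ({true} : Finset Bool) F (t := 1)
    (r := N * p / 4) (by norm_num)
  have hcnt : ∀ ω : Om n, cnt ({true} : Finset Bool) F ω = (F.filter fun e => ω e = true).card := by
    intro ω
    unfold cnt
    congr 1
    ext e
    simp
  simp only [hcnt] at h
  refine h.trans ?_
  rw [Real.exp_le_exp]
  have e1 : ∑ a ∈ ({true} : Finset Bool), wp p a = p := by simp [wp]
  rw [e1]
  have e2 : Real.exp (-1) ≤ 1 / 2 := by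
    rw [Real.exp_neg, one_div]
    exact inv_anti₀ (by norm_num) (by have := Real.add_one_le_exp (1:ℝ); linarith)
  have e3 : N * p ≤ F.card * p := mul_le_mul_of_nonneg_right hN h0
  have e4 : (F.card : ℝ) * p * (1 / 2) ≤ (F.card : ℝ) * (p * (1 - Real.exp (-1))) := by
    have : (0:ℝ) ≤ F.card * p := by positivity
    nlinarith
  linarith

/-- first moment for the maximum degree -/
lemma maxdeg_bound {p : ℝ} (h0 : 0 ≤ p) (h1 : p ≤ 1) (D : ℕ) :
    Pr (wp p) (fun ω : Om n => ¬ MaxDeg (gr ω) D) ≤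
      n * (Real.exp 1 * n / (D + 1 : ℕ) * p) ^ (D + 1) := by
  classical
  have hw := wp_nonneg h0 h1
  have hstep : Pr (wp p) (fun ω : Om n => ¬ MaxDeg (gr ω) D) ≤
      ∑ v : Fin n, ∑ T ∈ powersetCard (D + 1) (univ : Finset (Fin n)),
        Pr (wp p) (fun ω : Om n => ∀ w ∈ T, ω s(v, w) = true) := by
    refine le_trans (Pr_mono hw (B := fun ω : Om n => ∃ v ∈ (univ : Finset (Fin n)),
      ∃ T ∈ powersetCard (D + 1) (univ : Finset (Fin n)), ∀ w ∈ T, ω s(v, w) = true)
      fun ω h => ?_) ?_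
    · unfold MaxDeg at h
      push Not at h
      obtain ⟨v, hv⟩ := h
      obtain ⟨T, hT1, hT2⟩ := exists_subset_card_eq (Nat.succ_le_iff.2 hv)
      refine ⟨v, mem_univ _, T, mem_powersetCard.2 ⟨subset_univ _, hT2⟩, fun w hw => ?_⟩
      exact (mem_filter.1 (hT1 hw)).2.2
    · refine (Pr_exists_le hw _ _).trans (sum_le_sum fun v _ => ?_)
      exact Pr_exists_le hw _ _
  refine hstep.trans ?_
  have hterm : ∀ v : Fin n, ∀ T ∈ powersetCard (D + 1) (univ : Finset (Fin n)),
      Pr (wp p) (fun ω : Om n => ∀ w ∈ T, ω s(v, w) = true) ≤ p ^ (D + 1) := by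
    intro v T hT
    have hinj : Function.Injective (fun w : Fin n => s(v, w)) := by
      intro w w' hh
      exact Sym2.congr_right.1 hh
    have h2 := pr_all p (T.image fun w => s(v, w))
    rw [card_image_of_injective _ hinj, (mem_powersetCard.1 hT).2] at h2
    rw [← h2]
    refine Pr_mono hw fun ω h => ?_
    intro e he
    obtain ⟨w, hw, rfl⟩ := mem_image.1 he
    exact h w hw
  refine (sum_le_sum fun v _ => sum_le_sum fun T hT => hterm v T hT).trans ?_
  rw [sum_const, sum_const, card_powersetCard, card_univ, Fintype.card_fin, nsmul_eq_mul,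
    nsmul_eq_mul]
  refine mul_le_mul_of_nonneg_left ?_ (Nat.cast_nonneg _)
  rw [mul_pow]
  refine mul_le_mul_of_nonneg_right ?_ (by positivity)
  exact choose_le_exp n (D + 1) (Nat.succ_pos D)

lemma pe_card (x a b y : Fin n) : (pe x a b y).card ≤ 3 := by unfold pe; exact card_le_three

/-- many paths between two vertices give a chain -/
lemma t3_det {G : SimpleGraph (Fin n)} {r : ℕ} (h : ¬ T3 G (3 * r * (3 * r))) :
    ∃ x y, Chain G ∅ (List.replicate r (x, y)) := by
  classical
  unfold T3 at h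
  push Not at h
  obtain ⟨x, y, hxy⟩ := h
  refine ⟨x, y, ?_⟩
  obtain ⟨l', T, g1, g2, g3, g4, g5⟩ := greedy
    (P := fun (ab c : Fin n × Fin n) => c = ab ∧ IsP3 G x ab.1 ab.2 y)
    (New := fun X c => ¬ pe x c.1 c.2 y ⊆ X)
    (es := fun c => pe x c.1 c.2 y)
    (fun X Y c hXY h h' => h (h'.trans hXY)) (M := 3)
    (fun c => pe_card _ _ _ _) (paths3 G x y).toList ∅
  have hconv : ∀ (l : List (Fin n × Fin n)) (X : Finset (Sym2 (Fin n))),
      GChain (P := fun (ab c : Fin n × Fin n) => c = ab ∧ IsP3 G x ab.1 ab.2 y)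
        (fun X c => ¬ pe x c.1 c.2 y ⊆ X) (fun c => pe x c.1 c.2 y) X l →
      Chain G X (List.replicate l.length (x, y)) := by
    intro l
    induction l with
    | nil => intro X _; trivial
    | cons ab l ih =>
      intro X h
      obtain ⟨c, ⟨rfl, hc2⟩, hc3, hc4⟩ := h
      rw [List.length_cons, List.replicate_succ]
      exact ⟨c.1, c.2, hc2, hc3, ih _ hc4⟩
  by_cases hlen : r ≤ l'.length
  · have := hconv _ _ (g4.take r)
    rwa [List.length_take, min_eq_left hlen] at this
  · exfalso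
    push Not at hlen
    rw [sdiff_empty] at g3
    have hall : ∀ ab ∈ paths3 G x y, pe x ab.1 ab.2 y ⊆ T := by
      intro ab hab
      rcases g5 ab (mem_toList.2 hab) with ⟨-, c, ⟨rfl, -⟩, hc⟩ | h
      · exact hc
      · have := h ab ⟨rfl, mem_paths3.1 hab⟩
        rwa [not_not] at this
    have h1 : (paths3 G x y).card ≤ T.card * T.card := by
      rw [← card_product]
      refine card_le_card_of_injOn (fun ab => (s(x, ab.1), s(ab.2, y))) ?_ ?_
      · intro ab hab
        rw [mem_coe, mem_product]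
        have := hall ab hab
        unfold pe at this
        exact ⟨this (by simp), this (by simp)⟩
      · intro ab _ ab' _ hh
        obtain ⟨e1, e2⟩ := Prod.ext_iff.1 hh
        exact Prod.ext (Sym2.congr_right.1 e1) (Sym2.congr_left.1 e2)
    have h2 : T.card * T.card ≤ 3 * r * (3 * r) :=
      Nat.mul_le_mul (g3.trans (Nat.mul_le_mul_left _ hlen.le))
        (g3.trans (Nat.mul_le_mul_left _ hlen.le))
    omega

lemma mix_empty (κ ω : Om n) : mix ∅ κ ω = ω := by
  funext e; rw [mix_not (notMem_empty e)]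

lemma seq_bound0 {p : ℝ} (h0 : 0 ≤ p) (h1 : p ≤ 1) (D : ℕ) (l : List (Fin n × Fin n)) :
    Pr (wp p) (fun ω : Om n => MaxDeg (gr ω) D ∧ Chain (gr ω) ∅ l) ≤
      (Wt n p D) ^ l.length := by
  have := seq_bound h0 h1 D l ∅ (fun _ => true)
  simp only [mix_empty] at this
  exact this

lemma t3_bound {p : ℝ} (h0 : 0 ≤ p) (h1 : p ≤ 1) (D r : ℕ) :
    Pr (wp p) (fun ω : Om n => MaxDeg (gr ω) D ∧ ¬ T3 (gr ω) (3 * r * (3 * r))) ≤
      n ^ 2 * (Wt n p D) ^ r := by
  classical
  have hw := wp_nonneg h0 h1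
  refine le_trans (Pr_mono hw (B := fun ω : Om n => ∃ xy ∈ (univ : Finset (Fin n × Fin n)),
    (MaxDeg (gr ω) D ∧ Chain (gr ω) ∅ (List.replicate r xy))) fun ω h => ?_) ?_
  · obtain ⟨x, y, hxy⟩ := t3_det h.2
    exact ⟨(x, y), mem_univ _, h.1, hxy⟩
  · refine (Pr_exists_le hw _ _).trans ?_
    refine (sum_le_sum fun xy _ => seq_bound0 h0 h1 D (List.replicate r xy)).trans ?_
    simp only [List.length_replicate]
    rw [sum_const, card_univ, Fintype.card_prod, Fintype.card_fin, nsmul_eq_mul]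
    push_cast
    rw [sq]

/-- star of `u` -/
def star (u : Fin n) : Finset (Sym2 (Fin n)) := univ.filter fun e => u ∈ e

lemma mem_star {u : Fin n} {e : Sym2 (Fin n)} : e ∈ star u ↔ u ∈ e := by simp [star]

open Classical in
noncomputable def nb (G : SimpleGraph (Fin n)) (u : Fin n) : Finset (Fin n) :=
  univ.filter fun w => G.Adj u w

lemma nb_mix (u : Fin n) (κ ω ω' : Om n) {S : Finset (Sym2 (Fin n))} (hS : star u ⊆ S) :
    nb (gr (mix S κ ω)) u = nb (gr (mix S κ ω')) u := by
  classical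
  unfold nb
  congr 1
  funext w
  rw [gr_adj, gr_adj]
  have : s(u, w) ∈ S := hS (mem_star.2 (Sym2.mem_mk_left _ _))
  rw [mix_mem this, mix_mem this]

/-- many cycles through a dart give a chain -/
lemma up_det {G : SimpleGraph (Fin n)} {K r₀ : ℕ} (hT : T3 G K) (u v : Fin n)
    (S : Finset (Fin 5 → Fin n)) (hS : ∀ c ∈ S, IsC5 G c ∧ c 0 = u ∧ c 1 = v)
    (hc : K * r₀ + 6 * r₀ * (K + 1) < S.card) :
    ∃ l' ∈ List.sublistsLen r₀ (nb G u).toList, Chain G (star u) (l'.map fun w => (v, w)) := by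
  classical
  obtain ⟨l', T, g1, g2, g3, g4, g5⟩ := greedy
    (P := fun (w : Fin n) (c : Fin 5 → Fin n) => c ∈ S ∧ c 4 = w)
    (New := fun X c => ¬ In c ⊆ X)
    (es := fun c => In c)
    (fun X Y c hXY h h' => h (h'.trans hXY)) (M := 3)
    (fun c => by unfold In; exact pe_card _ _ _ _) (nb G u).toList (star u)
  have hconv : ∀ (l : List (Fin n)) (X : Finset (Sym2 (Fin n))),
      GChain (P := fun (w : Fin n) (c : Fin 5 → Fin n) => c ∈ S ∧ c 4 = w)
        (fun X c => ¬ In c ⊆ X) (fun c => In c) X l →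
      Chain G X (l.map fun w => (v, w)) := by
    intro l
    induction l with
    | nil => intro X _; trivial
    | cons w l ih =>
      intro X h
      obtain ⟨c, ⟨hc1, hc2⟩, hc3, hc4⟩ := h
      obtain ⟨k1, k2, k3⟩ := hS c hc1
      have hi : pe v (c 2) (c 3) w = In c := by rw [← k3, ← hc2]; rfl
      rw [List.map_cons]
      refine ⟨c 2, c 3, ?_, ?_, ?_⟩
      · simp only; rw [← k3, ← hc2]
        exact ⟨k1.adj 1, k1.adj 2, k1.adj 3, k1.inj.ne (by decide), k1.inj.ne (by decide),
          k1.inj.ne (by decide)⟩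
      · simp only; rw [hi]; exact hc3
      · simp only; rw [hi]; exact ih _ hc4
  by_contra hcon
  push Not at hcon
  have hlen : l'.length < r₀ := by
    by_contra hh
    push Not at hh
    refine hcon (l'.take r₀) ?_ (hconv _ _ (g4.take r₀))
    rw [List.mem_sublistsLen]
    refine ⟨(List.take_sublist _ _).trans g1, ?_⟩
    rw [List.length_take, min_eq_left hh]
  set S1 := S.filter fun c => c 4 ∈ l' with hS1
  set S2 := S.filter fun c => s(c 2, c 3) ∈ T \ star u with hS2
  have hsub : S ⊆ S1 ∪ S2 := by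
    intro c hc
    obtain ⟨k1, k2, k3⟩ := hS c hc
    rw [mem_union, hS1, hS2, mem_filter, mem_filter]
    have hm : c 4 ∈ (nb G u).toList := by
      rw [mem_toList]; unfold nb; rw [mem_filter, ← k2]
      exact ⟨mem_univ _, (k1.adj 4).symm⟩
    rcases g5 _ hm with ⟨h, -⟩ | h
    · exact Or.inl ⟨hc, h⟩
    · right
      have h2 := h c ⟨hc, rfl⟩
      rw [not_not] at h2
      refine ⟨hc, mem_sdiff.2 ⟨h2 ?_, ?_⟩⟩
      · rw [mem_In]; tauto
      · rw [mem_star, ← k2, Sym2.mem_iff, not_or]
        exact ⟨k1.inj.ne (by decide), k1.inj.ne (by decide)⟩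
  have c1 : S1.card ≤ r₀ * K := by
    have h1 := card_le_fib S1 l'.toFinset (fun c w => c 4 = w) K ?_ ?_
    · exact h1.trans (Nat.mul_le_mul_right _ ((List.toFinset_card_le l').trans hlen.le))
    · intro c hc
      exact ⟨_, List.mem_toFinset.2 (mem_filter.1 hc).2, rfl⟩
    · intro w hw S' hS' hr
      refine le_trans ?_ (hT v w)
      refine card_le_card_of_injOn (fun c => (c 2, c 3)) ?_ ?_
      · intro c hc
        obtain ⟨k1, k2, k3⟩ := hS c (mem_filter.1 (hS' hc)).1
        rw [mem_coe, mem_paths3, ← k3, ← hr c hc]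
        exact ⟨k1.adj 1, k1.adj 2, k1.adj 3, k1.inj.ne (by decide), k1.inj.ne (by decide),
          k1.inj.ne (by decide)⟩
      · intro c hc c' hc' hh
        obtain ⟨k1, k2, k3⟩ := hS c (mem_filter.1 (hS' hc)).1
        obtain ⟨k1', k2', k3'⟩ := hS c' (mem_filter.1 (hS' hc')).1
        obtain ⟨e1, e2⟩ := Prod.ext_iff.1 hh
        have h0 := k2.trans k2'.symm
        have h1 := k3.trans k3'.symm
        have h4 := (hr c hc).trans (hr c' hc').symm
        funext i
        fin_cases i
        · exact h0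
        · exact h1
        · exact e1
        · exact e2
        · exact h4
  have c2 : S2.card ≤ 3 * r₀ * (2 * (K + 1)) := by
    have h1 := card_le_fib S2 (T \ star u) (fun c e => s(c 2, c 3) = e) (2 * (K + 1)) ?_ ?_
    · refine h1.trans (Nat.mul_le_mul_right _ (g3.trans (Nat.mul_le_mul_left _ hlen.le)))
    · intro c hc
      exact ⟨_, (mem_filter.1 hc).2, rfl⟩
    · intro e he S' hS' hr
      induction e using Sym2.ind with
      | _ a b =>
      have key : ∀ a b : Fin n, (S'.filter fun c => c 2 = a ∧ c 3 = b).card ≤ K + 1 := by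
        intro a b
        rcases (S'.filter fun c => c 2 = a ∧ c 3 = b).eq_empty_or_nonempty with h0 | ⟨c₀, hc₀⟩
        · rw [h0]; simp
        obtain ⟨h1, h2, h3⟩ := mem_filter.1 hc₀
        obtain ⟨k1, k2, k3⟩ := hS c₀ (mem_filter.1 (hS' h1)).1
        have hub : u ≠ b := by rw [← k2, ← h3]; exact k1.inj.ne (by decide)
        refine le_trans ?_ (cn_card hT hub)
        refine card_le_card_of_injOn (fun c => c 4) ?_ ?_
        · intro c hc
          obtain ⟨h1, h2, h3⟩ := mem_filter.1 hc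
          obtain ⟨k1, k2, k3⟩ := hS c (mem_filter.1 (hS' h1)).1
          rw [mem_coe, mem_cn, ← k2, ← h3]
          exact ⟨k1.adj 4, (k1.adj 3).symm⟩
        · intro c hc c' hc' hh
          obtain ⟨h1, h2, h3⟩ := mem_filter.1 hc
          obtain ⟨k1, k2, k3⟩ := hS c (mem_filter.1 (hS' h1)).1
          obtain ⟨h1', h2', h3'⟩ := mem_filter.1 hc'
          obtain ⟨k1', k2', k3'⟩ := hS c' (mem_filter.1 (hS' h1')).1
          have e0 := k2.trans k2'.symm
          have e1 := k3.trans k3'.symm
          have e2 := h2.trans h2'.symm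
          have e3 := h3.trans h3'.symm
          funext i
          fin_cases i
          · exact e0
          · exact e1
          · exact e2
          · exact e3
          · exact hh
      have hsub : S' ⊆ (S'.filter fun c => c 2 = a ∧ c 3 = b) ∪
          (S'.filter fun c => c 2 = b ∧ c 3 = a) := by
        intro c hc
        have k3 := hr c hc
        rw [Sym2.eq_iff] at k3
        rw [mem_union, mem_filter, mem_filter]
        tauto
      have h1 := card_le_card hsub
      have h2 := card_union_le (S'.filter fun c => c 2 = a ∧ c 3 = b)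
        (S'.filter fun c => c 2 = b ∧ c 3 = a)
      have h3 := key a b
      have h4 := key b a
      omega
  have u1 := card_le_card hsub
  have u2 := card_union_le S1 S2
  have e1 : r₀ * K = K * r₀ := mul_comm _ _
  have e2 : 3 * r₀ * (2 * (K + 1)) = 6 * r₀ * (K + 1) := by ring
  rw [e1] at c1
  rw [e2] at c2
  omega

lemma up_bound {p : ℝ} (h0 : 0 ≤ p) (h1 : p ≤ 1) (D K r₀ : ℕ) :
    Pr (wp p) (fun ω : Om n => T3 (gr ω) K ∧ MaxDeg (gr ω) D ∧
      ¬ UpB (gr ω) (K * r₀ + 6 * r₀ * (K + 1))) ≤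
      n ^ 2 * ((D.choose r₀ : ℝ) * (Wt n p D) ^ r₀) := by
  classical
  have hw := wp_nonneg h0 h1
  have hw1 := wp_sum p
  have hWt := Wt_nonneg (n := n) h0 D
  refine le_trans (Pr_mono hw (B := fun ω : Om n => ∃ uv ∈ (univ : Finset (Fin n × Fin n)),
    (MaxDeg (gr ω) D ∧ ∃ l' ∈ List.sublistsLen r₀ (nb (gr ω) uv.1).toList,
      Chain (gr ω) (star uv.1) (l'.map fun w => (uv.2, w)))) fun ω h => ?_) ?_
  · obtain ⟨hT, hD, hU⟩ := h
    unfold UpB at hU
    push Not at hU
    obtain ⟨u, v, S, hS, hlt⟩ := hU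
    exact ⟨(u, v), mem_univ _, hD, up_det hT u v S hS hlt⟩
  · refine (Pr_exists_le hw _ _).trans ?_
    have hterm : ∀ uv ∈ (univ : Finset (Fin n × Fin n)), Pr (wp p) (fun ω : Om n =>
        MaxDeg (gr ω) D ∧ ∃ l' ∈ List.sublistsLen r₀ (nb (gr ω) uv.1).toList,
        Chain (gr ω) (star uv.1) (l'.map fun w => (uv.2, w))) ≤
        (D.choose r₀ : ℝ) * (Wt n p D) ^ r₀ := by
      rintro ⟨u, v⟩ -
      refine Pr_le_of_mix hw hw1 (star u) fun κ => ?_
      simp only
      by_cases hex : ∃ ω : Om n, MaxDeg (gr (mix (star u) κ ω)) D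
      swap
      · push Not at hex
        rw [Pr_false _ fun ω h => hex ω h.1]
        positivity
      obtain ⟨ω₀, hω₀⟩ := hex
      have hnb : (nb (gr (mix (star u) κ κ)) u).card ≤ D := by
        rw [nb_mix u κ κ ω₀ Subset.rfl]
        exact hω₀ u
      refine le_trans (Pr_mono hw (B := fun ω : Om n =>
        ∃ l' ∈ List.sublistsLen r₀ (nb (gr (mix (star u) κ κ)) u).toList,
        (MaxDeg (gr (mix (star u) κ ω)) D ∧
        Chain (gr (mix (star u) κ ω)) (star u) (l'.map fun w => (v, w)))) fun ω h => ?_) ?_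
      · obtain ⟨h1, l', h2, h3⟩ := h
        rw [nb_mix u κ ω κ Subset.rfl] at h2
        exact ⟨l', h2, h1, h3⟩
      · refine (Pr_exists_list_le hw _ _ (B := (Wt n p D) ^ r₀) (by positivity) ?_).trans ?_
        · intro l' hl'
          have := seq_bound h0 h1 D (l'.map fun w => (v, w)) (star u) κ
          rw [List.length_map, (List.mem_sublistsLen.1 hl').2] at this
          exact this
        · rw [List.length_sublistsLen, length_toList]
          refine mul_le_mul_of_nonneg_right ?_ (by positivity)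
          exact Nat.cast_le.2 (Nat.choose_le_choose _ hnb)
    refine (sum_le_sum hterm).trans ?_
    rw [sum_const, card_univ, Fintype.card_prod, Fintype.card_fin, nsmul_eq_mul]
    push_cast
    rw [sq]

end Pool.Agent.U140.SG
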